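import Mathlib

/-!
Definitions for the Borel complexity of conjugacy of transitive homeomorphisms of the
Cantor set (problem MP_f7d718_lc).
-/

open MeasureTheory Set

namespace Pool.Agent.Lib_helper89.Cantor

/-- The Cantor set `2^ℕ`. -/
abbrev C : Type := ℕ → Bool

/-- The topology of uniform convergence on `Homeo(C)`: the topology induced by the
compact-open topology on `C(C, C)` (as `C` is compact, this is uniform convergence). -/
@[instance_reducible]
def uniformTopology : TopologicalSpace (C ≃ₜ C) :=
  TopologicalSpace.induced (fun T : C ≃ₜ C => (⟨T, T.continuous⟩ : C(C, C)))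
    ContinuousMap.compactOpen

/-- The Borel sets of `Homeo(C)`. -/
instance homeoMeasurableSpace : MeasurableSpace (C ≃ₜ C) := @borel _ uniformTopology

/-- `T` is topologically transitive: for all nonempty open `U`, `V` there is an integer
`n` with `T^n(U) ∩ V ≠ ∅`. -/
def IsTransitive (T : C ≃ₜ C) : Prop :=
  ∀ U V : Set C, IsOpen U → IsOpen V → U.Nonempty → V.Nonempty →
    ∃ n : ℤ, (((T ^ n : C ≃ₜ C) '' U) ∩ V).Nonempty

/-- Topological conjugacy: `S = h T h⁻¹` for some homeomorphism `h`. -/
def Conj (S T : C ≃ₜ C) : Prop := ∃ h : C ≃ₜ C, S = h * T * h⁻¹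

/-- Topological conjugacy restricted to the transitive homeomorphisms. -/
def ConjTrans (S T : {T : C ≃ₜ C // IsTransitive T}) : Prop := Conj S.1 T.1

/-- The Borel structure of the space of graphs with vertex set `ℕ`, generated by the sets
`{G : G has the edge ij}`. -/
instance graphMeasurableSpace : MeasurableSpace (SimpleGraph ℕ) :=
  MeasurableSpace.comap (fun (G : SimpleGraph ℕ) (i j : ℕ) => G.Adj i j) inferInstance

/-- Isomorphism of countable graphs. -/
def GraphIso (G H : SimpleGraph ℕ) : Prop := Nonempty (G ≃g H)

/-- Borel reducibility `E ≤_B F`. -/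
def BorelReducible {X Y : Type} [MeasurableSpace X] [MeasurableSpace Y]
    (E : X → X → Prop) (F : Y → Y → Prop) : Prop :=
  ∃ f : X → Y, Measurable f ∧ ∀ x x' : X, E x x' ↔ F (f x) (f x')

end Pool.Agent.Lib_helper89.Cantor
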