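import Mathlib
import Pool.Agent.Lib_helper89.CantorDefs

open MeasureTheory Set TopologicalSpace

namespace Pool.Agent.Lib_helper89.Cantor

lemma clopenBasis : IsTopologicalBasis {V : Set C | IsClopen V} := isTopologicalBasis_isClopen

/-- A map into `Homeo(C)` is Borel as soon as all coordinates of all evaluations are. -/
lemma measurable_homeo {Z : Type*} [MeasurableSpace Z] (f : Z → (C ≃ₜ C))
    (h : ∀ (x : C) (n : ℕ), Measurable (fun z => f z x n)) : Measurable f := by
  have heval : ∀ x : C, Measurable (fun z => f z x) := fun x => measurable_pi_lambda _ (h x)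
  have hb : @borel _ uniformTopology = MeasurableSpace.comap
      (fun T : C ≃ₜ C => (⟨T, T.continuous⟩ : C(C, C))) (borel C(C, C)) := by
    exact @borel_comap _ _ (fun T : C ≃ₜ C => (⟨T, T.continuous⟩ : C(C, C))) _
  show @Measurable _ _ _ (@borel _ uniformTopology) f
  rw [hb]
  rw [measurable_comap_iff]
  have hgen := ContinuousMap.compactOpen_eq_generateFrom (X := C) (Y := C)
    (S := {K : Set C | IsClopen K}) (T := {V : Set C | IsClopen V})
    (fun K hK => hK.isClosed.isCompact) clopenBasis (by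
      intro g x V hV hx
      refine ⟨g ⁻¹' V, hV.preimage g.continuous, ?_, fun y hy => hy⟩
      exact (hV.isOpen.preimage g.continuous).mem_nhds hx)
  rw [borel_eq_generateFrom_of_subbasis hgen]
  apply measurable_generateFrom
  rintro _ ⟨K, hK, t, ⟨htf, htc⟩, rfl⟩
  have hK' : IsClopen K := hK
  have hV : IsClopen (⋃₀ t) := by
    rw [sUnion_eq_biUnion]
    exact htf.isClopen_biUnion fun s hs => htc hs
  obtain ⟨D, hDc, hDd⟩ := exists_countable_dense C
  have hset : (((fun T : C ≃ₜ C => (⟨T, T.continuous⟩ : C(C, C))) ∘ f) ⁻¹'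
      {g : C(C, C) | MapsTo g K (⋃₀ t)}) = ⋂ d ∈ D ∩ K, {z | f z d ∈ ⋃₀ t} := by
    ext z
    simp only [mem_preimage, Function.comp, mem_ofPred_eq, mem_iInter]
    constructor
    · intro hz d hd
      exact hz hd.2
    · intro hz x hx
      by_contra hcon
      have hopen : IsOpen (K ∩ (f z) ⁻¹' (⋃₀ t)ᶜ) :=
        hK'.isOpen.inter (hV.compl.isOpen.preimage (f z).continuous)
      obtain ⟨d, hd, hdD⟩ := hDd.inter_open_nonempty _ hopen ⟨x, hx, hcon⟩
      exact hd.2 (hz d ⟨hdD, hd.1⟩)
  rw [hset]
  apply MeasurableSet.biInter (hDc.mono inter_subset_left)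
  intro d _
  exact heval d hV.isOpen.measurableSet

/-- `{T : T(K) ⊆ V}` is Borel for clopen sets `K`, `V`. -/
lemma measurableSet_mapsTo (K V : Set C) (hK : IsClopen K) (hV : IsClopen V) :
    MeasurableSet {T : C ≃ₜ C | MapsTo T K V} := by
  have hopen : @IsOpen _ uniformTopology {T : C ≃ₜ C | MapsTo T K V} := by
    refine ⟨{g : C(C, C) | MapsTo g K V}, ?_, rfl⟩
    exact ContinuousMap.isOpen_setOfPred_mapsTo hK.isClosed.isCompact hV.isOpen
  exact MeasurableSpace.measurableSet_generateFrom hopen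

end Pool.Agent.Lib_helper89.Cantor
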