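import Mathlib
import Pool.Agent.Lib_helper89.CantorMeas

open MeasureTheory Set TopologicalSpace

namespace Pool.Agent.Lib_helper89.Cantor

section Transfer

variable {Z : Type} (Q : Z → Set C)

/-- `n` is a splitting level along `w` of the tree of `Q z`. -/
def split (z : Z) (w : C) (n : ℕ) : Prop :=
  ∃ w' ∈ Q z, (∀ i < n, w' i = w i) ∧ w' n ≠ w n

variable {Q}

lemma split_congr {z : Z} {w v : C} {n : ℕ} (h : ∀ i ≤ n, w i = v i) :
    split Q z w n ↔ split Q z v n := by
  constructor
  · rintro ⟨w', h1, h2, h3⟩
    exact ⟨w', h1, fun i hi => by rw [h2 i hi, h i hi.le], by rw [← h n le_rfl]; exact h3⟩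
  · rintro ⟨w', h1, h2, h3⟩
    exact ⟨w', h1, fun i hi => by rw [h2 i hi, h i hi.le], by rw [h n le_rfl]; exact h3⟩

lemma split_congr' {z : Z} {w v : C} {n m : ℕ} (hm : m < n) (h : ∀ i < n, w i = v i) :
    split Q z w m ↔ split Q z v m :=
  split_congr fun i hi => h i (lt_of_le_of_lt hi hm)

/-- no isolated points -/
def Perfect' (Q : Z → Set C) : Prop :=
  ∀ z, ∀ w ∈ Q z, ∀ n : ℕ, ∃ w' ∈ Q z, w' ≠ w ∧ ∀ i < n, w' i = w i

lemma split_infinite (hp : Perfect' Q) {z : Z} {w : C} (hw : w ∈ Q z) :
    (Set.ofPred (split Q z w)).Infinite := by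
  classical
  rw [Set.infinite_iff_exists_gt] 
  intro n
  obtain ⟨w', h1, h2, h3⟩ := hp z w hw (n + 1)
  have hex : ∃ m, w' m ≠ w m := by
    by_contra hcon
    push Not at hcon
    exact h2 (funext hcon)
  refine ⟨Nat.find hex, ⟨w', h1, fun i hi => ?_, Nat.find_spec hex⟩, ?_⟩
  · by_contra hne
    exact Nat.find_min hex hi hne
  · by_contra hcon
    push Not at hcon
    exact Nat.find_spec hex (h3 _ (by omega))

/-- the decisions along `w` -/
noncomputable def dec (Q : Z → Set C) (z : Z) (w : C) : C := fun k => w (Nat.nth (split Q z w) k)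

lemma nth_eq {p : ℕ → Prop} [DecidablePred p] {n k : ℕ} (hp : p n) (hc : Nat.count p n = k) :
    Nat.nth p k = n := by
  rw [← hc]; exact Nat.nth_count hp

lemma count_congr {p q : ℕ → Prop} [DecidablePred p] [DecidablePred q] {n : ℕ}
    (h : ∀ m < n, (p m ↔ q m)) : Nat.count p n = Nat.count q n := by
  induction n with
  | zero => simp
  | succ n ih =>
    rw [Nat.count_succ, Nat.count_succ, ih (fun m hm => h m (by omega))]
    congr 1
    by_cases hq : q n
    · rw [if_pos hq, if_pos ((h n (by omega)).mpr hq)]
    · rw [if_neg hq, if_neg (fun hp => hq ((h n (by omega)).mp hp))]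

/-- the level of the `k`-th decision is determined by the sequence up to that level -/
lemma nth_congr (hp : Perfect' Q) {z : Z} {w v : C} (hw : w ∈ Q z) {k : ℕ}
    (h : ∀ i ≤ Nat.nth (split Q z w) k, w i = v i) :
    Nat.nth (split Q z v) k = Nat.nth (split Q z w) k := by
  classical
  set n := Nat.nth (split Q z w) k with hn
  have hs : split Q z w n := Nat.nth_mem_of_infinite (split_infinite hp hw) k
  apply nth_eq
  · rw [← split_congr h]; exact hs
  · rw [count_congr (q := split Q z w)]
    · rw [hn]; exact Nat.count_nth_of_infinite (split_infinite hp hw) k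
    · intro m hm
      exact (split_congr fun i hi => h i (by omega)).symm

lemma dec_continuous (hp : Perfect' Q) (z : Z) :
    Continuous (fun w : {w // w ∈ Q z} => dec Q z w.1) := by
  rw [continuous_pi_iff]
  intro k
  apply IsLocallyConstant.continuous
  rw [IsLocallyConstant.iff_exists_open]
  intro w
  set n := Nat.nth (split Q z w.1) k with hn
  refine ⟨{v : {w // w ∈ Q z} | ∀ i ≤ n, v.1 i = w.1 i}, ?_, by simp, ?_⟩
  · have : {v : {w // w ∈ Q z} | ∀ i ≤ n, v.1 i = w.1 i} =
        Subtype.val ⁻¹' ((Finset.Iic n : Set ℕ).pi (fun i => {w.1 i})) := by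
      ext v; simp [Set.mem_pi]
    rw [this]
    exact (isOpen_set_pi (Finset.finite_toSet _) (fun i _ => isOpen_discrete _)).preimage
      continuous_subtype_val
  · intro v hv
    have h1 := nth_congr hp w.2 (v := v.1) (k := k) (fun i hi => (hv i hi).symm)
    simp only [dec]
    rw [h1]
    exact hv _ le_rfl

lemma dec_injective (hp : Perfect' Q) (z : Z) :
    Function.Injective (fun w : {w // w ∈ Q z} => dec Q z w.1) := by
  classical
  intro w v h
  by_contra hne
  have hex : ∃ m, w.1 m ≠ v.1 m := by
    by_contra hcon
    push Not at hcon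
    exact hne (Subtype.ext (funext hcon))
  set n := Nat.find hex with hn
  have hdiff := Nat.find_spec hex
  have hlt : ∀ i < n, w.1 i = v.1 i := fun i hi => by
    by_contra hne'
    exact Nat.find_min hex hi hne'
  have hsw : split Q z w.1 n := ⟨v.1, v.2, fun i hi => (hlt i hi).symm, Ne.symm hdiff⟩
  have hsv : split Q z v.1 n := ⟨w.1, w.2, hlt, hdiff⟩
  have e1 : Nat.nth (split Q z w.1) (Nat.count (split Q z w.1) n) = n := Nat.nth_count hsw
  have e2 : Nat.nth (split Q z v.1) (Nat.count (split Q z w.1) n) = n := by
    apply nth_eq hsv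
    exact count_congr fun m hm => split_congr' hm (fun i hi => (hlt i hi).symm)
  have := congrFun h (Nat.count (split Q z w.1) n)
  simp only [dec] at this
  rw [e1, e2] at this
  exact hdiff this

lemma dec_surjective (hp : Perfect' Q) (z : Z) (hne : (Q z).Nonempty)
    (hcl : IsClosed (Q z)) : Function.Surjective (fun w : {w // w ∈ Q z} => dec Q z w.1) := by
  classical
  intro x
  have : CompactSpace {w // w ∈ Q z} := isCompact_iff_compactSpace.mp hcl.isCompact
  set K : ℕ → Set {w // w ∈ Q z} := fun k => {w | ∀ j < k, dec Q z w.1 j = x j} with hK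
  have hKne : ∀ k, (K k).Nonempty := by
    intro k
    induction k with
    | zero =>
      obtain ⟨w, hw⟩ := hne
      exact ⟨⟨w, hw⟩, by simp [hK]⟩
    | succ k ih =>
      obtain ⟨w, hw⟩ := ih
      by_cases hx : dec Q z w.1 k = x k
      · refine ⟨w, fun j hj => ?_⟩
        rcases Nat.lt_succ_iff_lt_or_eq.mp hj with h | rfl
        · exact hw j h
        · exact hx
      · set n := Nat.nth (split Q z w.1) k with hn
        have hinf := split_infinite hp w.2
        obtain ⟨w', h1, h2, h3⟩ : split Q z w.1 n := Nat.nth_mem_of_infinite hinf k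
        have hs' : split Q z w' n := ⟨w.1, w.2, fun i hi => (h2 i hi).symm, Ne.symm h3⟩
        have hcount : Nat.count (split Q z w') n = k := by
          rw [count_congr (q := split Q z w.1) (fun m hm => split_congr' hm h2)]
          exact Nat.count_nth_of_infinite hinf k
        refine ⟨⟨w', h1⟩, fun j hj => ?_⟩
        rcases Nat.lt_succ_iff_lt_or_eq.mp hj with h | rfl
        · rw [← hw j h]
          have hjn : Nat.nth (split Q z w.1) j < n := Nat.nth_strictMono hinf h
          have := nth_congr hp w.2 (v := w') (k := j)
            (fun i hi => (h2 i (lt_of_le_of_lt hi hjn)).symm)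
          simp only [dec]
          rw [this]
          exact h2 _ hjn
        · have e1 : Nat.nth (split Q z w') j = n := nth_eq hs' hcount
          simp only [dec]
          rw [e1]
          simp only [dec, ← hn] at hx
          revert h3 hx
          cases w' n <;> cases w.1 n <;> cases x j <;> simp
  have hKcl : ∀ k, IsClosed (K k) := by
    intro k
    have : K k = ⋂ j : ℕ, ⋂ _ : j < k, {w | dec Q z w.1 j = x j} := by
      ext w; simp [hK]
    rw [this]
    refine isClosed_iInter fun j => isClosed_iInter fun _ => ?_
    exact isClosed_eq ((continuous_apply j).comp (dec_continuous hp z)) continuous_const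
  obtain ⟨w, hw⟩ := IsCompact.nonempty_iInter_of_sequence_nonempty_isCompact_isClosed K
    (fun k w hw j hj => hw j (by omega)) hKne (hKcl 0).isCompact hKcl
  refine ⟨w, funext fun j => ?_⟩
  exact (mem_iInter.mp hw (j + 1)) j (by omega)

/-- the canonical homeomorphism of a perfect set with the Cantor set -/
noncomputable def canon (hp : Perfect' Q) (hne : ∀ z, (Q z).Nonempty)
    (hcl : ∀ z, IsClosed (Q z)) (z : Z) : {w // w ∈ Q z} ≃ₜ C :=
  have : CompactSpace {w // w ∈ Q z} := isCompact_iff_compactSpace.mp (hcl z).isCompact
  Continuous.homeoOfEquivCompactToT2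
    (f := Equiv.ofBijective (fun w : {w // w ∈ Q z} => dec Q z w.1)
      ⟨dec_injective hp z, dec_surjective hp z (hne z) (hcl z)⟩) (dec_continuous hp z)

lemma canon_apply (hp : Perfect' Q) (hne : ∀ z, (Q z).Nonempty)
    (hcl : ∀ z, IsClosed (Q z)) (z : Z) (w : {w // w ∈ Q z}) :
    canon hp hne hcl z w = dec Q z w.1 := rfl

/-- patterns -/
def pat (l : List Bool) : C := fun i => l.getD i false

lemma exists_pat (v : C) (n : ℕ) : ∃ l : List Bool, ∀ i < n, pat l i = v i := by
  refine ⟨(List.range n).map v, fun i hi => ?_⟩
  simp [pat, hi]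

variable [MeasurableSpace Z]

lemma measurable_count {v : Z → C} (h : ∀ m, MeasurableSet {z | split Q z (v z) m}) (n : ℕ) :
    Measurable (fun z => by classical exact Nat.count (split Q z (v z)) n) := by
  classical
  induction n with
  | zero => simp only [Nat.count_zero]; exact measurable_const
  | succ n ih =>
    simp only [Nat.count_succ]
    apply Measurable.add ih
    exact Measurable.ite (h n) measurable_const measurable_const

lemma measurable_split {v : Z → C} (hs : ∀ s : C, ∀ m, MeasurableSet {z | split Q z s m})
    (hv : ∀ n, Measurable (fun z => v z n)) (m : ℕ) :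
    MeasurableSet {z | split Q z (v z) m} := by
  have : {z | split Q z (v z) m} =
      ⋃ l : List Bool, ({z | ∀ i < m + 1, v z i = pat l i} ∩ {z | split Q z (pat l) m}) := by
    ext z
    simp only [mem_ofPred_eq, mem_iUnion, mem_inter_iff]
    constructor
    · intro h
      obtain ⟨l, hl⟩ := exists_pat (v z) (m + 1)
      refine ⟨l, fun i hi => (hl i hi).symm, ?_⟩
      rw [split_congr (v := v z)]
      · exact h
      · intro i hi; exact hl i (by omega)
    · rintro ⟨l, h1, h2⟩
      rw [split_congr (v := pat l)]
      · exact h2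
      · intro i hi; exact h1 i (by omega)
  rw [this]
  refine MeasurableSet.iUnion fun l => MeasurableSet.inter ?_ (hs _ _)
  have : {z | ∀ i < m + 1, v z i = pat l i} = ⋂ i : ℕ, ⋂ _ : i < m + 1, {z | v z i = pat l i} := by
    ext z; simp
  rw [this]
  exact MeasurableSet.iInter fun i => MeasurableSet.iInter fun _ =>
    hv i (MeasurableSet.singleton _)

/-- Measurability of the canonical parametrization. -/
lemma measurable_canon_symm (hp : Perfect' Q) (hne : ∀ z, (Q z).Nonempty)
    (hcl : ∀ z, IsClosed (Q z))
    (hs : ∀ s : C, ∀ m, MeasurableSet {z | split Q z s m})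
    (he : ∀ s : C, ∀ m, MeasurableSet {z | ∃ w ∈ Q z, ∀ i < m, w i = s i}) (x : C) (n : ℕ) :
    Measurable (fun z => ((canon hp hne hcl z).symm x).1 n) := by
  classical
  set y : Z → C := fun z => ((canon hp hne hcl z).symm x).1 with hy
  have hyQ : ∀ z, y z ∈ Q z := fun z => ((canon hp hne hcl z).symm x).2
  have hdec : ∀ z k, y z (Nat.nth (split Q z (y z)) k) = x k := by
    intro z k
    have := (canon hp hne hcl z).apply_symm_apply x
    rw [canon_apply] at this
    exact congrFun this k
  have hpre : ∀ n, ∀ s : C, MeasurableSet {z | ∀ i < n, y z i = s i} := by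
    intro n
    induction n with
    | zero => intro s; simp
    | succ n ih =>
      intro s
      have hset : {z | ∀ i < n + 1, y z i = s i} = {z | ∀ i < n, y z i = s i} ∩
          ({z | ∃ w ∈ Q z, ∀ i < n + 1, w i = s i} ∩
            ({z | split Q z s n}ᶜ ∪ {z | s n = x (Nat.count (split Q z s) n)})) := by
        ext z
        simp only [mem_ofPred_eq, mem_inter_iff, mem_union, mem_compl_iff]
        constructor
        · intro h
          refine ⟨fun i hi => h i (by omega), ⟨y z, hyQ z, h⟩, ?_⟩
          by_cases hsp : split Q z s n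
          · right
            have hsp' : split Q z (y z) n := by
              rw [split_congr (v := s)]
              · exact hsp
              · intro i hi; exact h i (by omega)
            have hc : Nat.count (split Q z (y z)) n = Nat.count (split Q z s) n :=
              count_congr fun m hm => split_congr' hm (fun i hi => h i (by omega))
            have e1 : Nat.nth (split Q z (y z)) (Nat.count (split Q z s) n) = n := nth_eq hsp' hc
            rw [← hdec z, e1]
            exact (h n (by omega)).symm
          · left; exact hsp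
        · rintro ⟨h1, ⟨w, hw, h2⟩, h3⟩
          intro i hi
          rcases Nat.lt_succ_iff_lt_or_eq.mp hi with h | rfl
          · exact h1 i h
          · by_contra hcon
            have hsp : split Q z s i := ⟨y z, hyQ z, h1, hcon⟩
            have hsp' : split Q z (y z) i :=
              ⟨w, hw, fun j hj => by rw [h2 j (by omega), h1 j hj], by
                rw [h2 i (by omega)]; exact Ne.symm hcon⟩
            have h4 : s i = x (Nat.count (split Q z s) i) := by
              rcases h3 with h3 | h3
              · exact absurd hsp h3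
              · exact h3
            have hc : Nat.count (split Q z (y z)) i = Nat.count (split Q z s) i :=
              count_congr fun m hm => split_congr' hm h1
            have e1 : Nat.nth (split Q z (y z)) (Nat.count (split Q z s) i) = i := nth_eq hsp' hc
            apply hcon
            rw [h4, ← hdec z, e1]
      rw [hset]
      refine (ih s).inter ((he s (n + 1)).inter ((hs s n).compl.union ?_))
      have hm := measurable_count (Q := Q) (v := fun _ => s) (fun m => hs s m) n
      have hm2 : Measurable (fun z => x (Nat.count (split Q z s) n)) :=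
        (measurable_from_top (f := x)).comp hm
      have : {z | s n = x (Nat.count (split Q z s) n)} =
          (fun z => x (Nat.count (split Q z s) n)) ⁻¹' {s n} := by
        ext z; simp [eq_comm]
      rw [this]
      exact hm2 (MeasurableSet.singleton _)
  -- measurability of the n-th coordinate
  apply measurable_to_bool
  have : (fun z => y z n) ⁻¹' {true} =
      ⋃ l : List Bool, ⋃ _ : pat l n = true, {z | ∀ i < n + 1, y z i = pat l i} := by
    ext z
    simp only [mem_preimage, mem_singleton_iff, mem_iUnion, mem_ofPred_eq, exists_prop]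
    constructor
    · intro h
      obtain ⟨l, hl⟩ := exists_pat (y z) (n + 1)
      exact ⟨l, by rw [hl n (by omega)]; exact h, fun i hi => (hl i hi).symm⟩
    · rintro ⟨l, h1, h2⟩
      rw [h2 n (by omega)]; exact h1
  rw [this]
  exact MeasurableSet.iUnion fun l => MeasurableSet.iUnion fun _ => hpre _ _

/-- Transfer: a Borel family of subsystems on perfect subsets of the Cantor set gives a
Borel family of homeomorphisms of the Cantor set. -/
theorem transfer (hp : Perfect' Q) (hne : ∀ z, (Q z).Nonempty) (hcl : ∀ z, IsClosed (Q z))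
    (hs : ∀ s : C, ∀ m, MeasurableSet {z | split Q z s m})
    (he : ∀ s : C, ∀ m, MeasurableSet {z | ∃ w ∈ Q z, ∀ i < m, w i = s i})
    (S : C ≃ₜ C) (hS : ∀ z w, w ∈ Q z ↔ S w ∈ Q z) :
    ∃ f : Z → (C ≃ₜ C), Measurable f ∧ ∀ z, ∃ h : C ≃ₜ {w // w ∈ Q z},
      ∀ x, (h (f z x)).1 = S (h x).1 := by
  classical
  set g : ∀ z, {w // w ∈ Q z} ≃ₜ {w // w ∈ Q z} := fun z => S.subtype (hS z) with hg
  set f : Z → (C ≃ₜ C) := fun z =>
    ((canon hp hne hcl z).symm.trans (g z)).trans (canon hp hne hcl z) with hf
  refine ⟨f, ?_, fun z => ⟨(canon hp hne hcl z).symm, fun x => ?_⟩⟩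
  · apply measurable_homeo
    intro x k
    set y : Z → C := fun z => ((canon hp hne hcl z).symm x).1 with hy
    have hym : Measurable y :=
      measurable_pi_lambda _ (measurable_canon_symm hp hne hcl hs he x)
    set v : Z → C := fun z => S (y z) with hv
    have hvm : Measurable v := S.continuous.measurable.comp hym
    have hvn : ∀ n, Measurable (fun z => v z n) := fun n => (measurable_pi_apply n).comp hvm
    have hvQ : ∀ z, v z ∈ Q z := fun z =>
      (hS z (y z)).mp ((canon hp hne hcl z).symm x).2
    have hfv : ∀ z, f z x k = v z (Nat.nth (split Q z (v z)) k) := fun z => rfl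
    have hsp : ∀ m, MeasurableSet {z | split Q z (v z) m} := measurable_split hs hvn
    have hcm := measurable_count hsp
    apply measurable_to_bool
    have : (fun z => f z x k) ⁻¹' {true} = ⋃ n : ℕ, ({z | v z n = true} ∩
        ({z | split Q z (v z) n} ∩ {z | Nat.count (split Q z (v z)) n = k})) := by
      ext z
      simp only [mem_preimage, mem_singleton_iff, mem_iUnion, mem_inter_iff, mem_ofPred_eq]
      rw [hfv]
      have hinf := split_infinite hp (hvQ z)
      constructor
      · intro h
        exact ⟨Nat.nth (split Q z (v z)) k, h, Nat.nth_mem_of_infinite hinf k,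
          Nat.count_nth_of_infinite hinf k⟩
      · rintro ⟨n, h1, h2, h3⟩
        rw [nth_eq h2 h3]; exact h1
    rw [this]
    refine MeasurableSet.iUnion fun n => ?_
    refine (hvn n (MeasurableSet.singleton _)).inter ((hsp n).inter ?_)
    exact hcm n (MeasurableSet.singleton k)
  · show ((canon hp hne hcl z).symm ((canon hp hne hcl z) (g z ((canon hp hne hcl z).symm x)))).1 = _
    rw [Homeomorph.symm_apply_apply]
    rfl

end Transfer

end Pool.Agent.Lib_helper89.Cantor
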