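import Mathlib
import Pool.Agent.Lib_helper89.CantorTransfer

open MeasureTheory Set TopologicalSpace Filter Topology

namespace Pool.Agent.Lib_helper89.Cantor

/-- bi-infinite sequences of letters; a letter is coded by `ℕ → Bool` -/
abbrev Om : Type := ℤ → ℕ → Bool

/-- letter codes: coordinate 0 marks the special letter, coordinate 1 the type, the other
coordinates (at most one of them) the index -/
def Valid (v : ℕ → Bool) : Prop :=
  (v 0 = true → ∀ n, v (n + 1) = false) ∧ ∀ n m, v (n + 2) = true → v (m + 2) = true → n = m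

/-- allowed transitions -/
def Tr (B : ℕ → ℕ → Bool) (v w : ℕ → Bool) : Prop :=
  v 0 = true ∨ w 0 = true ∨ (v 1 = w 1 ∧ ∀ n, v (n + 2) = w (n + 2)) ∨
    (v 1 = false ∧ w 1 = true ∧ ∀ n m, v (n + 2) = true → w (m + 2) = true → B n m = true)

/-- the system attached to a bipartite relation -/
def Sys (B : ℕ → ℕ → Bool) : Set Om :=
  {y | (∀ k, Valid (y k)) ∧ (∀ k, Tr B (y k) (y (k + 1))) ∧
    ∀ k l, y k 0 = true → y l 0 = true → Even (l - k)}

/-- the special letter -/
def star : ℕ → Bool := fun n => decide (n = 0)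

/-- the letter of type `t` and index `a` -/
def lc (t : Bool) (a : Option ℕ) : ℕ → Bool
  | 0 => false
  | 1 => t
  | (m + 2) => decide (a = some m)

lemma star_zero : star 0 = true := rfl
lemma lc_zero (t : Bool) (a : Option ℕ) : lc t a 0 = false := rfl
lemma lc_one (t : Bool) (a : Option ℕ) : lc t a 1 = t := rfl
lemma lc_idx (t : Bool) (a : Option ℕ) (m : ℕ) : lc t a (m + 2) = decide (a = some m) := rfl

lemma valid_star : Valid star := ⟨fun _ n => by simp [star], fun n m h => by simp [star] at h⟩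

lemma valid_lc (t : Bool) (a : Option ℕ) : Valid (lc t a) := by
  refine ⟨fun h => by simp [lc_zero] at h, fun n m h1 h2 => ?_⟩
  rw [lc_idx, decide_eq_true_iff] at h1 h2
  rw [h1] at h2
  exact Option.some.inj h2

lemma eq_star {v : ℕ → Bool} (h : Valid v) (h0 : v 0 = true) : v = star := by
  funext n
  rcases n with _ | n
  · rw [h0]; rfl
  · rw [h.1 h0 n]; simp [star]

lemma exists_lc {v : ℕ → Bool} (h : Valid v) (h0 : v 0 = false) : ∃ a, v = lc (v 1) a := by
  by_cases hex : ∃ n, v (n + 2) = true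
  · obtain ⟨n, hn⟩ := hex
    refine ⟨some n, ?_⟩
    funext m
    rcases m with _ | _ | m
    · rw [h0]; rfl
    · rfl
    · rw [lc_idx]
      by_cases hm : v (m + 2) = true
      · rw [hm, h.2 n m hn hm]; simp
      · have : n ≠ m := by rintro rfl; exact hm hn
        simp only [Bool.not_eq_true] at hm
        rw [hm]; simp [this]
  · push Not at hex
    refine ⟨none, ?_⟩
    funext m
    rcases m with _ | _ | m
    · rw [h0]; rfl
    · rfl
    · rw [lc_idx]
      have := hex m
      simp only [Bool.not_eq_true] at this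
      rw [this]; simp

lemma lc_inj {t t' : Bool} {a b : Option ℕ} (h : lc t a = lc t' b) : t = t' ∧ a = b := by
  refine ⟨by have := congrFun h 1; simpa [lc_one] using this, ?_⟩
  have hi : ∀ m, decide (a = some m) = decide (b = some m) := fun m => congrFun h (m + 2)
  rcases a with _ | a
  · rcases b with _ | b
    · rfl
    · have := hi b; simp at this
  · have := hi a
    simp only [decide_true] at this
    exact (decide_eq_true_iff.mp this.symm).symm

/-- the extended relation on indices (`none` plays the role of infinity) -/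
def HB (B : ℕ → ℕ → Bool) (a b : Option ℕ) : Prop :=
  ∀ n m, a = some n → b = some m → B n m = true

lemma tr_lc {B : ℕ → ℕ → Bool} {t t' : Bool} {a b : Option ℕ} :
    Tr B (lc t a) (lc t' b) ↔ (t = t' ∧ a = b) ∨ (t = false ∧ t' = true ∧ HB B a b) := by
  unfold Tr
  simp only [lc_zero, lc_one, lc_idx, Bool.false_eq_true, false_or, decide_eq_true_iff]
  constructor
  · rintro (⟨h1, h2⟩ | ⟨h1, h2, h3⟩)
    · left
      exact lc_inj (funext fun n => by
        rcases n with _ | _ | n
        · rfl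
        · exact h1
        · exact h2 n)
    · right; exact ⟨h1, h2, h3⟩
  · rintro (⟨rfl, rfl⟩ | ⟨h1, h2, h3⟩)
    · left; simp
    · right; exact ⟨h1, h2, h3⟩

lemma tr_star_left {B : ℕ → ℕ → Bool} {v w : ℕ → Bool} (h : v 0 = true) : Tr B v w := Or.inl h
lemma tr_star_right {B : ℕ → ℕ → Bool} {v w : ℕ → Bool} (h : w 0 = true) : Tr B v w :=
  Or.inr (Or.inl h)

/-! ### constructions of points -/

lemma sys_shift {B : ℕ → ℕ → Bool} {y : Om} (h : y ∈ Sys B) (n : ℤ) :
    (fun i => y (i + n)) ∈ Sys B := by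
  refine ⟨fun k => h.1 _, fun k => ?_, fun k l h1 h2 => ?_⟩
  · have := h.2.1 (k + n)
    rw [show k + n + 1 = k + 1 + n by ring] at this
    exact this
  · have := h.2.2 _ _ h1 h2
    rw [show l + n - (k + n) = l - k by ring] at this
    exact this

lemma sys_glue {B : ℕ → ℕ → Bool} {y y' : Om} (h : y ∈ Sys B) (h' : y' ∈ Sys B) {t : ℤ}
    (ht : y t 0 = true) (ht' : y' t 0 = true) :
    (fun i => if i ≤ t then y i else y' i) ∈ Sys B := by
  refine ⟨fun k => ?_, fun k => ?_, fun k l h1 h2 => ?_⟩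
  · simp only; split_ifs
    · exact h.1 k
    · exact h'.1 k
  · simp only
    rcases lt_trichotomy k t with hk | rfl | hk
    · rw [if_pos (by omega), if_pos (by omega)]; exact h.2.1 k
    · rw [if_pos le_rfl]; exact tr_star_left ht
    · rw [if_neg (by omega), if_neg (by omega)]; exact h'.2.1 k
  · simp only at h1 h2
    have e1 : Even (t - k) := by
      split_ifs at h1
      · exact h.2.2 _ _ h1 ht
      · exact h'.2.2 _ _ h1 ht'
    have e2 : Even (t - l) := by
      split_ifs at h2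
      · exact h.2.2 _ _ h2 ht
      · exact h'.2.2 _ _ h2 ht'
    have := e1.sub e2
    rwa [show t - k - (t - l) = l - k by ring] at this

/-- truncation of a point to a window -/
def tru (y : Om) (k l : ℤ) (c : ℕ → Bool) : Om :=
  fun i => if k ≤ i ∧ i ≤ l then y i else if Even (i - (k - 1)) then star else c

lemma tru_in {y : Om} {k l : ℤ} {c : ℕ → Bool} {i : ℤ} (h1 : k ≤ i) (h2 : i ≤ l) :
    tru y k l c i = y i := if_pos ⟨h1, h2⟩

lemma tru_star {y : Om} {k l : ℤ} {c : ℕ → Bool} {i : ℤ} (h : i < k ∨ l < i)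
    (he : Even (i - (k - 1))) : tru y k l c i = star := by
  unfold tru; rw [if_neg (by omega), if_pos he]

lemma tru_fill {y : Om} {k l : ℤ} {c : ℕ → Bool} {i : ℤ} (h : i < k ∨ l < i)
    (he : ¬ Even (i - (k - 1))) : tru y k l c i = c := by
  unfold tru; rw [if_neg (by omega), if_neg he]

lemma sys_tru {B : ℕ → ℕ → Bool} {y : Om} (h : y ∈ Sys B) {k l : ℤ} (_hkl : k ≤ l + 1)
    (hev : Even (l - k)) (hst : ∀ s, k ≤ s → s ≤ l → y s 0 = true → Even (s - (k - 1)))
    {c : ℕ → Bool} (hc : Valid c) (hc0 : c 0 = false) : tru y k l c ∈ Sys B := by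
  have hstar : ∀ i, tru y k l c i 0 = true → Even (i - (k - 1)) := by
    intro i hi
    by_cases hin : k ≤ i ∧ i ≤ l
    · rw [tru_in hin.1 hin.2] at hi
      exact hst i hin.1 hin.2 hi
    · by_contra hne
      rw [tru_fill (by omega) hne, hc0] at hi
      exact Bool.false_ne_true hi
  refine ⟨fun i => ?_, fun i => ?_, fun i j h1 h2 => ?_⟩
  · unfold tru; split_ifs
    · exact h.1 i
    · exact valid_star
    · exact hc
  · by_cases h1 : k ≤ i ∧ i ≤ l
    · by_cases h2 : i + 1 ≤ l
      · rw [tru_in h1.1 h1.2, tru_in (by omega) h2]; exact h.2.1 i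
      · apply tr_star_right
        rw [tru_star (by omega)]
        · rfl
        · rw [show i + 1 - (k - 1) = (l - k) + 2 * 1 by omega]
          exact hev.add (even_two_mul 1)
    · by_cases h2 : k ≤ i + 1 ∧ i + 1 ≤ l
      · apply tr_star_left
        rw [tru_star (by omega)]
        · rfl
        · rw [show i - (k - 1) = 0 by omega]; exact Even.zero
      · by_cases he : Even (i - (k - 1))
        · apply tr_star_left
          rw [tru_star (by omega) he]; rfl
        · apply tr_star_right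
          rw [tru_star (by omega)]
          · rfl
          · rw [show i + 1 - (k - 1) = (i - (k - 1)) + 1 by ring, Int.even_add_one]; exact he
  · have e1 := hstar i h1
    have e2 := hstar j h2
    have := e2.sub e1
    rwa [show j - (k - 1) - (i - (k - 1)) = j - i by ring] at this

lemma exists_window {B : ℕ → ℕ → Bool} {y : Om} (h : y ∈ Sys B) (m : ℕ) :
    ∃ k l : ℤ, k ≤ -(m : ℤ) ∧ (m : ℤ) ≤ l ∧ Even (l - k) ∧
      ∀ s, k ≤ s → s ≤ l → y s 0 = true → Even (s - (k - 1)) := by
  by_cases hex : ∃ s, y s 0 = true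
  · obtain ⟨s0, hs0⟩ := hex
    obtain ⟨k, hk1, hk2⟩ : ∃ k : ℤ, k ≤ -(m : ℤ) ∧ Even (s0 - (k - 1)) := by
      rcases Int.even_or_odd (s0 - (-(m : ℤ) - 1)) with he | ho
      · exact ⟨-(m : ℤ), le_rfl, he⟩
      · refine ⟨-(m : ℤ) - 1, by omega, ?_⟩
        have := ho.add_one
        rwa [show s0 - (-(m : ℤ) - 1) + 1 = s0 - (-(m : ℤ) - 1 - 1) by ring] at this
    obtain ⟨l, hl1, hl2⟩ : ∃ l : ℤ, (m : ℤ) ≤ l ∧ Even (l - k) := by
      rcases Int.even_or_odd ((m : ℤ) - k) with he | ho
      · exact ⟨m, le_rfl, he⟩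
      · refine ⟨m + 1, by omega, ?_⟩
        have := ho.add_one
        rwa [show (m : ℤ) - k + 1 = m + 1 - k by ring] at this
    refine ⟨k, l, hk1, hl1, hl2, fun s _ _ hs => ?_⟩
    have := (h.2.2 s0 s hs0 hs).add hk2
    rwa [show s - s0 + (s0 - (k - 1)) = s - (k - 1) by ring] at this
  · push Not at hex
    refine ⟨-(m : ℤ), m, le_rfl, le_rfl, ?_, fun s _ _ hs => absurd hs (hex s)⟩
    rw [show (m : ℤ) - -(m : ℤ) = 2 * m by ring]; exact even_two_mul _

lemma cl_valid : Valid (lc false none) := valid_lc _ _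

/-- transitivity, symbolic form -/
lemma sys_transitive {B : ℕ → ℕ → Bool} {y v : Om} (hy : y ∈ Sys B) (hv : v ∈ Sys B) (m : ℕ) :
    ∃ w ∈ Sys B, ∃ n : ℕ, (∀ i : ℤ, -(m : ℤ) ≤ i → i ≤ m → w i = y i) ∧
      (∀ i : ℤ, -(m : ℤ) ≤ i → i ≤ m → w (i + n) = v i) := by
  obtain ⟨k1, l1, a1, a2, a3, a4⟩ := exists_window hy m
  obtain ⟨k2, l2, b1, b2, b3, b4⟩ := exists_window hv m
  set c := lc false none
  have hy' := sys_tru hy (by omega) a3 a4 cl_valid (lc_zero _ _)
  have hv' := sys_tru hv (by omega) b3 b4 cl_valid (lc_zero _ _)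
  have hv'' := sys_shift hv' (-(l1 + 2 - k2))
  have hs1 : tru y k1 l1 (lc false none) (l1 + 1) 0 = true := by
    rw [tru_star (by omega)]
    · rfl
    · rw [show l1 + 1 - (k1 - 1) = (l1 - k1) + 2 * 1 by ring]; exact a3.add (even_two_mul 1)
  have hs2 : (fun i => tru v k2 l2 (lc false none) (i + -(l1 + 2 - k2))) (l1 + 1) 0 = true := by
    simp only
    rw [show l1 + 1 + -(l1 + 2 - k2) = k2 - 1 by ring, tru_star (by omega)]
    · rfl
    · rw [sub_self]; exact Even.zero
  refine ⟨_, sys_glue hy' hv'' hs1 hs2, (l1 + 2 - k2).toNat, ?_, ?_⟩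
  · intro i h1 h2
    rw [if_pos (by omega), tru_in (by omega) (by omega)]
  · intro i h1 h2
    have e : (((l1 + 2 - k2).toNat : ℕ) : ℤ) = l1 + 2 - k2 := Int.toNat_of_nonneg (by omega)
    simp only [e]
    rw [if_neg (by omega), show i + (l1 + 2 - k2) + -(l1 + 2 - k2) = i by ring,
      tru_in (by omega) (by omega)]

/-- no isolated points, symbolic form -/
lemma sys_perfect {B : ℕ → ℕ → Bool} {y : Om} (hy : y ∈ Sys B) (m : ℕ) :
    ∃ w ∈ Sys B, w ≠ y ∧ ∀ i : ℤ, -(m : ℤ) ≤ i → i ≤ m → w i = y i := by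
  obtain ⟨k1, l1, a1, a2, a3, a4⟩ := exists_window hy m
  have h1 := sys_tru hy (by omega) a3 a4 (valid_lc false none) (lc_zero _ _)
  have h2 := sys_tru hy (by omega) a3 a4 (valid_lc true none) (lc_zero _ _)
  have hne : tru y k1 l1 (lc false none) ≠ tru y k1 l1 (lc true none) := by
    intro h
    have := congrFun h (k1 - 2)
    rw [tru_fill (by omega), tru_fill (by omega)] at this
    · have := (lc_inj this).1; simp at this
    · rw [show k1 - 2 - (k1 - 1) = -1 by ring]; decide
    · rw [show k1 - 2 - (k1 - 1) = -1 by ring]; decide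
  by_cases h : tru y k1 l1 (lc false none) = y
  · refine ⟨_, h2, fun h' => hne (by rw [h, h']), fun i hi1 hi2 => ?_⟩
    exact tru_in (by omega) (by omega)
  · exact ⟨_, h1, h, fun i hi1 hi2 => tru_in (by omega) (by omega)⟩

/-- odd returns of special-letter-free points, symbolic form -/
lemma sys_odd {B : ℕ → ℕ → Bool} {z : Om} (hz : z ∈ Sys B) (hfree : ∀ k, z k 0 = false)
    (m : ℕ) : ∃ w ∈ Sys B, ∃ n : ℕ, Odd n ∧ (∀ i : ℤ, -(m : ℤ) ≤ i → i ≤ m → w i = z i) ∧
      (∀ i : ℤ, -(m : ℤ) ≤ i → i ≤ m → w (i + n) = z i) := by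
  have hno : ∀ (k l : ℤ), ∀ s, k ≤ s → s ≤ l → z s 0 = true → Even (s - (k - 1)) := by
    intro k l s _ _ hs
    rw [hfree s] at hs; exact absurd hs Bool.false_ne_true
  have ev1 : Even ((m : ℤ) - -(m : ℤ)) := by
    rw [show (m : ℤ) - -(m : ℤ) = 2 * m by ring]; exact even_two_mul _
  have ev2 : Even (((m : ℤ) + 1) - (-(m : ℤ) - 1)) := by
    rw [show ((m : ℤ) + 1) - (-(m : ℤ) - 1) = 2 * (m + 1) by ring]; exact even_two_mul _
  have h1 := sys_tru hz (k := -(m : ℤ)) (l := m) (by omega) ev1 (hno _ _) cl_valid (lc_zero _ _)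
  have h2 := sys_tru hz (k := -(m : ℤ) - 1) (l := m + 1) (by omega) ev2 (hno _ _) cl_valid
    (lc_zero _ _)
  have h2' := sys_shift h2 (-(2 * (m : ℤ) + 3))
  have hs1 : tru z (-(m : ℤ)) m (lc false none) (m + 1) 0 = true := by
    rw [tru_star (by omega)]
    · rfl
    · rw [show (m : ℤ) + 1 - (-(m : ℤ) - 1) = 2 * (m + 1) by ring]; exact even_two_mul _
  have hs2 : (fun i => tru z (-(m : ℤ) - 1) (m + 1) (lc false none) (i + -(2 * (m : ℤ) + 3)))
      (m + 1) 0 = true := by
    simp only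
    rw [tru_star (by omega)]
    · rfl
    · rw [show (m : ℤ) + 1 + -(2 * (m : ℤ) + 3) - (-(m : ℤ) - 1 - 1) = 0 by ring]
      exact Even.zero
  refine ⟨_, sys_glue h1 h2' hs1 hs2, 2 * m + 3, ?_, ?_, ?_⟩
  · exact ⟨m + 1, by ring⟩
  · intro i hi1 hi2
    rw [if_pos (by omega), tru_in (by omega) (by omega)]
  · intro i hi1 hi2
    push_cast
    rw [if_neg (by omega), show i + (2 * (m : ℤ) + 3) + -(2 * (m : ℤ) + 3) = i by ring,
      tru_in (by omega) (by omega)]

end Pool.Agent.Lib_helper89.Cantor
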