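import Mathlib
import Pool.Agent.Lib_helper89.CantorSys

open MeasureTheory Set TopologicalSpace Filter Topology

namespace Pool.Agent.Lib_helper89.Cantor

/-! ### conjugacy invariants -/

section Inv

variable {X Y : Type} [TopologicalSpace X] [TopologicalSpace Y]

/-- every neighbourhood returns to itself at an odd time -/
def NWodd (T : X ≃ₜ X) (x : X) : Prop :=
  ∀ U : Set X, IsOpen U → x ∈ U → ∃ n : ℕ, Odd n ∧ ∃ u ∈ U, T^[n] u ∈ U

/-- `p` and `q` are connected by an orbit inside the set `NWodd` -/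
def Link (T : X ≃ₜ X) (p q : X) : Prop :=
  ∃ z, NWodd T z ∧ Tendsto (fun n => T.symm^[n] z) atTop (𝓝 p) ∧
    Tendsto (fun n => T^[n] z) atTop (𝓝 q)

lemma conj_iter {T : X ≃ₜ X} {T' : Y ≃ₜ Y} {F : X ≃ₜ Y} (hF : ∀ x, F (T x) = T' (F x))
    (n : ℕ) (x : X) : F (T^[n] x) = T'^[n] (F x) :=
  (Function.Semiconj.iterate_right (f := F) (fun x => hF x) n) x

lemma conj_symm {T : X ≃ₜ X} {T' : Y ≃ₜ Y} {F : X ≃ₜ Y} (hF : ∀ x, F (T x) = T' (F x))
    (x : X) : F (T.symm x) = T'.symm (F x) := by
  rw [Homeomorph.eq_symm_apply, ← hF, Homeomorph.apply_symm_apply]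

lemma NWodd.map {T : X ≃ₜ X} {T' : Y ≃ₜ Y} {F : X ≃ₜ Y} (hF : ∀ x, F (T x) = T' (F x))
    {x : X} (h : NWodd T x) : NWodd T' (F x) := by
  intro U hU hx
  obtain ⟨n, hn, u, hu, hu'⟩ := h (F ⁻¹' U) (hU.preimage F.continuous) hx
  refine ⟨n, hn, F u, hu, ?_⟩
  rw [← conj_iter hF]; exact hu'

lemma Link.map {T : X ≃ₜ X} {T' : Y ≃ₜ Y} {F : X ≃ₜ Y} (hF : ∀ x, F (T x) = T' (F x))
    {p q : X} (h : Link T p q) : Link T' (F p) (F q) := by
  obtain ⟨z, h1, h2, h3⟩ := h
  refine ⟨F z, h1.map hF, ?_, ?_⟩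
  · have e : (fun n => T'.symm^[n] (F z)) = fun n => F (T.symm^[n] z) := by
      funext n
      exact (conj_iter (T := T.symm) (T' := T'.symm) (fun x => conj_symm hF x) n z).symm
    rw [e]
    exact (F.continuous.tendsto p).comp h2
  · have e : (fun n => T'^[n] (F z)) = fun n => F (T^[n] z) := by
      funext n; exact (conj_iter hF n z).symm
    rw [e]
    exact (F.continuous.tendsto q).comp h3

lemma inv_comm {T : X ≃ₜ X} {T' : Y ≃ₜ Y} {F : X ≃ₜ Y} (hF : ∀ x, F (T x) = T' (F x)) :
    ∀ y, F.symm (T' y) = T (F.symm y) := by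
  intro y
  rw [Homeomorph.symm_apply_eq, hF, Homeomorph.apply_symm_apply]

end Inv

/-! ### the system -/

/-- the shift -/
def sh : Om ≃ₜ Om where
  toFun y := fun k => y (k + 1)
  invFun y := fun k => y (k - 1)
  left_inv y := by funext k; simp
  right_inv y := by funext k; simp
  continuous_toFun := continuous_pi fun k => continuous_apply (k + 1)
  continuous_invFun := continuous_pi fun k => continuous_apply (k - 1)

lemma sh_mem {B : ℕ → ℕ → Bool} (y : Om) : y ∈ Sys B ↔ sh y ∈ Sys B := by
  constructor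
  · intro h; exact sys_shift h 1
  · intro h
    have := sys_shift h (-1)
    have e : (fun i : ℤ => sh y (i + -1)) = y := by funext i; simp [sh]
    rwa [e] at this

/-- the subshift -/
def shB (B : ℕ → ℕ → Bool) : {y : Om // y ∈ Sys B} ≃ₜ {y : Om // y ∈ Sys B} :=
  sh.subtype sh_mem

variable {B : ℕ → ℕ → Bool}

lemma val_iter (z : {y : Om // y ∈ Sys B}) (n : ℕ) (k : ℤ) :
    ((shB B)^[n] z).1 k = z.1 (k + n) := by
  induction n generalizing k with
  | zero => simp
  | succ n ih =>
    rw [Function.iterate_succ_apply']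
    show ((shB B)^[n] z).1 (k + 1) = _
    rw [ih]; push_cast; ring_nf

lemma val_iter_symm (z : {y : Om // y ∈ Sys B}) (n : ℕ) (k : ℤ) :
    ((shB B).symm^[n] z).1 k = z.1 (k - n) := by
  induction n generalizing k with
  | zero => simp
  | succ n ih =>
    rw [Function.iterate_succ_apply']
    show ((shB B).symm^[n] z).1 (k - 1) = _
    rw [ih]; push_cast; ring_nf

lemma open_window {U : Set {y : Om // y ∈ Sys B}} (hU : IsOpen U) {z : {y : Om // y ∈ Sys B}}
    (hz : z ∈ U) : ∃ m : ℕ, ∀ v : {y : Om // y ∈ Sys B},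
      (∀ i : ℤ, -(m : ℤ) ≤ i → i ≤ m → v.1 i = z.1 i) → v ∈ U := by
  obtain ⟨V, hV, rfl⟩ := isOpen_induced_iff.mp hU
  obtain ⟨I, u, hu, hsub⟩ := isOpen_pi_iff.mp hV z.1 hz
  obtain ⟨b, hb⟩ := (I.image (fun i : ℤ => i.natAbs)).bddAbove
  refine ⟨b, fun v hv => hsub ?_⟩
  intro i hi
  have hib : i.natAbs ≤ b := by
    apply hb
    simp only [Finset.coe_image, Set.mem_image]
    exact ⟨i, hi, rfl⟩
  rw [hv i (by omega) (by omega)]
  exact (hu i hi).2

lemma isOpen_coord (k : ℤ) (c : ℕ) (b : Bool) :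
    IsOpen {y : {y : Om // y ∈ Sys B} | y.1 k c = b} := by
  have h1 : Continuous (fun y : {y : Om // y ∈ Sys B} => y.1 k) :=
    (continuous_apply k).comp continuous_subtype_val
  have h2 : Continuous (fun y : {y : Om // y ∈ Sys B} => y.1 k c) :=
    (continuous_apply (A := fun _ : ℕ => Bool) c).comp h1
  exact (isOpen_discrete ({b} : Set Bool)).preimage h2

lemma nwodd_iff (z : {y : Om // y ∈ Sys B}) : NWodd (shB B) z ↔ ∀ k, z.1 k 0 = false := by
  constructor
  · intro h k
    by_contra hne
    have hk : z.1 k 0 = true := by simpa using hne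
    obtain ⟨n, hn, u, hu, hu'⟩ := h {y | y.1 k 0 = true} (isOpen_coord k 0 true) hk
    simp only [mem_ofPred_eq] at hu hu'
    rw [val_iter] at hu'
    have := u.2.2.2 _ _ hu hu'
    rw [show k + (n : ℤ) - k = n by ring] at this
    have h2 : Odd (n : ℤ) := by exact_mod_cast hn
    exact (Int.not_even_iff_odd.mpr h2) this
  · intro h U hU hz
    obtain ⟨m, hm⟩ := open_window hU hz
    obtain ⟨w, hw, n, hn, h1, h2⟩ := sys_odd z.2 h m
    refine ⟨n, hn, ⟨w, hw⟩, hm _ h1, hm _ fun i hi1 hi2 => ?_⟩
    rw [val_iter]; exact h2 i hi1 hi2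

/-- constant sequences -/
def cst (B : ℕ → ℕ → Bool) (t : Bool) (a : Option ℕ) : {y : Om // y ∈ Sys B} :=
  ⟨fun _ => lc t a, fun _ => valid_lc t a, fun _ => tr_lc.mpr (Or.inl ⟨rfl, rfl⟩),
    fun _ _ (h : lc t a 0 = true) => absurd h Bool.false_ne_true⟩

lemma cst_inj {t t' : Bool} {a b : Option ℕ} (h : cst B t a = cst B t' b) : t = t' ∧ a = b :=
  lc_inj (congrFun (congrArg Subtype.val h) 0)

lemma fixed_iff (p : {y : Om // y ∈ Sys B}) : shB B p = p ↔ ∃ t a, p = cst B t a := by
  constructor
  · intro h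
    have h1 : ∀ k, p.1 (k + 1) = p.1 k := fun k => congrFun (congrArg Subtype.val h) k
    have h2 : ∀ k, p.1 k = p.1 0 := by
      intro k
      induction k using Int.induction_on with
      | zero => rfl
      | succ n ih => rw [h1, ih]
      | pred n ih =>
        have h3 := h1 (-(n : ℤ) - 1)
        rw [sub_add_cancel] at h3
        rw [← h3, ih]
    have h3 : p.1 0 0 = false := by
      by_contra hne
      have h4 : p.1 0 0 = true := by simpa using hne
      have h5 : p.1 1 0 = true := by rw [h2 1]; exact h4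
      have := p.2.2.2 _ _ h4 h5
      exact absurd this (by decide)
    obtain ⟨a, ha⟩ := exists_lc (p.2.1 0) h3
    exact ⟨p.1 0 1, a, Subtype.ext (funext fun k => by rw [h2 k]; exact ha)⟩
  · rintro ⟨t, a, rfl⟩
    exact Subtype.ext (funext fun k => rfl)

lemma tendsto_iff {l : Filter ℕ} {f : ℕ → {y : Om // y ∈ Sys B}} {p : {y : Om // y ∈ Sys B}} :
    Tendsto f l (𝓝 p) ↔ ∀ k c, ∀ᶠ n in l, (f n).1 k c = p.1 k c := by
  rw [tendsto_subtype_rng, tendsto_pi_nhds]
  refine forall_congr' fun k => ?_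
  rw [tendsto_pi_nhds]
  refine forall_congr' fun c => ?_
  rw [nhds_discrete, tendsto_pure]

/-- Along a point without special letters, a later letter is either equal to an earlier
one or it has another type and is related to it. -/
lemma free_dichotomy {z : Om} (hz : z ∈ Sys B) (hfree : ∀ k, z k 0 = false) {k l : ℤ}
    (hkl : k ≤ l) : z l = z k ∨ (∃ a b, z k = lc false a ∧ z l = lc true b ∧ HB B a b) := by
  induction l, hkl using Int.leInduction with
  | base => left; rfl
  | succ l _ ih =>
    obtain ⟨a, ha⟩ := exists_lc (hz.1 l) (hfree l)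
    obtain ⟨b, hb⟩ := exists_lc (hz.1 (l + 1)) (hfree (l + 1))
    have htr := hz.2.1 l
    rw [ha, hb, tr_lc] at htr
    rcases ih with h | ⟨a', b', h1, h2, h3⟩
    · rcases htr with ⟨e1, e2⟩ | ⟨e1, e2, e3⟩
      · left
        rw [← h, ha, hb, e1, e2]
      · right
        refine ⟨a, b, ?_, ?_, e3⟩
        · rw [← h, ha, e1]
        · rw [hb, e2]
    · right
      have h4 := ha.symm.trans h2
      obtain ⟨e4, e5⟩ := lc_inj h4
      rcases htr with ⟨e1, e2⟩ | ⟨e1, e2, e3⟩
      · refine ⟨a', b', h1, ?_, h3⟩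
        rw [hb, ← e1, ← e2, e4, e5]
      · rw [e4] at e1; exact absurd e1 (by decide)

lemma link_imp {t t' : Bool} {a b : Option ℕ} (hne : cst B t a ≠ cst B t' b)
    (h : Link (shB B) (cst B t a) (cst B t' b)) : t = false ∧ t' = true ∧ HB B a b := by
  obtain ⟨z, h1, h2, h3⟩ := h
  rw [nwodd_iff] at h1
  rw [tendsto_iff] at h2 h3
  -- far left
  obtain ⟨N1, hN1⟩ := eventually_atTop.mp (h2 0 1)
  obtain ⟨N2, hN2⟩ := eventually_atTop.mp (h3 0 1)
  have hL : ∀ n : ℕ, N1 ≤ n → z.1 (-(n : ℤ)) 1 = t := by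
    intro n hn
    have := hN1 n hn
    rw [val_iter_symm, zero_sub] at this
    exact this
  have hR : ∀ n : ℕ, N2 ≤ n → z.1 (n : ℤ) 1 = t' := by
    intro n hn
    have := hN2 n hn
    rw [val_iter, zero_add] at this
    exact this
  have hLc : ∀ n : ℕ, N1 ≤ n → z.1 (-(n : ℤ)) = z.1 (-(N1 : ℤ)) := by
    intro n hn
    rcases free_dichotomy z.2 h1 (k := -(n : ℤ)) (l := -(N1 : ℤ)) (by omega) with h | ⟨a', b', e1, e2, _⟩
    · exact h.symm
    · exfalso
      have f1 := hL n hn
      have f2 := hL N1 le_rfl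
      rw [e1, lc_one] at f1
      rw [e2, lc_one] at f2
      rw [← f1] at f2; exact absurd f2 (by decide)
  have hRc : ∀ n : ℕ, N2 ≤ n → z.1 (n : ℤ) = z.1 (N2 : ℤ) := by
    intro n hn
    rcases free_dichotomy z.2 h1 (k := (N2 : ℤ)) (l := (n : ℤ)) (by omega) with h | ⟨a', b', e1, e2, _⟩
    · exact h
    · exfalso
      have f1 := hR n hn
      have f2 := hR N2 le_rfl
      rw [e2, lc_one] at f1
      rw [e1, lc_one] at f2
      rw [← f1] at f2; exact absurd f2 (by decide)
  have hLl : z.1 (-(N1 : ℤ)) = lc t a := by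
    funext c
    obtain ⟨n, hn, hn'⟩ := ((h2 0 c).and (eventually_ge_atTop N1)).exists
    rw [val_iter_symm, zero_sub, hLc n hn'] at hn
    exact hn
  have hRl : z.1 (N2 : ℤ) = lc t' b := by
    funext c
    obtain ⟨n, hn, hn'⟩ := ((h3 0 c).and (eventually_ge_atTop N2)).exists
    rw [val_iter, zero_add, hRc n hn'] at hn
    exact hn
  rcases free_dichotomy z.2 h1 (k := -(N1 : ℤ)) (l := (N2 : ℤ)) (by omega) with h | ⟨a', b', e1, e2, e3⟩
  · exfalso
    apply hne
    rw [hLl, hRl] at h
    obtain ⟨e1, e2⟩ := lc_inj h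
    rw [e1, e2]
  · rw [hLl] at e1
    rw [hRl] at e2
    obtain ⟨f1, f2⟩ := lc_inj e1
    obtain ⟨f3, f4⟩ := lc_inj e2
    subst f2; subst f4
    exact ⟨f1, f3, e3⟩

lemma link_of {a b : Option ℕ} (h : HB B a b) : Link (shB B) (cst B false a) (cst B true b) := by
  have hmem : (fun k : ℤ => if k < 0 then lc false a else lc true b) ∈ Sys B := by
    refine ⟨fun k => ?_, fun k => ?_, fun k l h1 _ => ?_⟩
    · simp only; split_ifs
      · exact valid_lc _ _
      · exact valid_lc _ _
    · simp only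
      rcases lt_trichotomy k (-1) with hk | rfl | hk
      · rw [if_pos (by omega), if_pos (by omega)]; exact tr_lc.mpr (Or.inl ⟨rfl, rfl⟩)
      · rw [if_pos (by omega), if_neg (by omega)]; exact tr_lc.mpr (Or.inr ⟨rfl, rfl, h⟩)
      · rw [if_neg (by omega), if_neg (by omega)]; exact tr_lc.mpr (Or.inl ⟨rfl, rfl⟩)
    · exfalso
      simp only at h1
      split_ifs at h1 <;> rw [lc_zero] at h1 <;> exact Bool.false_ne_true h1
  refine ⟨⟨_, hmem⟩, ?_, ?_, ?_⟩
  · rw [nwodd_iff]
    intro k
    simp only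
    split_ifs <;> rfl
  · rw [tendsto_iff]
    intro k c
    filter_upwards [eventually_gt_atTop k.natAbs] with n hn
    rw [val_iter_symm]
    simp only
    rw [if_pos (by omega)]
    rfl
  · rw [tendsto_iff]
    intro k c
    filter_upwards [eventually_gt_atTop k.natAbs] with n hn
    rw [val_iter]
    simp only
    rw [if_neg (by omega)]
    rfl

lemma HB_none_right (a : Option ℕ) : HB B a none := fun _ _ _ h => by simp at h
lemma HB_none_left (b : Option ℕ) : HB B none b := fun _ _ h => by simp at h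

lemma HB_some {n m : ℕ} : HB B (some n) (some m) ↔ B n m = true :=
  ⟨fun h => h n m rfl rfl, fun h n' m' h1 h2 => by
    rw [← Option.some.inj h1, ← Option.some.inj h2]; exact h⟩

lemma cst_ne (a b : Option ℕ) : cst B false a ≠ cst B true b := fun h =>
  absurd (cst_inj h).1 (by decide)

section Forward

variable {B' : ℕ → ℕ → Bool} {F : {y : Om // y ∈ Sys B} ≃ₜ {y : Om // y ∈ Sys B'}}

lemma left_type (hF : ∀ x, F (shB B x) = shB B' (F x)) (a : Option ℕ) :
    ∃ a', F (cst B false a) = cst B' false a' := by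
  have f1 : shB B' (F (cst B false a)) = F (cst B false a) := by
    rw [← hF, (fixed_iff _).mpr ⟨_, _, rfl⟩]
  have f2 : shB B' (F (cst B true none)) = F (cst B true none) := by
    rw [← hF, (fixed_iff _).mpr ⟨_, _, rfl⟩]
  obtain ⟨t, a', ha⟩ := (fixed_iff _).mp f1
  obtain ⟨t', b', hb⟩ := (fixed_iff _).mp f2
  have hl := (link_of (B := B) (HB_none_right a)).map hF
  have hne : F (cst B false a) ≠ F (cst B true none) := fun h => cst_ne _ _ (F.injective h)
  rw [ha, hb] at hl hne
  have := (link_imp hne hl).1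
  subst this
  exact ⟨a', ha⟩

lemma right_type (hF : ∀ x, F (shB B x) = shB B' (F x)) (b : Option ℕ) :
    ∃ b', F (cst B true b) = cst B' true b' := by
  have f1 : shB B' (F (cst B false none)) = F (cst B false none) := by
    rw [← hF, (fixed_iff _).mpr ⟨_, _, rfl⟩]
  have f2 : shB B' (F (cst B true b)) = F (cst B true b) := by
    rw [← hF, (fixed_iff _).mpr ⟨_, _, rfl⟩]
  obtain ⟨t, a', ha⟩ := (fixed_iff _).mp f1
  obtain ⟨t', b', hb⟩ := (fixed_iff _).mp f2
  have hl := (link_of (B := B) (HB_none_left b)).map hF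
  have hne : F (cst B false none) ≠ F (cst B true b) := fun h => cst_ne _ _ (F.injective h)
  rw [ha, hb] at hl hne
  have := (link_imp hne hl).2.1
  subst this
  exact ⟨b', hb⟩

lemma cst_tendsto (t : Bool) : Tendsto (fun i : ℕ => cst B t (some i)) atTop (𝓝 (cst B t none)) := by
  rw [tendsto_iff]
  intro k c
  rcases c with _ | _ | c
  · exact Eventually.of_forall fun i => rfl
  · exact Eventually.of_forall fun i => rfl
  · filter_upwards [eventually_gt_atTop c] with i hi
    show lc t (some i) (c + 2) = lc t none (c + 2)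
    rw [lc_idx, lc_idx]
    simp only [Option.some.injEq, decide_eq_decide]
    constructor
    · intro h; omega
    · intro h; exact absurd h (by simp)

/-- an index map coming from a homeomorphism fixes infinity -/
lemma map_none {t : Bool} {α : Option ℕ → Option ℕ}
    (hα : ∀ a, F (cst B t a) = cst B' t (α a)) : α none = none := by
  by_contra hne
  obtain ⟨j, hj⟩ := Option.ne_none_iff_exists'.mp hne
  have h1 : Tendsto (fun i : ℕ => F (cst B t (some i))) atTop (𝓝 (F (cst B t none))) :=
    (F.continuous.tendsto _).comp (cst_tendsto t)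
  rw [tendsto_iff] at h1
  have h2 := h1 0 (j + 2)
  obtain ⟨N, hN⟩ := eventually_atTop.mp h2
  have h3 : ∀ i, N ≤ i → α (some i) = some j := by
    intro i hi
    have := hN i hi
    rw [hα, hα, hj] at this
    have h4 : lc t (α (some i)) (j + 2) = lc t (some j) (j + 2) := this
    rw [lc_idx, lc_idx] at h4
    simpa using h4
  have e1 : F (cst B t (some N)) = F (cst B t (some (N + 1))) := by
    rw [hα, hα, h3 N le_rfl, h3 (N + 1) (by omega)]
  have := (cst_inj (F.injective e1)).2
  simp at this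

/-- A conjugacy yields an isomorphism of the relations. -/
theorem conj_forward (hF : ∀ x, F (shB B x) = shB B' (F x)) :
    ∃ πL πR : Equiv.Perm ℕ, ∀ n m, B n m = B' (πL n) (πR m) := by
  choose α hα using left_type hF
  choose β hβ using right_type hF
  have hF' : ∀ y, F.symm (shB B' y) = shB B (F.symm y) := inv_comm hF
  choose α' hα' using left_type hF'
  choose β' hβ' using right_type hF'
  have hαα : ∀ a, α' (α a) = a := by
    intro a
    have h1 := hα' (α a)
    rw [← hα a, Homeomorph.symm_apply_apply] at h1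
    exact (cst_inj h1).2.symm
  have hαα' : ∀ a, α (α' a) = a := by
    intro a
    have h1 := hα (α' a)
    rw [← hα' a, Homeomorph.apply_symm_apply] at h1
    exact (cst_inj h1).2.symm
  have hββ : ∀ a, β' (β a) = a := by
    intro a
    have h1 := hβ' (β a)
    rw [← hβ a, Homeomorph.symm_apply_apply] at h1
    exact (cst_inj h1).2.symm
  have hββ' : ∀ a, β (β' a) = a := by
    intro a
    have h1 := hβ (β' a)
    rw [← hβ' a, Homeomorph.apply_symm_apply] at h1
    exact (cst_inj h1).2.symm
  have hαn : α none = none := map_none hα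
  have hβn : β none = none := map_none hβ
  let eα : Option ℕ ≃ Option ℕ := ⟨α, α', hαα, hαα'⟩
  let eβ : Option ℕ ≃ Option ℕ := ⟨β, β', hββ, hββ'⟩
  have hαs : ∀ n, ∃ n', eα (some n) = some n' := by
    intro n
    apply Option.ne_none_iff_exists'.mp
    intro h
    have h1 : α (some n) = α none := by rw [hαn]; exact h
    have := congrArg α' h1
    rw [hαα, hαα] at this
    simp at this
  have hβs : ∀ n, ∃ n', eβ (some n) = some n' := by
    intro n
    apply Option.ne_none_iff_exists'.mp
    intro h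
    have h1 : β (some n) = β none := by rw [hβn]; exact h
    have := congrArg β' h1
    rw [hββ, hββ] at this
    simp at this
  refine ⟨eα.removeNone, eβ.removeNone, fun n m => ?_⟩
  have e1 : some (eα.removeNone n) = α (some n) := Equiv.removeNone_some eα (hαs n)
  have e2 : some (eβ.removeNone m) = β (some m) := Equiv.removeNone_some eβ (hβs m)
  have key : B n m = true ↔ B' (eα.removeNone n) (eβ.removeNone m) = true := by
    rw [← HB_some, ← HB_some (B := B'), e1, e2]
    constructor
    · intro h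
      have := (link_of h).map hF
      rw [hα, hβ] at this
      exact (link_imp (cst_ne _ _) this).2.2
    · intro h
      have := (link_of h).map hF'
      rw [hα', hβ', hαα, hββ] at this
      exact (link_imp (cst_ne _ _) this).2.2
  rcases h1 : B n m with _ | _ <;> rcases h2 : B' (eα.removeNone n) (eβ.removeNone m) with _ | _ <;>
    simp_all

end Forward

/-! ### relabelling -/

/-- relabelling of a letter -/
def rel (πL πR : Equiv.Perm ℕ) (v : ℕ → Bool) : ℕ → Bool
  | 0 => v 0
  | 1 => v 1
  | (n + 2) => if v 1 = true then v (πR.symm n + 2) else v (πL.symm n + 2)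

lemma rel_idx (πL πR : Equiv.Perm ℕ) (v : ℕ → Bool) (n : ℕ) :
    rel πL πR v (n + 2) = if v 1 = true then v (πR.symm n + 2) else v (πL.symm n + 2) := rfl

lemma valid_rel {πL πR : Equiv.Perm ℕ} {v : ℕ → Bool} (h : Valid v) : Valid (rel πL πR v) := by
  refine ⟨fun h0 n => ?_, fun n m h1 h2 => ?_⟩
  · have h0' : v 0 = true := h0
    rcases n with _ | n
    · exact h.1 h0' 0
    · rw [show n + 1 + 1 = n + 2 by ring, rel_idx]
      split_ifs
      · exact h.1 h0' _
      · exact h.1 h0' _
  · rw [rel_idx] at h1 h2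
    split_ifs at h1 h2
    · exact πR.symm.injective (h.2 _ _ h1 h2)
    · exact πL.symm.injective (h.2 _ _ h1 h2)

lemma tr_rel {B B' : ℕ → ℕ → Bool} {πL πR : Equiv.Perm ℕ}
    (hπ : ∀ n m, B n m = B' (πL n) (πR m)) {v w : ℕ → Bool} (h : Tr B v w) :
    Tr B' (rel πL πR v) (rel πL πR w) := by
  rcases h with h | h | ⟨h1, h2⟩ | ⟨h1, h2, h3⟩
  · left; exact h
  · right; left; exact h
  · right; right; left
    refine ⟨h1, fun n => ?_⟩
    rw [rel_idx, rel_idx, h1]
    split_ifs
    · exact h2 _
    · exact h2 _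
  · right; right; right
    refine ⟨h1, h2, fun n m h4 h5 => ?_⟩
    rw [rel_idx, h1, if_neg (by decide)] at h4
    rw [rel_idx, h2, if_pos rfl] at h5
    have := h3 _ _ h4 h5
    rw [hπ] at this
    simpa using this

lemma rel_rel (πL πR : Equiv.Perm ℕ) (v : ℕ → Bool) :
    rel πL.symm πR.symm (rel πL πR v) = v := by
  funext n
  rcases n with _ | _ | n
  · rfl
  · rfl
  · rw [rel_idx]
    have e : rel πL πR v 1 = v 1 := rfl
    rw [e]
    simp only [Equiv.symm_symm]
    split_ifs with h
    · rw [rel_idx, if_pos h]; simp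
    · rw [rel_idx, if_neg h]; simp

lemma continuous_rel (πL πR : Equiv.Perm ℕ) : Continuous (rel πL πR) := by
  apply continuous_pi
  intro n
  rcases n with _ | _ | n
  · exact continuous_apply 0
  · exact continuous_apply 1
  · have : (fun v : ℕ → Bool => rel πL πR v (n + 2)) =
        (fun p : Bool × Bool × Bool => if p.1 = true then p.2.1 else p.2.2) ∘
        (fun v : ℕ → Bool => (v 1, v (πR.symm n + 2), v (πL.symm n + 2))) := by
      funext v; rfl
    rw [this]
    exact continuous_of_discreteTopology.comp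
      ((continuous_apply 1).prodMk ((continuous_apply _).prodMk (continuous_apply _)))

lemma sys_rel {B B' : ℕ → ℕ → Bool} {πL πR : Equiv.Perm ℕ}
    (hπ : ∀ n m, B n m = B' (πL n) (πR m)) {y : Om} (h : y ∈ Sys B) :
    (fun k => rel πL πR (y k)) ∈ Sys B' :=
  ⟨fun k => valid_rel (h.1 k), fun k => tr_rel hπ (h.2.1 k), fun k l h1 h2 => h.2.2 k l h1 h2⟩

/-- An isomorphism of the relations yields a conjugacy. -/
theorem conj_backward {B B' : ℕ → ℕ → Bool} {πL πR : Equiv.Perm ℕ}
    (hπ : ∀ n m, B n m = B' (πL n) (πR m)) :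
    ∃ F : {y : Om // y ∈ Sys B} ≃ₜ {y : Om // y ∈ Sys B'}, ∀ x, F (shB B x) = shB B' (F x) := by
  have hπ' : ∀ n m, B' n m = B (πL.symm n) (πR.symm m) := by
    intro n m; rw [hπ]; simp
  refine ⟨{ toFun := fun y => ⟨fun k => rel πL πR (y.1 k), sys_rel hπ y.2⟩
            invFun := fun y => ⟨fun k => rel πL.symm πR.symm (y.1 k), sys_rel hπ' y.2⟩
            left_inv := ?_
            right_inv := ?_
            continuous_toFun := ?_
            continuous_invFun := ?_ }, ?_⟩
  · intro y
    apply Subtype.ext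
    funext k
    exact rel_rel πL πR (y.1 k)
  · intro y
    apply Subtype.ext
    funext k
    have := rel_rel πL.symm πR.symm (y.1 k)
    simpa using this
  · apply Continuous.subtype_mk
    exact continuous_pi fun k => (continuous_rel _ _).comp
      ((continuous_apply k).comp continuous_subtype_val)
  · apply Continuous.subtype_mk
    exact continuous_pi fun k => (continuous_rel _ _).comp
      ((continuous_apply k).comp continuous_subtype_val)
  · intro x
    rfl

end Pool.Agent.Lib_helper89.Cantor
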