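import Mathlib
import Pool.Agent.Lib_helper89.CantorDyn

open MeasureTheory Set TopologicalSpace Filter Topology

namespace Pool.Agent.Lib_helper89.Cantor

/-- a bijection of the index sets -/
noncomputable def idx : ℤ × ℕ ≃ ℕ := (nonempty_equiv_of_countable (α := ℤ × ℕ) (β := ℕ)).some

/-- the identification of sequences of letters with points of the Cantor set -/
noncomputable def toC : Om ≃ₜ C where
  toFun y := fun i => y (idx.symm i).1 (idx.symm i).2
  invFun w := fun k c => w (idx (k, c))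
  left_inv y := by funext k c; simp
  right_inv w := by funext i; simp
  continuous_toFun := continuous_pi fun i =>
    (continuous_apply (A := fun _ : ℕ => Bool) (idx.symm i).2).comp
      (continuous_apply (A := fun _ : ℤ => ℕ → Bool) (idx.symm i).1)
  continuous_invFun := continuous_pi fun k => continuous_pi fun c =>
    continuous_apply (A := fun _ : ℕ => Bool) (idx (k, c))

/-- the space of relations -/
abbrev Rel : Type := ℕ → ℕ → Bool

/-- the perfect set attached to a relation -/
def QB (B : Rel) : Set C := {w | toC.symm w ∈ Sys B}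

lemma isClopen_bool {X : Type} [TopologicalSpace X] {f : X → Bool} (hf : Continuous f)
    (b : Bool) : IsClopen {x | f x = b} :=
  (isClopen_discrete ({b} : Set Bool)).preimage hf

lemma cont_letter (k : ℤ) (c : ℕ) : Continuous (fun p : Rel × Om => p.2 k c) :=
  (continuous_apply (A := fun _ : ℕ => Bool) c).comp
    ((continuous_apply (A := fun _ : ℤ => ℕ → Bool) k).comp continuous_snd)

lemma cont_rel (n m : ℕ) : Continuous (fun p : Rel × Om => p.1 n m) :=
  (continuous_apply (A := fun _ : ℕ => Bool) m).comp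
    ((continuous_apply (A := fun _ : ℕ => ℕ → Bool) n).comp continuous_fst)

lemma isClosed_imp' {X : Type} [TopologicalSpace X] {p q : X → Prop}
    (hp : IsOpen {x | p x}) (hq : IsClosed {x | q x}) : IsClosed {x | p x → q x} := by
  have : {x | p x → q x} = {x | p x}ᶜ ∪ {x | q x} := by
    ext x; simp only [mem_ofPred_eq, mem_union, mem_compl_iff]; tauto
  rw [this]; exact hp.isClosed_compl.union hq

lemma isClosed_sys : IsClosed {p : Rel × Om | p.2 ∈ Sys p.1} := by
  have h : {p : Rel × Om | p.2 ∈ Sys p.1} =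
      {p | ∀ k, Valid (p.2 k)} ∩ ({p | ∀ k, Tr p.1 (p.2 k) (p.2 (k + 1))} ∩
        {p | ∀ k l, p.2 k 0 = true → p.2 l 0 = true → Even (l - k)}) := rfl
  rw [h]
  have hb : ∀ (k : ℤ) (c : ℕ) (b : Bool), IsClopen {p : Rel × Om | p.2 k c = b} :=
    fun k c b => isClopen_bool (cont_letter k c) b
  refine IsClosed.inter ?_ (IsClosed.inter ?_ ?_)
  · have : {p : Rel × Om | ∀ k, Valid (p.2 k)} = ⋂ k, ({p : Rel × Om |
        p.2 k 0 = true → ∀ n, p.2 k (n + 1) = false} ∩
        {p | ∀ n m, p.2 k (n + 2) = true → p.2 k (m + 2) = true → n = m}) := by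
      ext p; simp only [mem_ofPred_eq, mem_iInter, mem_inter_iff]; rfl
    rw [this]
    refine isClosed_iInter fun k => IsClosed.inter ?_ ?_
    · apply isClosed_imp' (hb k 0 true).isOpen
      have : {p : Rel × Om | ∀ n, p.2 k (n + 1) = false} =
          ⋂ n, {p : Rel × Om | p.2 k (n + 1) = false} := by ext p; simp
      rw [this]; exact isClosed_iInter fun n => (hb k (n + 1) false).isClosed
    · have : {p : Rel × Om | ∀ n m, p.2 k (n + 2) = true → p.2 k (m + 2) = true → n = m} =
          ⋂ n, ⋂ m, {p : Rel × Om | p.2 k (n + 2) = true → p.2 k (m + 2) = true → n = m} := by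
        ext p; simp
      rw [this]
      refine isClosed_iInter fun n => isClosed_iInter fun m => ?_
      exact isClosed_imp' (hb k _ true).isOpen (isClosed_imp' (hb k _ true).isOpen
        isClosed_const)
  · have : {p : Rel × Om | ∀ k, Tr p.1 (p.2 k) (p.2 (k + 1))} = ⋂ k,
        ({p : Rel × Om | p.2 k 0 = true} ∪ ({p | p.2 (k + 1) 0 = true} ∪
        (({p | p.2 k 1 = p.2 (k + 1) 1} ∩ {p | ∀ n, p.2 k (n + 2) = p.2 (k + 1) (n + 2)}) ∪
        ({p | p.2 k 1 = false} ∩ ({p | p.2 (k + 1) 1 = true} ∩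
          {p | ∀ n m, p.2 k (n + 2) = true → p.2 (k + 1) (m + 2) = true →
            p.1 n m = true}))))) := by
      ext p; simp only [mem_ofPred_eq, mem_iInter, mem_inter_iff, mem_union]; rfl
    rw [this]
    refine isClosed_iInter fun k => (hb k 0 true).isClosed.union
      ((hb (k + 1) 0 true).isClosed.union (IsClosed.union (IsClosed.inter ?_ ?_)
      ((hb k 1 false).isClosed.inter ((hb (k + 1) 1 true).isClosed.inter ?_))))
    · exact isClosed_eq (cont_letter _ _) (cont_letter _ _)
    · have : {p : Rel × Om | ∀ n, p.2 k (n + 2) = p.2 (k + 1) (n + 2)} =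
          ⋂ n, {p : Rel × Om | p.2 k (n + 2) = p.2 (k + 1) (n + 2)} := by ext p; simp
      rw [this]
      exact isClosed_iInter fun n => isClosed_eq (cont_letter _ _) (cont_letter _ _)
    · have : {p : Rel × Om | ∀ n m, p.2 k (n + 2) = true → p.2 (k + 1) (m + 2) = true →
            p.1 n m = true} = ⋂ n, ⋂ m, {p : Rel × Om | p.2 k (n + 2) = true →
            p.2 (k + 1) (m + 2) = true → p.1 n m = true} := by ext p; simp
      rw [this]
      refine isClosed_iInter fun n => isClosed_iInter fun m => ?_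
      exact isClosed_imp' (hb k _ true).isOpen (isClosed_imp' (hb (k + 1) _ true).isOpen
        (isClopen_bool (cont_rel n m) true).isClosed)
  · have : {p : Rel × Om | ∀ k l, p.2 k 0 = true → p.2 l 0 = true → Even (l - k)} =
        ⋂ k, ⋂ l, {p : Rel × Om | p.2 k 0 = true → p.2 l 0 = true → Even (l - k)} := by
      ext p; simp
    rw [this]
    refine isClosed_iInter fun k => isClosed_iInter fun l => ?_
    exact isClosed_imp' (hb k 0 true).isOpen (isClosed_imp' (hb l 0 true).isOpen isClosed_const)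

lemma isClosed_QB : IsClosed {p : Rel × C | p.2 ∈ QB p.1} := by
  have hc : Continuous (fun p : Rel × C => ((p.1, toC.symm p.2) : Rel × Om)) :=
    continuous_fst.prodMk (toC.symm.continuous.comp continuous_snd)
  exact isClosed_sys.preimage hc

lemma isClosed_proj {p : Rel × C → Prop} (hp : IsClosed {x : Rel × C | p x}) :
    IsClosed {B : Rel | ∃ w : C, w ∈ QB B ∧ p (B, w)} := by
  have h1 : IsClosed ({x : Rel × C | x.2 ∈ QB x.1} ∩ {x | p x}) := isClosed_QB.inter hp
  have h2 : {B : Rel | ∃ w : C, w ∈ QB B ∧ p (B, w)} =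
      Prod.fst '' ({x : Rel × C | x.2 ∈ QB x.1} ∩ {x | p x}) := by
    ext B
    simp only [mem_ofPred_eq, mem_image, mem_inter_iff, Prod.exists]
    constructor
    · rintro ⟨w, h3, h4⟩; exact ⟨B, w, ⟨h3, h4⟩, rfl⟩
    · rintro ⟨B', w, ⟨h3, h4⟩, rfl⟩; exact ⟨w, h3, h4⟩
  rw [h2]
  exact (h1.isCompact.image continuous_fst).isClosed

lemma isClopen_agree (s : C) (m : ℕ) : IsClopen {x : Rel × C | ∀ i < m, x.2 i = s i} := by
  have : {x : Rel × C | ∀ i < m, x.2 i = s i} = ⋂ i ∈ Finset.range m, {x : Rel × C | x.2 i = s i} := by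
    ext x; simp
  rw [this]
  refine isClopen_biInter_finset fun i _ => ?_
  exact isClopen_bool ((continuous_apply (A := fun _ : ℕ => Bool) i).comp continuous_snd) _

lemma meas_agree (s : C) (m : ℕ) : MeasurableSet {B : Rel | ∃ w ∈ QB B, ∀ i < m, w i = s i} :=
  (isClosed_proj (p := fun x => ∀ i < m, x.2 i = s i) (isClopen_agree s m).isClosed).measurableSet

lemma meas_split (s : C) (m : ℕ) : MeasurableSet {B : Rel | split QB B s m} := by
  apply IsClosed.measurableSet
  apply isClosed_proj (p := fun x => (∀ i < m, x.2 i = s i) ∧ x.2 m ≠ s m)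
  have h1 := (isClopen_agree s m).isClosed
  have h2 : IsClosed {x : Rel × C | x.2 m ≠ s m} :=
    (isClopen_bool ((continuous_apply (A := fun _ : ℕ => Bool) m).comp continuous_snd)
      (s m)).compl.isClosed
  exact h1.inter h2

lemma QB_nonempty (B : Rel) : (QB B).Nonempty :=
  ⟨toC (cst B false none).1, by
    show toC.symm (toC _) ∈ Sys B
    rw [Homeomorph.symm_apply_apply]; exact (cst B false none).2⟩

lemma QB_closed (B : Rel) : IsClosed (QB B) :=
  isClosed_QB.preimage (f := fun w : C => ((B, w) : Rel × C)) (by fun_prop)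

lemma QB_perfect : Perfect' QB := by
  intro B w hw n
  obtain ⟨m, hm⟩ : ∃ m : ℕ, ∀ i < n, (idx.symm i).1.natAbs ≤ m := by
    obtain ⟨b, hb⟩ := ((Finset.range n).image (fun i => (idx.symm i).1.natAbs)).bddAbove
    refine ⟨b, fun i hi => hb ?_⟩
    simp only [Finset.coe_image, Set.mem_image]
    exact ⟨i, by simpa using hi, rfl⟩
  obtain ⟨y, hy, hne, hag⟩ := sys_perfect (B := B) hw m
  refine ⟨toC y, by show toC.symm (toC y) ∈ Sys B; rw [Homeomorph.symm_apply_apply]; exact hy,
    fun h => hne (by rw [← h, Homeomorph.symm_apply_apply]), fun i hi => ?_⟩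
  have h1 := hm i hi
  show y (idx.symm i).1 (idx.symm i).2 = w i
  rw [hag _ (by omega) (by omega)]
  show w (idx ((idx.symm i).1, (idx.symm i).2)) = w i
  simp

/-- the shift on the Cantor set -/
noncomputable def shC : C ≃ₜ C := toC.symm.trans (sh.trans toC)

lemma shC_mem (B : Rel) (w : C) : w ∈ QB B ↔ shC w ∈ QB B := by
  show toC.symm w ∈ Sys B ↔ toC.symm (toC (sh (toC.symm w))) ∈ Sys B
  rw [Homeomorph.symm_apply_apply]
  exact sh_mem _

/-- the Borel family of homeomorphisms -/
theorem exists_family : ∃ f : Rel → (C ≃ₜ C), Measurable f ∧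
    ∀ B, ∃ H : C ≃ₜ {y : Om // y ∈ Sys B}, ∀ x, H (f B x) = shB B (H x) := by
  obtain ⟨f, hf, hh⟩ := transfer QB_perfect QB_nonempty QB_closed meas_split meas_agree shC shC_mem
  refine ⟨f, hf, fun B => ?_⟩
  obtain ⟨h, hx⟩ := hh B
  refine ⟨h.trans (toC.symm.subtype (fun w => Iff.rfl)), fun x => ?_⟩
  apply Subtype.ext
  show toC.symm (h (f B x)).1 = sh (toC.symm (h x).1)
  rw [hx]
  show toC.symm (toC (sh (toC.symm _))) = _
  rw [Homeomorph.symm_apply_apply]

lemma pow_apply (T : C ≃ₜ C) (n : ℕ) (x : C) : (T ^ n) x = T^[n] x := by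
  induction n generalizing x with
  | zero => rfl
  | succ n ih => rw [pow_succ, Homeomorph.mul_apply, ih, Function.iterate_succ_apply]

lemma family_transitive {B : Rel} {T : C ≃ₜ C} {H : C ≃ₜ {y : Om // y ∈ Sys B}}
    (hH : ∀ x, H (T x) = shB B (H x)) : IsTransitive T := by
  intro U V hU hV hUn hVn
  obtain ⟨x, hx⟩ := hUn
  obtain ⟨x', hx'⟩ := hVn
  have hU' : IsOpen (H '' U) := H.isOpenMap U hU
  have hV' : IsOpen (H '' V) := H.isOpenMap V hV
  obtain ⟨m1, hm1⟩ := open_window hU' (mem_image_of_mem H hx)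
  obtain ⟨m2, hm2⟩ := open_window hV' (mem_image_of_mem H hx')
  obtain ⟨w, hw, n, h1, h2⟩ := sys_transitive (H x).2 (H x').2 (max m1 m2)
  have hwU : (⟨w, hw⟩ : {y : Om // y ∈ Sys B}) ∈ H '' U :=
    hm1 _ fun i hi1 hi2 => h1 i (by push_cast; omega) (by push_cast; omega)
  have hwV : (shB B)^[n] (⟨w, hw⟩ : {y : Om // y ∈ Sys B}) ∈ H '' V := by
    apply hm2
    intro i hi1 hi2
    rw [val_iter]
    exact h2 i (by push_cast; omega) (by push_cast; omega)
  obtain ⟨u, hu, hu'⟩ := hwU
  obtain ⟨v, hv, hv'⟩ := hwV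
  refine ⟨n, v, ⟨u, hu, ?_⟩, hv⟩
  rw [zpow_natCast, pow_apply]
  apply H.injective
  rw [hv', conj_iter hH, hu']

lemma conj_iff {S T : C ≃ₜ C} : Conj S T ↔ ∃ h : C ≃ₜ C, ∀ x, S (h x) = h (T x) := by
  unfold Conj
  constructor
  · rintro ⟨h, rfl⟩
    refine ⟨h, fun x => ?_⟩
    simp [Homeomorph.mul_apply]
  · rintro ⟨h, hh⟩
    refine ⟨h, ?_⟩
    ext1 x
    have := hh (h.symm x)
    rw [Homeomorph.apply_symm_apply] at this
    rw [this]; rfl

/-- conjugacy of the members of the family -/
lemma family_conj {B B' : Rel} {T T' : C ≃ₜ C} {H : C ≃ₜ {y : Om // y ∈ Sys B}}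
    (hH : ∀ x, H (T x) = shB B (H x)) {H' : C ≃ₜ {y : Om // y ∈ Sys B'}}
    (hH' : ∀ x, H' (T' x) = shB B' (H' x)) :
    Conj T T' ↔ ∃ πL πR : Equiv.Perm ℕ, ∀ n m, B n m = B' (πL n) (πR m) := by
  rw [conj_iff]
  constructor
  · rintro ⟨h, hh⟩
    -- F = H' ∘ h⁻¹ ∘ H⁻¹
    set F : {y : Om // y ∈ Sys B} ≃ₜ {y : Om // y ∈ Sys B'} := (H.symm.trans h.symm).trans H'
      with hFdef
    apply conj_forward (F := F)
    intro x
    show H' (h.symm (H.symm (shB B x))) = shB B' (H' (h.symm (H.symm x)))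
    rw [inv_comm hH, ← hH']
    congr 1
    rw [Homeomorph.symm_apply_eq, ← hh, Homeomorph.apply_symm_apply]
  · rintro ⟨πL, πR, hπ⟩
    obtain ⟨F, hF⟩ := conj_backward hπ
    refine ⟨(H'.trans F.symm).trans H.symm, fun x => ?_⟩
    show T (H.symm (F.symm (H' x))) = H.symm (F.symm (H' (T' x)))
    rw [hH', inv_comm hF, inv_comm hH]

/-! ### graphs -/

open Classical in
/-- the incidence relation of a graph: pairs (vertex, ordered pair forming an edge) -/
noncomputable def inc (G : SimpleGraph ℕ) : Rel := fun i r =>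
  decide (G.Adj r.unpair.1 r.unpair.2 ∧ (i = r.unpair.1 ∨ i = r.unpair.2))

lemma inc_iff (G : SimpleGraph ℕ) (i r : ℕ) : inc G i r = true ↔
    G.Adj r.unpair.1 r.unpair.2 ∧ (i = r.unpair.1 ∨ i = r.unpair.2) := by
  simp [inc]

lemma adj_iff (G : SimpleGraph ℕ) {i j : ℕ} (hij : i ≠ j) :
    G.Adj i j ↔ ∃ r, inc G i r = true ∧ inc G j r = true := by
  constructor
  · intro h
    refine ⟨Nat.pair i j, ?_, ?_⟩
    · rw [inc_iff]; simp [h]
    · rw [inc_iff]; simp [h]
  · rintro ⟨r, h1, h2⟩
    rw [inc_iff] at h1 h2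
    rcases h1 with ⟨h1, rfl | rfl⟩
    · rcases h2 with ⟨_, h2 | h2⟩
      · exact absurd h2.symm hij
      · rw [h2]; exact h1
    · rcases h2 with ⟨_, h2 | h2⟩
      · rw [h2]; exact h1.symm
      · exact absurd h2.symm hij

lemma graphIso_iff (G G' : SimpleGraph ℕ) : GraphIso G G' ↔
    ∃ πL πR : Equiv.Perm ℕ, ∀ n m, inc G n m = inc G' (πL n) (πR m) := by
  constructor
  · rintro ⟨φ⟩
    let πR : Equiv.Perm ℕ := (Nat.pairEquiv.symm.trans
      ((φ.toEquiv.prodCongr φ.toEquiv).trans Nat.pairEquiv))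
    refine ⟨φ.toEquiv, πR, fun n m => ?_⟩
    have e : (πR m).unpair = (φ m.unpair.1, φ m.unpair.2) := by
      show (Nat.pair _ _).unpair = _
      rw [Nat.unpair_pair]; rfl
    rw [Bool.eq_iff_iff, inc_iff, inc_iff, e]
    simp only [SimpleGraph.Iso.map_adj_iff]
    have e1 : ∀ k, (φ.toEquiv n = φ k) ↔ n = k := fun k => φ.toEquiv.injective.eq_iff
    rw [e1, e1]
  · rintro ⟨πL, πR, h⟩
    refine ⟨⟨πL, ?_⟩⟩
    intro i j
    by_cases hij : i = j
    · subst hij; simp
    · have hij' : πL i ≠ πL j := fun h => hij (πL.injective h)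
      rw [adj_iff G hij, adj_iff G' hij']
      constructor
      · rintro ⟨r, h1, h2⟩
        refine ⟨πR.symm r, ?_, ?_⟩
        · rw [h]; simpa using h1
        · rw [h]; simpa using h2
      · rintro ⟨r, h1, h2⟩
        exact ⟨πR r, by rw [← h]; exact h1, by rw [← h]; exact h2⟩

lemma measurableSet_adj (a b : ℕ) : MeasurableSet {G : SimpleGraph ℕ | G.Adj a b} := by
  refine ⟨{A : ℕ → ℕ → Prop | A a b}, ?_, rfl⟩
  have : Measurable (fun A : ℕ → ℕ → Prop => A a b) :=
    (measurable_pi_apply b).comp (measurable_pi_apply a)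
  exact measurableSet_setOfPred.mpr this

lemma measurable_inc : Measurable inc := by
  apply measurable_pi_lambda
  intro i
  apply measurable_pi_lambda
  intro r
  apply measurable_to_bool
  have : (fun G => inc G i r) ⁻¹' {true} =
      {G : SimpleGraph ℕ | G.Adj r.unpair.1 r.unpair.2} ∩
        {_G | i = r.unpair.1 ∨ i = r.unpair.2} := by
    ext G
    simp only [mem_preimage, mem_singleton_iff, inc_iff, mem_inter_iff, mem_ofPred_eq]
  rw [this]
  exact (measurableSet_adj _ _).inter (MeasurableSet.const _)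

/-- The open direction: isomorphism of countable graphs is Borel reducible to conjugacy of
transitive homeomorphisms of the Cantor set. -/
theorem graph_to_trans : BorelReducible GraphIso ConjTrans := by
  obtain ⟨f, hf, hH⟩ := exists_family
  choose H hH using hH
  refine ⟨fun G => ⟨f (inc G), family_transitive (hH (inc G))⟩, ?_, fun G G' => ?_⟩
  · exact (hf.comp measurable_inc).subtype_mk
  · rw [graphIso_iff]
    exact (family_conj (hH (inc G)) (hH (inc G'))).symm

end Pool.Agent.Lib_helper89.Cantor
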