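import Mathlib
import Pool.Agent.Lib_helper89.CantorForward

open MeasureTheory Set TopologicalSpace

namespace Pool.Agent.Lib_helper89.Cantor

/-! ### Stone duality for the Cantor set -/

lemma ext_clopen {x y : C} (h : ∀ V : Clopens C, x ∈ V ↔ y ∈ V) : x = y := by
  funext n
  have h1 := h ⟨{z | z n = true}, isClopen_bool (continuous_apply n) true⟩
  have h2 : x n = true ↔ y n = true := h1
  cases hx : x n <;> cases hy : y n <;> simp_all

/-- The point map dual to an order isomorphism. -/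
lemma stone_point (φ : Clopens C ≃o Clopens C) (x : C) :
    ∃ y : C, ∀ V : Clopens C, y ∈ V ↔ x ∈ φ.symm V := by
  set F : Set (Clopens C) := {W | x ∈ φ.symm W} with hF
  have hinter : ∀ U ∈ F, ∀ V ∈ F, U ⊓ V ∈ F := by
    intro U hU V hV
    show x ∈ φ.symm (U ⊓ V)
    rw [OrderIso.map_inf]
    exact ⟨hU, hV⟩
  have hne : ∀ U ∈ F, (U : Set C).Nonempty := by
    intro U hU
    by_contra hcon
    rw [not_nonempty_iff_eq_empty] at hcon
    have : U = ⊥ := Clopens.ext hcon
    have hU' : x ∈ φ.symm U := hU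
    rw [this, OrderIso.map_bot] at hU'
    exact hU'
  have hFne : F.Nonempty := ⟨⊤, by show x ∈ φ.symm ⊤; rw [OrderIso.map_top]; trivial⟩
  have : Nonempty F := hFne.to_subtype
  have hcpt : (⋂ U : F, ((U : Clopens C) : Set C)).Nonempty := by
    apply IsCompact.nonempty_iInter_of_directed_nonempty_isCompact_isClosed
    · rintro ⟨U, hU⟩ ⟨V, hV⟩
      exact ⟨⟨U ⊓ V, hinter U hU V hV⟩, fun z hz => hz.1, fun z hz => hz.2⟩
    · rintro ⟨U, hU⟩; exact hne U hU
    · rintro ⟨U, hU⟩; exact U.isClopen.isClosed.isCompact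
    · rintro ⟨U, hU⟩; exact U.isClopen.isClosed
  obtain ⟨y, hy⟩ := hcpt
  have hy' : ∀ V ∈ F, y ∈ V := fun V hV => mem_iInter.mp hy ⟨V, hV⟩
  refine ⟨y, fun V => ⟨fun hyV => ?_, fun hV => hy' V hV⟩⟩
  by_contra hcon
  have h1 : Vᶜ ∈ F := by
    show x ∈ φ.symm Vᶜ
    rw [map_compl']
    exact hcon
  exact (hy' _ h1) hyV

/-- The homeomorphism dual to an order isomorphism of the clopen algebra. -/
lemma stone (φ : Clopens C ≃o Clopens C) :
    ∃ h : C ≃ₜ C, ∀ (V : Clopens C) (x : C), h x ∈ V ↔ x ∈ φ.symm V := by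
  choose h hh using stone_point φ
  choose g hg using stone_point φ.symm
  have hcont : ∀ (φ : Clopens C ≃o Clopens C) (h : C → C),
      (∀ x, ∀ V : Clopens C, h x ∈ V ↔ x ∈ φ.symm V) → Continuous h := by
    intro φ h hh
    rw [clopenBasis.continuous_iff]
    intro V hV
    have : h ⁻¹' V = (φ.symm ⟨V, hV⟩ : Clopens C) := by
      ext x; exact hh x ⟨V, hV⟩
    rw [this]
    exact (φ.symm ⟨V, hV⟩).isClopen.isOpen
  refine ⟨{ toFun := h, invFun := g, left_inv := fun x => ?_, right_inv := fun x => ?_,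
            continuous_toFun := hcont φ h hh, continuous_invFun := hcont φ.symm g hg },
          fun V x => hh x V⟩
  · apply ext_clopen
    intro V
    rw [hg, hh]; simp
  · apply ext_clopen
    intro V
    rw [hh, hg]; simp

/-! ### clopen sets enumerated -/

instance : Countable (Clopens C) := Clopens.countable_iff_secondCountable.mpr inferInstance

instance : Infinite (Clopens C) := by
  apply Infinite.of_injective (fun n : ℕ =>
    (⟨{z | z n = true}, isClopen_bool (continuous_apply n) true⟩ : Clopens C))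
  intro n m h
  by_contra hne
  have h1 : {z : C | z n = true} = {z : C | z m = true} := congrArg (fun U : Clopens C => (U : Set C)) h
  have h2 : (fun i => decide (i = n) : C) ∈ {z : C | z n = true} := by simp
  rw [h1] at h2
  simp only [mem_ofPred_eq, decide_eq_true_iff] at h2
  exact hne h2.symm

/-- enumeration of the clopen sets -/
noncomputable def en : ℕ ≃ Clopens C := (nonempty_equiv_of_countable (α := ℕ) (β := Clopens C)).some

/-- the relation `T(U_i) ⊆ U_j` -/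
def RT (T : C ≃ₜ C) (i j : ℕ) : Prop := MapsTo T (en i) (en j)

/-- inclusion of the enumerated clopen sets -/
def LE' (i j : ℕ) : Prop := en i ≤ en j

lemma preimage_clopen (h : C ≃ₜ C) (U : Clopens C) : IsClopen (h ⁻¹' (U : Set C)) :=
  U.isClopen.preimage h.continuous

/-- Conjugate homeomorphisms have isomorphic clopen structures. -/
lemma conj_to_struct {T T' : C ≃ₜ C} (h : Conj T T') :
    ∃ φ : Equiv.Perm ℕ, (∀ i j, LE' i j ↔ LE' (φ i) (φ j)) ∧
      ∀ i j, RT T i j ↔ RT T' (φ i) (φ j) := by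
  obtain ⟨h, hh⟩ := conj_iff.mp h
  -- T (h x) = h (T' x)
  let e : Clopens C ≃ Clopens C :=
    { toFun := fun U => ⟨h ⁻¹' U, preimage_clopen h U⟩
      invFun := fun U => ⟨h.symm ⁻¹' U, preimage_clopen h.symm U⟩
      left_inv := fun U => by
        apply Clopens.ext
        ext x
        show h (h.symm x) ∈ (U : Set C) ↔ _
        rw [Homeomorph.apply_symm_apply]
      right_inv := fun U => by
        apply Clopens.ext
        ext x
        show h.symm (h x) ∈ (U : Set C) ↔ _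
        rw [Homeomorph.symm_apply_apply] }
  refine ⟨(en.trans e).trans en.symm, fun i j => ?_, fun i j => ?_⟩
  · show en i ≤ en j ↔ en (en.symm (e (en i))) ≤ en (en.symm (e (en j)))
    rw [Equiv.apply_symm_apply, Equiv.apply_symm_apply]
    constructor
    · intro hle x hx; exact hle hx
    · intro hle x hx
      have : h.symm x ∈ (e (en i) : Set C) := by
        show h (h.symm x) ∈ (en i : Set C)
        rw [Homeomorph.apply_symm_apply]; exact hx
      have h2 := hle this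
      have h3 : h (h.symm x) ∈ (en j : Set C) := h2
      rw [Homeomorph.apply_symm_apply] at h3
      exact h3
  · show MapsTo T (en i) (en j) ↔
      MapsTo T' (en (en.symm (e (en i)))) (en (en.symm (e (en j))))
    rw [Equiv.apply_symm_apply, Equiv.apply_symm_apply]
    constructor
    · intro hm x hx
      show h (T' x) ∈ (en j : Set C)
      rw [← hh]; exact hm hx
    · intro hm x hx
      have h1 : h.symm x ∈ (e (en i) : Set C) := by
        show h (h.symm x) ∈ (en i : Set C)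
        rw [Homeomorph.apply_symm_apply]; exact hx
      have h2 : h (T' (h.symm x)) ∈ (en j : Set C) := hm h1
      rw [← hh, Homeomorph.apply_symm_apply] at h2
      exact h2

/-- Isomorphic clopen structures come from conjugate homeomorphisms. -/
lemma struct_to_conj {T T' : C ≃ₜ C} {φ : Equiv.Perm ℕ} (h1 : ∀ i j, LE' i j ↔ LE' (φ i) (φ j))
    (h2 : ∀ i j, RT T i j ↔ RT T' (φ i) (φ j)) : Conj T T' := by
  let Φ : Clopens C ≃o Clopens C :=
    { toEquiv := (en.symm.trans φ).trans en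
      map_rel_iff' := by
        intro U V
        show en (φ (en.symm U)) ≤ en (φ (en.symm V)) ↔ U ≤ V
        have := h1 (en.symm U) (en.symm V)
        unfold LE' at this
        rw [Equiv.apply_symm_apply, Equiv.apply_symm_apply] at this
        exact this.symm }
  have hΦ : ∀ U V : Clopens C, MapsTo T U V ↔ MapsTo T' (Φ U) (Φ V) := by
    intro U V
    have := h2 (en.symm U) (en.symm V)
    unfold RT at this
    rw [Equiv.apply_symm_apply, Equiv.apply_symm_apply] at this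
    exact this
  obtain ⟨h, hh⟩ := stone Φ
  -- T' (h x) = h (T x)
  have hcomm : ∀ x, T' (h x) = h (T x) := by
    intro x
    apply ext_clopen
    intro V
    let W : Clopens C := ⟨T ⁻¹' (Φ.symm V), preimage_clopen T _⟩
    let W' : Clopens C := ⟨T' ⁻¹' V, preimage_clopen T' _⟩
    have e1 : T' (h x) ∈ V ↔ h x ∈ W' := Iff.rfl
    have e2 : T x ∈ Φ.symm V ↔ x ∈ W := Iff.rfl
    have hWW : Φ.symm W' = W := by
      apply le_antisymm
      · have hm : MapsTo T' (Φ (Φ.symm W')) (Φ (Φ.symm V)) := by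
          rw [OrderIso.apply_symm_apply, OrderIso.apply_symm_apply]
          intro z hz; exact hz
        rw [← hΦ] at hm
        intro z hz; exact hm hz
      · have hm : MapsTo T W (Φ.symm V) := fun z hz => hz
        rw [hΦ, OrderIso.apply_symm_apply] at hm
        rw [OrderIso.le_symm_apply]
        intro z hz; exact hm hz
    rw [e1, hh, hh, e2, hWW]
  rw [conj_iff]
  refine ⟨h.symm, fun x => ?_⟩
  rw [Homeomorph.eq_symm_apply, ← hcomm, Homeomorph.apply_symm_apply]

/-! ### coding three relations by a graph -/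

/-- vertices: three sorts of elements, three markers, leaves -/
abbrev Vx : Type := (Fin 3 × ℕ) ⊕ (Fin 3 ⊕ (Fin 3 × Fin 3))

/-- element of sort `s` -/
abbrev el (s : Fin 3) (i : ℕ) : Vx := Sum.inl (s, i)
/-- marker of sort `s` -/
abbrev mk (s : Fin 3) : Vx := Sum.inr (Sum.inl s)
/-- leaf -/
abbrev lf (s t : Fin 3) : Vx := Sum.inr (Sum.inr (s, t))

/-- the generating relation -/
def base (A A' A'' : ℕ → ℕ → Prop) : Vx → Vx → Prop
  | Sum.inl (s, i), Sum.inl (s', j) =>
      (s = 0 ∧ s' = 1 ∧ A i j) ∨ (s = 1 ∧ s' = 2 ∧ A' i j) ∨ (s = 0 ∧ s' = 2 ∧ A'' i j)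
  | Sum.inl (s, _), Sum.inr (Sum.inl s') => s = s'
  | Sum.inr (Sum.inl s), Sum.inr (Sum.inr (s', t)) => s = s' ∧ t ≤ s
  | _, _ => False

/-- the graph -/
def gr (A A' A'' : ℕ → ℕ → Prop) : SimpleGraph Vx := SimpleGraph.fromRel (base A A' A'')

section Gr

variable {A A' A'' : ℕ → ℕ → Prop}

lemma gr_adj (x y : Vx) : (gr A A' A'').Adj x y ↔
    x ≠ y ∧ (base A A' A'' x y ∨ base A A' A'' y x) := by
  unfold gr; rw [SimpleGraph.fromRel_adj]

lemma adj_el_mk (s s' : Fin 3) (i : ℕ) : (gr A A' A'').Adj (el s i) (mk s') ↔ s = s' := by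
  rw [gr_adj]; simp [base]

lemma adj_mk_lf (s s' t : Fin 3) : (gr A A' A'').Adj (mk s) (lf s' t) ↔ s = s' ∧ t ≤ s := by
  rw [gr_adj]; simp [base]

lemma adj_el_lf (s s' t : Fin 3) (i : ℕ) : ¬ (gr A A' A'').Adj (el s i) (lf s' t) := by
  rw [gr_adj]; simp [base]

lemma adj_mk_mk (s s' : Fin 3) : ¬ (gr A A' A'').Adj (mk s) (mk s') := by
  rw [gr_adj]; simp [base]

lemma adj_lf_lf (s s' t t' : Fin 3) : ¬ (gr A A' A'').Adj (lf s t) (lf s' t') := by
  rw [gr_adj]; simp [base]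

lemma adj_01 (i j : ℕ) : (gr A A' A'').Adj (el 0 i) (el 1 j) ↔ A i j := by
  rw [gr_adj]; simp [base]

lemma adj_12 (i j : ℕ) : (gr A A' A'').Adj (el 1 i) (el 2 j) ↔ A' i j := by
  rw [gr_adj]; simp [base]

lemma adj_02 (i j : ℕ) : (gr A A' A'').Adj (el 0 i) (el 2 j) ↔ A'' i j := by
  rw [gr_adj]; simp [base]

end Gr

/-- exactly one neighbour -/
def Leaf {V : Type} (G : SimpleGraph V) (x : V) : Prop := ∃! y, G.Adj x y

/-- the number of leaves attached to a vertex -/
noncomputable def leafdeg {V : Type} (G : SimpleGraph V) (x : V) : ℕ :=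
  Set.ncard {y | G.Adj x y ∧ Leaf G y}

lemma leaf_map {V W : Type} {G : SimpleGraph V} {H : SimpleGraph W} (ψ : G ≃g H) (x : V) :
    Leaf H (ψ x) ↔ Leaf G x := by
  constructor
  · rintro ⟨y, hy, huniq⟩
    refine ⟨ψ.symm y, ?_, fun z hz => ?_⟩
    · have : H.Adj (ψ x) (ψ (ψ.symm y)) := by
        rw [RelIso.apply_symm_apply]; exact hy
      exact ψ.map_adj_iff.mp this
    · have := huniq (ψ z) (ψ.map_adj_iff.mpr hz)
      rw [← this, RelIso.symm_apply_apply]
  · rintro ⟨y, hy, huniq⟩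
    refine ⟨ψ y, ψ.map_adj_iff.mpr hy, fun z hz => ?_⟩
    have : G.Adj x (ψ.symm z) := by
      apply ψ.map_adj_iff.mp
      rw [RelIso.apply_symm_apply]; exact hz
    rw [← huniq _ this, RelIso.apply_symm_apply]

lemma leafdeg_map {V W : Type} {G : SimpleGraph V} {H : SimpleGraph W} (ψ : G ≃g H) (x : V) :
    leafdeg H (ψ x) = leafdeg G x := by
  unfold leafdeg
  have : {y | H.Adj (ψ x) y ∧ Leaf H y} = ψ '' {y | G.Adj x y ∧ Leaf G y} := by
    ext y
    simp only [mem_ofPred_eq, mem_image]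
    constructor
    · rintro ⟨h1, h2⟩
      refine ⟨ψ.symm y, ⟨?_, ?_⟩, RelIso.apply_symm_apply _ _⟩
      · apply ψ.map_adj_iff.mp
        rw [RelIso.apply_symm_apply]; exact h1
      · rw [← leaf_map ψ, RelIso.apply_symm_apply]; exact h2
    · rintro ⟨z, ⟨h1, h2⟩, rfl⟩
      exact ⟨ψ.map_adj_iff.mpr h1, (leaf_map ψ z).mpr h2⟩
  rw [this, Set.ncard_image_of_injective _ ψ.injective]

/-- non-degeneracy of the three relations -/
def Good (A A' : ℕ → ℕ → Prop) : Prop :=
  (∀ i, ∃ j, A i j) ∧ (∀ j, ∃ i, A i j) ∧ ∀ j, ∃ i, A' i j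

section Rec

variable {A A' A'' : ℕ → ℕ → Prop}

lemma not_leaf_of_two {V : Type} {G : SimpleGraph V} {x y z : V} (h1 : G.Adj x y)
    (h2 : G.Adj x z) (h3 : y ≠ z) : ¬ Leaf G x := by
  rintro ⟨w, _, hw⟩
  exact h3 ((hw y h1).trans (hw z h2).symm)

lemma not_leaf_el (hg : Good A A') (s : Fin 3) (i : ℕ) : ¬ Leaf (gr A A' A'') (el s i) := by
  have h1 : (gr A A' A'').Adj (el s i) (mk s) := (adj_el_mk s s i).mpr rfl
  fin_cases s
  · obtain ⟨j, hj⟩ := hg.1 i
    exact not_leaf_of_two h1 ((adj_01 i j).mpr hj) (by simp)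
  · obtain ⟨j, hj⟩ := hg.2.1 i
    exact not_leaf_of_two h1 ((adj_01 (A' := A') (A'' := A'') j i).mpr hj).symm (by simp)
  · obtain ⟨j, hj⟩ := hg.2.2 i
    exact not_leaf_of_two h1 ((adj_12 (A := A) (A'' := A'') j i).mpr hj).symm (by simp)

lemma not_leaf_mk (s : Fin 3) : ¬ Leaf (gr A A' A'') (mk s) := by
  refine not_leaf_of_two (y := el s 0) (z := el s 1) ?_ ?_ (by simp)
  · exact ((adj_el_mk s s 0).mpr rfl).symm
  · exact ((adj_el_mk s s 1).mpr rfl).symm

lemma leaf_lf (s t : Fin 3) : Leaf (gr A A' A'') (lf s t) ↔ t ≤ s := by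
  constructor
  · rintro ⟨y, hy, _⟩
    rcases y with ⟨s', i⟩ | s' | ⟨s', t'⟩
    · exact absurd hy.symm (adj_el_lf s' s t i)
    · have := (adj_mk_lf s' s t).mp hy.symm
      obtain ⟨rfl, h⟩ := this
      exact h
    · exact absurd hy (adj_lf_lf _ _ _ _)
  · intro hts
    refine ⟨mk s, ((adj_mk_lf s s t).mpr ⟨rfl, hts⟩).symm, fun y hy => ?_⟩
    rcases y with ⟨s', i⟩ | s' | ⟨s', t'⟩
    · exact absurd hy.symm (adj_el_lf s' s t i)
    · obtain ⟨rfl, _⟩ := (adj_mk_lf s' s t).mp hy.symm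
      rfl
    · exact absurd hy (adj_lf_lf _ _ _ _)

lemma leafdeg_mk (hg : Good A A') (s : Fin 3) :
    leafdeg (gr A A' A'') (mk s) = (s : ℕ) + 1 := by
  unfold leafdeg
  have : {y | (gr A A' A'').Adj (mk s) y ∧ Leaf (gr A A' A'') y} =
      (fun t : Fin 3 => lf s t) '' ((Finset.Iic s : Finset (Fin 3)) : Set (Fin 3)) := by
    ext y
    simp only [mem_ofPred_eq, mem_image, Finset.coe_Iic, mem_Iic]
    constructor
    · rintro ⟨h1, h2⟩
      rcases y with ⟨s', i⟩ | s' | ⟨s', t'⟩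
      · exact absurd h2 (not_leaf_el hg s' i)
      · exact absurd h1 (adj_mk_mk _ _)
      · obtain ⟨rfl, h⟩ := (adj_mk_lf s s' t').mp h1
        exact ⟨t', h, rfl⟩
    · rintro ⟨t, ht, rfl⟩
      exact ⟨(adj_mk_lf s s t).mpr ⟨rfl, ht⟩, (leaf_lf s t).mpr ht⟩
  rw [this, Set.ncard_image_of_injective _ (fun t t' h => by simpa using h),
    Set.ncard_coe_finset, Fin.card_Iic]

lemma leafdeg_el (hg : Good A A') (s : Fin 3) (i : ℕ) :
    leafdeg (gr A A' A'') (el s i) = 0 := by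
  unfold leafdeg
  have : {y | (gr A A' A'').Adj (el s i) y ∧ Leaf (gr A A' A'') y} = ∅ := by
    rw [Set.eq_empty_iff_forall_notMem]
    rintro y ⟨h1, h2⟩
    rcases y with ⟨s', j⟩ | s' | ⟨s', t'⟩
    · exact not_leaf_el hg s' j h2
    · exact not_leaf_mk s' h2
    · exact adj_el_lf _ _ _ _ h1
  rw [this, Set.ncard_empty]

lemma leafdeg_lf (hg : Good A A') (s t : Fin 3) :
    leafdeg (gr A A' A'') (lf s t) = 0 := by
  unfold leafdeg
  have : {y | (gr A A' A'').Adj (lf s t) y ∧ Leaf (gr A A' A'') y} = ∅ := by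
    rw [Set.eq_empty_iff_forall_notMem]
    rintro y ⟨h1, h2⟩
    rcases y with ⟨s', j⟩ | s' | ⟨s', t'⟩
    · exact not_leaf_el hg s' j h2
    · exact not_leaf_mk s' h2
    · exact adj_lf_lf _ _ _ _ h1
  rw [this, Set.ncard_empty]

variable {D D' D'' : ℕ → ℕ → Prop}

lemma iso_mk (hA : Good A A') (hD : Good D D') (ψ : gr A A' A'' ≃g gr D D' D'') (s : Fin 3) :
    ψ (mk s) = mk s := by
  have h1 := leafdeg_map ψ (mk s)
  rw [leafdeg_mk hA] at h1
  rcases h : ψ (mk s) with ⟨s', i⟩ | s' | ⟨s', t'⟩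
  · rw [h, leafdeg_el hD] at h1; omega
  · rw [h, leafdeg_mk hD] at h1
    have : s' = s := Fin.ext (by omega)
    rw [this]
  · rw [h, leafdeg_lf hD] at h1; omega

lemma iso_el (hA : Good A A') (hD : Good D D') (ψ : gr A A' A'' ≃g gr D D' D'')
    (s : Fin 3) (i : ℕ) : ∃ j, ψ (el s i) = el s j := by
  have h1 : (gr D D' D'').Adj (ψ (el s i)) (ψ (mk s)) :=
    ψ.map_adj_iff.mpr ((adj_el_mk s s i).mpr rfl)
  rw [iso_mk hA hD] at h1
  have h2 : ¬ Leaf (gr D D' D'') (ψ (el s i)) := by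
    rw [leaf_map]; exact not_leaf_el hA s i
  rcases h : ψ (el s i) with ⟨s', j⟩ | s' | ⟨s', t'⟩
  · rw [h] at h1
    have := (adj_el_mk s' s j).mp h1
    exact ⟨j, by rw [this]⟩
  · rw [h] at h1; exact absurd h1 (adj_mk_mk _ _)
  · exfalso
    rw [h] at h1 h2
    obtain ⟨rfl, h3⟩ := (adj_mk_lf s s' t').mp h1.symm
    exact h2 ((leaf_lf s t').mpr h3)

/-- an isomorphism of the coding graphs gives permutations of the three sorts -/
lemma iso_perms (hA : Good A A') (hD : Good D D') (ψ : gr A A' A'' ≃g gr D D' D'') :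
    ∃ φ : Fin 3 → Equiv.Perm ℕ, ∀ s i, ψ (el s i) = el s (φ s i) := by
  have h1 : ∀ s, ∃ f : ℕ → ℕ, ∀ i, ψ (el s i) = el s (f i) := fun s =>
    ⟨fun i => (iso_el hA hD ψ s i).choose, fun i => (iso_el hA hD ψ s i).choose_spec⟩
  choose f hf using h1
  have h2 : ∀ s, ∃ g : ℕ → ℕ, ∀ i, ψ.symm (el s i) = el s (g i) := fun s =>
    ⟨fun i => (iso_el hD hA ψ.symm s i).choose, fun i => (iso_el hD hA ψ.symm s i).choose_spec⟩
  choose g hg using h2
  refine ⟨fun s => ⟨f s, g s, fun i => ?_, fun i => ?_⟩, fun s i => hf s i⟩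
  · have := ψ.symm_apply_apply (el s i)
    rw [hf, hg] at this
    simpa using this
  · have := ψ.apply_symm_apply (el s i)
    rw [hg, hf] at this
    simpa using this

/-- permutations respecting the relations give an isomorphism -/
lemma perms_iso {φ : Fin 3 → Equiv.Perm ℕ} (h1 : ∀ i j, A i j ↔ D (φ 0 i) (φ 1 j))
    (h2 : ∀ i j, A' i j ↔ D' (φ 1 i) (φ 2 j)) (h3 : ∀ i j, A'' i j ↔ D'' (φ 0 i) (φ 2 j)) :
    Nonempty (gr A A' A'' ≃g gr D D' D'') := by
  let e : (Fin 3 × ℕ) ≃ (Fin 3 × ℕ) :=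
    { toFun := fun p => (p.1, φ p.1 p.2)
      invFun := fun p => (p.1, (φ p.1).symm p.2)
      left_inv := fun p => by simp
      right_inv := fun p => by simp }
  let E : Vx ≃ Vx := e.sumCongr (Equiv.refl _)
  have hbase : ∀ x y, base D D' D'' (E x) (E y) ↔ base A A' A'' x y := by
    intro x y
    rcases x with ⟨s, i⟩ | s | ⟨s, t⟩ <;> rcases y with ⟨s', j⟩ | s' | ⟨s', t'⟩
    · show ((s = 0 ∧ s' = 1 ∧ D (φ s i) (φ s' j)) ∨ (s = 1 ∧ s' = 2 ∧ D' (φ s i) (φ s' j)) ∨
        (s = 0 ∧ s' = 2 ∧ D'' (φ s i) (φ s' j))) ↔ ((s = 0 ∧ s' = 1 ∧ A i j) ∨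
        (s = 1 ∧ s' = 2 ∧ A' i j) ∨ (s = 0 ∧ s' = 2 ∧ A'' i j))
      constructor
      · rintro (⟨rfl, rfl, h⟩ | ⟨rfl, rfl, h⟩ | ⟨rfl, rfl, h⟩)
        · exact Or.inl ⟨rfl, rfl, (h1 _ _).mpr h⟩
        · exact Or.inr (Or.inl ⟨rfl, rfl, (h2 _ _).mpr h⟩)
        · exact Or.inr (Or.inr ⟨rfl, rfl, (h3 _ _).mpr h⟩)
      · rintro (⟨rfl, rfl, h⟩ | ⟨rfl, rfl, h⟩ | ⟨rfl, rfl, h⟩)
        · exact Or.inl ⟨rfl, rfl, (h1 _ _).mp h⟩
        · exact Or.inr (Or.inl ⟨rfl, rfl, (h2 _ _).mp h⟩)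
        · exact Or.inr (Or.inr ⟨rfl, rfl, (h3 _ _).mp h⟩)
    all_goals exact Iff.rfl
  refine ⟨⟨E, ?_⟩⟩
  intro x y
  rw [gr_adj, gr_adj, hbase, hbase, E.injective.ne_iff]

end Rec

/-! ### the reduction -/

lemma good_le : Good LE' LE' :=
  ⟨fun i => ⟨i, le_rfl⟩, fun i => ⟨i, le_rfl⟩, fun i => ⟨i, le_rfl⟩⟩

/-- two copies of the order determine the same permutation -/
lemma perm_eq {f g : Equiv.Perm ℕ} (h : ∀ i j, LE' i j ↔ LE' (f i) (g j)) : f = g := by
  ext i
  apply en.injective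
  have hab : ∀ i j, en i ≤ en j ↔ en (f i) ≤ en (g j) := h
  apply le_antisymm
  · exact (hab i i).mp le_rfl
  · obtain ⟨i', hi'⟩ := f.surjective (g i)
    obtain ⟨j', hj'⟩ := g.surjective (f i)
    have e1 : en i' ≤ en i := by rw [hab, hi']
    have e2 : en i ≤ en j' := by rw [hab, hj']
    have e3 := (hab i' j').mp (le_trans e1 e2)
    rw [hi', hj'] at e3
    exact e3

/-- bijection of the vertices with `ℕ` -/
noncomputable def ev : ℕ ≃ Vx := (nonempty_equiv_of_countable (α := ℕ) (β := Vx)).some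

/-- the graph attached to a homeomorphism -/
noncomputable def grT (T : C ≃ₜ C) : SimpleGraph ℕ := (gr LE' LE' (RT T)).comap ev

lemma grT_iso_iff (T T' : C ≃ₜ C) :
    GraphIso (grT T) (grT T') ↔ Nonempty (gr LE' LE' (RT T) ≃g gr LE' LE' (RT T')) := by
  unfold GraphIso grT
  constructor
  · rintro ⟨ψ⟩
    exact ⟨((SimpleGraph.Iso.comap ev _).symm.trans ψ).trans (SimpleGraph.Iso.comap ev _)⟩
  · rintro ⟨ψ⟩
    exact ⟨((SimpleGraph.Iso.comap ev _).trans ψ).trans (SimpleGraph.Iso.comap ev _).symm⟩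

lemma conj_iff_grT (T T' : C ≃ₜ C) : Conj T T' ↔ GraphIso (grT T) (grT T') := by
  rw [grT_iso_iff]
  constructor
  · intro h
    obtain ⟨φ, h1, h2⟩ := conj_to_struct h
    exact perms_iso (φ := fun _ => φ) h1 h1 h2
  · rintro ⟨ψ⟩
    obtain ⟨φ, hφ⟩ := iso_perms good_le good_le ψ
    have e1 : ∀ i j, LE' i j ↔ LE' (φ 0 i) (φ 1 j) := by
      intro i j
      rw [← adj_01 (A := LE') (A' := LE') (A'' := RT T), ← adj_01 (A := LE') (A' := LE') (A'' := RT T'),
        ← hφ, ← hφ]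
      exact ψ.map_adj_iff.symm
    have e2 : ∀ i j, LE' i j ↔ LE' (φ 1 i) (φ 2 j) := by
      intro i j
      rw [← adj_12 (A := LE') (A' := LE') (A'' := RT T), ← adj_12 (A := LE') (A' := LE') (A'' := RT T'),
        ← hφ, ← hφ]
      exact ψ.map_adj_iff.symm
    have e3 : ∀ i j, RT T i j ↔ RT T' (φ 0 i) (φ 2 j) := by
      intro i j
      rw [← adj_02 (A := LE') (A' := LE') (A'' := RT T), ← adj_02 (A := LE') (A' := LE') (A'' := RT T'),
        ← hφ, ← hφ]
      exact ψ.map_adj_iff.symm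
    have f1 := perm_eq e1
    have f2 := perm_eq e2
    rw [← f1] at e1 f2
    rw [← f2] at e3
    exact struct_to_conj e1 e3

lemma measurable_grT : Measurable grT := by
  rw [measurable_comap_iff]
  apply measurable_pi_lambda
  intro i
  apply measurable_pi_lambda
  intro j
  rw [← measurableSet_setOfPred]
  show MeasurableSet {T : C ≃ₜ C | (gr LE' LE' (RT T)).Adj (ev i) (ev j)}
  have hRT : ∀ i j, MeasurableSet {T : C ≃ₜ C | RT T i j} := fun i j =>
    measurableSet_mapsTo _ _ (en i).isClopen (en j).isClopen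
  have hb : ∀ x y : Vx, MeasurableSet {T : C ≃ₜ C | base LE' LE' (RT T) x y} := by
    intro x y
    rcases x with ⟨s, i⟩ | s | ⟨s, t⟩ <;> rcases y with ⟨s', j⟩ | s' | ⟨s', t'⟩
    · have : {T : C ≃ₜ C | base LE' LE' (RT T) (Sum.inl (s, i)) (Sum.inl (s', j))} =
          {_T | s = 0 ∧ s' = 1 ∧ LE' i j} ∪ ({_T | s = 1 ∧ s' = 2 ∧ LE' i j} ∪
          ({_T | s = 0 ∧ s' = 2} ∩ {T | RT T i j})) := by
        ext T
        simp only [mem_ofPred_eq, mem_union, mem_inter_iff, base]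
        tauto
      rw [this]
      exact (MeasurableSet.const _).union ((MeasurableSet.const _).union
        ((MeasurableSet.const _).inter (hRT i j)))
    all_goals exact MeasurableSet.const _
  have : {T : C ≃ₜ C | (gr LE' LE' (RT T)).Adj (ev i) (ev j)} =
      {_T | ev i ≠ ev j} ∩ ({T | base LE' LE' (RT T) (ev i) (ev j)} ∪
        {T | base LE' LE' (RT T) (ev j) (ev i)}) := by
    ext T
    simp only [mem_ofPred_eq, gr_adj, mem_inter_iff, mem_union]
  rw [this]
  exact (MeasurableSet.const _).inter ((hb _ _).union (hb _ _))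

/-- Conjugacy of transitive homeomorphisms is Borel reducible to graph isomorphism. -/
theorem trans_to_graph : BorelReducible ConjTrans GraphIso :=
  ⟨fun T => grT T.1, measurable_grT.comp measurable_subtype_coe, fun _ _ => conj_iff_grT _ _⟩

end Pool.Agent.Lib_helper89.Cantor
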