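import Mathlib

/-!
Definitions for the matrix-vector query model (problem MP_f4f106_lc).
-/

open MeasureTheory ProbabilityTheory Matrix

namespace Pool.Agent.Lib_helper89.MatVec

/-- Real vectors with `n` coordinates. -/
abbrev Vec (n : ℕ) := Fin n → ℝ

/-- The Euclidean norm. -/
noncomputable def norm2 {n : ℕ} (x : Vec n) : ℝ := Real.sqrt (∑ i, x i ^ 2)

/-- The law of `n * n` independent standard Gaussian entries. -/
noncomputable def gaussianEntries (n : ℕ) : Measure (Fin n × Fin n → ℝ) :=
  Measure.pi fun _ => gaussianReal 0 1

/-- The matrix with the given entries. -/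
def toMatrix {n : ℕ} (g : Fin n × Fin n → ℝ) : Matrix (Fin n) (Fin n) ℝ :=
  Matrix.of fun i j => g (i, j)

/-- A randomised adaptive algorithm in the matrix-vector product model for `n × n` matrices that
makes `q` queries; `Ω` is the space of its random seeds.  `query b k ω a` is the vector submitted
as query number `k` (counting from `0`) on right-hand side `b`, with seed `ω`, after the answers
`a` to the first `k` queries; an answer is the pair `(A v, Aᵀ v)`.  `output b ω a` is the vector
returned after the answers `a` to all `q` queries. -/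
structure Algorithm (Ω : Type*) [MeasurableSpace Ω] (n q : ℕ) where
  query : Vec n → (k : ℕ) → Ω → (Fin k → Vec n × Vec n) → Vec n
  output : Vec n → Ω → (Fin q → Vec n × Vec n) → Vec n
  measurable_query : ∀ b k, Measurable fun p : Ω × (Fin k → Vec n × Vec n) => query b k p.1 p.2
  measurable_output : ∀ b, Measurable fun p : Ω × (Fin q → Vec n × Vec n) => output b p.1 p.2

namespace Algorithm

variable {Ω : Type*} [MeasurableSpace Ω] {n q : ℕ}

/-- The answers to the first `k` queries when the hidden matrix is `A`. -/
def answers (alg : Algorithm Ω n q) (b : Vec n) (ω : Ω) (A : Matrix (Fin n) (Fin n) ℝ) :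
    (k : ℕ) → (Fin k → Vec n × Vec n)
  | 0 => Fin.elim0
  | k + 1 => Fin.snoc (alg.answers b ω A k)
      (A *ᵥ alg.query b k ω (alg.answers b ω A k), Aᵀ *ᵥ alg.query b k ω (alg.answers b ω A k))

/-- The vector returned when the hidden matrix is `A`. -/
def run (alg : Algorithm Ω n q) (b : Vec n) (ω : Ω) (A : Matrix (Fin n) (Fin n) ℝ) : Vec n :=
  alg.output b ω (alg.answers b ω A q)

/-- The algorithm solves `A x = b` to accuracy `ε`, for a matrix `A` with independent standard
Gaussian entries: for every `b` the output `x` satisfies `‖A x - b‖ ≤ ε ‖b‖` with probability at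
least `2/3` over the seed (of law `μ`) and `A`. -/
def Solves (alg : Algorithm Ω n q) (μ : Measure Ω) (ε : ℝ) : Prop :=
  ∀ b : Vec n, 2 / 3 ≤ (μ.prod (gaussianEntries n))
    {p | norm2 (toMatrix p.2 *ᵥ alg.run b p.1 (toMatrix p.2) - b) ≤ ε * norm2 b}

end Algorithm

end Pool.Agent.Lib_helper89.MatVec
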