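import Pool.Agent.Lib_helper89.MVProj

/-!
Adaptive exploration of a Gaussian matrix.
-/

open MeasureTheory ProbabilityTheory Matrix
open scoped ENNReal

namespace MVQ

/-- A pair of adaptively chosen projections `P` (unseen right directions) and `Q` (unseen left
directions) such that the block `Q A P` is a fresh Gaussian block. -/
structure Expl (n : ℕ) where
  P : Mat n → Mat n
  Q : Mat n → Mat n
  measP : Measurable P
  measQ : Measurable Q
  prP : ∀ A, IsPr (P A)
  prQ : ∀ A, IsPr (Q A)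
  locP : ∀ A X, P (A - Q A * A * P A + Q A * X * P A) = P A
  locQ : ∀ A X, Q (A - Q A * A * P A + Q A * X * P A) = Q A
  law : ∀ f : Mat n → ℝ≥0∞, Measurable f →
    ∫⁻ A, ∫⁻ G, f (A - Q A * A * P A + Q A * G * P A) ∂(gam n) ∂(gam n) = ∫⁻ A, f A ∂(gam n)

variable {n : ℕ}

/-- A function of the matrix that only depends on the part already seen. -/
def Expl.Loc (E : Expl n) {α : Type*} (φ : Mat n → α) : Prop :=
  ∀ A X, φ (A - E.Q A * A * E.P A + E.Q A * X * E.P A) = φ A

/-- The start: nothing seen on the right, a fixed projection on the left. -/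
noncomputable def Expl.init (Q₀ : Mat n) (h : IsPr Q₀) : Expl n where
  P := fun _ => 1
  Q := fun _ => Q₀
  measP := measurable_const
  measQ := measurable_const
  prP := fun _ => IsPr.one
  prQ := fun _ => h
  locP := fun _ _ => rfl
  locQ := fun _ _ => rfl
  law := fun f hf => lintegral_resample_mat Q₀ 1 h.1 transpose_one h.2 (Matrix.mul_one 1) f hf

/-- Auxiliary identity. -/
lemma refine_aux {P Q P' Q' A X : Mat n} (hPP' : P' * P = P') (hQQ' : Q * Q' = Q') :
    A - Q' * A * P' + Q' * X * P' =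
      A - Q * A * P + Q * (A - Q' * A * P' + Q' * X * P') * P := by
  have h1 : Q * (A - Q' * A * P' + Q' * X * P') * P = Q * A * P - Q' * A * P' + Q' * X * P' := by
    rw [Matrix.mul_add, Matrix.mul_sub, Matrix.add_mul, Matrix.sub_mul]
    rw [show Q * (Q' * A * P') * P = (Q * Q') * A * (P' * P) by simp only [Matrix.mul_assoc],
      show Q * (Q' * X * P') * P = (Q * Q') * X * (P' * P) by simp only [Matrix.mul_assoc],
      hPP', hQQ']
  rw [h1]; abel

/-- Refine an exploration. -/
noncomputable def Expl.refine (E : Expl n) (P' Q' : Mat n → Mat n) (mP : Measurable P')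
    (mQ : Measurable Q') (prP : ∀ A, IsPr (P' A)) (prQ : ∀ A, IsPr (Q' A))
    (hP1 : ∀ A, P' A * E.P A = P' A) (hP2 : ∀ A, E.P A * P' A = P' A)
    (hQ1 : ∀ A, Q' A * E.Q A = Q' A) (hQ2 : ∀ A, E.Q A * Q' A = Q' A)
    (lP : E.Loc P') (lQ : E.Loc Q') : Expl n where
  P := P'
  Q := Q'
  measP := mP
  measQ := mQ
  prP := prP
  prQ := prQ
  locP := by
    intro A X
    rw [refine_aux (hP1 A) (hQ2 A)]
    exact lP _ _
  locQ := by
    intro A X
    rw [refine_aux (hP1 A) (hQ2 A)]
    exact lQ _ _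
  law := by
    intro f hf
    have hmF : Measurable fun p : Mat n × Mat n =>
        f (p.1 - Q' p.1 * p.1 * P' p.1 + Q' p.1 * p.2 * P' p.1) := by fun_prop
    have h1 := E.law (fun A => ∫⁻ G, f (A - Q' A * A * P' A + Q' A * G * P' A) ∂(gam n))
      hmF.lintegral_prod_right'
    rw [← h1]
    have h2 := E.law f hf
    rw [← h2]
    congr 1
    funext A
    have hmg : Measurable fun X : Mat n => f (A - E.Q A * A * E.P A + E.Q A * X * E.P A) := by
      fun_prop
    rw [← lintegral_resample_mat (Q' A) (P' A) (prQ A).1 (prP A).1 (prQ A).2 (prP A).2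
      (fun X => f (A - E.Q A * A * E.P A + E.Q A * X * E.P A)) hmg]
    congr 1
    funext G₁
    congr 1
    funext G₂
    have e1 : P' (A - E.Q A * A * E.P A + E.Q A * G₁ * E.P A) = P' A := lP A G₁
    have e2 : Q' (A - E.Q A * A * E.P A + E.Q A * G₁ * E.P A) = Q' A := lQ A G₁
    congr 1
    rw [e1, e2]
    have h3 : Q' A * (A - E.Q A * A * E.P A + E.Q A * G₁ * E.P A) * P' A = Q' A * G₁ * P' A := by
      rw [Matrix.mul_add, Matrix.mul_sub, Matrix.add_mul, Matrix.sub_mul]
      rw [show Q' A * (E.Q A * A * E.P A) * P' A = (Q' A * E.Q A) * A * (E.P A * P' A) by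
          simp only [Matrix.mul_assoc],
        show Q' A * (E.Q A * G₁ * E.P A) * P' A = (Q' A * E.Q A) * G₁ * (E.P A * P' A) by
          simp only [Matrix.mul_assoc], hQ1, hP2]
      abel
    rw [h3]
    have h4 : E.Q A * (G₁ - Q' A * G₁ * P' A + Q' A * G₂ * P' A) * E.P A =
        E.Q A * G₁ * E.P A - Q' A * G₁ * P' A + Q' A * G₂ * P' A := by
      rw [Matrix.mul_add, Matrix.mul_sub, Matrix.add_mul, Matrix.sub_mul]
      rw [show E.Q A * (Q' A * G₁ * P' A) * E.P A = (E.Q A * Q' A) * G₁ * (P' A * E.P A) by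
          simp only [Matrix.mul_assoc],
        show E.Q A * (Q' A * G₂ * P' A) * E.P A = (E.Q A * Q' A) * G₂ * (P' A * E.P A) by
          simp only [Matrix.mul_assoc], hQ2, hP1]
    rw [h4]
    abel

/-- Locality is inherited by refinements. -/
lemma Expl.Loc.mono {E E' : Expl n} (hP : ∀ A, E'.P A * E.P A = E'.P A)
    (hQ : ∀ A, E.Q A * E'.Q A = E'.Q A) {α : Type*} {φ : Mat n → α} (h : E.Loc φ) :
    E'.Loc φ := by
  intro A X
  rw [refine_aux (hP A) (hQ A)]
  exact h _ _

end MVQ
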