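import Pool.Agent.Lib_helper89.MVInv

/-!
Bound for the success probability of a deterministic strategy.
-/

open MeasureTheory ProbabilityTheory Matrix Module
open scoped ENNReal

namespace MVQ

variable {n : ℕ}

lemma gg_nonneg (σ : Strat n) (b : Fin n → ℝ) (k : ℕ) (A : Mat n) : 0 ≤ gg σ b k A :=
  cos2_nonneg _ _

lemma lintegral_sum_gg_le {σ : Strat n} {b : Fin n → ℝ} (hσ : ∀ k, Measurable (σ k))
    (hb : b ⬝ᵥ b = 1) (q : ℕ) (hq : 2 * q + 1 < n) :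
    ∫⁻ A, ENNReal.ofReal (∑ j ∈ Finset.range (q + 1), gg σ b j A) ∂(gam n) ≤
      ENNReal.ofReal ((q + 1) / (n - 2 * q - 1)) := by
  have hpos : (0 : ℝ) < n - 2 * q - 1 := by
    have : ((2 * q + 1 : ℕ) : ℝ) < n := by exact_mod_cast hq
    push_cast at this; linarith
  have h1 : ∀ A, ENNReal.ofReal (∑ j ∈ Finset.range (q + 1), gg σ b j A) =
      ∑ j ∈ Finset.range (q + 1), ENNReal.ofReal (gg σ b j A) := fun A =>
    ENNReal.ofReal_sum_of_nonneg fun j _ => gg_nonneg _ _ _ _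
  simp_rw [h1]
  rw [lintegral_finsetSum _ fun j _ => (measurable_gg hσ j).ennreal_ofReal]
  calc ∑ j ∈ Finset.range (q + 1), ∫⁻ A, ENNReal.ofReal (gg σ b j A) ∂(gam n)
      ≤ ∑ j ∈ Finset.range (q + 1), ENNReal.ofReal (1 / (n - 2 * q - 1)) := by
        refine Finset.sum_le_sum fun j hj => ?_
        have hj' : j ≤ q := Nat.lt_succ_iff.1 (Finset.mem_range.1 hj)
        refine (lintegral_gg_le hσ hb j (by omega)).trans ?_
        apply ENNReal.ofReal_le_ofReal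
        have : (j : ℝ) ≤ q := by exact_mod_cast hj'
        exact one_div_le_one_div_of_le hpos (by linarith)
    _ = ENNReal.ofReal ((q + 1) / (n - 2 * q - 1)) := by
        rw [Finset.sum_const, Finset.card_range, nsmul_eq_mul, ← ENNReal.ofReal_natCast,
          ← ENNReal.ofReal_mul (by positivity)]
        congr 1
        push_cast
        ring

/-- Success probability bound for a deterministic strategy. -/
lemma success_le {σ : Strat n} {b : Fin n → ℝ} (hσ : ∀ k, Measurable (σ k))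
    (hb : b ⬝ᵥ b = 1) (q : ℕ) (hq : 2 * q + 1 < n) (ε K T : ℝ) (hK : 0 < K) (hT : 0 < T)
    (hη : K ^ 2 * n * ε ^ 2 * T < 1) :
    gam n {A : Mat n | (b - A *ᵥ vv σ q A) ⬝ᵥ (b - A *ᵥ vv σ q A) ≤ ε ^ 2} ≤
      ENNReal.ofReal (16 / K + 1 / T +
        (q + 1) / (n - 2 * q - 1) / (1 - K ^ 2 * n * ε ^ 2 * T)) := by
  have hpos : (0 : ℝ) < n - 2 * q - 1 := by
    have : ((2 * q + 1 : ℕ) : ℝ) < n := by exact_mod_cast hq
    push_cast at this; linarith
  set η := K ^ 2 * n * ε ^ 2 * T with hηdef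
  have hcover : {A : Mat n | (b - A *ᵥ vv σ q A) ⬝ᵥ (b - A *ᵥ vv σ q A) ≤ ε ^ 2} ⊆
      (({A : Mat n | ∃ r : Fin n → ℝ, K ^ 2 * n * (r ⬝ᵥ r) < (A⁻¹ *ᵥ r) ⬝ᵥ (A⁻¹ *ᵥ r)} ∪
      {A | T ≤ ((A⁻¹ *ᵥ b) ⬝ᵥ (A⁻¹ *ᵥ b))⁻¹}) ∪
      {A | ENNReal.ofReal (1 - η) ≤
        ENNReal.ofReal (∑ j ∈ Finset.range (q + 1), gg σ b j A)}) ∪ {A | ¬ A.det ≠ 0} := by
    intro A hA
    by_cases h1 : A ∈ {A : Mat n | ∃ r : Fin n → ℝ,
        K ^ 2 * n * (r ⬝ᵥ r) < (A⁻¹ *ᵥ r) ⬝ᵥ (A⁻¹ *ᵥ r)}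
    · exact Or.inl (Or.inl (Or.inl h1))
    by_cases h2 : A ∈ {A : Mat n | T ≤ ((A⁻¹ *ᵥ b) ⬝ᵥ (A⁻¹ *ᵥ b))⁻¹}
    · exact Or.inl (Or.inl (Or.inr h2))
    by_cases h3 : A.det = 0
    · right
      simp [h3]
    left; right
    simp only [Set.mem_ofPred_eq, not_exists, not_lt, not_le] at h1 h2 hA ⊢
    apply ENNReal.ofReal_le_ofReal
    refine le_trans ?_ (sum_gg_of_success q A h3 hb)
    apply sub_le_sub_left
    rw [div_eq_mul_inv]
    have h4 := h1 (b - A *ᵥ vv σ q A)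
    have h5 : (A⁻¹ *ᵥ (b - A *ᵥ vv σ q A)) ⬝ᵥ (A⁻¹ *ᵥ (b - A *ᵥ vv σ q A)) ≤
        K ^ 2 * n * ε ^ 2 := h4.trans (by gcongr)
    have h6 : 0 ≤ ((A⁻¹ *ᵥ b) ⬝ᵥ (A⁻¹ *ᵥ b))⁻¹ := inv_nonneg.2 (dotProduct_self_nonneg' _)
    rw [hηdef]
    exact mul_le_mul h5 h2.le h6 (by positivity)
  have h0 : gam n {A : Mat n | ¬ A.det ≠ 0} = 0 := ae_iff.1 (ae_det_ne_zero n)
  have h1 := bad_inv (n := n) K hK
  have h2 := tail_large b hb T hT
  have h3 : gam n {A | ENNReal.ofReal (1 - η) ≤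
        ENNReal.ofReal (∑ j ∈ Finset.range (q + 1), gg σ b j A)} ≤
        ENNReal.ofReal ((q + 1) / (n - 2 * q - 1) / (1 - η)) := by
    have hm : Measurable fun A : Mat n => ENNReal.ofReal (∑ j ∈ Finset.range (q + 1), gg σ b j A) :=
      (Finset.measurable_sum _ fun j _ => measurable_gg hσ j).ennreal_ofReal
    have h4 := mul_meas_ge_le_lintegral₀ (μ := gam n) hm.aemeasurable (ENNReal.ofReal (1 - η))
    have h5 := h4.trans (lintegral_sum_gg_le hσ hb q hq)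
    have h6 : ENNReal.ofReal ((q + 1) / (n - 2 * q - 1)) = ENNReal.ofReal (1 - η) *
        ENNReal.ofReal ((q + 1) / (n - 2 * q - 1) / (1 - η)) := by
      rw [← ENNReal.ofReal_mul (by linarith)]
      congr 1
      have : (1 - η) ≠ 0 := by linarith
      field_simp
    rw [h6] at h5
    refine (ENNReal.mul_le_mul_iff_right ?_ ENNReal.ofReal_ne_top).1 h5
    simp only [ne_eq, ENNReal.ofReal_eq_zero, not_le]
    linarith
  refine (measure_mono hcover).trans ?_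
  refine (measure_union_le _ _).trans ?_
  rw [h0, add_zero]
  refine (measure_union_le _ _).trans ?_
  have hq1 : (0 : ℝ) ≤ (q + 1) / (n - 2 * q - 1) / (1 - η) := by
    have : (0 : ℝ) < 1 - η := by linarith
    positivity
  rw [ENNReal.ofReal_add (by positivity) hq1, ENNReal.ofReal_add (by positivity) (by positivity)]
  exact add_le_add ((measure_union_le _ _).trans (add_le_add h1 h2)) h3

end MVQ
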