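import Mathlib

/-!
Gaussian facts used for the matrix-vector query lower bound.
-/

open MeasureTheory ProbabilityTheory
open scoped ENNReal RealInnerProductSpace

namespace MVQ

section general

variable {E : Type*} [NormedAddCommGroup E] [InnerProductSpace ℝ E] [FiniteDimensional ℝ E]
  [MeasurableSpace E] [BorelSpace E]

/-- Replacing the image of an orthogonal projection by an independent copy keeps the standard
Gaussian law. -/
lemma map_resample (T : E →L[ℝ] E) (hsym : ∀ x y, ⟪T x, y⟫ = ⟪x, T y⟫)
    (hid : ∀ x, T (T x) = T x) :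
    ((stdGaussian E).prod (stdGaussian E)).map (fun p : E × E => p.1 - T p.1 + T p.2) =
      stdGaussian E := by
  have hmeas : Measurable (fun p : E × E => p.1 - T p.1 + T p.2) := by fun_prop
  have : IsProbabilityMeasure (((stdGaussian E).prod (stdGaussian E)).map
      (fun p : E × E => p.1 - T p.1 + T p.2)) :=
    Measure.isProbabilityMeasure_map hmeas.aemeasurable
  apply Measure.ext_of_charFun
  ext t
  rw [charFun_apply, integral_map hmeas.aemeasurable
    (Measurable.aestronglyMeasurable (by fun_prop))]
  have h1 : ∀ p : E × E, Complex.exp ((⟪p.1 - T p.1 + T p.2, t⟫ : ℝ) * Complex.I) =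
      Complex.exp ((⟪p.1, t - T t⟫ : ℝ) * Complex.I) *
        Complex.exp ((⟪p.2, T t⟫ : ℝ) * Complex.I) := by
    intro p
    rw [← Complex.exp_add]
    congr 1
    rw [← add_mul]
    congr 1
    rw [inner_add_left, inner_sub_left, hsym p.1 t, hsym p.2 t, inner_sub_right]
    push_cast
    ring
  simp_rw [h1]
  rw [integral_prod_mul (fun x : E => Complex.exp ((⟪x, t - T t⟫ : ℝ) * Complex.I))
    (fun x : E => Complex.exp ((⟪x, T t⟫ : ℝ) * Complex.I))]
  rw [← charFun_apply, ← charFun_apply, charFun_stdGaussian, charFun_stdGaussian,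
    charFun_stdGaussian, ← Complex.exp_add]
  congr 1
  have h2 : ‖t - T t‖ ^ 2 + ‖T t‖ ^ 2 = ‖t‖ ^ 2 := by
    have h3 : ⟪t - T t, T t⟫ = (0 : ℝ) := by
      rw [inner_sub_left, hsym t (T t), hid, ← hsym t t, real_inner_comm, sub_self]
    have h4 := norm_add_sq_real (t - T t) (T t)
    rw [h3] at h4
    simp only [sub_add_cancel, mul_zero, add_zero] at h4
    linarith
  have h5 : ((‖t - T t‖ : ℂ)) ^ 2 + ((‖T t‖ : ℂ)) ^ 2 = ((‖t‖ : ℂ)) ^ 2 := by
    exact_mod_cast congrArg (fun r : ℝ => (r : ℂ)) h2
  rw [← h5]; ring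

lemma lintegral_resample (T : E →L[ℝ] E) (hsym : ∀ x y, ⟪T x, y⟫ = ⟪x, T y⟫)
    (hid : ∀ x, T (T x) = T x) (f : E → ℝ≥0∞) (hf : Measurable f) :
    ∫⁻ x, ∫⁻ y, f (x - T x + T y) ∂(stdGaussian E) ∂(stdGaussian E) =
      ∫⁻ x, f x ∂(stdGaussian E) := by
  have hmeas : Measurable (fun p : E × E => p.1 - T p.1 + T p.2) := by fun_prop
  have h : ∫⁻ x, f x ∂(((stdGaussian E).prod (stdGaussian E)).map
      (fun p : E × E => p.1 - T p.1 + T p.2)) = ∫⁻ x, f x ∂(stdGaussian E) := by
    rw [map_resample T hsym hid]
  rw [← h, lintegral_map hf hmeas,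
    lintegral_prod (fun p : E × E => f (p.1 - T p.1 + T p.2)) (hf.comp hmeas).aemeasurable]

/-- A linear map whose adjoint is norm preserving keeps the standard Gaussian law. -/
lemma map_isometry (T S : E →L[ℝ] E) (hadj : ∀ x y, ⟪T x, y⟫ = ⟪x, S y⟫)
    (hS : ∀ y, ‖S y‖ = ‖y‖) :
    (stdGaussian E).map T = stdGaussian E := by
  have hmeas : Measurable (fun p : E => T p) := by fun_prop
  have : IsProbabilityMeasure ((stdGaussian E).map T) :=
    Measure.isProbabilityMeasure_map hmeas.aemeasurable
  apply Measure.ext_of_charFun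
  ext t
  rw [charFun_apply, integral_map hmeas.aemeasurable
    (Measurable.aestronglyMeasurable (by fun_prop))]
  simp_rw [hadj]
  rw [← charFun_apply, charFun_stdGaussian, charFun_stdGaussian, hS]

/-- One-dimensional marginals of the standard Gaussian law. -/
lemma map_inner_unit (w : E) (hw : ‖w‖ = 1) :
    (stdGaussian E).map (fun x => ⟪x, w⟫) = gaussianReal 0 1 := by
  have hmeas : Measurable (fun x : E => ⟪x, w⟫) := by fun_prop
  have : IsProbabilityMeasure ((stdGaussian E).map (fun x => ⟪x, w⟫)) :=
    Measure.isProbabilityMeasure_map hmeas.aemeasurable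
  apply Measure.ext_of_charFun
  ext t
  rw [charFun_apply, integral_map hmeas.aemeasurable
    (Measurable.aestronglyMeasurable (by fun_prop))]
  have : ∀ x : E, (⟪(⟪x, w⟫ : ℝ), t⟫ : ℝ) = ⟪x, t • w⟫ := by
    intro x
    rw [real_inner_smul_right]
    simp
  simp_rw [this]
  rw [← charFun_apply, charFun_stdGaussian, charFun_gaussianReal]
  congr 1
  rw [norm_smul, hw]
  simp only [Real.norm_eq_abs, mul_one, Complex.ofReal_zero, mul_zero, zero_mul, NNReal.coe_one,
    Complex.ofReal_one, one_mul, zero_sub]
  rw [← Complex.ofReal_pow, sq_abs, Complex.ofReal_pow]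
  ring

end general

section matrix

open Matrix

/-- Square real matrices. -/
abbrev Mat (n : ℕ) := Matrix (Fin n) (Fin n) ℝ

instance (n : ℕ) : MeasurableSpace (Mat n) := inferInstanceAs (MeasurableSpace (Fin n → Fin n → ℝ))

abbrev EE (n : ℕ) := EuclideanSpace ℝ (Fin n × Fin n)

/-- Matrix from a family indexed by pairs. -/
def mE {n : ℕ} (x : EE n) : Mat n := Matrix.of fun i j => x (i, j)

/-- Vector of entries of a matrix. -/
def eM {n : ℕ} (A : Mat n) : EE n := WithLp.toLp 2 fun p => A p.1 p.2

@[simp] lemma mE_eM {n : ℕ} (A : Mat n) : mE (eM A) = A := rfl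
@[simp] lemma eM_mE {n : ℕ} (x : EE n) : eM (mE x) = x := rfl

lemma measurable_mat {n : ℕ} {α : Type*} [MeasurableSpace α] {f : α → Mat n}
    (h : ∀ i j, Measurable fun a => f a i j) : Measurable f :=
  measurable_pi_iff.2 fun i => measurable_pi_iff.2 fun j => h i j

lemma measurable_entry {n : ℕ} {α : Type*} [MeasurableSpace α] {f : α → Mat n}
    (h : Measurable f) (i j : Fin n) : Measurable fun a => f a i j :=
  measurable_pi_iff.1 (measurable_pi_iff.1 h i) j

instance (n : ℕ) : MeasurableMul₂ (Mat n) where
  measurable_mul := by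
    apply measurable_mat
    intro i j
    simp only [Matrix.mul_apply]
    exact Finset.measurable_sum _ fun k _ =>
      (measurable_entry measurable_fst i k).mul (measurable_entry measurable_snd k j)

instance (n : ℕ) : MeasurableAdd₂ (Mat n) where
  measurable_add := by
    apply measurable_mat
    intro i j
    exact (measurable_entry measurable_fst i j).add (measurable_entry measurable_snd i j)

instance (n : ℕ) : MeasurableSub₂ (Mat n) where
  measurable_sub := by
    apply measurable_mat
    intro i j
    exact (measurable_entry measurable_fst i j).sub (measurable_entry measurable_snd i j)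

lemma measurable_mE {n : ℕ} : Measurable (mE : EE n → Mat n) := by
  apply measurable_mat
  intro i j
  simp only [mE, Matrix.of_apply]
  fun_prop

/-- The law of an `n × n` matrix with i.i.d. standard Gaussian entries. -/
noncomputable def gam (n : ℕ) : Measure (Mat n) := (stdGaussian (EE n)).map mE

instance (n : ℕ) : IsProbabilityMeasure (gam n) :=
  Measure.isProbabilityMeasure_map measurable_mE.aemeasurable

lemma gam_eq (n : ℕ) : gam n =
    (Measure.pi (fun _ : Fin n × Fin n => gaussianReal 0 1)).map
      (fun g => Matrix.of fun i j => g (i, j)) := by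
  rw [gam, ← map_pi_eq_stdGaussian, Measure.map_map measurable_mE (by fun_prop)]
  rfl

lemma inner_EE {n : ℕ} (x y : EE n) : ⟪x, y⟫ = trace ((mE x)ᵀ * mE y) := by
  simp only [PiLp.inner_apply, Fintype.sum_prod_type, trace, diag, Matrix.mul_apply, mE,
    transpose_apply, of_apply, RCLike.inner_apply, conj_trivial]
  rw [Finset.sum_comm]
  exact Finset.sum_congr rfl fun i _ => Finset.sum_congr rfl fun j _ => mul_comm _ _

/-- `X ↦ Q X P` as a continuous linear map. -/
noncomputable def sand {n : ℕ} (Q P : Mat n) : EE n →L[ℝ] EE n :=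
  LinearMap.toContinuousLinearMap
    { toFun := fun x => eM (Q * mE x * P)
      map_add' := by
        intro x y
        have : mE (x + y) = mE x + mE y := rfl
        rw [this, Matrix.mul_add, Matrix.add_mul]; rfl
      map_smul' := by
        intro c x
        have : mE (c • x) = c • mE x := rfl
        rw [this, Matrix.mul_smul, Matrix.smul_mul]; rfl }

lemma sand_apply {n : ℕ} (Q P : Mat n) (x : EE n) : sand Q P x = eM (Q * mE x * P) := rfl

lemma lintegral_resample_mat {n : ℕ} (Q P : Mat n) (hQ : Qᵀ = Q) (hP : Pᵀ = P)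
    (hQQ : Q * Q = Q) (hPP : P * P = P) (f : Mat n → ℝ≥0∞) (hf : Measurable f) :
    ∫⁻ A, ∫⁻ G, f (A - Q * A * P + Q * G * P) ∂(gam n) ∂(gam n) = ∫⁻ A, f A ∂(gam n) := by
  have h := lintegral_resample (sand Q P) ?_ ?_ (fun x => f (mE x)) (hf.comp measurable_mE)
  · rw [gam, lintegral_map hf measurable_mE, ← h]
    have hm : Measurable (fun p : Mat n × EE n => f (p.1 - Q * p.1 * P + Q * mE p.2 * P)) := by
      have := measurable_mE (n := n)
      fun_prop
    have h1 : ∀ A : Mat n, ∫⁻ G, f (A - Q * A * P + Q * G * P) ∂((stdGaussian (EE n)).map mE) =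
        ∫⁻ y, f (A - Q * A * P + Q * mE y * P) ∂(stdGaussian (EE n)) := by
      intro A
      rw [lintegral_map (by fun_prop) measurable_mE]
    simp_rw [h1]
    rw [lintegral_map hm.lintegral_prod_right' measurable_mE]
    rfl
  · intro x y
    rw [inner_EE, inner_EE, sand_apply, sand_apply, mE_eM, mE_eM]
    rw [transpose_mul, transpose_mul, hQ, hP, Matrix.mul_assoc, Matrix.trace_mul_comm,
      Matrix.mul_assoc, Matrix.mul_assoc, Matrix.mul_assoc]
  · intro x
    rw [sand_apply, sand_apply, mE_eM]
    congr 1
    rw [← Matrix.mul_assoc, ← Matrix.mul_assoc, hQQ, Matrix.mul_assoc, Matrix.mul_assoc,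
      Matrix.mul_assoc, hPP]

lemma lintegral_mul_right {n : ℕ} (O : Mat n) (hO : O * Oᵀ = 1) (f : Mat n → ℝ≥0∞)
    (hf : Measurable f) : ∫⁻ A, f (A * O) ∂(gam n) = ∫⁻ A, f A ∂(gam n) := by
  have h := map_isometry (sand (1 : Mat n) O) (sand (1 : Mat n) Oᵀ) ?_ ?_
  · have h2 : ∫⁻ x, f (mE x) ∂((stdGaussian (EE n)).map (sand (1 : Mat n) O)) =
        ∫⁻ x, f (mE x) ∂(stdGaussian (EE n)) := by rw [h]
    have hm := measurable_mE (n := n)
    have h3 : ∫⁻ x, f (mE x) ∂((stdGaussian (EE n)).map (sand (1 : Mat n) O)) =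
        ∫⁻ x, f (mE (sand (1 : Mat n) O x)) ∂(stdGaussian (EE n)) :=
      lintegral_map (hf.comp hm) (by fun_prop)
    rw [gam, lintegral_map hf hm, lintegral_map (by fun_prop) hm, ← h2, h3]
    simp [sand_apply]
  · intro x y
    rw [inner_EE, inner_EE, sand_apply, sand_apply, mE_eM, mE_eM]
    simp only [Matrix.one_mul, transpose_mul]
    rw [Matrix.mul_assoc, Matrix.trace_mul_comm, Matrix.mul_assoc]
  · intro y
    have : ⟪sand (1 : Mat n) Oᵀ y, sand (1 : Mat n) Oᵀ y⟫ = ⟪y, y⟫ := by
      rw [inner_EE, inner_EE, sand_apply, mE_eM]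
      simp only [Matrix.one_mul, transpose_mul, transpose_transpose]
      rw [Matrix.mul_assoc, Matrix.trace_mul_comm, Matrix.mul_assoc, Matrix.mul_assoc]
      have hO' : Oᵀ * O = 1 := by
        exact mul_eq_one_comm.1 hO
      rw [hO', Matrix.mul_one]
    rw [real_inner_self_eq_norm_sq, real_inner_self_eq_norm_sq] at this
    nlinarith [norm_nonneg (sand (1 : Mat n) Oᵀ y), norm_nonneg y,
      sq_eq_sq₀ (norm_nonneg (sand (1 : Mat n) Oᵀ y)) (norm_nonneg y) |>.1 this]

/-- Law of a bilinear form in unit vectors. -/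
lemma map_bilin {n : ℕ} (u z : Fin n → ℝ) (hu : u ⬝ᵥ u = 1) (hz : z ⬝ᵥ z = 1) :
    (gam n).map (fun G => u ⬝ᵥ (G *ᵥ z)) = gaussianReal 0 1 := by
  have hw : ‖eM (vecMulVec u z)‖ = 1 := by
    have : ⟪eM (vecMulVec u z), eM (vecMulVec u z)⟫ = (1 : ℝ) := by
      rw [inner_EE, mE_eM]
      simp only [trace, diag, Matrix.mul_apply, transpose_apply, vecMulVec_apply]
      have : ∀ x, ∑ y, u y * z x * (u y * z x) = (z x * z x) * ∑ y, u y * u y := by
        intro x; rw [Finset.mul_sum]; exact Finset.sum_congr rfl fun y _ => by ring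
      simp_rw [this]
      rw [← Finset.sum_mul]
      simp only [dotProduct] at hu hz
      rw [hu, hz]; norm_num
    rw [real_inner_self_eq_norm_sq] at this
    have h0 := norm_nonneg (eM (vecMulVec u z))
    nlinarith
  rw [← map_inner_unit (eM (vecMulVec u z)) hw, gam, Measure.map_map _ measurable_mE]
  · congr 1
    funext x
    simp only [Function.comp]
    rw [inner_EE, mE_eM]
    simp only [trace, diag, Matrix.mul_apply, transpose_apply, vecMulVec_apply, dotProduct, mulVec]
    simp_rw [Finset.mul_sum]
    rw [Finset.sum_comm]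
    exact Finset.sum_congr rfl fun i _ => Finset.sum_congr rfl fun j _ => by ring
  · simp only [dotProduct, mulVec]
    refine Finset.measurable_sum _ fun i _ => Measurable.const_mul ?_ _
    refine Finset.measurable_sum _ fun j _ => Measurable.mul_const ?_ _
    exact measurable_entry measurable_id i j

/-- `X ↦ (trace X / n) I` as a continuous linear map. -/
noncomputable def trI (n : ℕ) : EE n →L[ℝ] EE n :=
  LinearMap.toContinuousLinearMap
    { toFun := fun x => eM ((trace (mE x) / n) • (1 : Mat n))
      map_add' := by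
        intro x y
        have : mE (x + y) = mE x + mE y := rfl
        rw [this, trace_add, add_div, add_smul]; rfl
      map_smul' := by
        intro c x
        have : mE (c • x) = c • mE x := rfl
        rw [this, trace_smul, smul_eq_mul, mul_div_assoc, mul_smul]; rfl }

lemma trI_apply {n : ℕ} (x : EE n) : trI n x = eM ((trace (mE x) / n) • (1 : Mat n)) := rfl

lemma measurable_det {n : ℕ} : Measurable (fun A : Mat n => A.det) := by
  simp only [det_apply]
  refine Finset.measurable_sum _ fun σ _ => ?_
  refine Measurable.const_smul ?_ _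
  exact Finset.measurable_prod _ fun i _ => measurable_entry measurable_id _ _

lemma finite_det_zero {n : ℕ} (B : Mat n) (hn : 0 < n) :
    {s : ℝ | (B + (s / n) • (1 : Mat n)).det = 0}.Finite := by
  have hp : (charpoly (-B)) ≠ 0 := (charpoly_monic (-B)).ne_zero
  have hn' : (n : ℝ) ≠ 0 := by positivity
  have hfin : {t : ℝ | (charpoly (-B)).IsRoot t}.Finite := Polynomial.finite_setOfPred_isRoot hp
  refine Set.Finite.subset (Set.Finite.image (fun t : ℝ => t * n) hfin) ?_
  intro s hs
  refine ⟨s / n, ?_, by field_simp⟩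
  simp only [Set.mem_ofPred_eq] at hs ⊢
  rw [Polynomial.IsRoot, eval_charpoly]
  rw [← hs]
  congr 1
  rw [sub_neg_eq_add, add_comm, scalar_apply, ← smul_one_eq_diagonal]

/-- A Gaussian matrix is almost surely invertible. -/
lemma ae_det_ne_zero (n : ℕ) : ∀ᵐ A ∂(gam n), A.det ≠ 0 := by
  rcases Nat.eq_zero_or_pos n with rfl | hn
  · filter_upwards with A
    simp
  have hn' : (n : ℝ) ≠ 0 := by positivity
  have hS : MeasurableSet {A : Mat n | A.det = 0} := measurable_det (measurableSet_singleton 0)
  have h := lintegral_resample (trI n) ?_ ?_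
    (fun x => Set.indicator {A : Mat n | A.det = 0} (fun _ => (1 : ℝ≥0∞)) (mE x)) ?_
  · have h0 : ∀ x : EE n, ∫⁻ y, Set.indicator {A : Mat n | A.det = 0} (fun _ => (1 : ℝ≥0∞))
        (mE (x - trI n x + trI n y)) ∂(stdGaussian (EE n)) = 0 := by
      intro x
      have hB : ∀ y : EE n, mE (x - trI n x + trI n y) =
          mE (x - trI n x) + (trace (mE y) / n) • (1 : Mat n) := fun y => rfl
      have hsq : (0 : ℝ) < Real.sqrt n := Real.sqrt_pos.2 (by exact_mod_cast hn)
      set w : EE n := eM ((Real.sqrt n)⁻¹ • (1 : Mat n)) with hw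
      have hinner : ∀ y : EE n, ⟪y, w⟫ = trace (mE y) / Real.sqrt n := by
        intro y
        rw [inner_EE, hw, mE_eM, Matrix.mul_smul, Matrix.mul_one, trace_smul, trace_transpose,
          smul_eq_mul]
        field_simp
      have hnorm : ‖w‖ = 1 := by
        have : ⟪w, w⟫ = (1 : ℝ) := by
          rw [hinner, hw, mE_eM, trace_smul, trace_one, smul_eq_mul, Fintype.card_fin]
          rw [inv_mul_eq_div, div_div, Real.mul_self_sqrt (by positivity)]
          exact div_self hn'
        rw [real_inner_self_eq_norm_sq] at this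
        have h0 := norm_nonneg w
        nlinarith
      have hfin := finite_det_zero (mE (x - trI n x)) hn
      have hfin' : {s : ℝ | (mE (x - trI n x) + (s * Real.sqrt n / n) • (1 : Mat n)).det = 0}.Finite := by
        refine Set.Finite.subset (Set.Finite.image (fun t : ℝ => t / Real.sqrt n) hfin) ?_
        intro s hs
        refine ⟨s * Real.sqrt n, hs, by field_simp⟩
      have hzero : (gaussianReal 0 1)
          {s : ℝ | (mE (x - trI n x) + (s * Real.sqrt n / n) • (1 : Mat n)).det = 0} = 0 := by
        have := nullSingletonClass_gaussianReal (μ := 0) (v := 1) one_ne_zero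
        exact hfin'.measure_zero _
      rw [← map_inner_unit w hnorm, Measure.map_apply (by fun_prop) hfin'.measurableSet] at hzero
      have hm2 : Measurable (fun y : EE n => Set.indicator {A : Mat n | A.det = 0}
          (fun _ => (1 : ℝ≥0∞)) (mE (x - trI n x + trI n y))) := by
        have h1 : Measurable (fun y : EE n => mE (x - trI n x + trI n y)) :=
          measurable_mE.comp (by fun_prop)
        exact (measurable_const.indicator hS).comp h1
      rw [lintegral_eq_zero_iff hm2]
      rw [Filter.EventuallyEq, ae_iff]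
      refine measure_mono_null ?_ hzero
      intro y hy
      simp only [Set.mem_preimage, Set.mem_ofPred_eq]
      rw [hinner]
      by_contra hne
      apply hy
      have : mE (x - trI n x + trI n y) ∉ {A : Mat n | A.det = 0} := by
        intro h
        apply hne
        rw [Set.mem_ofPred_eq, hB] at h
        rw [div_mul_cancel₀ _ hsq.ne']
        exact h
      rw [Set.indicator_of_notMem this]
      rfl
    simp_rw [h0] at h
    rw [lintegral_zero] at h
    rw [ae_iff]
    simp only [ne_eq, not_not]
    have h3 : gam n {A : Mat n | A.det = 0} =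
        ∫⁻ A, Set.indicator {A : Mat n | A.det = 0} (fun _ => (1 : ℝ≥0∞)) A ∂(gam n) := by
      rw [lintegral_indicator hS]; simp
    rw [h3, gam, lintegral_map (measurable_const.indicator hS) measurable_mE, ← h]
  · intro x y
    rw [inner_EE, inner_EE, trI_apply, trI_apply, mE_eM, mE_eM]
    simp only [transpose_smul, transpose_one, Matrix.smul_mul, Matrix.one_mul, Matrix.mul_smul,
      Matrix.mul_one, trace_smul, trace_transpose, smul_eq_mul]
    ring
  · intro x
    rw [trI_apply, trI_apply, mE_eM]
    congr 2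
    rw [trace_smul, trace_one]
    simp only [smul_eq_mul, Fintype.card_fin]
    field_simp
  · exact (measurable_const.indicator hS).comp measurable_mE

end matrix

end MVQ
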