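import Pool.Agent.Lib_helper89.MVExpl

/-!
The direction of the unseen part of the solution is uniformly distributed.
-/

open MeasureTheory ProbabilityTheory Matrix Module
open scoped ENNReal

namespace MVQ

variable {n : ℕ}

/-- Householder reflection. -/
noncomputable def hous (w : Fin n → ℝ) : Mat n := 1 - (2 / (w ⬝ᵥ w)) • vecMulVec w w

lemma hous_mulVec (w x : Fin n → ℝ) : hous w *ᵥ x = x - (2 / (w ⬝ᵥ w) * (w ⬝ᵥ x)) • w := by
  rw [hous, sub_mulVec, one_mulVec, smul_mulVec, vecMulVec_mulVec', smul_smul]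

lemma hous_transpose (w : Fin n → ℝ) : (hous w)ᵀ = hous w := by
  rw [hous, transpose_sub, transpose_one, transpose_smul, transpose_vecMulVec]

lemma hous_hous (w x : Fin n → ℝ) : hous w *ᵥ (hous w *ᵥ x) = x := by
  rw [hous_mulVec, hous_mulVec, dotProduct_sub, dotProduct_smul, smul_eq_mul]
  by_cases hw : w ⬝ᵥ w = 0
  · have : w = 0 := dotProduct_self_eq_zero.1 hw
    subst this; simp
  · have : 2 / (w ⬝ᵥ w) * (w ⬝ᵥ x - 2 / (w ⬝ᵥ w) * (w ⬝ᵥ x) * (w ⬝ᵥ w)) =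
        - (2 / (w ⬝ᵥ w) * (w ⬝ᵥ x)) := by
      field_simp; ring
    rw [this, neg_smul]
    abel

lemma hous_mul_self (w : Fin n → ℝ) : hous w * hous w = 1 := by
  apply Matrix.ext_of_mulVec_single
  intro i
  rw [← mulVec_mulVec, hous_hous, one_mulVec]

lemma hous_dot (w x y : Fin n → ℝ) : (hous w *ᵥ x) ⬝ᵥ y = x ⬝ᵥ (hous w *ᵥ y) := by
  rw [dotProduct_mulVec, ← mulVec_transpose, hous_transpose]

lemma hous_dot_self (w x : Fin n → ℝ) : (hous w *ᵥ x) ⬝ᵥ (hous w *ᵥ x) = x ⬝ᵥ x := by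
  rw [hous_dot, hous_hous]

lemma hous_unit (e f : Fin n → ℝ) (he : e ⬝ᵥ e = 1) (hf : f ⬝ᵥ f = 1) :
    hous (e - f) *ᵥ e = f := by
  rw [hous_mulVec]
  have h1 : (e - f) ⬝ᵥ (e - f) = 2 * ((e - f) ⬝ᵥ e) := by
    rw [sub_dotProduct, dotProduct_sub, dotProduct_sub, sub_dotProduct, he, hf,
      dotProduct_comm f e]
    ring
  by_cases hw : (e - f) ⬝ᵥ (e - f) = 0
  · have h2 : e - f = 0 := dotProduct_self_eq_zero.1 hw
    rw [h2]; simp [sub_eq_zero.1 h2]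
  · have h3 : (e - f) ⬝ᵥ e ≠ 0 := by
      intro h; apply hw; rw [h1, h, mul_zero]
    rw [h1]
    have : 2 / (2 * ((e - f) ⬝ᵥ e)) * ((e - f) ⬝ᵥ e) = 1 := by field_simp
    rw [this, one_smul, sub_sub_cancel]

/-- An orthonormal basis of a subspace in terms of dot products. -/
lemma exists_onb (F : Submodule ℝ (Fin n → ℝ)) : ∃ e : Fin (finrank ℝ F) → (Fin n → ℝ),
    (∀ i, e i ∈ F) ∧ (∀ i j, e i ⬝ᵥ e j = if i = j then 1 else 0) ∧
    (∀ x ∈ F, x = ∑ i, (e i ⬝ᵥ x) • e i) := by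
  let L : (Fin n → ℝ) ≃ₗ[ℝ] EuclideanSpace ℝ (Fin n) := (WithLp.linearEquiv 2 ℝ (Fin n → ℝ)).symm
  let F' : Submodule ℝ (EuclideanSpace ℝ (Fin n)) := F.map (L : (Fin n → ℝ) →ₗ[ℝ] _)
  have hfin : finrank ℝ F' = finrank ℝ F := LinearEquiv.finrank_map_eq L F
  let B := (stdOrthonormalBasis ℝ F').reindex (finCongr hfin)
  have hin : ∀ x y : EuclideanSpace ℝ (Fin n), inner ℝ x y = (WithLp.ofLp x) ⬝ᵥ (WithLp.ofLp y) := by
    intro x y
    simp only [PiLp.inner_apply, dotProduct, RCLike.inner_apply, conj_trivial]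
    exact Finset.sum_congr rfl fun i _ => mul_comm _ _
  have hmem : ∀ y : EuclideanSpace ℝ (Fin n), y ∈ F' ↔ WithLp.ofLp y ∈ F := by
    intro y
    constructor
    · rintro ⟨x, hx, rfl⟩
      exact hx
    · intro h
      exact ⟨WithLp.ofLp y, h, rfl⟩
  refine ⟨fun i => WithLp.ofLp (B i : EuclideanSpace ℝ (Fin n)), ?_, ?_, ?_⟩
  · intro i
    exact (hmem _).1 (B i).2
  · intro i j
    rw [← hin, ← Submodule.coe_inner]
    exact orthonormal_iff_ite.1 B.orthonormal i j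
  · intro x hx
    have hx' : L x ∈ F' := ⟨x, hx, rfl⟩
    have h1 := B.sum_repr ⟨L x, hx'⟩
    have h2 := congrArg (fun z : F' => WithLp.ofLp (z : EuclideanSpace ℝ (Fin n))) h1
    simp only [] at h2
    have h3 : WithLp.ofLp (L x) = x := rfl
    rw [h3] at h2
    refine h2.symm.trans ?_
    simp only [AddSubmonoidClass.coe_finsetSum, Submodule.coe_smul, WithLp.ofLp_sum,
      WithLp.ofLp_smul]
    refine Finset.sum_congr rfl fun i _ => ?_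
    congr 1
    rw [B.repr_apply_apply, Submodule.coe_inner, hin]
    rfl

/-- Hypotheses on a fixed exploration. -/
structure Fixed (P Q A₀ : Mat n) (b : Fin n → ℝ) : Prop where
  prP : IsPr P
  prQ : IsPr Q
  seen : Q * A₀ * P = Q * A₀
  qb : Q *ᵥ b = 0
  bb : b ⬝ᵥ b = 1

/-- The subspace in which the unseen part of the solution lives. -/
def FF (P Q A₀ : Mat n) (b : Fin n → ℝ) : Submodule ℝ (Fin n → ℝ) where
  carrier := {f | P *ᵥ f = f ∧ ∃ p : Fin n → ℝ, ∃ μ : ℝ, P *ᵥ p = 0 ∧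
    A₀ *ᵥ f - Q *ᵥ (A₀ *ᵥ f) = μ • b - A₀ *ᵥ p}
  add_mem' := by
    rintro f g ⟨hf, p, μ, hp, h1⟩ ⟨hg, p', μ', hp', h2⟩
    refine ⟨by rw [mulVec_add, hf, hg], p + p', μ + μ', by rw [mulVec_add, hp, hp', add_zero], ?_⟩
    rw [mulVec_add, mulVec_add, mulVec_add, add_smul]
    have : A₀ *ᵥ f + A₀ *ᵥ g - (Q *ᵥ A₀ *ᵥ f + Q *ᵥ A₀ *ᵥ g) =
      (A₀ *ᵥ f - Q *ᵥ A₀ *ᵥ f) + (A₀ *ᵥ g - Q *ᵥ A₀ *ᵥ g) := by abel
    rw [this, h1, h2]; abel
  zero_mem' := ⟨mulVec_zero _, 0, 0, mulVec_zero _, by simp⟩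
  smul_mem' := by
    rintro c f ⟨hf, p, μ, hp, h1⟩
    refine ⟨by rw [mulVec_smul, hf], c • p, c * μ, by rw [mulVec_smul, hp, smul_zero], ?_⟩
    rw [mulVec_smul, mulVec_smul, mulVec_smul, ← smul_sub, h1, smul_sub, smul_smul]

/-- The resampled matrix. -/
def RR (P Q A₀ G : Mat n) : Mat n := A₀ - Q * A₀ * P + Q * G * P

/-- The unseen part of the solution of the resampled system. -/
noncomputable def qq (P Q A₀ G : Mat n) (b : Fin n → ℝ) : Fin n → ℝ :=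
  P *ᵥ ((RR P Q A₀ G)⁻¹ *ᵥ b)

variable {P Q A₀ : Mat n} {b : Fin n → ℝ}

lemma Fixed.seen_vec (h : Fixed P Q A₀ b) (p : Fin n → ℝ) (hp : P *ᵥ p = 0) :
    Q *ᵥ (A₀ *ᵥ p) = 0 := by
  rw [mulVec_mulVec, ← h.seen, ← mulVec_mulVec, hp, mulVec_zero]

lemma Fixed.RR_mulVec (h : Fixed P Q A₀ b) (G : Mat n) (x : Fin n → ℝ) :
    RR P Q A₀ G *ᵥ x = A₀ *ᵥ x - Q *ᵥ (A₀ *ᵥ x) + Q *ᵥ (G *ᵥ (P *ᵥ x)) := by
  rw [RR, h.seen, add_mulVec, sub_mulVec]
  simp only [mulVec_mulVec, Matrix.mul_assoc]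

lemma mulVec_inv_mulVec {R : Mat n} (hR : R.det ≠ 0) (b : Fin n → ℝ) : R *ᵥ (R⁻¹ *ᵥ b) = b := by
  rw [mulVec_mulVec, mul_nonsing_inv _ (isUnit_iff_ne_zero.2 hR), one_mulVec]

lemma inv_mulVec_mulVec {R : Mat n} (hR : R.det ≠ 0) (b : Fin n → ℝ) : R⁻¹ *ᵥ (R *ᵥ b) = b := by
  rw [mulVec_mulVec, nonsing_inv_mul _ (isUnit_iff_ne_zero.2 hR), one_mulVec]

lemma Fixed.qq_mem (h : Fixed P Q A₀ b) (G : Mat n) (hR : (RR P Q A₀ G).det ≠ 0) :
    qq P Q A₀ G b ∈ FF P Q A₀ b ∧ Q *ᵥ (G *ᵥ qq P Q A₀ G b) = 0 := by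
  set x := (RR P Q A₀ G)⁻¹ *ᵥ b with hx
  have h1 : RR P Q A₀ G *ᵥ x = b := mulVec_inv_mulVec hR b
  rw [h.RR_mulVec] at h1
  have h2 : Q *ᵥ (G *ᵥ (P *ᵥ x)) = 0 := by
    have h3 := congrArg (fun y => Q *ᵥ y) h1
    simp only [mulVec_add, mulVec_sub, h.prQ.mulVec_idem, h.qb, sub_self, zero_add] at h3
    exact h3
  rw [h2, add_zero] at h1
  refine ⟨⟨h.prP.mulVec_idem x, x - P *ᵥ x, 1, ?_, ?_⟩, h2⟩
  · rw [mulVec_sub, h.prP.mulVec_idem, sub_self]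
  · have h4 := h.seen_vec (x - P *ᵥ x) (by rw [mulVec_sub, h.prP.mulVec_idem, sub_self])
    rw [mulVec_sub, mulVec_sub] at h4
    have h5 : Q *ᵥ (A₀ *ᵥ (P *ᵥ x)) = Q *ᵥ (A₀ *ᵥ x) := (sub_eq_zero.1 h4).symm
    change A₀ *ᵥ (P *ᵥ x) - Q *ᵥ (A₀ *ᵥ (P *ᵥ x)) = _
    rw [h5, one_smul, mulVec_sub, ← h1]
    abel

lemma Fixed.rel (h : Fixed P Q A₀ b) (G : Mat n) {w : Fin n → ℝ} (hw : w ∈ FF P Q A₀ b)
    (hR : (RR P Q A₀ G).det ≠ 0) (hR' : (RR P Q A₀ (G * hous w)).det ≠ 0) :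
    ∃ c : ℝ, c • qq P Q A₀ (G * hous w) b = hous w *ᵥ qq P Q A₀ G b := by
  obtain ⟨hq, hG⟩ := h.qq_mem G hR
  set q := qq P Q A₀ G b with hqdef
  have hq' : hous w *ᵥ q ∈ FF P Q A₀ b := by
    rw [hous_mulVec]
    exact Submodule.sub_mem _ hq (Submodule.smul_mem _ _ hw)
  obtain ⟨hPq', p', μ', hp', h1⟩ := hq'
  have h2 : RR P Q A₀ (G * hous w) *ᵥ (p' + hous w *ᵥ q) = μ' • b := by
    rw [h.RR_mulVec, mulVec_add, mulVec_add, mulVec_add, hp', hPq', zero_add,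
      h.seen_vec p' hp', ← mulVec_mulVec, hous_hous, hG, add_zero, zero_add]
    rw [add_sub_assoc, h1]
    abel
  refine ⟨μ', ?_⟩
  have h3 := congrArg (fun y => P *ᵥ ((RR P Q A₀ (G * hous w))⁻¹ *ᵥ y)) h2
  simp only [inv_mulVec_mulVec hR', mulVec_smul, mulVec_add, hp', hPq', zero_add] at h3
  exact h3.symm

lemma Fixed.rel_zero (h : Fixed P Q A₀ b) (G : Mat n) {w : Fin n → ℝ} (hw : w ∈ FF P Q A₀ b)
    (hR : (RR P Q A₀ G).det ≠ 0) (hR' : (RR P Q A₀ (G * hous w)).det ≠ 0)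
    (hz : qq P Q A₀ G b = 0) : qq P Q A₀ (G * hous w) b = 0 := by
  have hG : G * hous w * hous w = G := by rw [Matrix.mul_assoc, hous_mul_self, Matrix.mul_one]
  obtain ⟨c, hc⟩ := h.rel (G * hous w) hw hR' (by rw [hG]; exact hR)
  rw [hG, hz, smul_zero] at hc
  have := congrArg (fun y => hous w *ᵥ y) hc
  simp only [hous_hous, mulVec_zero] at this
  exact this.symm

/-- Squared cosine of the angle. -/
noncomputable def cos2 (v q : Fin n → ℝ) : ℝ := (v ⬝ᵥ q) ^ 2 / ((v ⬝ᵥ v) * (q ⬝ᵥ q))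

lemma cos2_nonneg (v q : Fin n → ℝ) : 0 ≤ cos2 v q :=
  div_nonneg (sq_nonneg _) (mul_nonneg (dotProduct_self_nonneg' v) (dotProduct_self_nonneg' q))

lemma Fixed.cos2_eq (h : Fixed P Q A₀ b) (G : Mat n) {w : Fin n → ℝ} (hw : w ∈ FF P Q A₀ b)
    (hR : (RR P Q A₀ G).det ≠ 0) (hR' : (RR P Q A₀ (G * hous w)).det ≠ 0) (v : Fin n → ℝ) :
    cos2 v (qq P Q A₀ (G * hous w) b) = cos2 v (hous w *ᵥ qq P Q A₀ G b) := by
  by_cases hz : qq P Q A₀ G b = 0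
  · rw [h.rel_zero G hw hR hR' hz, hz, mulVec_zero]
  · obtain ⟨c, hc⟩ := h.rel G hw hR hR'
    have hc0 : c ≠ 0 := by
      rintro rfl
      rw [zero_smul] at hc
      apply hz
      have := congrArg (fun y => hous w *ᵥ y) hc
      simp only [hous_hous, mulVec_zero] at this
      exact this.symm
    rw [← hc, cos2, cos2, dotProduct_smul, smul_dotProduct, dotProduct_smul]
    simp only [smul_eq_mul]
    rw [show (c * (v ⬝ᵥ qq P Q A₀ (G * hous w) b)) ^ 2 =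
      c ^ 2 * (v ⬝ᵥ qq P Q A₀ (G * hous w) b) ^ 2 by ring,
      show (v ⬝ᵥ v) * (c * (c * (qq P Q A₀ (G * hous w) b ⬝ᵥ qq P Q A₀ (G * hous w) b))) =
        c ^ 2 * ((v ⬝ᵥ v) * (qq P Q A₀ (G * hous w) b ⬝ᵥ qq P Q A₀ (G * hous w) b)) by ring,
      mul_div_mul_left _ _ (pow_ne_zero 2 hc0)]

/-- Dimension bound. -/
lemma Fixed.finrank_ge (h : Fixed P Q A₀ b) (hA : A₀.det ≠ 0) :
    n ≤ finrank ℝ (FF P Q A₀ b) + (1 - Q - vecMulVec b b).rank + 1 := by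
  set N : Mat n := (1 - Q - vecMulVec b b) * A₀ with hN
  have hr : N.rank ≤ (1 - Q - vecMulVec b b).rank := rank_mul_le_left _ _
  have hNx : ∀ x, N *ᵥ x = A₀ *ᵥ x - Q *ᵥ (A₀ *ᵥ x) - (b ⬝ᵥ (A₀ *ᵥ x)) • b := by
    intro x
    rw [hN, ← mulVec_mulVec, sub_mulVec, sub_mulVec, one_mulVec, vecMulVec_mulVec']
  set H := LinearMap.ker N.mulVecLin with hH
  have hdim : finrank ℝ (LinearMap.range N.mulVecLin) + finrank ℝ H = n := by
    rw [hH, LinearMap.finrank_range_add_finrank_ker]; simp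
  have hdim' : N.rank + finrank ℝ H = n := hdim
  set φ : H →ₗ[ℝ] (Fin n → ℝ) := P.mulVecLin.domRestrict H with hφ
  have hdim2 := LinearMap.finrank_range_add_finrank_ker φ
  have hrange : LinearMap.range φ ≤ FF P Q A₀ b := by
    rintro _ ⟨⟨x, hx⟩, rfl⟩
    have hx0 : N *ᵥ x = 0 := hx
    rw [hNx, sub_eq_zero] at hx0
    change P *ᵥ x ∈ FF P Q A₀ b
    refine ⟨h.prP.mulVec_idem x, x - P *ᵥ x, b ⬝ᵥ (A₀ *ᵥ x), ?_, ?_⟩
    · rw [mulVec_sub, h.prP.mulVec_idem, sub_self]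
    · have h4 := h.seen_vec (x - P *ᵥ x) (by rw [mulVec_sub, h.prP.mulVec_idem, sub_self])
      rw [mulVec_sub, mulVec_sub] at h4
      have h5 : Q *ᵥ (A₀ *ᵥ (P *ᵥ x)) = Q *ᵥ (A₀ *ᵥ x) := (sub_eq_zero.1 h4).symm
      rw [h5, mulVec_sub, ← hx0]
      abel
  have hker : finrank ℝ (LinearMap.ker φ) ≤ 1 := by
    have hK : (LinearMap.ker φ).map H.subtype ≤ Submodule.span ℝ {A₀⁻¹ *ᵥ b} := by
      rintro _ ⟨⟨x, hx⟩, hx2, rfl⟩
      have hx0 : N *ᵥ x = 0 := hx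
      have hx1 : P *ᵥ x = 0 := hx2
      rw [hNx, sub_eq_zero, h.seen_vec x hx1, sub_zero] at hx0
      change x ∈ _
      rw [Submodule.mem_span_singleton]
      refine ⟨b ⬝ᵥ (A₀ *ᵥ x), ?_⟩
      rw [← mulVec_smul, ← hx0, inv_mulVec_mulVec hA]
    have h7 := Submodule.finrank_mono hK
    rw [Submodule.finrank_map_subtype_eq] at h7
    refine h7.trans ?_
    refine (finrank_span_le_card _).trans ?_
    simp
  have h6 := Submodule.finrank_mono hrange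
  omega

/-- Bessel for dot products. -/
lemma bessel {m : ℕ} (e : Fin m → (Fin n → ℝ)) (he : ∀ i j, e i ⬝ᵥ e j = if i = j then 1 else 0)
    (x : Fin n → ℝ) : ∑ i, (e i ⬝ᵥ x) ^ 2 ≤ x ⬝ᵥ x := by
  set y : Fin n → ℝ := ∑ i, (e i ⬝ᵥ x) • e i with hy
  have h1 : ∀ z, z ⬝ᵥ y = ∑ i, (e i ⬝ᵥ x) * (z ⬝ᵥ e i) := by
    intro z
    rw [hy, dotProduct_sum]
    exact Finset.sum_congr rfl fun i _ => by rw [dotProduct_smul, smul_eq_mul]
  have h2 : ∀ i, e i ⬝ᵥ y = e i ⬝ᵥ x := by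
    intro i
    rw [h1, Finset.sum_eq_single i]
    · rw [he, if_pos rfl, mul_one]
    · intro j _ hj
      rw [he, if_neg (Ne.symm hj), mul_zero]
    · intro h; exact absurd (Finset.mem_univ i) h
  have h3 : x ⬝ᵥ y = ∑ i, (e i ⬝ᵥ x) ^ 2 := by
    rw [h1]
    exact Finset.sum_congr rfl fun i _ => by rw [dotProduct_comm x (e i)]; ring
  have h4 : y ⬝ᵥ y = ∑ i, (e i ⬝ᵥ x) ^ 2 := by
    rw [h1]
    exact Finset.sum_congr rfl fun i _ => by rw [dotProduct_comm y (e i), h2]; ring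
  have h5 := dotProduct_self_nonneg' (x - y)
  rw [sub_dotProduct, dotProduct_sub, dotProduct_sub, dotProduct_comm y x, h3, h4] at h5
  linarith

/-- Sum over reflections. -/
lemma sum_cos2_le {m : ℕ} (e : Fin m → (Fin n → ℝ))
    (heF : ∀ i, e i ∈ FF P Q A₀ b)
    (he : ∀ i j, e i ⬝ᵥ e j = if i = j then 1 else 0) (v u : Fin n → ℝ)
    (huF : u ∈ FF P Q A₀ b) (hu : u ⬝ᵥ u = 1) (c : ℝ) (hc : c ^ 2 ≤ v ⬝ᵥ v)
    (hv : ∀ f ∈ FF P Q A₀ b, v ⬝ᵥ f = c * (u ⬝ᵥ f)) (q : Fin n → ℝ) (hq : q ∈ FF P Q A₀ b) :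
    ∑ i, cos2 v (hous (u - e i) *ᵥ q) ≤ 1 := by
  have h1 : ∀ i, v ⬝ᵥ (hous (u - e i) *ᵥ q) = c * (e i ⬝ᵥ q) := by
    intro i
    have hmem : hous (u - e i) *ᵥ q ∈ FF P Q A₀ b := by
      rw [hous_mulVec]
      exact Submodule.sub_mem _ hq (Submodule.smul_mem _ _ (Submodule.sub_mem _ huF (heF i)))
    rw [hv _ hmem, ← hous_dot, hous_unit u (e i) hu (by rw [he, if_pos rfl])]
  have h2 : ∀ i, cos2 v (hous (u - e i) *ᵥ q) =
      c ^ 2 / ((v ⬝ᵥ v) * (q ⬝ᵥ q)) * (e i ⬝ᵥ q) ^ 2 := by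
    intro i
    rw [cos2, h1, hous_dot_self]
    ring
  simp_rw [h2]
  rw [← Finset.mul_sum]
  have h3 := bessel e he q
  have h4 : 0 ≤ ∑ i, (e i ⬝ᵥ q) ^ 2 := Finset.sum_nonneg fun i _ => sq_nonneg _
  have h5 : 0 ≤ c ^ 2 := sq_nonneg c
  rw [div_mul_eq_mul_div]
  refine div_le_one_of_le₀ ?_ (mul_nonneg (dotProduct_self_nonneg' v) (dotProduct_self_nonneg' q))
  exact mul_le_mul hc h3 h4 (dotProduct_self_nonneg' v)

lemma ae_mul_right (O : Mat n) (hO : O * Oᵀ = 1) {p : Mat n → Prop}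
    (hp : MeasurableSet {A | p A}) (h : ∀ᵐ A ∂(gam n), p A) : ∀ᵐ A ∂(gam n), p (A * O) := by
  rw [ae_iff] at h ⊢
  have hp' : MeasurableSet {A | ¬ p A} := hp.compl
  have hpO : MeasurableSet {A | ¬ p (A * O)} := by
    have hm : Measurable fun A : Mat n => A * O := by fun_prop
    exact hm hp'
  have h1 := lintegral_mul_right O hO (Set.indicator {A | ¬ p A} fun _ => (1 : ℝ≥0∞))
    (measurable_const.indicator hp')
  have h2 : ∫⁻ A, Set.indicator {A | ¬ p A} (fun _ => (1 : ℝ≥0∞)) (A * O) ∂(gam n) =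
      ∫⁻ A, Set.indicator {A | ¬ p (A * O)} (fun _ => (1 : ℝ≥0∞)) A ∂(gam n) := rfl
  rw [h2, lintegral_indicator hpO, lintegral_indicator hp'] at h1
  simp only [lintegral_const, MeasurableSet.univ, Measure.restrict_apply, Set.univ_inter,
    one_mul] at h1
  rw [h1, h]

lemma measurable_RR (P Q A₀ : Mat n) : Measurable fun G : Mat n => RR P Q A₀ G := by
  unfold RR; fun_prop

lemma measurable_cos2 {α : Type*} [MeasurableSpace α] {v w : α → Fin n → ℝ}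
    (hv : Measurable v) (hw : Measurable w) : Measurable fun a => cos2 (v a) (w a) := by
  unfold cos2
  exact ((measurable_dot hv hw).pow_const 2).div ((measurable_dot hv hv).mul (measurable_dot hw hw))

lemma measurable_qq (P Q A₀ : Mat n) (b : Fin n → ℝ) :
    Measurable fun G : Mat n => qq P Q A₀ G b := by
  unfold qq
  exact measurable_mulVec measurable_const
    (measurable_mulVec (measurable_inv (measurable_RR P Q A₀)) measurable_const)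

lemma Fixed.lintegral_cos2_le (h : Fixed P Q A₀ b) (v : Fin n → ℝ)
    (hae : ∀ᵐ G ∂(gam n), (RR P Q A₀ G).det ≠ 0) :
    (finrank ℝ (FF P Q A₀ b) : ℝ≥0∞) *
      ∫⁻ G, ENNReal.ofReal (cos2 v (qq P Q A₀ G b)) ∂(gam n) ≤ 1 := by
  obtain ⟨e, heF, he, hspan⟩ := exists_onb (FF P Q A₀ b)
  set vF : Fin n → ℝ := ∑ i, (e i ⬝ᵥ v) • e i with hvF
  have hvFmem : vF ∈ FF P Q A₀ b := Submodule.sum_mem _ fun i _ => Submodule.smul_mem _ _ (heF i)
  have hvFf : ∀ f ∈ FF P Q A₀ b, v ⬝ᵥ f = vF ⬝ᵥ f := by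
    intro f hf
    have h1 : v ⬝ᵥ f = ∑ i, (e i ⬝ᵥ f) * (v ⬝ᵥ e i) := by
      conv_lhs => rw [hspan f hf]
      rw [dotProduct_sum]
      exact Finset.sum_congr rfl fun i _ => by rw [dotProduct_smul, smul_eq_mul]
    rw [h1, hvF, sum_dotProduct]
    exact Finset.sum_congr rfl fun i _ => by
      rw [smul_dotProduct, smul_eq_mul, dotProduct_comm v (e i)]; ring
  have hmeas : Measurable fun G : Mat n => ENNReal.ofReal (cos2 v (qq P Q A₀ G b)) :=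
    (measurable_cos2 measurable_const (measurable_qq P Q A₀ b)).ennreal_ofReal
  by_cases hz : vF ⬝ᵥ vF = 0
  · have hvF0 : vF = 0 := dotProduct_self_eq_zero.1 hz
    have : ∫⁻ G, ENNReal.ofReal (cos2 v (qq P Q A₀ G b)) ∂(gam n) = 0 := by
      rw [lintegral_eq_zero_iff hmeas]
      filter_upwards [hae] with G hG
      have h1 := (h.qq_mem G hG).1
      have h2 := hvFf _ h1
      rw [hvF0, zero_dotProduct] at h2
      simp [cos2, h2]
    rw [this, mul_zero]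
    exact zero_le_one
  · have hpos : 0 < vF ⬝ᵥ vF := lt_of_le_of_ne (dotProduct_self_nonneg' vF) (Ne.symm hz)
    set c := Real.sqrt (vF ⬝ᵥ vF) with hc
    have hc0 : 0 < c := Real.sqrt_pos.2 hpos
    have hcc : c * c = vF ⬝ᵥ vF := Real.mul_self_sqrt hpos.le
    set u : Fin n → ℝ := c⁻¹ • vF with hu
    have huF : u ∈ FF P Q A₀ b := Submodule.smul_mem _ _ hvFmem
    have huu : u ⬝ᵥ u = 1 := by
      rw [hu, smul_dotProduct, dotProduct_smul, smul_eq_mul, smul_eq_mul, ← hcc]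
      field_simp
    have hvc : ∀ f ∈ FF P Q A₀ b, v ⬝ᵥ f = c * (u ⬝ᵥ f) := by
      intro f hf
      rw [hvFf f hf, hu, smul_dotProduct, smul_eq_mul, mul_inv_cancel_left₀ hc0.ne']
    have hcv : c ^ 2 ≤ v ⬝ᵥ v := by
      rw [sq, hcc]
      have h1 : vF ⬝ᵥ vF = ∑ i, (e i ⬝ᵥ v) ^ 2 := by
        rw [← hvFf vF hvFmem, hvF, dotProduct_sum]
        exact Finset.sum_congr rfl fun i _ => by
          rw [dotProduct_smul, smul_eq_mul, dotProduct_comm v (e i)]; ring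
      rw [h1]
      exact bessel e he v
    have hO : ∀ w : Fin n → ℝ, hous w * (hous w)ᵀ = 1 := fun w => by
      rw [hous_transpose, hous_mul_self]
    have hset : MeasurableSet {G : Mat n | (RR P Q A₀ G).det ≠ 0} :=
      (measurable_det.comp (measurable_RR P Q A₀)) (measurableSet_singleton (0 : ℝ)).compl
    have h1 : ∀ i : Fin (finrank ℝ (FF P Q A₀ b)), ∫⁻ G, ENNReal.ofReal (cos2 v (qq P Q A₀ G b)) ∂(gam n) =
        ∫⁻ G, ENNReal.ofReal (cos2 v (hous (u - e i) *ᵥ qq P Q A₀ G b)) ∂(gam n) := by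
      intro i
      rw [← lintegral_mul_right (hous (u - e i)) (hO _) _ hmeas]
      apply lintegral_congr_ae
      filter_upwards [hae, ae_mul_right (hous (u - e i)) (hO _) hset hae] with G hG hG'
      rw [h.cos2_eq G (Submodule.sub_mem _ huF (heF i)) hG hG' v]
    have h2 : (finrank ℝ (FF P Q A₀ b) : ℝ≥0∞) * ∫⁻ G, ENNReal.ofReal (cos2 v (qq P Q A₀ G b)) ∂(gam n) =
        ∑ i : Fin (finrank ℝ (FF P Q A₀ b)), ∫⁻ G, ENNReal.ofReal (cos2 v (hous (u - e i) *ᵥ qq P Q A₀ G b)) ∂(gam n) := by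
      rw [← Finset.sum_congr rfl fun i _ => h1 i]
      rw [Finset.sum_const, Finset.card_univ, Fintype.card_fin, nsmul_eq_mul]
    rw [h2, ← lintegral_finsetSum _ fun i _ => ?_]
    · calc ∫⁻ G, ∑ i : Fin (finrank ℝ (FF P Q A₀ b)), ENNReal.ofReal (cos2 v (hous (u - e i) *ᵥ qq P Q A₀ G b)) ∂(gam n)
          ≤ ∫⁻ _, 1 ∂(gam n) := by
            apply lintegral_mono_ae
            filter_upwards [hae] with G hG
            rw [← ENNReal.ofReal_sum_of_nonneg fun i _ => cos2_nonneg _ _]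
            rw [← ENNReal.ofReal_one]
            apply ENNReal.ofReal_le_ofReal
            exact sum_cos2_le e heF he v u huF huu c hcv hvc _ (h.qq_mem G hG).1
        _ = 1 := by simp
    · exact (measurable_cos2 measurable_const
        (measurable_mulVec measurable_const (measurable_qq P Q A₀ b))).ennreal_ofReal

end MVQ
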