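import Pool.Agent.Lib_helper89.MVRun

/-!
Tail bounds for the inverse of a Gaussian matrix.
-/

open MeasureTheory ProbabilityTheory Matrix Module
open scoped ENNReal

namespace MVQ

variable {n : ℕ}

lemma gaussianPDFReal_le_half (x : ℝ) : gaussianPDFReal 0 1 x ≤ 1 / 2 := by
  rw [gaussianPDFReal]
  have h1 : (2 : ℝ) ≤ Real.sqrt (2 * Real.pi * (1 : NNReal)) := by
    rw [show (2 : ℝ) = Real.sqrt (2 ^ 2) by rw [Real.sqrt_sq]; norm_num]
    apply Real.sqrt_le_sqrt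
    have := Real.pi_gt_three
    rw [Real.sqrt_sq (by norm_num)]
    simp only [NNReal.coe_one, mul_one]
    nlinarith
  have h2 : Real.exp (-(x - 0) ^ 2 / (2 * (1 : NNReal))) ≤ 1 := by
    apply Real.exp_le_one_iff.2
    simp only [sub_zero, NNReal.coe_one, mul_one]
    have := sq_nonneg x
    linarith
  have h3 : (Real.sqrt (2 * Real.pi * (1 : NNReal)))⁻¹ ≤ 1 / 2 := by
    rw [one_div]
    exact inv_anti₀ (by norm_num) h1
  calc _ ≤ (1 / 2 : ℝ) * 1 := mul_le_mul h3 h2 (Real.exp_nonneg _) (by norm_num)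
    _ = 1 / 2 := by norm_num

lemma small_ball (t : ℝ) (ht : 0 ≤ t) : gaussianReal 0 1 {s | s ^ 2 ≤ t ^ 2} ≤ ENNReal.ofReal t := by
  have hset : {s : ℝ | s ^ 2 ≤ t ^ 2} = Set.Icc (-t) t := by
    ext s
    simp only [Set.mem_ofPred_eq, Set.mem_Icc]
    rw [sq_le_sq, abs_of_nonneg ht, abs_le]
  rw [hset, gaussianReal_apply 0 one_ne_zero]
  calc ∫⁻ x in Set.Icc (-t) t, gaussianPDF 0 1 x ≤ ∫⁻ _ in Set.Icc (-t) t, ENNReal.ofReal (1 / 2) := by
        apply lintegral_mono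
        intro x
        exact ENNReal.ofReal_le_ofReal (gaussianPDFReal_le_half x)
    _ = ENNReal.ofReal t := by
        rw [setLIntegral_const, Real.volume_Icc, ← ENNReal.ofReal_mul (by norm_num)]
        congr 1; ring

lemma second_moment : ∫⁻ s, ENNReal.ofReal (s ^ 2) ∂(gaussianReal 0 1) = 1 := by
  have h1 : Integrable (fun s : ℝ => s ^ 2) (gaussianReal 0 1) :=
    (memLp_id_gaussianReal 2).integrable_sq
  rw [← ofReal_integral_eq_lintegral_ofReal h1 (Filter.Eventually.of_forall fun s => sq_nonneg s)]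
  have h2 : Var[fun x => x; gaussianReal 0 1] = 1 := by
    simp
  rw [variance_eq_integral (by fun_prop)] at h2
  simp only [integral_id_gaussianReal, sub_zero] at h2
  rw [h2]; simp

/-- The law of the length of the solution of a Gaussian system. -/
lemma law_inv (u : Fin n → ℝ) (hu : u ⬝ᵥ u = 1) (φ : ℝ → ℝ≥0∞) (hφ : Measurable φ) :
    ∫⁻ A, φ (((A⁻¹ *ᵥ u) ⬝ᵥ (A⁻¹ *ᵥ u))⁻¹) ∂(gam n) = ∫⁻ s, φ (s ^ 2) ∂(gaussianReal 0 1) := by
  have hQ : IsPr (vecMulVec u u) := by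
    refine ⟨by rw [transpose_vecMulVec], ?_⟩
    rw [mul_vecMulVec', vecMulVec_mulVec', hu, one_smul]
  have hm : Measurable fun A : Mat n => φ (((A⁻¹ *ᵥ u) ⬝ᵥ (A⁻¹ *ᵥ u))⁻¹) := by
    have h1 : Measurable fun A : Mat n => A⁻¹ *ᵥ u :=
      measurable_mulVec (measurable_inv measurable_id) measurable_const
    exact hφ.comp (measurable_dot h1 h1).inv
  have hres := lintegral_resample_mat (vecMulVec u u) (1 : Mat n) hQ.1 transpose_one hQ.2
    (Matrix.mul_one 1)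
  rw [← hres _ hm]
  -- almost sure invertibility of the resampled matrix
  have hdet : MeasurableSet {A : Mat n | A.det = 0} := measurable_det (measurableSet_singleton 0)
  have hae : ∀ᵐ A ∂(gam n), ∀ᵐ G ∂(gam n),
      (A - vecMulVec u u * A * 1 + vecMulVec u u * G * 1).det ≠ 0 := by
    have h1 := hres (Set.indicator {A : Mat n | A.det = 0} fun _ => 1)
      (measurable_const.indicator hdet)
    rw [lintegral_indicator hdet] at h1
    simp only [lintegral_const, MeasurableSet.univ, Measure.restrict_apply, Set.univ_inter,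
      one_mul] at h1
    have h2 : gam n {A : Mat n | A.det = 0} = 0 := by
      have := ae_det_ne_zero n
      rw [ae_iff] at this
      simpa using this
    have hmF : Measurable fun p : Mat n × Mat n =>
        Set.indicator {A : Mat n | A.det = 0} (fun _ => (1 : ℝ≥0∞))
          (p.1 - vecMulVec u u * p.1 * 1 + vecMulVec u u * p.2 * 1) := by
      have h3 : Measurable fun p : Mat n × Mat n =>
        (p.1 - vecMulVec u u * p.1 * 1 + vecMulVec u u * p.2 * 1) := by fun_prop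
      exact (measurable_const.indicator hdet).comp h3
    rw [h2, lintegral_eq_zero_iff hmF.lintegral_prod_right'] at h1
    filter_upwards [h1] with A hA
    have hmF' : Measurable fun G : Mat n => Set.indicator {A : Mat n | A.det = 0}
        (fun _ => (1 : ℝ≥0∞)) (A - vecMulVec u u * A * 1 + vecMulVec u u * G * 1) :=
      hmF.comp (measurable_prodMk_left (x := A))
    rw [Pi.zero_apply, lintegral_eq_zero_iff hmF'] at hA
    filter_upwards [hA] with G hG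
    intro hG'
    have : (A - vecMulVec u u * A * 1 + vecMulVec u u * G * 1) ∈ {A : Mat n | A.det = 0} := hG'
    simp only [Pi.zero_apply] at hG
    rw [Set.indicator_of_mem this] at hG
    exact one_ne_zero hG
  have key : ∀ᵐ A ∂(gam n), ∫⁻ G, φ ((((A - vecMulVec u u * A * 1 + vecMulVec u u * G * 1)⁻¹ *ᵥ u)
      ⬝ᵥ ((A - vecMulVec u u * A * 1 + vecMulVec u u * G * 1)⁻¹ *ᵥ u))⁻¹) ∂(gam n) =
        ∫⁻ s, φ (s ^ 2) ∂(gaussianReal 0 1) := by
    filter_upwards [hae] with A hA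
    -- kernel vector
    have hdet0 : (A - vecMulVec u u * A).det = 0 := by
      have h1 : (A - vecMulVec u u * A) = (1 - vecMulVec u u) * A := by
        rw [Matrix.sub_mul, Matrix.one_mul]
      rw [h1, det_mul]
      have h2 : (1 - vecMulVec u u : Mat n).det = 0 := by
        rw [← Matrix.exists_mulVec_eq_zero_iff]
        refine ⟨u, ?_, ?_⟩
        · rintro rfl
          simp at hu
        · rw [sub_mulVec, one_mulVec, vecMulVec_mulVec', hu, one_smul, sub_self]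
      rw [h2, zero_mul]
    obtain ⟨z₀, hz₀, hz₁⟩ := Matrix.exists_mulVec_eq_zero_iff.2 hdet0
    have hzz : 0 < z₀ ⬝ᵥ z₀ :=
      lt_of_le_of_ne (dotProduct_self_nonneg' z₀)
        (fun h => hz₀ (dotProduct_self_eq_zero.1 h.symm))
    set c := Real.sqrt (z₀ ⬝ᵥ z₀) with hc
    have hc0 : 0 < c := Real.sqrt_pos.2 hzz
    have hcc : c * c = z₀ ⬝ᵥ z₀ := Real.mul_self_sqrt hzz.le
    set z : Fin n → ℝ := c⁻¹ • z₀ with hz
    have hz1 : z ⬝ᵥ z = 1 := by
      rw [hz, smul_dotProduct, dotProduct_smul, smul_eq_mul, smul_eq_mul, ← hcc]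
      field_simp
    have hz2 : (A - vecMulVec u u * A) *ᵥ z = 0 := by
      rw [hz, mulVec_smul, hz₁, smul_zero]
    rw [← map_bilin u z hu hz1, lintegral_map]
    · apply lintegral_congr_ae
      filter_upwards [hA] with G hG
      congr 1
      set R := A - vecMulVec u u * A * 1 + vecMulVec u u * G * 1 with hR
      have hRz : R *ᵥ z = (u ⬝ᵥ (G *ᵥ z)) • u := by
        rw [hR, Matrix.mul_one, Matrix.mul_one, add_mulVec, hz2, zero_add, ← mulVec_mulVec,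
          vecMulVec_mulVec']
      have h3 : z = (u ⬝ᵥ (G *ᵥ z)) • (R⁻¹ *ᵥ u) := by
        rw [← mulVec_smul, ← hRz, inv_mulVec_mulVec hG]
      have h4 : (u ⬝ᵥ (G *ᵥ z)) ^ 2 * ((R⁻¹ *ᵥ u) ⬝ᵥ (R⁻¹ *ᵥ u)) = 1 := by
        have h5 := hz1
        conv_lhs at h5 => rw [h3]
        rw [smul_dotProduct, dotProduct_smul, smul_eq_mul, smul_eq_mul] at h5
        rw [← h5]; ring
      exact inv_eq_of_mul_eq_one_left h4
    · exact hφ.comp (measurable_id.pow_const 2)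
    · exact measurable_dot measurable_const (measurable_mulVec measurable_id measurable_const)
  rw [lintegral_congr_ae key]
  simp

lemma tail_small (u : Fin n → ℝ) (hu : u ⬝ᵥ u = 1) (κ : ℝ) (hκ : 0 ≤ κ) :
    gam n {A | ((A⁻¹ *ᵥ u) ⬝ᵥ (A⁻¹ *ᵥ u))⁻¹ ≤ κ ^ 2} ≤ ENNReal.ofReal κ := by
  have h1 := law_inv u hu (Set.indicator {t : ℝ | t ≤ κ ^ 2} fun _ => 1)
    (measurable_const.indicator measurableSet_Iic)
  have hm : Measurable fun A : Mat n => ((A⁻¹ *ᵥ u) ⬝ᵥ (A⁻¹ *ᵥ u))⁻¹ := by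
    have h1 : Measurable fun A : Mat n => A⁻¹ *ᵥ u :=
      measurable_mulVec (measurable_inv measurable_id) measurable_const
    exact (measurable_dot h1 h1).inv
  have hs1 : MeasurableSet {A : Mat n | ((A⁻¹ *ᵥ u) ⬝ᵥ (A⁻¹ *ᵥ u))⁻¹ ≤ κ ^ 2} :=
    hm measurableSet_Iic
  have hs2 : MeasurableSet {s : ℝ | s ^ 2 ≤ κ ^ 2} :=
    (measurable_id.pow_const 2) measurableSet_Iic
  have h2 : ∫⁻ A, Set.indicator {t : ℝ | t ≤ κ ^ 2} (fun _ => (1 : ℝ≥0∞))
      (((A⁻¹ *ᵥ u) ⬝ᵥ (A⁻¹ *ᵥ u))⁻¹) ∂(gam n) =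
      gam n {A | ((A⁻¹ *ᵥ u) ⬝ᵥ (A⁻¹ *ᵥ u))⁻¹ ≤ κ ^ 2} := by
    have : ∀ A : Mat n, Set.indicator {t : ℝ | t ≤ κ ^ 2} (fun _ => (1 : ℝ≥0∞))
      (((A⁻¹ *ᵥ u) ⬝ᵥ (A⁻¹ *ᵥ u))⁻¹) =
      Set.indicator {A : Mat n | ((A⁻¹ *ᵥ u) ⬝ᵥ (A⁻¹ *ᵥ u))⁻¹ ≤ κ ^ 2} (fun _ => (1 : ℝ≥0∞)) A :=
      fun A => rfl
    simp_rw [this]
    rw [lintegral_indicator hs1]; simp
  have h3 : ∫⁻ s, Set.indicator {t : ℝ | t ≤ κ ^ 2} (fun _ => (1 : ℝ≥0∞)) (s ^ 2)
      ∂(gaussianReal 0 1) = gaussianReal 0 1 {s | s ^ 2 ≤ κ ^ 2} := by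
    have : ∀ s : ℝ, Set.indicator {t : ℝ | t ≤ κ ^ 2} (fun _ => (1 : ℝ≥0∞)) (s ^ 2) =
      Set.indicator {s : ℝ | s ^ 2 ≤ κ ^ 2} (fun _ => (1 : ℝ≥0∞)) s := fun s => rfl
    simp_rw [this]
    rw [lintegral_indicator hs2]; simp
  rw [← h2, h1, h3]
  exact small_ball κ hκ

lemma tail_large (u : Fin n → ℝ) (hu : u ⬝ᵥ u = 1) (T : ℝ) (hT : 0 < T) :
    gam n {A | T ≤ ((A⁻¹ *ᵥ u) ⬝ᵥ (A⁻¹ *ᵥ u))⁻¹} ≤ ENNReal.ofReal (1 / T) := by
  have h1 := law_inv u hu (fun t => ENNReal.ofReal t) ENNReal.measurable_ofReal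
  rw [second_moment] at h1
  have hm : Measurable fun A : Mat n => ((A⁻¹ *ᵥ u) ⬝ᵥ (A⁻¹ *ᵥ u))⁻¹ := by
    have h1 : Measurable fun A : Mat n => A⁻¹ *ᵥ u :=
      measurable_mulVec (measurable_inv measurable_id) measurable_const
    exact (measurable_dot h1 h1).inv
  have h2 := mul_meas_ge_le_lintegral₀ (μ := gam n) hm.ennreal_ofReal.aemeasurable
    (ENNReal.ofReal T)
  rw [h1] at h2
  have h3 : {A : Mat n | T ≤ ((A⁻¹ *ᵥ u) ⬝ᵥ (A⁻¹ *ᵥ u))⁻¹} ⊆
      {A : Mat n | ENNReal.ofReal T ≤ ENNReal.ofReal (((A⁻¹ *ᵥ u) ⬝ᵥ (A⁻¹ *ᵥ u))⁻¹)} :=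
    fun A hA => ENNReal.ofReal_le_ofReal hA
  refine (measure_mono h3).trans ?_
  rw [one_div, ENNReal.ofReal_inv_of_pos hT]
  rw [mul_comm] at h2
  exact ENNReal.le_inv_iff_mul_le.2 h2

/-- Expected squared length of a Gaussian vector. -/
lemma lintegral_dot (z : Fin n → ℝ) (hz : z ⬝ᵥ z = 1) :
    ∫⁻ G, ENNReal.ofReal ((G *ᵥ z) ⬝ᵥ (G *ᵥ z)) ∂(gam n) = n := by
  have h1 : ∀ G : Mat n, ENNReal.ofReal ((G *ᵥ z) ⬝ᵥ (G *ᵥ z)) =
      ∑ i, ENNReal.ofReal (((Pi.single i 1 : Fin n → ℝ) ⬝ᵥ (G *ᵥ z)) ^ 2) := by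
    intro G
    rw [← ENNReal.ofReal_sum_of_nonneg fun i _ => sq_nonneg _]
    congr 1
    rw [dotProduct]
    exact Finset.sum_congr rfl fun i _ => by rw [single_dotProduct]; ring
  simp_rw [h1]
  have hmeas : ∀ i : Fin n, Measurable fun G : Mat n => (Pi.single i 1 : Fin n → ℝ) ⬝ᵥ (G *ᵥ z) :=
    fun i => measurable_dot measurable_const (measurable_mulVec measurable_id measurable_const)
  rw [lintegral_finsetSum _ fun i _ => ((hmeas i).pow_const 2).ennreal_ofReal]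
  have h2 : ∀ i : Fin n, ∫⁻ G, ENNReal.ofReal (((Pi.single i 1 : Fin n → ℝ) ⬝ᵥ (G *ᵥ z)) ^ 2)
      ∂(gam n) = 1 := by
    intro i
    have h3 := map_bilin (Pi.single i 1 : Fin n → ℝ) z (by simp) hz
    rw [← second_moment, ← h3, lintegral_map (by fun_prop) (hmeas i)]
  rw [Finset.sum_congr rfl fun i _ => h2 i]
  simp

lemma cauchy (x y : Fin n → ℝ) : (x ⬝ᵥ y) ^ 2 ≤ (x ⬝ᵥ x) * (y ⬝ᵥ y) := by
  have := Finset.sum_mul_sq_le_sq_mul_sq Finset.univ x y
  simp only [dotProduct]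
  simpa only [sq] using this

/-- The set of matrices whose inverse is large. -/
lemma bad_inv (K : ℝ) (hK : 0 < K) :
    gam n {A : Mat n | ∃ r : Fin n → ℝ, K ^ 2 * n * (r ⬝ᵥ r) < (A⁻¹ *ᵥ r) ⬝ᵥ (A⁻¹ *ᵥ r)} ≤
      ENNReal.ofReal (16 / K) := by
  rcases Nat.eq_zero_or_pos n with rfl | hn
  · have : {A : Mat 0 | ∃ r : Fin 0 → ℝ, K ^ 2 * (0 : ℕ) * (r ⬝ᵥ r) < (A⁻¹ *ᵥ r) ⬝ᵥ (A⁻¹ *ᵥ r)} =
        ∅ := by
      ext A
      simp
    rw [this]; simp
  have hn' : (0 : ℝ) < n := by exact_mod_cast hn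
  obtain ⟨z, hz⟩ : ∃ z : Fin n → ℝ, z ⬝ᵥ z = 1 := ⟨Pi.single ⟨0, hn⟩ 1, by simp⟩
  set D : Set (Mat n × Mat n) := {p | 0 < (p.2 *ᵥ z) ⬝ᵥ (p.2 *ᵥ z) ∧
    K ^ 2 / 16 * ((p.2 *ᵥ z) ⬝ᵥ (p.2 *ᵥ z)) ≤
      (p.1⁻¹ *ᵥ (p.2 *ᵥ z)) ⬝ᵥ (p.1⁻¹ *ᵥ (p.2 *ᵥ z))} with hD
  have mg : Measurable fun p : Mat n × Mat n => p.2 *ᵥ z :=
    measurable_mulVec measurable_snd measurable_const
  have mgg : Measurable fun p : Mat n × Mat n => (p.2 *ᵥ z) ⬝ᵥ (p.2 *ᵥ z) := measurable_dot mg mg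
  have mi : Measurable fun p : Mat n × Mat n => p.1⁻¹ *ᵥ (p.2 *ᵥ z) :=
    measurable_mulVec (measurable_inv measurable_fst) mg
  have mD : MeasurableSet D :=
    (measurableSet_lt measurable_const mgg).inter
      (measurableSet_le (mgg.const_mul _) (measurable_dot mi mi))
  have hupper : ((gam n).prod (gam n)) D ≤ ENNReal.ofReal (4 / K) := by
    rw [Measure.prod_apply_symm mD]
    calc ∫⁻ G, gam n ((fun A => (A, G)) ⁻¹' D) ∂(gam n) ≤ ∫⁻ _, ENNReal.ofReal (4 / K) ∂(gam n) := by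
          apply lintegral_mono
          intro G
          change gam n ((fun A : Mat n => (A, G)) ⁻¹' D) ≤ ENNReal.ofReal (4 / K)
          by_cases hG : 0 < (G *ᵥ z) ⬝ᵥ (G *ᵥ z)
          · set g := G *ᵥ z with hg
            set c := Real.sqrt (g ⬝ᵥ g) with hc
            have hc0 : 0 < c := Real.sqrt_pos.2 hG
            have hcc : c * c = g ⬝ᵥ g := Real.mul_self_sqrt hG.le
            set u : Fin n → ℝ := c⁻¹ • g with hu
            have hu1 : u ⬝ᵥ u = 1 := by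
              rw [hu, smul_dotProduct, dotProduct_smul, smul_eq_mul, smul_eq_mul, ← hcc]
              field_simp
            have hgu : g = c • u := by rw [hu, smul_smul, mul_inv_cancel₀ hc0.ne', one_smul]
            refine (measure_mono ?_).trans (tail_small u hu1 (4 / K) (by positivity))
            rintro A ⟨-, hA⟩
            simp only [Set.mem_ofPred_eq] at hA ⊢
            rw [← hg] at hA
            rw [← hcc] at hA
            rw [hgu, mulVec_smul, smul_dotProduct, dotProduct_smul, smul_eq_mul, smul_eq_mul,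
              ← mul_assoc] at hA
            have h1 : K ^ 2 / 16 ≤ (A⁻¹ *ᵥ u) ⬝ᵥ (A⁻¹ *ᵥ u) := by
              have hc2 : 0 < c * c := by positivity
              by_contra hlt
              push Not at hlt
              nlinarith [mul_lt_mul_of_pos_left hlt hc2]
            have h2 : (4 / K) ^ 2 = (K ^ 2 / 16)⁻¹ := by field_simp; norm_num
            rw [h2]
            exact inv_anti₀ (by positivity) h1
          · have : (fun A : Mat n => (A, G)) ⁻¹' D = ∅ := by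
              ext A
              simp only [hD, Set.mem_preimage, Set.mem_ofPred_eq, Set.mem_empty_iff_false,
                iff_false, not_and]
              intro h; exact absurd h hG
            rw [this]; simp
      _ = ENNReal.ofReal (4 / K) := by simp
  have hlower : {A : Mat n | ∃ r : Fin n → ℝ,
      K ^ 2 * n * (r ⬝ᵥ r) < (A⁻¹ *ᵥ r) ⬝ᵥ (A⁻¹ *ᵥ r)} ⊆
      {A : Mat n | ENNReal.ofReal (1 / 4) ≤ gam n (Prod.mk A ⁻¹' D)} := by
    rintro A ⟨r, hr⟩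
    simp only [Set.mem_ofPred_eq]
    set y := A⁻¹ *ᵥ r with hy
    have hyy : 0 < y ⬝ᵥ y := by
      refine lt_of_le_of_lt ?_ hr
      have := dotProduct_self_nonneg' r
      positivity
    set c := Real.sqrt (y ⬝ᵥ y) with hc
    have hc0 : 0 < c := Real.sqrt_pos.2 hyy
    have hcc : c * c = y ⬝ᵥ y := Real.mul_self_sqrt hyy.le
    set v₀ : Fin n → ℝ := c⁻¹ • y with hv₀
    have hv1 : v₀ ⬝ᵥ v₀ = 1 := by
      rw [hv₀, smul_dotProduct, dotProduct_smul, smul_eq_mul, smul_eq_mul, ← hcc]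
      field_simp
    set w : Fin n → ℝ := (A⁻¹)ᵀ *ᵥ v₀ with hw
    have hwx : ∀ x, w ⬝ᵥ x = v₀ ⬝ᵥ (A⁻¹ *ᵥ x) := by
      intro x
      rw [hw, mulVec_transpose, dotProduct_mulVec]
    have hwr : (w ⬝ᵥ r) ^ 2 = y ⬝ᵥ y := by
      rw [hwx, ← hy, hv₀, smul_dotProduct, smul_eq_mul, ← hcc]
      field_simp
    have hrr : 0 < r ⬝ᵥ r := by
      refine lt_of_le_of_ne (dotProduct_self_nonneg' r) ?_
      intro h
      have h0 : r = 0 := dotProduct_self_eq_zero.1 h.symm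
      rw [h0, mulVec_zero] at hy
      rw [hy] at hyy; simp at hyy
    have hww : K ^ 2 * n < w ⬝ᵥ w := by
      have h1 := cauchy w r
      rw [hwr] at h1
      have h2 : K ^ 2 * n * (r ⬝ᵥ r) < (w ⬝ᵥ w) * (r ⬝ᵥ r) := lt_of_lt_of_le hr h1
      exact lt_of_mul_lt_mul_right h2 hrr.le
    have hww0 : 0 < w ⬝ᵥ w := lt_trans (by positivity) hww
    set d := Real.sqrt (w ⬝ᵥ w) with hd
    have hd0 : 0 < d := Real.sqrt_pos.2 hww0
    have hdd : d * d = w ⬝ᵥ w := Real.mul_self_sqrt hww0.le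
    set w' : Fin n → ℝ := d⁻¹ • w with hw'
    have hw1 : w' ⬝ᵥ w' = 1 := by
      rw [hw', smul_dotProduct, dotProduct_smul, smul_eq_mul, smul_eq_mul, ← hdd]
      field_simp
    -- two exceptional events
    have hE1 : gam n {G : Mat n | (w' ⬝ᵥ (G *ᵥ z)) ^ 2 ≤ (1 / 2) ^ 2} ≤ ENNReal.ofReal (1 / 2) := by
      have h1 := small_ball (1 / 2) (by norm_num)
      rw [← map_bilin w' z hw1 hz, Measure.map_apply] at h1
      · exact h1
      · exact measurable_dot measurable_const (measurable_mulVec measurable_id measurable_const)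
      · exact (measurable_id.pow_const 2) measurableSet_Iic
    have mz : Measurable fun G : Mat n => (G *ᵥ z) ⬝ᵥ (G *ᵥ z) := by
      have := measurable_mulVec (n := n) measurable_id (measurable_const (a := z))
      exact measurable_dot this this
    have hE2 : gam n {G : Mat n | 4 * (n : ℝ) ≤ (G *ᵥ z) ⬝ᵥ (G *ᵥ z)} ≤ ENNReal.ofReal (1 / 4) := by
      have h1 := mul_meas_ge_le_lintegral₀ (μ := gam n) mz.ennreal_ofReal.aemeasurable
        (ENNReal.ofReal (4 * n))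
      rw [lintegral_dot z hz] at h1
      have h3 : {G : Mat n | 4 * (n : ℝ) ≤ (G *ᵥ z) ⬝ᵥ (G *ᵥ z)} ⊆
          {G : Mat n | ENNReal.ofReal (4 * n) ≤ ENNReal.ofReal ((G *ᵥ z) ⬝ᵥ (G *ᵥ z))} :=
        fun A hA => ENNReal.ofReal_le_ofReal hA
      refine (measure_mono h3).trans ?_
      have h4 : (n : ℝ≥0∞) = ENNReal.ofReal (4 * n) * ENNReal.ofReal (1 / 4) := by
        rw [← ENNReal.ofReal_mul (by positivity)]
        rw [show (4 * (n : ℝ) * (1 / 4)) = n by ring, ENNReal.ofReal_natCast]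
      rw [h4] at h1
      exact (ENNReal.mul_le_mul_iff_right (by simp [hn.ne']) ENNReal.ofReal_ne_top).1 h1
    have hcover : (Set.univ : Set (Mat n)) ⊆ (Prod.mk A ⁻¹' D) ∪
        ({G : Mat n | (w' ⬝ᵥ (G *ᵥ z)) ^ 2 ≤ (1 / 2) ^ 2} ∪
          {G : Mat n | 4 * (n : ℝ) ≤ (G *ᵥ z) ⬝ᵥ (G *ᵥ z)}) := by
      intro G _
      by_cases h1 : (w' ⬝ᵥ (G *ᵥ z)) ^ 2 ≤ (1 / 2) ^ 2
      · exact Or.inr (Or.inl h1)
      by_cases h2 : 4 * (n : ℝ) ≤ (G *ᵥ z) ⬝ᵥ (G *ᵥ z)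
      · exact Or.inr (Or.inr h2)
      left
      push Not at h1 h2
      simp only [hD, Set.mem_preimage, Set.mem_ofPred_eq]
      set g := G *ᵥ z with hg
      have h3 : (w ⬝ᵥ g) ^ 2 ≤ (A⁻¹ *ᵥ g) ⬝ᵥ (A⁻¹ *ᵥ g) := by
        rw [hwx]
        have := cauchy v₀ (A⁻¹ *ᵥ g)
        rwa [hv1, one_mul] at this
      have h4 : (w ⬝ᵥ g) ^ 2 = (w ⬝ᵥ w) * (w' ⬝ᵥ g) ^ 2 := by
        rw [hw', smul_dotProduct, smul_eq_mul, ← hdd]
        field_simp
      constructor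
      · refine lt_of_le_of_ne (dotProduct_self_nonneg' g) ?_
        intro h
        have h0 : g = 0 := dotProduct_self_eq_zero.1 h.symm
        rw [h0, dotProduct_zero] at h1
        norm_num at h1
      · have h5 : K ^ 2 * n * (1 / 2) ^ 2 ≤ (w ⬝ᵥ w) * (w' ⬝ᵥ g) ^ 2 :=
          mul_le_mul hww.le h1.le (by norm_num) hww0.le
        have hK2 : 0 < K ^ 2 := by positivity
        nlinarith
    have h6 := (measure_mono (μ := gam n) hcover).trans (measure_union_le _ _)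
    have h7 := h6.trans (add_le_add_right (measure_union_le _ _) _)
    have h8 := h7.trans (add_le_add_right (add_le_add hE1 hE2) _)
    rw [measure_univ, ← ENNReal.ofReal_add (by norm_num) (by norm_num)] at h8
    have h9 : (1 : ℝ≥0∞) = ENNReal.ofReal (1 / 4) + ENNReal.ofReal (1 / 2 + 1 / 4) := by
      rw [← ENNReal.ofReal_add (by norm_num) (by norm_num)]; norm_num
    rw [h9] at h8
    exact (ENNReal.add_le_add_iff_right ENNReal.ofReal_ne_top).1 h8
  refine (measure_mono hlower).trans ?_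
  have mS : Measurable fun A : Mat n => gam n (Prod.mk A ⁻¹' D) :=
    measurable_measure_prodMk_left mD
  have h10 := mul_meas_ge_le_lintegral₀ (μ := gam n) mS.aemeasurable (ENNReal.ofReal (1 / 4))
  rw [← Measure.prod_apply mD] at h10
  have h11 := h10.trans hupper
  have h12 : ENNReal.ofReal (4 / K) = ENNReal.ofReal (1 / 4) * ENNReal.ofReal (16 / K) := by
    rw [← ENNReal.ofReal_mul (by norm_num)]; congr 1; ring
  rw [h12] at h11
  exact (ENNReal.mul_le_mul_iff_right (by simp) ENNReal.ofReal_ne_top).1 h11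

end MVQ
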