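import Pool.Agent.Lib_helper89.MVFinal
import Pool.Agent.Lib_helper89.MVDefs

/-!
From the deterministic bound to randomised algorithms.
-/

open MeasureTheory ProbabilityTheory Matrix
open scoped ENNReal
open MVQ

namespace Pool.Agent.Lib_helper89.MatVec

variable {Ω : Type*} [MeasurableSpace Ω] {n q : ℕ}

/-- The strategy obtained by fixing the seed and the right-hand side. -/
noncomputable def strat (alg : Algorithm Ω n q) (b : Vec n) (ω : Ω) : Strat n := fun k a =>
  if h : k = q then alg.output b ω (fun i => a (Fin.cast h.symm i)) else alg.query b k ω a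

lemma measurable_strat (alg : Algorithm Ω n q) (b : Vec n) (k : ℕ) :
    Measurable fun p : Ω × (Fin k → Vec n × Vec n) => strat alg b p.1 k p.2 := by
  unfold strat
  by_cases h : k = q
  · subst h
    simp only [dif_pos]
    exact alg.measurable_output b
  · simp only [dif_neg h]
    exact alg.measurable_query b k

lemma hist_eq_answers (alg : Algorithm Ω n q) (b : Vec n) (ω : Ω) (A : Mat n) (k : ℕ)
    (hk : k ≤ q) : hist (strat alg b ω) A k = alg.answers b ω A k := by
  induction k with
  | zero => rfl
  | succ k ih =>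
    have h1 := ih (by omega)
    have h2 : k ≠ q := by omega
    simp only [hist, Algorithm.answers]
    rw [h1]
    simp only [strat, dif_neg h2]

lemma vv_eq_run (alg : Algorithm Ω n q) (b : Vec n) (ω : Ω) (A : Mat n) :
    vv (strat alg b ω) q A = alg.run b ω A := by
  unfold vv Algorithm.run
  rw [hist_eq_answers alg b ω A q le_rfl]
  simp only [strat, dif_pos]
  rfl

lemma measurable_answers (alg : Algorithm Ω n q) (b : Vec n) (k : ℕ) :
    Measurable fun p : Ω × Mat n => alg.answers b p.1 p.2 k := by
  induction k with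
  | zero => exact measurable_const
  | succ k ih =>
    have hv : Measurable fun p : Ω × Mat n => alg.query b k p.1 (alg.answers b p.1 p.2 k) :=
      (alg.measurable_query b k).comp (measurable_fst.prodMk ih)
    refine measurable_pi_iff.2 fun i => ?_
    refine Fin.lastCases ?_ (fun j => ?_) i
    · simp only [Algorithm.answers, Fin.snoc_last]
      exact (measurable_mulVec measurable_snd hv).prodMk
        (measurable_mulVec (measurable_transpose measurable_snd) hv)
    · simp only [Algorithm.answers, Fin.snoc_castSucc]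
      exact measurable_pi_iff.1 ih j

lemma measurable_run (alg : Algorithm Ω n q) (b : Vec n) :
    Measurable fun p : Ω × Mat n => alg.run b p.1 p.2 :=
  (alg.measurable_output b).comp (measurable_fst.prodMk (measurable_answers alg b q))

lemma norm2_sq (x : Vec n) : norm2 x ^ 2 = x ⬝ᵥ x := by
  rw [norm2, Real.sq_sqrt (Finset.sum_nonneg fun i _ => sq_nonneg _), dotProduct]
  exact Finset.sum_congr rfl fun i _ => by ring

/-- Upper bound for the success probability on a unit right-hand side. -/
lemma prob_le (alg : Algorithm Ω n q) (μ : Measure Ω) [IsProbabilityMeasure μ] (b : Vec n)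
    (hb : b ⬝ᵥ b = 1) (hq : 2 * q + 1 < n) (ε K T : ℝ) (hε : 0 ≤ ε) (hK : 0 < K) (hT : 0 < T)
    (hη : K ^ 2 * n * ε ^ 2 * T < 1) :
    (μ.prod (gaussianEntries n))
      {p | norm2 (toMatrix p.2 *ᵥ alg.run b p.1 (toMatrix p.2) - b) ≤ ε * norm2 b} ≤
      ENNReal.ofReal (16 / K + 1 / T +
        (q + 1) / (n - 2 * q - 1) / (1 - K ^ 2 * n * ε ^ 2 * T)) := by
  have hP : IsProbabilityMeasure (gaussianEntries n) := by
    unfold gaussianEntries; infer_instance
  have hnb : norm2 b = 1 := by
    have h1 := norm2_sq b
    rw [hb] at h1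
    have h2 : 0 ≤ norm2 b := Real.sqrt_nonneg _
    nlinarith
  have mM : Measurable (toMatrix : (Fin n × Fin n → ℝ) → Mat n) := by
    apply measurable_mat
    intro i j
    simp only [toMatrix, Matrix.of_apply]
    fun_prop
  have hgam : (gaussianEntries n).map toMatrix = gam n := (gam_eq n).symm
  have ma : ∀ p : Ω × (Fin n × Fin n → ℝ),
      (norm2 (toMatrix p.2 *ᵥ alg.run b p.1 (toMatrix p.2) - b) ≤ ε * norm2 b) ↔
      (b - toMatrix p.2 *ᵥ alg.run b p.1 (toMatrix p.2)) ⬝ᵥ
        (b - toMatrix p.2 *ᵥ alg.run b p.1 (toMatrix p.2)) ≤ ε ^ 2 := by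
    intro p
    rw [hnb, mul_one]
    set y := toMatrix p.2 *ᵥ alg.run b p.1 (toMatrix p.2)
    have h1 : (b - y) ⬝ᵥ (b - y) = norm2 (y - b) ^ 2 := by
      rw [norm2_sq, ← neg_sub y b, neg_dotProduct, dotProduct_neg, neg_neg]
    rw [h1]
    exact (pow_le_pow_iff_left₀ (Real.sqrt_nonneg _) hε two_ne_zero).symm
  have mrun : Measurable fun p : Ω × (Fin n × Fin n → ℝ) =>
      b - toMatrix p.2 *ᵥ alg.run b p.1 (toMatrix p.2) := by
    have h1 : Measurable fun p : Ω × (Fin n × Fin n → ℝ) => (toMatrix p.2 : Mat n) :=
      mM.comp measurable_snd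
    exact measurable_const.sub (measurable_mulVec h1
      ((measurable_run alg b).comp (measurable_fst.prodMk h1)))
  have mset : MeasurableSet {p : Ω × (Fin n × Fin n → ℝ) |
      norm2 (toMatrix p.2 *ᵥ alg.run b p.1 (toMatrix p.2) - b) ≤ ε * norm2 b} := by
    simp_rw [ma]
    exact measurableSet_le (measurable_dot mrun mrun) measurable_const
  rw [Measure.prod_apply mset]
  calc ∫⁻ ω, gaussianEntries n (Prod.mk ω ⁻¹' {p : Ω × (Fin n × Fin n → ℝ) |
      norm2 (toMatrix p.2 *ᵥ alg.run b p.1 (toMatrix p.2) - b) ≤ ε * norm2 b}) ∂μ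
      ≤ ∫⁻ _, ENNReal.ofReal (16 / K + 1 / T +
        (q + 1) / (n - 2 * q - 1) / (1 - K ^ 2 * n * ε ^ 2 * T)) ∂μ := by
        apply lintegral_mono
        intro ω
        have hσ : ∀ k, Measurable (strat alg b ω k) := fun k =>
          (measurable_strat alg b k).comp (measurable_prodMk_left (x := ω))
        have h1 := success_le (σ := strat alg b ω) hσ hb q hq ε K T hK hT hη
        refine le_trans (le_of_eq ?_) h1
        beta_reduce
        have mvv := measurable_vv hσ q
        have mres : Measurable fun A : Mat n => b - A *ᵥ vv (strat alg b ω) q A :=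
          measurable_const.sub (measurable_mulVec measurable_id mvv)
        rw [← hgam, Measure.map_apply mM (measurableSet_le (measurable_dot mres mres)
          measurable_const)]
        congr 1
        ext g
        simp only [Set.mem_preimage, Set.mem_ofPred_eq]
        rw [ma (ω, g), vv_eq_run]
    _ = _ := by simp

end Pool.Agent.Lib_helper89.MatVec
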