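import Pool.Agent.Lib_helper89.MVGauss

/-!
Projection updates.
-/

open MeasureTheory ProbabilityTheory Matrix
open scoped ENNReal

namespace MVQ

/-- Symmetric idempotent matrices. -/
def IsPr {n : ℕ} (P : Mat n) : Prop := Pᵀ = P ∧ P * P = P

/-- Remove the direction `P v` from the projection `P`. -/
noncomputable def upd {n : ℕ} (P : Mat n) (v : Fin n → ℝ) : Mat n :=
  P - ((P *ᵥ v) ⬝ᵥ (P *ᵥ v))⁻¹ • vecMulVec (P *ᵥ v) (P *ᵥ v)

variable {n : ℕ} {P : Mat n}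

lemma IsPr.one : IsPr (1 : Mat n) := ⟨transpose_one, Matrix.mul_one 1⟩

lemma IsPr.dot (h : IsPr P) (x y : Fin n → ℝ) : (P *ᵥ x) ⬝ᵥ y = x ⬝ᵥ (P *ᵥ y) := by
  rw [dotProduct_mulVec, ← mulVec_transpose, h.1]

lemma IsPr.mulVec_idem (h : IsPr P) (x : Fin n → ℝ) : P *ᵥ (P *ᵥ x) = P *ᵥ x := by
  rw [mulVec_mulVec, h.2]

lemma IsPr.dot_self (h : IsPr P) (x : Fin n → ℝ) : (P *ᵥ x) ⬝ᵥ (P *ᵥ x) = x ⬝ᵥ (P *ᵥ x) := by
  rw [h.dot, h.mulVec_idem]

lemma IsPr.dot_self_le (h : IsPr P) (x : Fin n → ℝ) : (P *ᵥ x) ⬝ᵥ (P *ᵥ x) ≤ x ⬝ᵥ x := by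
  have h1 : 0 ≤ (x - P *ᵥ x) ⬝ᵥ (x - P *ᵥ x) := by
    rw [dotProduct]; exact Finset.sum_nonneg fun i _ => mul_self_nonneg _
  have h2 : (x - P *ᵥ x) ⬝ᵥ (x - P *ᵥ x) = x ⬝ᵥ x - (P *ᵥ x) ⬝ᵥ (P *ᵥ x) := by
    rw [sub_dotProduct, dotProduct_sub, dotProduct_sub, ← h.dot_self, dotProduct_comm (P *ᵥ x) x,
      ← h.dot_self]
    ring
  linarith

lemma dotProduct_self_nonneg' (x : Fin n → ℝ) : 0 ≤ x ⬝ᵥ x := by
  rw [dotProduct]; exact Finset.sum_nonneg fun i _ => mul_self_nonneg _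

lemma vecMulVec_mulVec' (a b x : Fin n → ℝ) : vecMulVec a b *ᵥ x = (b ⬝ᵥ x) • a := by
  ext i
  simp only [mulVec, dotProduct, vecMulVec_apply, Pi.smul_apply, smul_eq_mul]
  rw [Finset.sum_mul]
  exact Finset.sum_congr rfl fun j _ => by ring

lemma upd_mulVec (v x : Fin n → ℝ) : upd P v *ᵥ x =
    P *ᵥ x - (((P *ᵥ v) ⬝ᵥ (P *ᵥ v))⁻¹ * ((P *ᵥ v) ⬝ᵥ x)) • (P *ᵥ v) := by
  rw [upd, sub_mulVec, smul_mulVec, vecMulVec_mulVec', smul_smul]

lemma mul_vecMulVec' (M : Mat n) (a b : Fin n → ℝ) : M * vecMulVec a b = vecMulVec (M *ᵥ a) b := by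
  ext i j
  simp only [Matrix.mul_apply, vecMulVec_apply, mulVec, dotProduct]
  rw [Finset.sum_mul]
  exact Finset.sum_congr rfl fun k _ => by ring

lemma vecMulVec_mul' (M : Mat n) (a b : Fin n → ℝ) :
    vecMulVec a b * M = vecMulVec a (Mᵀ *ᵥ b) := by
  ext i j
  simp only [Matrix.mul_apply, vecMulVec_apply, mulVec, dotProduct, transpose_apply]
  rw [Finset.mul_sum]
  exact Finset.sum_congr rfl fun k _ => by ring

lemma mul_upd (h : IsPr P) (v : Fin n → ℝ) : P * upd P v = upd P v := by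
  rw [upd, Matrix.mul_sub, h.2, Matrix.mul_smul, mul_vecMulVec', h.mulVec_idem]

lemma upd_mul (h : IsPr P) (v : Fin n → ℝ) : upd P v * P = upd P v := by
  rw [upd, Matrix.sub_mul, h.2, Matrix.smul_mul, vecMulVec_mul', h.1, h.mulVec_idem]

lemma transpose_upd (h : IsPr P) (v : Fin n → ℝ) : (upd P v)ᵀ = upd P v := by
  rw [upd, transpose_sub, h.1, transpose_smul, transpose_vecMulVec]

lemma upd_mulVec_self (h : IsPr P) (v : Fin n → ℝ) : upd P v *ᵥ v = 0 := by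
  rw [upd_mulVec]
  by_cases hw : (P *ᵥ v) ⬝ᵥ (P *ᵥ v) = 0
  · have : P *ᵥ v = 0 := dotProduct_self_eq_zero.1 hw
    rw [this]; simp
  · have h2 : (P *ᵥ v) ⬝ᵥ v = (P *ᵥ v) ⬝ᵥ (P *ᵥ v) := by
      rw [h.dot_self, dotProduct_comm]
    rw [h2, inv_mul_cancel₀ hw, one_smul, sub_self]

lemma upd_mulVec_eq_zero (h : IsPr P) (v x : Fin n → ℝ) (hx : P *ᵥ x = 0) : upd P v *ᵥ x = 0 := by
  rw [← upd_mul h, ← mulVec_mulVec, hx, mulVec_zero]

lemma upd_mul_upd (h : IsPr P) (v : Fin n → ℝ) : upd P v * upd P v = upd P v := by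
  have h1 : upd P v * vecMulVec (P *ᵥ v) (P *ᵥ v) = 0 := by
    rw [mul_vecMulVec', mulVec_mulVec, upd_mul h, upd_mulVec_self h]
    ext i j; simp [vecMulVec_apply]
  conv_lhs => rw [show upd P v * upd P v = upd P v * (P - ((P *ᵥ v) ⬝ᵥ (P *ᵥ v))⁻¹ •
    vecMulVec (P *ᵥ v) (P *ᵥ v)) from rfl]
  rw [Matrix.mul_sub, upd_mul h, Matrix.mul_smul, h1, smul_zero, sub_zero]

lemma IsPr.upd (h : IsPr P) (v : Fin n → ℝ) : IsPr (upd P v) :=
  ⟨transpose_upd h v, upd_mul_upd h v⟩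

/-- Energy removed by an update. -/
lemma dot_sub_upd (v x : Fin n → ℝ) :
    x ⬝ᵥ (P *ᵥ x) - x ⬝ᵥ (upd P v *ᵥ x) =
      ((P *ᵥ v) ⬝ᵥ x) ^ 2 / ((P *ᵥ v) ⬝ᵥ (P *ᵥ v)) := by
  rw [upd_mulVec, dotProduct_sub, dotProduct_smul, dotProduct_comm x (P *ᵥ v), smul_eq_mul]
  ring

lemma rank_add_le' (M N : Mat n) : (M + N).rank ≤ M.rank + N.rank := by
  unfold Matrix.rank
  have h : LinearMap.range (M + N).mulVecLin ≤
      LinearMap.range M.mulVecLin ⊔ LinearMap.range N.mulVecLin := by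
    rintro _ ⟨x, rfl⟩
    rw [mulVecLin_apply, add_mulVec]
    exact Submodule.add_mem_sup ⟨x, rfl⟩ ⟨x, rfl⟩
  exact (Submodule.finrank_mono h).trans (Submodule.finrank_add_le_finrank_add_finrank _ _)

lemma rank_sub_upd (Q : Mat n) (v : Fin n → ℝ) (B : Mat n) :
    (1 - upd Q v - B).rank ≤ (1 - Q - B).rank + 1 := by
  have : 1 - upd Q v - B = (1 - Q - B) +
      ((Q *ᵥ v) ⬝ᵥ (Q *ᵥ v))⁻¹ • vecMulVec (Q *ᵥ v) (Q *ᵥ v) := by
    rw [upd]; abel
  rw [this]
  refine (rank_add_le' _ _).trans ?_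
  refine Nat.add_le_add_left ?_ _
  rw [← smul_vecMulVec]
  exact rank_vecMulVec_le _ _

lemma measurable_mulVec {α : Type*} [MeasurableSpace α] {A : α → Mat n} {v : α → Fin n → ℝ}
    (hA : Measurable A) (hv : Measurable v) : Measurable fun a => A a *ᵥ v a := by
  refine measurable_pi_iff.2 fun i => ?_
  simp only [mulVec, dotProduct]
  exact Finset.measurable_sum _ fun j _ => (measurable_entry hA i j).mul (measurable_pi_iff.1 hv j)

lemma measurable_transpose {α : Type*} [MeasurableSpace α] {A : α → Mat n}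
    (hA : Measurable A) : Measurable fun a => (A a)ᵀ :=
  measurable_mat fun i j => measurable_entry hA j i

lemma measurable_dot {α : Type*} [MeasurableSpace α] {v w : α → Fin n → ℝ}
    (hv : Measurable v) (hw : Measurable w) : Measurable fun a => v a ⬝ᵥ w a := by
  simp only [dotProduct]
  exact Finset.measurable_sum _ fun j _ => (measurable_pi_iff.1 hv j).mul (measurable_pi_iff.1 hw j)

lemma measurable_upd {α : Type*} [MeasurableSpace α] {A : α → Mat n} {v : α → Fin n → ℝ}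
    (hA : Measurable A) (hv : Measurable v) : Measurable fun a => upd (A a) (v a) := by
  have hw := measurable_mulVec hA hv
  refine measurable_mat fun i j => ?_
  simp only [upd, Matrix.sub_apply, Matrix.smul_apply, vecMulVec_apply, smul_eq_mul]
  exact (measurable_entry hA i j).sub ((measurable_dot hw hw).inv.mul
    ((measurable_pi_iff.1 hw i).mul (measurable_pi_iff.1 hw j)))

lemma measurable_inv {α : Type*} [MeasurableSpace α] {A : α → Mat n}
    (hA : Measurable A) : Measurable fun a => (A a)⁻¹ := by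
  refine measurable_mat fun i j => ?_
  simp only [inv_def, Matrix.smul_apply, smul_eq_mul, Ring.inverse_eq_inv', adjugate_apply]
  refine (measurable_det.comp hA).inv.mul ?_
  refine measurable_det.comp ?_
  refine measurable_mat fun k l => ?_
  simp only [updateRow_apply]
  split_ifs
  · exact measurable_const
  · exact measurable_entry hA k l

end MVQ
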