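import Pool.Agent.Lib_helper89.MVInner

/-!
Running an adaptive strategy.
-/

open MeasureTheory ProbabilityTheory Matrix Module
open scoped ENNReal

namespace MVQ

variable {n : ℕ}

/-- A deterministic adaptive strategy: the next vector as a function of the answers received. -/
abbrev Strat (n : ℕ) := (k : ℕ) → (Fin k → (Fin n → ℝ) × (Fin n → ℝ)) → (Fin n → ℝ)

/-- The list of the first `k` answers. -/
noncomputable def hist (σ : Strat n) (A : Mat n) : (k : ℕ) → (Fin k → (Fin n → ℝ) × (Fin n → ℝ))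
  | 0 => Fin.elim0
  | k + 1 => Fin.snoc (hist σ A k) (A *ᵥ (σ k (hist σ A k)), Aᵀ *ᵥ (σ k (hist σ A k)))

/-- The `k`-th vector queried. -/
noncomputable def vv (σ : Strat n) (k : ℕ) (A : Mat n) : Fin n → ℝ := σ k (hist σ A k)

noncomputable def PS (σ : Strat n) : ℕ → Mat n → Mat n
  | 0, _ => 1
  | k + 1, A => upd (PS σ k A) (vv σ k A)

noncomputable def QS (σ : Strat n) (b : Fin n → ℝ) : ℕ → Mat n → Mat n
  | 0, _ => 1 - vecMulVec b b
  | k + 1, A => upd (upd (QS σ b k A) (vv σ k A)) (A *ᵥ vv σ k A)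

variable {σ : Strat n} {b : Fin n → ℝ}

lemma measurable_hist (hσ : ∀ k, Measurable (σ k)) (k : ℕ) :
    Measurable fun A : Mat n => hist σ A k := by
  induction k with
  | zero => exact measurable_const
  | succ k ih =>
    have hv : Measurable fun A : Mat n => σ k (hist σ A k) := (hσ k).comp ih
    refine measurable_pi_iff.2 fun i => ?_
    refine Fin.lastCases ?_ (fun j => ?_) i
    · simp only [hist, Fin.snoc_last]
      exact (measurable_mulVec measurable_id hv).prodMk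
        (measurable_mulVec (measurable_transpose measurable_id) hv)
    · simp only [hist, Fin.snoc_castSucc]
      exact measurable_pi_iff.1 ih j

lemma measurable_vv (hσ : ∀ k, Measurable (σ k)) (k : ℕ) : Measurable (vv σ k) :=
  (hσ k).comp (measurable_hist hσ k)

lemma measurable_PS (hσ : ∀ k, Measurable (σ k)) (k : ℕ) : Measurable (PS σ k) := by
  induction k with
  | zero => exact measurable_const
  | succ k ih => exact measurable_upd ih (measurable_vv hσ k)

lemma measurable_QS (hσ : ∀ k, Measurable (σ k)) (k : ℕ) : Measurable (QS σ b k) := by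
  induction k with
  | zero => exact measurable_const
  | succ k ih =>
    exact measurable_upd (measurable_upd ih (measurable_vv hσ k))
      (measurable_mulVec measurable_id (measurable_vv hσ k))

lemma isPr_PS (k : ℕ) (A : Mat n) : IsPr (PS σ k A) := by
  induction k with
  | zero => exact IsPr.one
  | succ k ih => exact ih.upd _

lemma isPr_one_sub (hb : b ⬝ᵥ b = 1) : IsPr (1 - vecMulVec b b) := by
  constructor
  · rw [transpose_sub, transpose_one, transpose_vecMulVec]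
  · have : vecMulVec b b * vecMulVec b b = vecMulVec b b := by
      rw [mul_vecMulVec', vecMulVec_mulVec', hb, one_smul]
    rw [Matrix.mul_sub, Matrix.mul_one, Matrix.sub_mul, Matrix.one_mul, this, sub_self, sub_zero]

lemma isPr_QS (hb : b ⬝ᵥ b = 1) (k : ℕ) (A : Mat n) : IsPr (QS σ b k A) := by
  induction k with
  | zero => exact isPr_one_sub hb
  | succ k ih => exact (ih.upd _).upd _

lemma PS_vv {j k : ℕ} (h : j < k) (A : Mat n) : PS σ k A *ᵥ vv σ j A = 0 := by
  induction k with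
  | zero => omega
  | succ k ih =>
    rcases Nat.lt_succ_iff_lt_or_eq.1 h with h | rfl
    · exact upd_mulVec_eq_zero (isPr_PS k A) _ _ (ih h)
    · exact upd_mulVec_self (isPr_PS j A) _

lemma QS_vv (hb : b ⬝ᵥ b = 1) {j k : ℕ} (h : j < k) (A : Mat n) :
    QS σ b k A *ᵥ vv σ j A = 0 := by
  induction k with
  | zero => omega
  | succ k ih =>
    refine upd_mulVec_eq_zero ((isPr_QS hb k A).upd _) _ _ ?_
    rcases Nat.lt_succ_iff_lt_or_eq.1 h with h | rfl
    · exact upd_mulVec_eq_zero (isPr_QS hb k A) _ _ (ih h)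
    · exact upd_mulVec_self (isPr_QS hb j A) _

lemma QS_b (hb : b ⬝ᵥ b = 1) (k : ℕ) (A : Mat n) : QS σ b k A *ᵥ b = 0 := by
  induction k with
  | zero =>
    change (1 - vecMulVec b b) *ᵥ b = 0
    rw [sub_mulVec, one_mulVec, vecMulVec_mulVec', hb, one_smul, sub_self]
  | succ k ih =>
    exact upd_mulVec_eq_zero ((isPr_QS hb k A).upd _) _ _
      (upd_mulVec_eq_zero (isPr_QS hb k A) _ _ ih)

/-- The history only depends on the answers. -/
lemma hist_congr (A R : Mat n) (k : ℕ)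
    (h : ∀ j < k, R *ᵥ vv σ j A = A *ᵥ vv σ j A ∧ Rᵀ *ᵥ vv σ j A = Aᵀ *ᵥ vv σ j A) :
    hist σ R k = hist σ A k := by
  induction k with
  | zero => rfl
  | succ k ih =>
    have h1 := ih fun j hj => h j (Nat.lt_succ_of_lt hj)
    have h2 := h k (Nat.lt_succ_self k)
    simp only [hist]
    rw [h1]
    unfold vv at h2
    rw [h2.1, h2.2]

lemma vv_congr (A R : Mat n) (k : ℕ)
    (h : ∀ j < k, R *ᵥ vv σ j A = A *ᵥ vv σ j A ∧ Rᵀ *ᵥ vv σ j A = Aᵀ *ᵥ vv σ j A) :
    vv σ k R = vv σ k A := by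
  unfold vv
  rw [hist_congr A R k h]

lemma change_mulVec {P Q A X : Mat n} {v : Fin n → ℝ} (hP : P *ᵥ v = 0) :
    (A - Q * A * P + Q * X * P) *ᵥ v = A *ᵥ v := by
  simp only [add_mulVec, sub_mulVec, ← mulVec_mulVec, hP, mulVec_zero, sub_zero, add_zero]

lemma change_transpose_mulVec {P Q A X : Mat n} {v : Fin n → ℝ} (hP : Pᵀ = P) (hQ : Qᵀ = Q)
    (hv : Q *ᵥ v = 0) :
    (A - Q * A * P + Q * X * P)ᵀ *ᵥ v = Aᵀ *ᵥ v := by
  simp only [transpose_add, transpose_sub, transpose_mul, hP, hQ, add_mulVec, sub_mulVec,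
    ← mulVec_mulVec, hv, mulVec_zero, sub_zero, add_zero]

lemma exists_expl (hσ : ∀ k, Measurable (σ k)) (hb : b ⬝ᵥ b = 1) (k : ℕ) :
    ∃ E : Expl n, E.P = PS σ k ∧ E.Q = QS σ b k := by
  induction k with
  | zero => exact ⟨Expl.init (1 - vecMulVec b b) (isPr_one_sub hb), rfl, rfl⟩
  | succ k ih =>
    obtain ⟨E, hEP, hEQ⟩ := ih
    have hloc : E.Loc (vv σ k) := by
      intro A X
      apply vv_congr
      intro j hj
      rw [hEP, hEQ]
      exact ⟨change_mulVec (PS_vv hj A), change_transpose_mulVec (isPr_PS k A).1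
        (isPr_QS hb k A).1 (QS_vv hb hj A)⟩
    have mv := measurable_vv hσ k
    let E1 := E.refine (fun A => upd (E.P A) (vv σ k A)) (fun A => upd (E.Q A) (vv σ k A))
      (measurable_upd E.measP mv) (measurable_upd E.measQ mv)
      (fun A => (E.prP A).upd _) (fun A => (E.prQ A).upd _)
      (fun A => upd_mul (E.prP A) _) (fun A => mul_upd (E.prP A) _)
      (fun A => upd_mul (E.prQ A) _) (fun A => mul_upd (E.prQ A) _)
      (by intro A X; simp only []; rw [E.locP, hloc]) (by intro A X; simp only []; rw [E.locQ, hloc])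
    have hloc1 : E1.Loc (vv σ k) :=
      Expl.Loc.mono (E := E) (fun A => upd_mul (E.prP A) _) (fun A => mul_upd (E.prQ A) _) hloc
    have hloc2 : E1.Loc (fun A => A *ᵥ vv σ k A) := by
      intro A X
      simp only []
      rw [hloc1]
      exact change_mulVec (upd_mulVec_self (E.prP A) _)
    let E2 := E1.refine E1.P (fun A => upd (E1.Q A) (A *ᵥ vv σ k A))
      E1.measP (measurable_upd E1.measQ (measurable_mulVec measurable_id mv))
      E1.prP (fun A => (E1.prQ A).upd _)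
      (fun A => (E1.prP A).2) (fun A => (E1.prP A).2)
      (fun A => upd_mul (E1.prQ A) _) (fun A => mul_upd (E1.prQ A) _)
      (by intro A X; rw [E1.locP])
      (by
        intro A X
        have h1 := E1.locQ A X
        have h2 := hloc2 A X
        simp only [] at h2 ⊢
        rw [h1, h2])
    refine ⟨E2, ?_, ?_⟩
    · funext A
      change upd (E.P A) (vv σ k A) = upd (PS σ k A) (vv σ k A)
      rw [hEP]
    · funext A
      change upd (upd (E.Q A) (vv σ k A)) (A *ᵥ vv σ k A) =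
        upd (upd (QS σ b k A) (vv σ k A)) (A *ᵥ vv σ k A)
      rw [hEQ]

lemma QS_seen (hb : b ⬝ᵥ b = 1) (k : ℕ) (A : Mat n) :
    QS σ b k A * A * PS σ k A = QS σ b k A * A := by
  induction k with
  | zero =>
    change _ * A * 1 = _
    rw [Matrix.mul_one]
  | succ k ih =>
    set P := PS σ k A
    set Q := QS σ b k A
    set v := vv σ k A
    have hQ : IsPr Q := isPr_QS hb k A
    have hP : IsPr P := isPr_PS k A
    change upd (upd Q v) (A *ᵥ v) * A * upd P v = upd (upd Q v) (A *ᵥ v) * A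
    have h1 : upd (upd Q v) (A *ᵥ v) * Q = upd (upd Q v) (A *ᵥ v) := by
      rw [← upd_mul (hQ.upd v) (A *ᵥ v), Matrix.mul_assoc, upd_mul hQ]
    set Q'' := upd (upd Q v) (A *ᵥ v)
    have h2 : Q'' * A * P = Q'' * A := by
      rw [← h1, Matrix.mul_assoc Q'' Q A, Matrix.mul_assoc, ih]
    have h3 : (Q'' * A) *ᵥ (P *ᵥ v) = 0 := by
      rw [mulVec_mulVec, h2, ← mulVec_mulVec]
      exact upd_mulVec_self (hQ.upd v) _
    rw [upd, Matrix.mul_sub, h2, Matrix.mul_smul, mul_vecMulVec', h3]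
    have : vecMulVec (0 : Fin n → ℝ) (P *ᵥ v) = 0 := by
      ext i j; simp [vecMulVec_apply]
    rw [this, smul_zero, sub_zero]

lemma QS_rank (k : ℕ) (A : Mat n) : (1 - QS σ b k A - vecMulVec b b).rank ≤ 2 * k := by
  induction k with
  | zero =>
    change (1 - (1 - vecMulVec b b) - vecMulVec b b).rank ≤ 0
    have : (1 - (1 - vecMulVec b b) - vecMulVec b b : Mat n) = 0 := by abel
    rw [this, rank_zero]
  | succ k ih =>
    change (1 - upd (upd (QS σ b k A) _) _ - vecMulVec b b).rank ≤ _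
    have h1 := rank_sub_upd (upd (QS σ b k A) (vv σ k A)) (A *ᵥ vv σ k A) (vecMulVec b b)
    have h2 := rank_sub_upd (QS σ b k A) (vv σ k A) (vecMulVec b b)
    omega

/-- The squared cosine of the angle between the new direction and the unseen part of the
solution. -/
noncomputable def gg (σ : Strat n) (b : Fin n → ℝ) (k : ℕ) (A : Mat n) : ℝ :=
  cos2 (PS σ k A *ᵥ vv σ k A) (PS σ k A *ᵥ (A⁻¹ *ᵥ b))

lemma measurable_gg (hσ : ∀ k, Measurable (σ k)) (k : ℕ) : Measurable (gg σ b k) := by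
  unfold gg
  exact measurable_cos2 (measurable_mulVec (measurable_PS hσ k) (measurable_vv hσ k))
    (measurable_mulVec (measurable_PS hσ k)
      (measurable_mulVec (measurable_inv measurable_id) measurable_const))

/-- Main bound. -/
lemma lintegral_gg_le (hσ : ∀ k, Measurable (σ k)) (hb : b ⬝ᵥ b = 1) (k : ℕ) (hk : 2 * k + 1 < n) :
    ∫⁻ A, ENNReal.ofReal (gg σ b k A) ∂(gam n) ≤ ENNReal.ofReal (1 / (n - 2 * k - 1)) := by
  obtain ⟨E, hEP, hEQ⟩ := exists_expl (b := b) hσ hb k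
  have hgm : Measurable fun A => ENNReal.ofReal (gg σ b k A) := (measurable_gg hσ k).ennreal_ofReal
  rw [← E.law _ hgm]
  have hdet : MeasurableSet {A : Mat n | A.det = 0} := measurable_det (measurableSet_singleton 0)
  have hae : ∀ᵐ A ∂(gam n), ∀ᵐ G ∂(gam n), (RR (PS σ k A) (QS σ b k A) A G).det ≠ 0 := by
    have h1 := E.law (Set.indicator {A : Mat n | A.det = 0} fun _ => 1)
      (measurable_const.indicator hdet)
    rw [lintegral_indicator hdet] at h1
    simp only [lintegral_const, MeasurableSet.univ, Measure.restrict_apply, Set.univ_inter,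
      one_mul] at h1
    have h2 : gam n {A : Mat n | A.det = 0} = 0 := by
      have := ae_det_ne_zero n
      rw [ae_iff] at this
      simpa using this
    have hmF : Measurable fun p : Mat n × Mat n =>
        Set.indicator {A : Mat n | A.det = 0} (fun _ => (1 : ℝ≥0∞))
          (p.1 - E.Q p.1 * p.1 * E.P p.1 + E.Q p.1 * p.2 * E.P p.1) := by
      have h1 := E.measP
      have h2 := E.measQ
      have h3 : Measurable fun p : Mat n × Mat n =>
        (p.1 - E.Q p.1 * p.1 * E.P p.1 + E.Q p.1 * p.2 * E.P p.1) := by fun_prop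
      exact (measurable_const.indicator hdet).comp h3
    rw [h2, lintegral_eq_zero_iff hmF.lintegral_prod_right'] at h1
    filter_upwards [h1] with A hA
    have hmF' : Measurable fun G : Mat n => Set.indicator {A : Mat n | A.det = 0}
        (fun _ => (1 : ℝ≥0∞)) (A - E.Q A * A * E.P A + E.Q A * G * E.P A) :=
      hmF.comp (measurable_prodMk_left (x := A))
    rw [Pi.zero_apply, lintegral_eq_zero_iff hmF'] at hA
    filter_upwards [hA] with G hG
    intro hG'
    have : (A - E.Q A * A * E.P A + E.Q A * G * E.P A) ∈ {A : Mat n | A.det = 0} := by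
      rw [hEP, hEQ]; exact hG'
    simp only [Pi.zero_apply] at hG
    rw [Set.indicator_of_mem this] at hG
    exact one_ne_zero hG
  have hbound : ∀ᵐ A ∂(gam n), ∫⁻ G, ENNReal.ofReal (gg σ b k
      (A - E.Q A * A * E.P A + E.Q A * G * E.P A)) ∂(gam n) ≤
        ENNReal.ofReal (1 / (n - 2 * k - 1)) := by
    filter_upwards [hae, ae_det_ne_zero n] with A hA hA0
    have hfix : Fixed (PS σ k A) (QS σ b k A) A b :=
      ⟨isPr_PS k A, isPr_QS hb k A, QS_seen hb k A, QS_b hb k A, hb⟩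
    have h1 := hfix.lintegral_cos2_le (PS σ k A *ᵥ vv σ k A) hA
    have h2 := hfix.finrank_ge hA0
    have h3 := QS_rank (σ := σ) (b := b) k A
    have h4 : n - 2 * k - 1 ≤ finrank ℝ (FF (PS σ k A) (QS σ b k A) A b) := by omega
    have hloc : E.Loc (vv σ k) := by
      intro A X
      apply vv_congr
      intro j hj
      rw [hEP, hEQ]
      exact ⟨change_mulVec (PS_vv hj A), change_transpose_mulVec (isPr_PS k A).1
        (isPr_QS hb k A).1 (QS_vv hb hj A)⟩
    have h5 : ∀ G, gg σ b k (A - E.Q A * A * E.P A + E.Q A * G * E.P A) =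
        cos2 (PS σ k A *ᵥ vv σ k A) (qq (PS σ k A) (QS σ b k A) A G b) := by
      intro G
      have e1 := E.locP A G
      have e2 := hloc A G
      simp only [hEP, hEQ] at e1 e2 ⊢
      unfold gg
      rw [e1, e2]
      rfl
    simp_rw [h5]
    have hpos : (0 : ℝ) < n - 2 * k - 1 := by
      have : ((2 * k + 1 : ℕ) : ℝ) < n := by exact_mod_cast hk
      push_cast at this; linarith
    set I := ∫⁻ G, ENNReal.ofReal (cos2 (PS σ k A *ᵥ vv σ k A)
      (qq (PS σ k A) (QS σ b k A) A G b)) ∂(gam n) with hI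
    have h6 : ENNReal.ofReal (n - 2 * k - 1) * I ≤ 1 := by
      refine le_trans ?_ h1
      gcongr
      have : ((n : ℝ) - 2 * k - 1) = ((n - 2 * k - 1 : ℕ) : ℝ) := by
        rw [Nat.cast_sub (by omega), Nat.cast_sub (by omega)]; push_cast; ring
      rw [this, ENNReal.ofReal_natCast]
      exact_mod_cast h4
    rw [one_div, ENNReal.ofReal_inv_of_pos hpos]
    rw [mul_comm] at h6
    exact ENNReal.le_inv_iff_mul_le.2 h6
  calc _ ≤ ∫⁻ _, ENNReal.ofReal (1 / (n - 2 * k - 1)) ∂(gam n) := lintegral_mono_ae hbound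
    _ = _ := by simp

/-- Deterministic telescoping: the cosines control the seen part of the solution. -/
lemma gg_ge (k : ℕ) (A : Mat n) :
    (A⁻¹ *ᵥ b) ⬝ᵥ (PS σ k A *ᵥ (A⁻¹ *ᵥ b)) - (A⁻¹ *ᵥ b) ⬝ᵥ (PS σ (k + 1) A *ᵥ (A⁻¹ *ᵥ b)) ≤
      ((A⁻¹ *ᵥ b) ⬝ᵥ (A⁻¹ *ᵥ b)) * gg σ b k A := by
  set x := A⁻¹ *ᵥ b with hx
  set P := PS σ k A with hP
  have hPr : IsPr P := isPr_PS k A
  have h1 := dot_sub_upd (P := P) (vv σ k A) x
  change x ⬝ᵥ (P *ᵥ x) - x ⬝ᵥ (upd P (vv σ k A) *ᵥ x) ≤ _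
  rw [h1]
  unfold gg cos2
  rw [← hx, ← hP]
  set w := P *ᵥ vv σ k A with hw
  have h2 : w ⬝ᵥ (P *ᵥ x) = w ⬝ᵥ x := by
    rw [← hPr.dot, hw, hPr.mulVec_idem]
  rw [h2]
  have h3 := hPr.dot_self_le x
  have h4 := dotProduct_self_nonneg' w
  have h5 := dotProduct_self_nonneg' (P *ᵥ x)
  by_cases hz : (P *ᵥ x) ⬝ᵥ (P *ᵥ x) = 0
  · have h6 : P *ᵥ x = 0 := dotProduct_self_eq_zero.1 hz
    rw [h6, dotProduct_zero] at h2
    rw [← h2]; simp
  · have hpos : 0 < (P *ᵥ x) ⬝ᵥ (P *ᵥ x) := lt_of_le_of_ne h5 (Ne.symm hz)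
    rcases h4.eq_or_lt with h7 | h7
    · rw [← h7]; simp
    · rw [← mul_div_assoc, div_le_div_iff₀ h7 (by positivity)]
      nlinarith [sq_nonneg (w ⬝ᵥ x), mul_nonneg (sq_nonneg (w ⬝ᵥ x)) h7.le]

lemma sum_gg_ge (k : ℕ) (A : Mat n) :
    (A⁻¹ *ᵥ b) ⬝ᵥ (A⁻¹ *ᵥ b) - (A⁻¹ *ᵥ b) ⬝ᵥ (PS σ k A *ᵥ (A⁻¹ *ᵥ b)) ≤
      ((A⁻¹ *ᵥ b) ⬝ᵥ (A⁻¹ *ᵥ b)) * ∑ j ∈ Finset.range k, gg σ b j A := by
  induction k with
  | zero =>
    simp [PS]
  | succ k ih =>
    rw [Finset.sum_range_succ, mul_add]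
    have := gg_ge (σ := σ) (b := b) k A
    linarith

/-- If the last vector is a good approximate solution then the cosines add up to almost one. -/
lemma sum_gg_of_success (q : ℕ) (A : Mat n) (hA : A.det ≠ 0) (hb : b ⬝ᵥ b = 1) :
    1 - (A⁻¹ *ᵥ (b - A *ᵥ vv σ q A)) ⬝ᵥ (A⁻¹ *ᵥ (b - A *ᵥ vv σ q A)) /
      ((A⁻¹ *ᵥ b) ⬝ᵥ (A⁻¹ *ᵥ b)) ≤ ∑ j ∈ Finset.range (q + 1), gg σ b j A := by
  set x := A⁻¹ *ᵥ b with hx
  have hx0 : x ≠ 0 := by
    intro h
    have := mulVec_inv_mulVec hA b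
    rw [← hx, h, mulVec_zero] at this
    rw [← this] at hb
    simp at hb
  have hxx : 0 < x ⬝ᵥ x :=
    lt_of_le_of_ne (dotProduct_self_nonneg' x) (fun h => hx0 (dotProduct_self_eq_zero.1 h.symm))
  have h1 := sum_gg_ge (σ := σ) (b := b) (q + 1) A
  rw [← hx] at h1
  have hPr : IsPr (PS σ (q + 1) A) := isPr_PS _ A
  have h2 : PS σ (q + 1) A *ᵥ vv σ q A = 0 := PS_vv (Nat.lt_succ_self q) A
  have h3 : A⁻¹ *ᵥ (b - A *ᵥ vv σ q A) = x - vv σ q A := by
    rw [mulVec_sub, inv_mulVec_mulVec hA]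
  have h4 : x ⬝ᵥ (PS σ (q + 1) A *ᵥ x) ≤ (x - vv σ q A) ⬝ᵥ (x - vv σ q A) := by
    rw [← hPr.dot_self]
    have : PS σ (q + 1) A *ᵥ x = PS σ (q + 1) A *ᵥ (x - vv σ q A) := by
      rw [mulVec_sub, h2, sub_zero]
    rw [this]
    exact hPr.dot_self_le _
  rw [h3]
  rw [sub_le_iff_le_add, ← sub_le_iff_le_add', le_div_iff₀ hxx]
  nlinarith

end MVQ
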