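import Mathlib

/-!
Definitions for classical lattice-gas models on the integers with two symbols,
their ground states, and Sturmian systems (problem MP_084e97_mp).
-/

open MeasureTheory

namespace Pool.Agent.Lib_helper89.Sturm

/-- Configurations `X : ℤ → {0,1}`; `false` is the symbol 0 and `true` the symbol 1.
The type carries the product topology and the product (= Borel) sigma-algebra. -/
abbrev Config : Type := ℤ → Bool

/-- The shift, `(T_a X)_i = X_{i-a}`. -/
def shift (a : ℤ) (X : Config) : Config := fun i => X (i - a)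

/-- A translation-invariant family `Φ_Λ`, `Λ ⊂ ℤ` finite, of functions of the
restriction of the configuration to `Λ`. -/
structure Interaction where
  /-- the value `Φ_Λ(X)` -/
  val : Finset ℤ → Config → ℝ
  /-- `Φ_Λ(X)` depends only on the restriction of `X` to `Λ` -/
  dep : ∀ (Λ : Finset ℤ) (X Y : Config), (∀ i ∈ Λ, X i = Y i) → val Λ X = val Λ Y
  /-- translation invariance, `Φ_{Λ+a}(T_a X) = Φ_Λ(X)` -/
  inv : ∀ (a : ℤ) (Λ : Finset ℤ) (X : Config),
    val (Λ.image (fun i => i + a)) (shift a X) = val Λ X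

/-- The sup norm of `Φ_Λ`. -/
noncomputable def Interaction.nrm (Φ : Interaction) (Λ : Finset ℤ) : ℝ :=
  ⨆ X : Config, |Φ.val Λ X|

/-- Summability, `∑_{Λ ∋ 0} ‖Φ_Λ‖_∞ < ∞`. -/
def Interaction.IsSummable (Φ : Interaction) : Prop :=
  Summable (fun Λ : {Λ : Finset ℤ // (0 : ℤ) ∈ Λ} => Φ.nrm Λ.1)

/-- Finite range: `Φ_Λ = 0` whenever the diameter of `Λ` exceeds some `r`. -/
def Interaction.IsFiniteRange (Φ : Interaction) : Prop :=
  ∃ r : ℤ, ∀ Λ : Finset ℤ, (∃ i ∈ Λ, ∃ j ∈ Λ, r < j - i) → ∀ X : Config, Φ.val Λ X = 0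

/-- The interaction `Φ + ε Ψ`. -/
noncomputable def Interaction.perturb (Φ Ψ : Interaction) (ε : ℝ) : Interaction where
  val Λ X := Φ.val Λ X + ε * Ψ.val Λ X
  dep Λ X Y h := by rw [Φ.dep Λ X Y h, Ψ.dep Λ X Y h]
  inv a Λ X := by rw [Φ.inv a Λ X, Ψ.inv a Λ X]

/-- `Y` is a local excitation of `X`: they differ at finitely many sites. -/
def LocalExc (Y X : Config) : Prop := {i : ℤ | Y i ≠ X i}.Finite

/-- The relative Hamiltonian `H(Y|X) = ∑_Λ (Φ_Λ(Y) - Φ_Λ(X))`. -/
noncomputable def Interaction.rel (Φ : Interaction) (Y X : Config) : ℝ :=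
  ∑' Λ : Finset ℤ, (Φ.val Λ Y - Φ.val Λ X)

/-- `X` is a ground-state configuration: `H(Y|X) ≥ 0` for every local excitation `Y`. -/
def Interaction.IsGroundConfig (Φ : Interaction) (X : Config) : Prop :=
  ∀ Y : Config, LocalExc Y X → 0 ≤ Φ.rel Y X

/-- Translation-invariant probability measures. -/
def IsInvProb (μ : Measure Config) : Prop :=
  IsProbabilityMeasure μ ∧ ∀ a : ℤ, μ.map (shift a) = μ

/-- A ground state: a translation-invariant probability measure supported on
ground-state configurations. -/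
def Interaction.IsGroundState (Φ : Interaction) (μ : Measure Config) : Prop :=
  IsInvProb μ ∧ ∀ᵐ X ∂μ, Φ.IsGroundConfig X

/-- The Sturmian sequence generated by `φ`: `X_n = 0` if `n φ mod 1 ∈ [0, φ)` and
`X_n = 1` otherwise. -/
noncomputable def sturmSeq (φ : ℝ) : Config :=
  fun n => if Int.fract ((n : ℝ) * φ) < φ then false else true

/-- The closure of the shift orbit of the Sturmian sequence. -/
def hull (φ : ℝ) : Set Config := closure (Set.range fun a : ℤ => shift a (sturmSeq φ))

/-- `ρ` is a translation-invariant probability measure carried by the orbit closure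
of the Sturmian sequence. -/
def IsSturmianMeasure (φ : ℝ) (ρ : Measure Config) : Prop :=
  IsInvProb ρ ∧ ∀ᵐ X ∂ρ, X ∈ hull φ

/-- Zero-temperature stability of a ground state `μ` of `Φ`: for every finite-range
interaction `Ψ` there is `ε₀ > 0` such that `μ` is a ground state of `Φ + ε Ψ` for all
`0 < ε < ε₀`. -/
def Interaction.ZeroTempStable (Φ : Interaction) (μ : Measure Config) : Prop :=
  ∀ Ψ : Interaction, Ψ.IsFiniteRange →
    ∃ ε₀ : ℝ, 0 < ε₀ ∧ ∀ ε : ℝ, 0 < ε → ε < ε₀ → (Φ.perturb Ψ ε).IsGroundState μ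

/-- `φ` is badly approximable: `|φ - p/q| > c/q²` for some `c > 0` and all rationals. -/
def BadlyApproximable (φ : ℝ) : Prop :=
  ∃ c : ℝ, 0 < c ∧ ∀ p q : ℤ, 0 < q → c / (q : ℝ) ^ 2 < |φ - (p : ℝ) / (q : ℝ)|

end Pool.Agent.Lib_helper89.Sturm
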