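import Mathlib
import Pool.Agent.Lib_helper89.SturmDefs

open MeasureTheory Finset

namespace Pool.Agent.Lib_helper89.Sturm

/-! ### counting function -/

/-- indicator of the symbol 0 -/
def zz (Y : Config) (n : ℤ) : ℤ := if Y n = false then 1 else 0

lemma zz_nonneg (Y : Config) (n : ℤ) : 0 ≤ zz Y n := by unfold zz; split_ifs <;> norm_num
lemma zz_le_one (Y : Config) (n : ℤ) : zz Y n ≤ 1 := by unfold zz; split_ifs <;> norm_num

lemma zz_inj {Y Z : Config} {n m : ℤ} (h : zz Y n = zz Z m) : Y n = Z m := by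
  unfold zz at h
  cases hY : Y n <;> cases hZ : Z m <;> simp_all

/-- the number of zeros counted from the origin -/
noncomputable def SS (Y : Config) (n : ℤ) : ℤ := (∑ i ∈ Ico 0 n, zz Y i) - ∑ i ∈ Ico n 0, zz Y i

lemma sum_Ico_succ_top' (f : ℤ → ℤ) {m n : ℤ} (h : m ≤ n) :
    ∑ i ∈ Ico m (n + 1), f i = (∑ i ∈ Ico m n, f i) + f n := by
  have : Ico m (n + 1) = insert n (Ico m n) := by
    ext x; simp only [mem_Ico, mem_insert]; omega
  rw [this, sum_insert (by simp), add_comm]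

lemma sum_Ico_bot' (f : ℤ → ℤ) {m n : ℤ} (h : m < n) :
    ∑ i ∈ Ico m n, f i = f m + ∑ i ∈ Ico (m + 1) n, f i := by
  have : Ico m n = insert m (Ico (m + 1) n) := by
    ext x; simp only [mem_Ico, mem_insert]; omega
  rw [this, sum_insert (by simp)]

lemma SS_succ (Y : Config) (n : ℤ) : SS Y (n + 1) = SS Y n + zz Y n := by
  unfold SS
  rcases le_or_gt 0 n with h | h
  · rw [sum_Ico_succ_top' _ h]
    have h1 : Ico (n + 1) (0 : ℤ) = ∅ := Ico_eq_empty (by omega)
    have h2 : Ico n (0 : ℤ) = ∅ := Ico_eq_empty (by omega)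
    rw [h1, h2]; simp
  · rw [sum_Ico_bot' _ h]
    have h1 : Ico (0 : ℤ) (n + 1) = ∅ := Ico_eq_empty (by omega)
    have h2 : Ico (0 : ℤ) n = ∅ := Ico_eq_empty (by omega)
    rw [h1, h2]; simp

lemma SS_zero (Y : Config) : SS Y 0 = 0 := by simp [SS]

lemma SS_sub (Y : Config) {m n : ℤ} (h : m ≤ n) :
    SS Y n - SS Y m = ∑ i ∈ Ico m n, zz Y i := by
  induction n, h using Int.leInduction with
  | base => simp
  | succ n hn ih => rw [SS_succ, sum_Ico_succ_top' _ hn, ← ih]; ring

/-- a sub-interval `[m,n)` of the window `[a,b)` has a number of zeros which differs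
from its expected value by more than one -/
def BadWin (φ : ℝ) (Y : Config) (a b : ℤ) : Prop :=
  ∃ m n : ℤ, a ≤ m ∧ m ≤ n ∧ n ≤ b ∧ 1 < |((∑ i ∈ Ico m n, zz Y i : ℤ) : ℝ) - (n - m) * φ|

lemma BadWin.mono {φ : ℝ} {Y : Config} {a b a' b' : ℤ} (h : BadWin φ Y a b)
    (h1 : a' ≤ a) (h2 : b ≤ b') : BadWin φ Y a' b' := by
  obtain ⟨m, n, h3, h4, h5, h6⟩ := h
  exact ⟨m, n, by omega, h4, by omega, h6⟩

lemma not_badWin_self (φ : ℝ) (Y : Config) (a : ℤ) : ¬ BadWin φ Y a a := by
  rintro ⟨m, n, h1, h2, h3, h4⟩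
  have : m = n := by omega
  subst this
  simp at h4
  norm_num at h4

/-- `x` is a phase of `Y` on the (closed) range of times `[a,b]` -/
def IsPhase (φ : ℝ) (Y : Config) (a b : ℤ) (x : ℝ) : Prop :=
  ∀ n : ℤ, a ≤ n → n ≤ b → Int.floor (x + n * φ) = SS Y n

lemma IsPhase.mono {φ : ℝ} {Y : Config} {a b a' b' : ℤ} {x : ℝ} (h : IsPhase φ Y a b x)
    (h1 : a ≤ a') (h2 : b' ≤ b) : IsPhase φ Y a' b' x :=
  fun n h3 h4 => h n (by omega) (by omega)

lemma isPhase_iff {φ : ℝ} {Y : Config} {a b : ℤ} {x : ℝ} :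
    IsPhase φ Y a b x ↔ ∀ n : ℤ, a ≤ n → n ≤ b →
      ((SS Y n : ℝ) - n * φ ≤ x ∧ x < (SS Y n : ℝ) - n * φ + 1) := by
  unfold IsPhase
  refine forall_congr' fun n => forall_congr' fun _ => forall_congr' fun _ => ?_
  rw [Int.floor_eq_iff]
  constructor
  · rintro ⟨h1, h2⟩; constructor <;> linarith
  · rintro ⟨h1, h2⟩; constructor <;> linarith

lemma IsPhase.not_badWin {φ : ℝ} {Y : Config} {a b : ℤ} {x : ℝ} (h : IsPhase φ Y a b x) :
    ¬ BadWin φ Y a b := by
  rintro ⟨m, n, h1, h2, h3, h4⟩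
  rw [isPhase_iff] at h
  have hm := h m h1 (by omega)
  have hn := h n (by omega) h3
  rw [← SS_sub Y h2] at h4
  push_cast at h4
  have : |(SS Y n : ℝ) - SS Y m - (n - m) * φ| ≤ 1 := by
    rw [abs_le]; constructor <;> nlinarith
  linarith

/-- A window which is not bad has a whole interval of phases. -/
lemma exists_phases {φ : ℝ} (hφ : Irrational φ) {Y : Config} {a b : ℤ} (hab : a ≤ b)
    (h : ¬ BadWin φ Y a b) :
    ∃ x x' : ℝ, x < x' ∧ ∀ y, x ≤ y → y ≤ x' → IsPhase φ Y a b y := by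
  set D : ℤ → ℝ := fun n => (SS Y n : ℝ) - n * φ with hD
  obtain ⟨n1, hn1, h1⟩ := exists_max_image (Icc a b) D ⟨a, by simp [hab]⟩
  obtain ⟨n2, hn2, h2⟩ := exists_min_image (Icc a b) D ⟨a, by simp [hab]⟩
  simp only [mem_Icc] at hn1 hn2 h1 h2
  have key : D n1 < D n2 + 1 := by
    have hle : D n1 ≤ D n2 + 1 := by
      by_contra hcon
      push Not at hcon
      apply h
      rcases le_total n1 n2 with h12 | h12
      · refine ⟨n1, n2, hn1.1, h12, hn2.2, ?_⟩
        rw [← SS_sub Y h12]; push_cast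
        rw [lt_abs]; right
        simp only [hD] at hcon; nlinarith
      · refine ⟨n2, n1, hn2.1, h12, hn1.2, ?_⟩
        rw [← SS_sub Y h12]; push_cast
        rw [lt_abs]; left
        simp only [hD] at hcon; nlinarith
    rcases hle.lt_or_eq with h3 | h3
    · exact h3
    · exfalso
      by_cases h12 : n1 = n2
      · subst h12; linarith
      · -- (n1 - n2) φ is an integer
        apply hφ
        simp only [hD] at h3
        have h4 : ((n1 : ℝ) - n2) * φ = (SS Y n1 : ℝ) - SS Y n2 - 1 := by linarith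
        have h5 : ((n1 : ℝ) - n2) ≠ 0 := by
          rw [sub_ne_zero]; exact_mod_cast h12
        refine ⟨((SS Y n1 - SS Y n2 - 1 : ℤ) : ℚ) / ((n1 - n2 : ℤ) : ℚ), ?_⟩
        push_cast
        rw [← h4]; field_simp
  refine ⟨D n1, (D n1 + (D n2 + 1)) / 2, by linarith, fun y hy1 hy2 => ?_⟩
  rw [isPhase_iff]
  intro n hna hnb
  have e1 := h1 n ⟨hna, hnb⟩
  have e2 := h2 n ⟨hna, hnb⟩
  simp only [hD] at *
  constructor <;> linarith

lemma exists_phase {φ : ℝ} (hφ : Irrational φ) {Y : Config} {a b : ℤ} (hab : a ≤ b)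
    (h : ¬ BadWin φ Y a b) : ∃ x : ℝ, IsPhase φ Y a b x := by
  obtain ⟨x, x', h1, h2⟩ := exists_phases hφ hab h
  exact ⟨x, h2 x le_rfl h1.le⟩

/-! ### badly approximable numbers -/

lemma BadlyApproximable.irrational {φ : ℝ} (h : BadlyApproximable φ) : Irrational φ := by
  obtain ⟨c, hc, h⟩ := h
  rintro ⟨q, hq⟩
  have := h q.num q.den (by exact_mod_cast q.pos)
  rw [← hq] at this
  have h2 : ((q : ℚ) : ℝ) = (q.num : ℝ) / ((q.den : ℤ) : ℝ) := by
    have := Rat.num_div_den q
    rw [← this]; push_cast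
    simp [Rat.num_div_den]
  rw [h2] at this
  simp only [sub_self, abs_zero] at this
  have h3 : 0 < c / (((q.den : ℤ) : ℝ)) ^ 2 := by
    apply div_pos hc
    have : (0 : ℝ) < ((q.den : ℤ) : ℝ) := by exact_mod_cast q.pos
    positivity
  linarith

/-- Good rational approximations with denominator comparable to `N`. -/
lemma exists_good_approx {φ c : ℝ} (hc : 0 < c)
    (h : ∀ p q : ℤ, 0 < q → c / (q : ℝ) ^ 2 < |φ - (p : ℝ) / (q : ℝ)|) (N : ℕ) (hN : 0 < N) :
    ∃ p q : ℤ, 0 < q ∧ q ≤ N ∧ IsCoprime p q ∧ |(q : ℝ) * φ - p| ≤ 1 / (N + 1) ∧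
      c * (N + 1) ≤ q := by
  obtain ⟨j, k, hk0, hkN, hjk⟩ := Real.exists_int_int_abs_mul_sub_le φ hN
  -- reduce the fraction
  have hg0 : (0 : ℤ) < (Int.gcd j k : ℤ) := by
    have : Int.gcd j k ≠ 0 := by
      rw [Ne, Int.gcd_eq_zero_iff]; omega
    omega
  set g : ℤ := (Int.gcd j k : ℤ) with hg
  obtain ⟨p, hp⟩ : g ∣ j := Int.gcd_dvd_left ..
  obtain ⟨q, hq⟩ : g ∣ k := Int.gcd_dvd_right ..
  have hq0 : 0 < q := by
    by_contra hcon
    push Not at hcon
    have : g * q ≤ 0 := mul_nonpos_of_nonneg_of_nonpos hg0.le hcon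
    omega
  have hcop : IsCoprime p q := by
    rw [Int.isCoprime_iff_gcd_eq_one]
    have h1 : Int.gcd (g * p) (g * q) = g.natAbs * Int.gcd p q := Int.gcd_mul_left ..
    rw [← hp, ← hq] at h1
    have h2 : g.natAbs = Int.gcd j k := by rw [hg]; simp
    rw [h2] at h1
    have h3 : 0 < Int.gcd j k := by rw [hg] at hg0; exact_mod_cast hg0
    exact (Nat.eq_of_mul_eq_mul_left h3 (by rw [mul_one]; exact h1)).symm
  have hqk : q ≤ k := by rw [hq]; nlinarith
  have hgR : (1 : ℝ) ≤ (g : ℝ) := by exact_mod_cast hg0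
  have hsmall : |(q : ℝ) * φ - p| ≤ 1 / (N + 1) := by
    have h1 : (k : ℝ) * φ - j = g * ((q : ℝ) * φ - p) := by
      rw [hq, hp]; push_cast; ring
    rw [h1, abs_mul, abs_of_pos (by linarith : (0 : ℝ) < g)] at hjk
    have := abs_nonneg ((q : ℝ) * φ - p)
    nlinarith
  refine ⟨p, q, hq0, by omega, hcop, hsmall, ?_⟩
  have h1 := h p q hq0
  have hqR : (0 : ℝ) < q := by exact_mod_cast hq0
  have h2 : |φ - (p : ℝ) / q| = |(q : ℝ) * φ - p| / q := by
    rw [← abs_of_pos hqR, ← abs_div, abs_of_pos hqR]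
    congr 1; field_simp
  rw [h2] at h1
  have h3 : c / q < |(q : ℝ) * φ - p| := by
    have := mul_lt_mul_of_pos_right h1 hqR
    have e1 : c / (q : ℝ) ^ 2 * q = c / q := by field_simp
    have e2 : |(q : ℝ) * φ - p| / q * q = |(q : ℝ) * φ - p| := by field_simp
    rw [e1, e2] at this; exact this
  have h4 : c / q ≤ 1 / (N + 1) := le_trans h3.le hsmall
  have hN1 : (0 : ℝ) < (N : ℝ) + 1 := by positivity
  rw [div_le_div_iff₀ hqR hN1] at h4
  linarith

/-- Rigidity: two phases of a long window are close. -/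
lemma rigidity {φ : ℝ} (hφ : BadlyApproximable φ) :
    ∃ C : ℝ, 1 ≤ C ∧ ∀ (k : ℕ) (a : ℤ) (x x' : ℝ),
      (∀ n : ℤ, a ≤ n → n ≤ a + k → Int.floor (x + n * φ) = Int.floor (x' + n * φ)) →
      |x - x'| ≤ C / (k + 1) := by
  obtain ⟨c, hc, h⟩ := hφ
  refine ⟨1 / c + 2, by have := one_div_pos.mpr hc; linarith, ?_⟩
  -- one-sided version
  have key : ∀ (k : ℕ) (a : ℤ) (x x' : ℝ), x ≤ x' →
      (∀ n : ℤ, a ≤ n → n ≤ a + k → Int.floor (x + n * φ) = Int.floor (x' + n * φ)) →
      x' - x ≤ (1 / c + 2) / (k + 1) := by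
    intro k a x x' hxx hfl
    obtain ⟨p, q, hq0, hqN, hcop, hsmall, hlarge⟩ :=
      exists_good_approx hc h (k + 1) (Nat.succ_pos k)
    have hqR : (0 : ℝ) < q := by exact_mod_cast hq0
    set η : ℝ := |(q : ℝ) * φ - p| with hη
    have hη0 : 0 ≤ η := abs_nonneg _
    set y : ℝ := x + a * φ with hy
    set t : ℝ := y + η with ht
    set A : ℤ := Int.floor (q * t) with hA
    have hA1 : (A : ℝ) ≤ q * t := Int.floor_le _
    have hA2 : q * t < A + 1 := Int.lt_floor_add_one _
    -- find j with j p ≡ -(A+1) mod q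
    obtain ⟨u, v, huv⟩ := hcop
    -- u p + v q = 1
    set j : ℤ := (-(A + 1) * u) % q with hj
    have hj0 : 0 ≤ j := Int.emod_nonneg _ hq0.ne'
    have hjq : j < q := Int.emod_lt_of_pos _ hq0
    have hdiv : q ∣ A + 1 + j * p := by
      have h1 : q ∣ (-(A + 1) * u) - j := by
        rw [hj]; exact Int.dvd_self_sub_emod
      obtain ⟨w, hw⟩ := h1
      have h2 : j = -(A + 1) * u - q * w := by linarith
      rw [h2]
      have h3 : A + 1 + (-(A + 1) * u - q * w) * p = (A + 1) * (1 - u * p) - q * w * p := by ring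
      have h4 : 1 - u * p = v * q := by linarith
      rw [h3, h4]
      exact ⟨(A + 1) * v - w * p, by ring⟩
    obtain ⟨m, hm⟩ := hdiv
    have hmR : (A : ℝ) + 1 + j * p = q * m := by exact_mod_cast hm
    -- location of y + j φ
    have hjR0 : (0 : ℝ) ≤ j := by exact_mod_cast hj0
    have hjRq : (j : ℝ) < q := by exact_mod_cast hjq
    have hdev : |(j : ℝ) * φ - j * p / q| ≤ η := by
      have e1 : (j : ℝ) * φ - j * p / q = (j / q) * ((q : ℝ) * φ - p) := by field_simp
      rw [e1, abs_mul, abs_of_nonneg (by positivity)]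
      have e2 : (j : ℝ) / q ≤ 1 := by rw [div_le_one hqR]; linarith
      nlinarith
    rw [abs_le] at hdev
    have hup : y + j * φ < m := by
      have e1 : q * t + j * p < q * m := by linarith
      have e2 : t + j * p / q < m := by
        have : t + j * p / q = (q * t + j * p) / q := by field_simp
        rw [this, div_lt_iff₀ hqR]; linarith
      linarith [hdev.2]
    have hlo : (m : ℝ) - 1 / q - 2 * η ≤ y + j * φ := by
      have e1 : q * m - 1 ≤ q * t + j * p := by linarith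
      have e2 : (m : ℝ) - 1 / q ≤ t + j * p / q := by
        have e3 : t + j * p / q = (q * t + j * p) / q := by field_simp
        have e4 : (m : ℝ) - 1 / q = (q * m - 1) / q := by field_simp
        rw [e3, e4]
        exact div_le_div_of_nonneg_right e1 hqR.le
      linarith [hdev.1]
    -- use floor equality at n = a + j
    have hn := hfl (a + j) (by omega) (by push_cast at hqN; omega)
    push_cast at hn
    have e1 : x + ((a : ℝ) + j) * φ = y + j * φ := by rw [hy]; ring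
    have e2 : x' + ((a : ℝ) + j) * φ = y + j * φ + (x' - x) := by rw [hy]; ring
    rw [e1, e2] at hn
    have hf1 : Int.floor (y + j * φ) < m := by
      rw [Int.floor_lt]; exact hup
    have hf2 : y + j * φ + (x' - x) < m := by
      rw [hn, Int.floor_lt] at hf1; exact hf1
    have hbound : x' - x ≤ 1 / q + 2 * η := by linarith
    have hN1 : (0 : ℝ) < (k : ℝ) + 1 := by positivity
    have hη1 : η ≤ 1 / (k + 1) := by
      refine le_trans hsmall ?_
      push_cast
      apply one_div_le_one_div_of_le hN1; linarith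
    have hq1 : 1 / (q : ℝ) ≤ 1 / c / (k + 1) := by
      rw [div_div]
      apply one_div_le_one_div_of_le (by positivity)
      push_cast at hlarge
      nlinarith
    calc x' - x ≤ 1 / q + 2 * η := hbound
      _ ≤ 1 / c / (k + 1) + 2 * (1 / (k + 1)) := by linarith
      _ = (1 / c + 2) / (k + 1) := by ring
  intro k a x x' hfl
  rcases le_total x x' with hx | hx
  · rw [abs_sub_comm, abs_of_nonneg (by linarith)]
    exact key k a x x' hx hfl
  · rw [abs_of_nonneg (by linarith)]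
    exact key k a x' x hx (fun n h1 h2 => (hfl n h1 h2).symm)

end Pool.Agent.Lib_helper89.Sturm
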