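import Mathlib
import Pool.Agent.Lib_helper89.SturmCore

open MeasureTheory Finset

namespace Pool.Agent.Lib_helper89.Sturm

/-- good radius at `c`, truncated at `K` -/
noncomputable def rad (φ : ℝ) (Y : Config) (K : ℕ) (c : ℤ) : ℕ := by
  classical
  exact Nat.findGreatest (fun k : ℕ => ¬ BadWin φ Y (c - k) (c + k)) K

lemma rad_le (φ : ℝ) (Y : Config) (K : ℕ) (c : ℤ) : rad φ Y K c ≤ K := by
  classical
  exact Nat.findGreatest_le K

lemma rad_good (φ : ℝ) (Y : Config) (K : ℕ) (c : ℤ) :
    ¬ BadWin φ Y (c - rad φ Y K c) (c + rad φ Y K c) := by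
  classical
  have h0 : (fun k : ℕ => ¬ BadWin φ Y (c - k) (c + k)) 0 := by
    simpa using not_badWin_self φ Y c
  exact Nat.findGreatest_spec (P := fun k : ℕ => ¬ BadWin φ Y (c - k) (c + k))
    (Nat.zero_le K) h0

lemma le_rad {φ : ℝ} {Y : Config} {K : ℕ} {c : ℤ} {k : ℕ} (hk : k ≤ K)
    (h : ¬ BadWin φ Y (c - k) (c + k)) : k ≤ rad φ Y K c := by
  classical
  exact Nat.le_findGreatest (P := fun k : ℕ => ¬ BadWin φ Y (c - k) (c + k)) hk h

lemma rad_lip {φ : ℝ} {Y : Config} {K : ℕ} {c c' : ℤ} {d : ℕ} (h1 : c' ≤ c + d)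
    (h2 : c ≤ c' + d) : rad φ Y K c ≤ rad φ Y K c' + d := by
  rcases le_or_gt (rad φ Y K c) d with h | h
  · omega
  · have hk : rad φ Y K c - d ≤ rad φ Y K c' := by
      apply le_rad
      · have := rad_le φ Y K c; omega
      · intro hb
        apply rad_good φ Y K c
        apply hb.mono
        · push_cast [h.le]; omega
        · push_cast [h.le]; omega
    omega

/-- The chain estimate. `x c` are phases attached to windows of radius `r c`. -/
lemma chain {r : ℤ → ℕ} {x : ℤ → ℝ} {C : ℝ} (hC : 0 ≤ C)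
    (hlip : ∀ (c : ℤ) (d : ℕ), r (c + d) ≤ r c + d)
    (hstep : ∀ (c : ℤ) (d : ℕ), d ≤ r c / 2 + 1 → |x (c + d) - x c| ≤ C / (r c + 1)) :
    ∀ (n : ℕ) (c : ℤ), |x (c + n) - x c| ≤
      5 * C * (∑ l ∈ range n, 1 / ((r (c + l) : ℝ) + 1) ^ 2) + 2 * C / (r (c + n) + 1) := by
  intro n
  induction n using Nat.strong_induction_on with
  | _ n ih =>
    intro c
    set h : ℕ := r c / 2 + 1 with hh
    have hrc : (0 : ℝ) < (r c : ℝ) + 1 := by positivity
    rcases le_or_gt n h with hn | hn
    · -- one step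
      have h1 := hstep c n hn
      have h2 : C / ((r c : ℝ) + 1) ≤ 2 * C / (r (c + n) + 1) := by
        have h3 := hlip c n
        have h4 : r (c + n) + 1 ≤ 2 * (r c + 1) := by omega
        have h4' : (r (c + n) : ℝ) + 1 ≤ 2 * ((r c : ℝ) + 1) := by exact_mod_cast h4
        rw [div_le_div_iff₀ hrc (by positivity)]
        nlinarith
      have h3 : 0 ≤ 5 * C * (∑ l ∈ range n, 1 / ((r (c + l) : ℝ) + 1) ^ 2) := by
        apply mul_nonneg (by positivity)
        apply sum_nonneg; intro i _; positivity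
      linarith
    · -- split off the first block
      obtain ⟨m, rfl⟩ : ∃ m, n = h + m := ⟨n - h, by omega⟩
      have hm : m < h + m := by omega
      have ih' := ih m hm (c + h)
      have h1 := hstep c h le_rfl
      have hsum : ∑ l ∈ range (h + m), 1 / ((r (c + l) : ℝ) + 1) ^ 2 =
          (∑ l ∈ range h, 1 / ((r (c + l) : ℝ) + 1) ^ 2) +
          ∑ l ∈ range m, 1 / ((r (c + h + l) : ℝ) + 1) ^ 2 := by
        rw [sum_range_add]
        congr 1
        apply sum_congr rfl
        intro l _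
        push_cast
        rw [add_assoc]
      have hlow : 1 / ((r c : ℝ) + 1) ≤ 5 * ∑ l ∈ range h, 1 / ((r (c + l) : ℝ) + 1) ^ 2 := by
        have hterm : ∀ l ∈ range h, 4 / (9 * ((r c : ℝ) + 1) ^ 2) ≤
            1 / ((r (c + l) : ℝ) + 1) ^ 2 := by
          intro l hl
          rw [mem_range] at hl
          have h3 := hlip c l
          have h4 : 2 * (r (c + l) + 1) ≤ 3 * (r c + 1) := by omega
          have h4' : 2 * ((r (c + l) : ℝ) + 1) ≤ 3 * ((r c : ℝ) + 1) := by exact_mod_cast h4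
          rw [div_le_div_iff₀ (by positivity) (by positivity)]
          have : (0 : ℝ) ≤ (r (c + l) : ℝ) := by positivity
          nlinarith
        have hs := card_nsmul_le_sum (range h) _ _ hterm
        rw [card_range, nsmul_eq_mul] at hs
        have hh2 : ((r c : ℝ) + 1) / 2 ≤ (h : ℝ) := by
          have : r c + 1 ≤ 2 * h := by omega
          have : (r c : ℝ) + 1 ≤ 2 * (h : ℝ) := by exact_mod_cast this
          linarith
        have h5 : 1 / ((r c : ℝ) + 1) ≤ 5 * ((h : ℝ) * (4 / (9 * ((r c : ℝ) + 1) ^ 2))) := by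
          have e1 : 5 * ((((r c : ℝ) + 1) / 2) * (4 / (9 * ((r c : ℝ) + 1) ^ 2))) =
              (10 / 9) * (1 / ((r c : ℝ) + 1)) := by
            field_simp; norm_num
          have e2 : 5 * ((((r c : ℝ) + 1) / 2) * (4 / (9 * ((r c : ℝ) + 1) ^ 2))) ≤
              5 * ((h : ℝ) * (4 / (9 * ((r c : ℝ) + 1) ^ 2))) := by
            apply mul_le_mul_of_nonneg_left _ (by norm_num)
            apply mul_le_mul_of_nonneg_right hh2 (by positivity)
          have e3 : 0 < 1 / ((r c : ℝ) + 1) := by positivity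
          linarith
        linarith
      have htri : |x (c + ((h + m : ℕ) : ℤ)) - x c| ≤
          |x (c + h + m) - x (c + h)| + |x (c + h) - x c| := by
        have e1 : c + ((h + m : ℕ) : ℤ) = c + h + m := by push_cast; ring
        rw [e1]
        exact abs_sub_le _ _ _
      have e2 : (c + ((h + m : ℕ) : ℤ)) = c + h + m := by push_cast; ring
      rw [hsum]
      rw [e2] at htri ⊢
      have h6 : C / ((r c : ℝ) + 1) ≤
          5 * C * ∑ l ∈ range h, 1 / ((r (c + l) : ℝ) + 1) ^ 2 := by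
        have := mul_le_mul_of_nonneg_left hlow hC
        calc C / ((r c : ℝ) + 1) = C * (1 / ((r c : ℝ) + 1)) := by ring
          _ ≤ C * (5 * ∑ l ∈ range h, 1 / ((r (c + l) : ℝ) + 1) ^ 2) := this
          _ = _ := by ring
      calc |x (c + h + m) - x c| ≤ |x (c + h + m) - x (c + h)| + |x (c + h) - x c| := htri
        _ ≤ (5 * C * (∑ l ∈ range m, 1 / ((r (c + h + l) : ℝ) + 1) ^ 2) +
              2 * C / (r (c + h + m) + 1)) +
              5 * C * ∑ l ∈ range h, 1 / ((r (c + l) : ℝ) + 1) ^ 2 := by linarith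
        _ = _ := by ring

end Pool.Agent.Lib_helper89.Sturm
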