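import Mathlib
import Pool.Agent.Lib_helper89.SturmCore

open MeasureTheory Finset

namespace Pool.Agent.Lib_helper89.Sturm

/-! ### general facts on interactions -/

lemma bddAbove_val (Φ : Interaction) (Λ : Finset ℤ) :
    BddAbove (Set.range fun X : Config => |Φ.val Λ X|) := by
  classical
  apply Set.Finite.bddAbove
  have : (Set.range fun X : Config => |Φ.val Λ X|) ⊆
      Set.range (fun w : Λ → Bool =>
        |Φ.val Λ (fun i => if h : i ∈ Λ then w ⟨i, h⟩ else false)|) := by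
    rintro _ ⟨X, rfl⟩
    refine ⟨fun i => X i, ?_⟩
    simp only
    congr 1
    apply Φ.dep
    intro i hi
    simp [hi]
  exact (Set.finite_range _).subset this

lemma abs_val_le_nrm (Φ : Interaction) (Λ : Finset ℤ) (X : Config) :
    |Φ.val Λ X| ≤ Φ.nrm Λ :=
  le_ciSup (bddAbove_val Φ Λ) X

lemma nrm_nonneg (Φ : Interaction) (Λ : Finset ℤ) : 0 ≤ Φ.nrm Λ :=
  le_trans (abs_nonneg _) (abs_val_le_nrm Φ Λ (fun _ => false))

lemma nrm_image_add (Φ : Interaction) (a : ℤ) (Λ : Finset ℤ) :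
    Φ.nrm (Λ.image (fun i => i + a)) = Φ.nrm Λ := by
  apply le_antisymm
  · apply ciSup_le
    intro X
    have : X = shift a (shift (-a) X) := by
      funext i; simp [shift]
    rw [this, Φ.inv]
    exact abs_val_le_nrm _ _ _
  · apply ciSup_le
    intro X
    rw [← Φ.inv a]
    exact abs_val_le_nrm _ _ _

/-- translation of finite sets as an equivalence -/
def trE (a : ℤ) : Finset ℤ ≃ Finset ℤ where
  toFun Λ := Λ.image (fun i => i + a)
  invFun Λ := Λ.image (fun i => i - a)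
  left_inv Λ := by
    ext i
    simp only [mem_image, exists_exists_and_eq_and, add_sub_cancel_right, exists_eq_right]
  right_inv Λ := by
    ext i
    simp only [mem_image, exists_exists_and_eq_and, sub_add_cancel, exists_eq_right]

lemma summable_at (Φ : Interaction) (hΦ : Φ.IsSummable) (a : ℤ) :
    Summable (fun Λ : Finset ℤ => if a ∈ Λ then Φ.nrm Λ else 0) := by
  have h0 : Summable (fun Λ : Finset ℤ => if (0 : ℤ) ∈ Λ then Φ.nrm Λ else 0) := by
    have := (summable_subtype_iff_indicator (s := {Λ : Finset ℤ | (0 : ℤ) ∈ Λ})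
      (f := fun Λ => Φ.nrm Λ)).mp hΦ
    refine this.congr fun Λ => ?_
    simp only [Set.indicator, Set.mem_ofPred_eq]
  rw [← (trE a).summable_iff]
  refine h0.congr fun Λ => ?_
  simp only [trE, Function.comp, Equiv.coe_fn_mk, nrm_image_add]
  have : a ∈ Λ.image (fun i => i + a) ↔ (0 : ℤ) ∈ Λ := by
    simp
  simp only [this]

/-- the energy of all sets through a given site -/
noncomputable def siteSum (Φ : Interaction) : ℝ :=
  ∑' Λ : Finset ℤ, if (0 : ℤ) ∈ Λ then Φ.nrm Λ else 0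

lemma tsum_at (Φ : Interaction) (a : ℤ) :
    ∑' Λ : Finset ℤ, (if a ∈ Λ then Φ.nrm Λ else 0) = siteSum Φ := by
  unfold siteSum
  rw [← (trE a).tsum_eq]
  apply tsum_congr
  intro Λ
  simp only [trE, Equiv.coe_fn_mk, nrm_image_add]
  have : a ∈ Λ.image (fun i => i + a) ↔ (0 : ℤ) ∈ Λ := by
    simp
  simp only [this]

lemma abs_diff_le (Φ : Interaction) {Y X : Config} (h : LocalExc Y X) (Λ : Finset ℤ) :
    |Φ.val Λ Y - Φ.val Λ X| ≤ ∑ i ∈ h.toFinset, 2 * (if i ∈ Λ then Φ.nrm Λ else 0) := by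
  by_cases hd : ∃ i ∈ h.toFinset, i ∈ Λ
  · obtain ⟨i, hi, hiΛ⟩ := hd
    have h1 : |Φ.val Λ Y - Φ.val Λ X| ≤ 2 * (if i ∈ Λ then Φ.nrm Λ else 0) := by
      rw [if_pos hiΛ]
      calc |Φ.val Λ Y - Φ.val Λ X| ≤ |Φ.val Λ Y| + |Φ.val Λ X| := abs_sub _ _
        _ ≤ 2 * Φ.nrm Λ := by
          have := abs_val_le_nrm Φ Λ Y
          have := abs_val_le_nrm Φ Λ X
          linarith
    refine le_trans h1 ?_
    apply single_le_sum (f := fun i => 2 * (if i ∈ Λ then Φ.nrm Λ else 0)) _ hi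
    intro j _
    have := nrm_nonneg Φ Λ
    split_ifs <;> linarith
  · push Not at hd
    have : Φ.val Λ Y = Φ.val Λ X := by
      apply Φ.dep
      intro i hi
      by_contra hne
      exact hd i (by simpa [LocalExc] using hne) hi
    rw [this, sub_self, abs_zero]
    apply sum_nonneg
    intro j _
    have := nrm_nonneg Φ Λ
    split_ifs <;> linarith

lemma summable_diff (Φ : Interaction) (hΦ : Φ.IsSummable) {Y X : Config}
    (h : LocalExc Y X) : Summable (fun Λ : Finset ℤ => Φ.val Λ Y - Φ.val Λ X) := by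
  apply Summable.of_norm_bounded (g := fun Λ : Finset ℤ =>
    ∑ i ∈ h.toFinset, 2 * (if i ∈ Λ then Φ.nrm Λ else 0))
  · exact summable_sum fun i _ => (summable_at Φ hΦ i).mul_left 2
  · intro Λ
    rw [Real.norm_eq_abs]
    exact abs_diff_le Φ h Λ

lemma rel_perturb (Φ Ψ : Interaction) (hΦ : Φ.IsSummable) (hΨ : Ψ.IsSummable) (ε : ℝ)
    {Y X : Config} (h : LocalExc Y X) :
    (Φ.perturb Ψ ε).rel Y X = Φ.rel Y X + ε * Ψ.rel Y X := by
  unfold Interaction.rel
  rw [← tsum_mul_left, ← Summable.tsum_add (summable_diff Φ hΦ h)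
    ((summable_diff Ψ hΨ h).mul_left ε)]
  apply tsum_congr
  intro Λ
  simp only [Interaction.perturb]
  ring

lemma finiteRange_bound {Ψ : Interaction} (h : Ψ.IsFiniteRange) :
    ∃ r : ℕ, ∀ Λ : Finset ℤ, (∃ i ∈ Λ, ∃ j ∈ Λ, (r : ℤ) < j - i) → ∀ X, Ψ.val Λ X = 0 := by
  obtain ⟨r, hr⟩ := h
  refine ⟨r.toNat, fun Λ ⟨i, hi, j, hj, hij⟩ X => hr Λ ⟨i, hi, j, hj, ?_⟩ X⟩
  have := Int.self_le_toNat r
  omega

lemma IsFiniteRange.isSummable {Ψ : Interaction} (h : Ψ.IsFiniteRange) : Ψ.IsSummable := by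
  classical
  obtain ⟨r, hr⟩ := finiteRange_bound h
  unfold Interaction.IsSummable
  apply summable_of_hasFiniteSupport
  have hfin : ((Icc (-(r : ℤ)) r).powerset : Set (Finset ℤ)).Finite := finite_toSet _
  apply Set.Finite.subset (hfin.preimage (f := fun Λ : {Λ : Finset ℤ // (0 : ℤ) ∈ Λ} => Λ.1)
    (Subtype.val_injective.injOn))
  rintro ⟨Λ, h0⟩ hne
  simp only [Function.mem_support, ne_eq] at hne
  simp only [Set.mem_preimage, coe_powerset, Set.mem_preimage, Set.mem_powerset_iff]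
  intro i hi
  by_contra hcon
  apply hne
  simp only [coe_Icc, Set.mem_Icc, not_and_or, not_le] at hcon
  have hz : ∀ X, Ψ.val Λ X = 0 := by
    apply hr
    rcases hcon with h1 | h1
    · exact ⟨i, hi, 0, h0, by omega⟩
    · exact ⟨0, h0, i, hi, by omega⟩
  unfold Interaction.nrm
  simp [hz]

/-! ### the interaction -/

lemma BadWin.congr {φ : ℝ} {X Y : Config} {a b : ℤ} (h : ∀ i, a ≤ i → i < b → X i = Y i) :
    BadWin φ X a b ↔ BadWin φ Y a b := by
  have : ∀ m n : ℤ, a ≤ m → n ≤ b → (∑ i ∈ Ico m n, zz X i) = ∑ i ∈ Ico m n, zz Y i := by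
    intro m n h1 h2
    apply sum_congr rfl
    intro i hi
    rw [mem_Ico] at hi
    unfold zz
    rw [h i (by omega) (by omega)]
  constructor
  · rintro ⟨m, n, h1, h2, h3, h4⟩
    exact ⟨m, n, h1, h2, h3, by rw [← this m n h1 h3]; exact h4⟩
  · rintro ⟨m, n, h1, h2, h3, h4⟩
    exact ⟨m, n, h1, h2, h3, by rw [this m n h1 h3]; exact h4⟩

lemma sum_shift (X : Config) (a m n : ℤ) :
    ∑ i ∈ Ico (m + a) (n + a), zz (shift a X) i = ∑ i ∈ Ico m n, zz X i := by
  rw [← image_add_right_Ico m n a, sum_image (by intro x _ y _ h; simpa using h)]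
  apply sum_congr rfl
  intro i _
  simp [zz, shift]

lemma BadWin.shift_iff {φ : ℝ} {X : Config} {s t a : ℤ} :
    BadWin φ (shift a X) (s + a) (t + a) ↔ BadWin φ X s t := by
  constructor
  · rintro ⟨m, n, h1, h2, h3, h4⟩
    refine ⟨m - a, n - a, by omega, by omega, by omega, ?_⟩
    have := sum_shift X a (m - a) (n - a)
    rw [sub_add_cancel, sub_add_cancel] at this
    rw [← this]
    push_cast at h4 ⊢
    convert h4 using 4
    ring
  · rintro ⟨m, n, h1, h2, h3, h4⟩
    refine ⟨m + a, n + a, by omega, by omega, by omega, ?_⟩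
    rw [sum_shift]
    push_cast at h4 ⊢
    convert h4 using 4
    ring

lemma Ico_inj' {a b a' b' : ℤ} (h : a < b) (heq : Ico a b = Ico a' b') : a = a' ∧ b = b' := by
  have h' : a' < b' := by
    by_contra hcon
    have : Ico a' b' = ∅ := Ico_eq_empty (by omega)
    rw [this] at heq
    have : a ∈ Ico a b := by simp [h]
    rw [heq] at this; simp at this
  have e1 : a ∈ Ico a' b' := by rw [← heq]; simp [h]
  have e2 : a' ∈ Ico a b := by rw [heq]; simp [h']
  have e3 : b - 1 ∈ Ico a' b' := by rw [← heq]; simp; omega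
  have e4 : b' - 1 ∈ Ico a b := by rw [heq]; simp; omega
  simp only [mem_Ico] at *
  omega

/-- The value of the interaction: an interval `Λ = [a,b)` which contains a sub-interval
whose number of zeros is more than one away from its expectation costs `|Λ|^{-3}`. -/
noncomputable def sturmVal (φ : ℝ) (Λ : Finset ℤ) (X : Config) : ℝ := by
  classical
  exact if ∃ a b : ℤ, a < b ∧ Λ = Ico a b ∧ BadWin φ X a b then 1 / (Λ.card : ℝ) ^ 3 else 0

lemma sturmVal_nonneg (φ : ℝ) (Λ : Finset ℤ) (X : Config) : 0 ≤ sturmVal φ Λ X := by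
  unfold sturmVal
  split_ifs
  · positivity
  · exact le_rfl

lemma sturmVal_Ico {φ : ℝ} {a b : ℤ} (hab : a < b) {X : Config} (h : BadWin φ X a b) :
    sturmVal φ (Ico a b) X = 1 / ((b : ℝ) - a) ^ 3 := by
  unfold sturmVal
  rw [if_pos ⟨a, b, hab, rfl, h⟩]
  rw [Int.card_Ico]
  have : (((b - a).toNat : ℕ) : ℝ) = (b : ℝ) - a := by
    have h1 : (((b - a).toNat : ℕ) : ℤ) = b - a := Int.toNat_of_nonneg (by omega)
    exact_mod_cast h1
  rw [this]

lemma sturmVal_Ico_good {φ : ℝ} {a b : ℤ} (hab : a < b) {X : Config} (h : ¬ BadWin φ X a b) :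
    sturmVal φ (Ico a b) X = 0 := by
  unfold sturmVal
  rw [if_neg]
  rintro ⟨a', b', _, h2, h3⟩
  obtain ⟨rfl, rfl⟩ := Ico_inj' hab h2
  exact h h3

lemma sturmVal_eq_zero {φ : ℝ} {X : Config} (h : ∀ a b : ℤ, ¬ BadWin φ X a b)
    (Λ : Finset ℤ) : sturmVal φ Λ X = 0 := by
  unfold sturmVal
  rw [if_neg]
  rintro ⟨a', b', _, h2, h3⟩
  exact h _ _ h3

lemma sturmVal_not_Ico {φ : ℝ} {X : Config} {Λ : Finset ℤ}
    (h : ¬ ∃ a b : ℤ, a < b ∧ Λ = Ico a b) : sturmVal φ Λ X = 0 := by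
  unfold sturmVal
  rw [if_neg]
  rintro ⟨a', b', h1, h2, h3⟩
  exact h ⟨a', b', h1, h2⟩

/-- The interaction. -/
noncomputable def sturmInt (φ : ℝ) : Interaction where
  val := sturmVal φ
  dep Λ X Y h := by
    unfold sturmVal
    have : (∃ a b : ℤ, a < b ∧ Λ = Ico a b ∧ BadWin φ X a b) ↔
        (∃ a b : ℤ, a < b ∧ Λ = Ico a b ∧ BadWin φ Y a b) := by
      refine exists_congr fun a => exists_congr fun b => and_congr_right fun _ =>
        and_congr_right fun h2 => BadWin.congr fun i h3 h4 => ?_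
      apply h; rw [h2, mem_Ico]; exact ⟨h3, h4⟩
    by_cases hb : ∃ a b : ℤ, a < b ∧ Λ = Ico a b ∧ BadWin φ X a b
    · rw [if_pos hb, if_pos (this.mp hb)]
    · rw [if_neg hb, if_neg (fun h' => hb (this.mpr h'))]
  inv a Λ X := by
    unfold sturmVal
    have h1 : (∃ a' b' : ℤ, a' < b' ∧ Λ.image (fun i => i + a) = Ico a' b' ∧
        BadWin φ (shift a X) a' b') ↔
        (∃ a b : ℤ, a < b ∧ Λ = Ico a b ∧ BadWin φ X a b) := by
      constructor
      · rintro ⟨s, t, h1, h2, h3⟩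
        refine ⟨s - a, t - a, by omega, ?_, ?_⟩
        · have : (trE a).symm (Λ.image (fun i => i + a)) = Λ := (trE a).left_inv Λ
          rw [← this, h2]
          simp only [trE, Equiv.coe_fn_symm_mk]
          have := image_add_right_Ico s t (-a)
          simpa [sub_eq_add_neg] using this
        · rw [← BadWin.shift_iff (a := a)]
          simpa using h3
      · rintro ⟨s, t, h1, h2, h3⟩
        refine ⟨s + a, t + a, by omega, ?_, ?_⟩
        · rw [h2, image_add_right_Ico]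
        · rw [BadWin.shift_iff]; exact h3
    have h2 : (Λ.image (fun i => i + a)).card = Λ.card :=
      card_image_of_injective _ (fun x y h => by simpa using h)
    rw [h2]
    by_cases hb : ∃ a b : ℤ, a < b ∧ Λ = Ico a b ∧ BadWin φ X a b
    · rw [if_pos hb, if_pos (h1.mpr hb)]
    · rw [if_neg hb, if_neg (fun h' => hb (h1.mp h'))]

lemma nrm_le (φ : ℝ) (Λ : Finset ℤ) : (sturmInt φ).nrm Λ ≤ 1 / (Λ.card : ℝ) ^ 3 := by
  apply ciSup_le
  intro X
  show |sturmVal φ Λ X| ≤ _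
  rw [abs_of_nonneg (sturmVal_nonneg φ Λ X)]
  unfold sturmVal
  split_ifs
  · exact le_rfl
  · positivity

lemma nrm_zero {φ : ℝ} {Λ : Finset ℤ} (h : ¬ ∃ a b : ℤ, a < b ∧ Λ = Ico a b) :
    (sturmInt φ).nrm Λ = 0 := by
  unfold Interaction.nrm
  have : ∀ X : Config, (sturmInt φ).val Λ X = 0 := fun X => sturmVal_not_Ico h
  simp [this]

lemma sturmInt_summable (φ : ℝ) : (sturmInt φ).IsSummable := by
  unfold Interaction.IsSummable
  -- parametrize intervals containing 0
  let e : ℕ × ℕ → {Λ : Finset ℤ // (0 : ℤ) ∈ Λ} := fun p =>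
    ⟨Ico (-(p.1 : ℤ)) (p.2 + 1), by rw [mem_Ico]; omega⟩
  have he : Function.Injective e := by
    rintro ⟨s, t⟩ ⟨s', t'⟩ h
    simp only [e, Subtype.mk.injEq] at h
    have := Ico_inj' (by omega) h
    simp only [Prod.mk.injEq]; omega
  rw [← he.summable_iff]
  · -- comparison
    have hs : Summable (fun n : ℕ => 1 / (((n : ℝ) + 1) ^ (3 / 2 : ℝ))) := by
      have h1 := (summable_nat_add_iff (f := fun n : ℕ => 1 / ((n : ℝ) ^ (3 / 2 : ℝ))) 1).mpr
        (Real.summable_one_div_nat_rpow.mpr (by norm_num))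
      simpa using h1
    have hprod := hs.mul_of_nonneg hs (fun n => by positivity) (fun n => by positivity)
    apply Summable.of_nonneg_of_le _ _ hprod
    · intro p; exact nrm_nonneg _ _
    · rintro ⟨s, t⟩
      refine le_trans (nrm_le _ _) ?_
      simp only [e]
      rw [Int.card_Ico]
      have hcard : (((t : ℤ) + 1 - -(s : ℤ)).toNat : ℝ) = (s : ℝ) + t + 1 := by
        have : ((t : ℤ) + 1 - -(s : ℤ)).toNat = s + t + 1 := by omega
        rw [this]; push_cast; ring
      rw [hcard]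
      rw [div_mul_div_comm, one_mul]
      apply one_div_le_one_div_of_le (by positivity)
      have hs1 : (s : ℝ) + 1 ≤ (s : ℝ) + t + 1 := by
        have : (0 : ℝ) ≤ t := by positivity
        linarith
      have ht1 : (t : ℝ) + 1 ≤ (s : ℝ) + t + 1 := by
        have : (0 : ℝ) ≤ s := by positivity
        linarith
      have e1 : ((s : ℝ) + 1) ^ (3 / 2 : ℝ) ≤ ((s : ℝ) + t + 1) ^ (3 / 2 : ℝ) :=
        Real.rpow_le_rpow (by positivity) hs1 (by norm_num)
      have e2 : ((t : ℝ) + 1) ^ (3 / 2 : ℝ) ≤ ((s : ℝ) + t + 1) ^ (3 / 2 : ℝ) :=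
        Real.rpow_le_rpow (by positivity) ht1 (by norm_num)
      have e3 : ((s : ℝ) + t + 1) ^ (3 / 2 : ℝ) * ((s : ℝ) + t + 1) ^ (3 / 2 : ℝ) =
          ((s : ℝ) + t + 1) ^ 3 := by
        rw [← Real.rpow_add (by positivity)]
        norm_num
      rw [← e3]
      exact mul_le_mul e1 e2 (by positivity) (by positivity)
  · rintro ⟨Λ, h0⟩ hΛ
    apply nrm_zero
    rintro ⟨a, b, hab, rfl⟩
    apply hΛ
    rw [mem_Ico] at h0
    refine ⟨⟨(-a).toNat, (b - 1).toNat⟩, ?_⟩
    simp only [e, Subtype.mk.injEq]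
    have e1 : ((-a).toNat : ℤ) = -a := Int.toNat_of_nonneg (by omega)
    have e2 : ((b - 1).toNat : ℤ) = b - 1 := Int.toNat_of_nonneg (by omega)
    rw [e1, e2]; simp

end Pool.Agent.Lib_helper89.Sturm
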