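import Mathlib
import Pool.Agent.Lib_helper89.SturmChain
import Pool.Agent.Lib_helper89.SturmInter

open MeasureTheory Finset

namespace Pool.Agent.Lib_helper89.Sturm

/-- all windows are good -/
def AllGood (φ : ℝ) (X : Config) : Prop := ∀ a b : ℤ, ¬ BadWin φ X a b

lemma rel_eq {φ : ℝ} {Y X : Config} (hX : AllGood φ X) :
    (sturmInt φ).rel Y X = ∑' Λ : Finset ℤ, sturmVal φ Λ Y := by
  unfold Interaction.rel
  apply tsum_congr
  intro Λ
  show sturmVal φ Λ Y - sturmVal φ Λ X = _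
  rw [sturmVal_eq_zero hX, sub_zero]

lemma summable_val {φ : ℝ} {Y X : Config} (hX : AllGood φ X) (h : LocalExc Y X) :
    Summable (fun Λ : Finset ℤ => sturmVal φ Λ Y) := by
  refine (summable_diff (sturmInt φ) (sturmInt_summable φ) h).congr fun Λ => ?_
  show sturmVal φ Λ Y - sturmVal φ Λ X = _
  rw [sturmVal_eq_zero hX, sub_zero]

lemma rel_nonneg {φ : ℝ} {Y X : Config} (hX : AllGood φ X) :
    0 ≤ (sturmInt φ).rel Y X := by
  rw [rel_eq hX]
  exact tsum_nonneg fun Λ => sturmVal_nonneg _ _ _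

/-- lower bound of the energy by a finite family of windows -/
lemma energy_lower {φ : ℝ} {Y X : Config} (hX : AllGood φ X) (h : LocalExc Y X)
    (W : Finset (ℤ × ℤ)) (hW : ∀ p ∈ W, p.1 < p.2 ∧ BadWin φ Y p.1 p.2) :
    ∑ p ∈ W, 1 / ((p.2 : ℝ) - p.1) ^ 3 ≤ (sturmInt φ).rel Y X := by
  classical
  rw [rel_eq hX]
  have hinj : Set.InjOn (fun p : ℤ × ℤ => Ico p.1 p.2) (W : Set (ℤ × ℤ)) := by
    rintro ⟨a, b⟩ hp ⟨a', b'⟩ _ heq
    have := Ico_inj' (hW _ hp).1 heq
    simp only [Prod.mk.injEq]; exact this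
  calc ∑ p ∈ W, 1 / ((p.2 : ℝ) - p.1) ^ 3
      = ∑ p ∈ W, sturmVal φ (Ico p.1 p.2) Y := by
        apply sum_congr rfl
        intro p hp
        rw [sturmVal_Ico (hW p hp).1 (hW p hp).2]
    _ = ∑ Λ ∈ W.image (fun p : ℤ × ℤ => Ico p.1 p.2), sturmVal φ Λ Y := by
        rw [sum_image hinj]
    _ ≤ _ := (summable_val hX h).sum_le_tsum _ (fun Λ _ => sturmVal_nonneg _ _ _)

/-- far away the counting functions differ by constants -/
lemma delta_const {Y X : Config} (h : LocalExc Y X) :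
    ∃ (M : ℕ) (J1 J2 : ℤ), (∀ i : ℤ, i < -(M : ℤ) ∨ (M : ℤ) ≤ i → Y i = X i) ∧
      (∀ n : ℤ, n ≤ -(M : ℤ) → SS Y n = SS X n + J1) ∧
      (∀ n : ℤ, (M : ℤ) ≤ n → SS Y n = SS X n + J2) := by
  obtain ⟨M, hM⟩ : ∃ M : ℕ, ∀ i : ℤ, Y i ≠ X i → -(M : ℤ) ≤ i ∧ i < M := by
    obtain ⟨B, hB⟩ := (h.toFinset.image (fun i : ℤ => i.natAbs)).bddAbove
    refine ⟨B + 1, fun i hi => ?_⟩
    have : i.natAbs ≤ B := by
      apply hB
      simp only [coe_image, Set.mem_image]
      exact ⟨i, by simpa [LocalExc] using hi, rfl⟩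
    omega
  have heq : ∀ i : ℤ, i < -(M : ℤ) ∨ (M : ℤ) ≤ i → Y i = X i := by
    intro i hi
    by_contra hne
    have := hM i hne
    omega
  refine ⟨M, SS Y (-M) - SS X (-M), SS Y M - SS X M, heq, ?_, ?_⟩
  · intro n hn
    have : ∀ k : ℕ, SS Y (-(M : ℤ) - k) = SS X (-(M : ℤ) - k) + (SS Y (-M) - SS X (-M)) := by
      intro k
      induction k with
      | zero => simp
      | succ k ih =>
        have e1 := SS_succ Y (-(M : ℤ) - (k + 1 : ℕ))
        have e2 := SS_succ X (-(M : ℤ) - (k + 1 : ℕ))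
        have e3 : -(M : ℤ) - (k + 1 : ℕ) + 1 = -(M : ℤ) - k := by push_cast; ring
        rw [e3] at e1 e2
        have e4 : zz Y (-(M : ℤ) - (k + 1 : ℕ)) = zz X (-(M : ℤ) - (k + 1 : ℕ)) := by
          unfold zz
          rw [heq _ (Or.inl (by push_cast; omega))]
        rw [e4] at e1
        linarith
    have h2 := this (-(M : ℤ) - n).toNat
    rw [Int.toNat_of_nonneg (by omega)] at h2
    simpa using h2
  · intro n hn
    have : ∀ k : ℕ, SS Y ((M : ℤ) + k) = SS X ((M : ℤ) + k) + (SS Y M - SS X M) := by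
      intro k
      induction k with
      | zero => simp
      | succ k ih =>
        have e1 := SS_succ Y ((M : ℤ) + k)
        have e2 := SS_succ X ((M : ℤ) + k)
        have e4 : zz Y ((M : ℤ) + k) = zz X ((M : ℤ) + k) := by
          unfold zz
          rw [heq _ (Or.inr (by omega))]
        rw [e4] at e1
        push_cast
        rw [← add_assoc, e1, e2]
        linarith
    have h2 := this (n - M).toNat
    rw [Int.toNat_of_nonneg (by omega)] at h2
    simpa using h2

/-- phases of windows at good radius -/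
lemma step_phase {φ C : ℝ} (h0 : 0 < φ) (h1 : φ < 1) (hC1 : 1 ≤ C)
    (hC : ∀ (k : ℕ) (a : ℤ) (x x' : ℝ),
      (∀ n : ℤ, a ≤ n → n ≤ a + k → Int.floor (x + n * φ) = Int.floor (x' + n * φ)) →
      |x - x'| ≤ C / (k + 1)) {Y : Config} {K : ℕ} {x : ℤ → ℝ}
    (hx : ∀ c : ℤ, IsPhase φ Y (c - rad φ Y K c) (c + rad φ Y K c) (x c))
    (c : ℤ) (d : ℕ) (hd : d ≤ rad φ Y K c / 2 + 1) :
    |x (c + d) - x c| ≤ (3 * C) / ((rad φ Y K c : ℝ) + 1) := by
  set κ : ℕ := rad φ Y K c with hκ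
  have hlip : κ ≤ rad φ Y K (c + d) + d := rad_lip (by omega) (by omega)
  rcases Nat.eq_zero_or_pos κ with hz | hpos
  · -- κ = 0
    rw [hz]
    have hd1 : d ≤ 1 := by omega
    simp only [Nat.cast_zero, zero_add, div_one]
    have p1 := (isPhase_iff.mp (hx c)) c (by omega) (by omega)
    have p2 := (isPhase_iff.mp (hx (c + d))) (c + d) (by omega) (by omega)
    interval_cases d
    · simp only [Nat.cast_zero, add_zero, sub_self, abs_zero]; linarith
    · have hs := SS_succ Y c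
      have z0 := zz_nonneg Y c
      have z1 := zz_le_one Y c
      have hsR : (SS Y (c + 1) : ℝ) = SS Y c + zz Y c := by exact_mod_cast hs
      have z0R : (0 : ℝ) ≤ zz Y c := by exact_mod_cast z0
      have z1R : (zz Y c : ℝ) ≤ 1 := by exact_mod_cast z1
      simp only [Nat.cast_one] at p2 ⊢
      rw [hsR] at p2
      push_cast at p2
      rw [abs_le]
      constructor <;> nlinarith [p1.1, p1.2, p2.1, p2.2]
  · have hdκ : d ≤ κ := by omega
    have hk := hC (2 * κ - 2 * d) (c - κ + 2 * d) (x (c + d)) (x c) (by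
      intro n hn1 hn2
      have e : ((2 * κ - 2 * d : ℕ) : ℤ) = 2 * κ - 2 * d := by omega
      rw [e] at hn2
      rw [hx (c + d) n (by omega) (by omega), hx c n (by omega) (by omega)])
    refine le_trans hk ?_
    rw [div_le_div_iff₀ (by positivity) (by positivity)]
    have h3 : κ + 1 ≤ 3 * ((2 * κ - 2 * d) + 1) := by omega
    have h3' : (κ : ℝ) + 1 ≤ 3 * (((2 * κ - 2 * d : ℕ) : ℝ) + 1) := by exact_mod_cast h3
    nlinarith

/-- local energy bound -/
lemma local_energy {φ : ℝ} {Y : Config} {K : ℕ} (c : ℤ) :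
    1 / ((rad φ Y K c : ℝ) + 1) ^ 2 ≤ 64 * (by
      classical
      exact ∑ j ∈ (Icc 1 (2 * K)).filter (fun j : ℕ => BadWin φ Y (c - j) (c + j)),
        1 / (2 * (j : ℝ)) ^ 3) + 1 / ((K : ℝ) + 1) ^ 2 := by
  classical
  set κ : ℕ := rad φ Y K c with hκ
  have hκK : κ ≤ K := rad_le φ Y K c
  rcases hκK.lt_or_eq with hlt | heq
  · have hbad : BadWin φ Y (c - (κ + 1 : ℕ)) (c + (κ + 1 : ℕ)) := by
      by_contra hcon
      have := le_rad (K := K) hlt hcon
      omega
    have hsub : Icc (κ + 1) (2 * κ + 1) ⊆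
        (Icc 1 (2 * K)).filter (fun j : ℕ => BadWin φ Y (c - j) (c + j)) := by
      intro j hj
      rw [mem_Icc] at hj
      rw [mem_filter, mem_Icc]
      refine ⟨by omega, hbad.mono ?_ ?_⟩ <;> omega
    have h1 : ∑ j ∈ Icc (κ + 1) (2 * κ + 1), 1 / (2 * (j : ℝ)) ^ 3 ≤
        ∑ j ∈ (Icc 1 (2 * K)).filter (fun j : ℕ => BadWin φ Y (c - j) (c + j)),
        1 / (2 * (j : ℝ)) ^ 3 := by
      apply sum_le_sum_of_subset_of_nonneg hsub
      intro j _ _; positivity
    have h2 : ∀ j ∈ Icc (κ + 1) (2 * κ + 1), 1 / (4 * ((κ : ℝ) + 1)) ^ 3 ≤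
        1 / (2 * (j : ℝ)) ^ 3 := by
      intro j hj
      rw [mem_Icc] at hj
      have hj0 : (0 : ℝ) < j := by exact_mod_cast (by omega : 0 < j)
      apply one_div_le_one_div_of_le (by positivity)
      have : (j : ℝ) ≤ 2 * ((κ : ℝ) + 1) := by exact_mod_cast (by omega : j ≤ 2 * (κ + 1))
      apply pow_le_pow_left₀ (by positivity)
      linarith
    have h3 := card_nsmul_le_sum _ _ _ h2
    rw [Nat.card_Icc, nsmul_eq_mul] at h3
    have h4 : ((2 * κ + 1 + 1 - (κ + 1) : ℕ) : ℝ) = (κ : ℝ) + 1 := by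
      have : 2 * κ + 1 + 1 - (κ + 1) = κ + 1 := by omega
      rw [this]; push_cast; ring
    rw [h4] at h3
    have h5 : 1 / ((κ : ℝ) + 1) ^ 2 = 64 * (((κ : ℝ) + 1) * (1 / (4 * ((κ : ℝ) + 1)) ^ 3)) := by
      field_simp; norm_num
    have h6 : 0 ≤ 1 / ((K : ℝ) + 1) ^ 2 := by positivity
    rw [h5]
    linarith
  · rw [heq]
    have : 0 ≤ ∑ j ∈ (Icc 1 (2 * K)).filter (fun j : ℕ => BadWin φ Y (c - j) (c + j)),
        1 / (2 * (j : ℝ)) ^ 3 := by
      apply sum_nonneg; intro j _; positivity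
    linarith

/-- The energy controls the change of the number of zeros. -/
lemma J_bound {φ : ℝ} (h0 : 0 < φ) (h1 : φ < 1) (hφ : BadlyApproximable φ) :
    ∃ C : ℝ, 0 ≤ C ∧ ∀ (X Y : Config) (M : ℕ) (J1 J2 : ℤ), AllGood φ X → LocalExc Y X →
      (∀ i : ℤ, i < -(M : ℤ) ∨ (M : ℤ) ≤ i → Y i = X i) →
      (∀ n : ℤ, n ≤ -(M : ℤ) → SS Y n = SS X n + J1) →
      (∀ n : ℤ, (M : ℤ) ≤ n → SS Y n = SS X n + J2) →
      |((J2 - J1 : ℤ) : ℝ)| ≤ C * (sturmInt φ).rel Y X := by
  classical
  obtain ⟨C, hC1, hC⟩ := rigidity hφ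
  have hirr := hφ.irrational
  refine ⟨960 * C, by linarith, ?_⟩
  intro X Y M J1 J2 hX hYX heq hJ1 hJ2
  set E : ℝ := (sturmInt φ).rel Y X with hE
  -- bound for each K
  have hK : ∀ K : ℕ, |((J2 - J1 : ℤ) : ℝ)| ≤
      960 * C * E + (30 * C * (M + 1) + 8 * C) / (K + 1) := by
    intro K
    set L : ℕ := M + K with hL
    have hph : ∀ c : ℤ, ∃ x : ℝ, IsPhase φ Y (c - rad φ Y K c) (c + rad φ Y K c) x :=
      fun c => exists_phase hirr (by omega) (rad_good φ Y K c)
    choose x hx using hph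
    have hgoodL : ¬ BadWin φ Y (-(L : ℤ) - K) (-(L : ℤ) + K) := by
      rw [BadWin.congr (Y := X)]
      · exact hX _ _
      · intro i _ hi2; apply heq; left; omega
    have hgoodR : ¬ BadWin φ Y ((L : ℤ) - K) ((L : ℤ) + K) := by
      rw [BadWin.congr (Y := X)]
      · exact hX _ _
      · intro i hi1 _; apply heq; right; omega
    have hradL : rad φ Y K (-(L : ℤ)) = K :=
      le_antisymm (rad_le _ _ _ _) (le_rad le_rfl hgoodL)
    have hradR : rad φ Y K (L : ℤ) = K :=
      le_antisymm (rad_le _ _ _ _) (le_rad le_rfl hgoodR)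
    obtain ⟨x0, hx0⟩ := exists_phase hirr (by omega : -(L : ℤ) - K ≤ (L : ℤ) + K)
      (hX (-(L : ℤ) - K) ((L : ℤ) + K))
    -- left end
    have hleft : |x (-(L : ℤ)) - (x0 + J1)| ≤ C / (2 * K + 1) := by
      have := hC (2 * K) (-(L : ℤ) - K) (x (-(L : ℤ))) (x0 + J1) (by
        intro n hn1 hn2
        have e1 := hx (-(L : ℤ)) n (by rw [hradL]; omega) (by rw [hradL]; push_cast at hn2; omega)
        have e2 := hx0 n hn1 (by push_cast at hn2; omega)
        rw [e1, hJ1 n (by push_cast at hn2; omega), ← e2]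
        rw [← Int.floor_add_intCast]; congr 1; ring)
      push_cast at this; exact this
    have hright : |x (L : ℤ) - (x0 + J2)| ≤ C / (2 * K + 1) := by
      have := hC (2 * K) ((L : ℤ) - K) (x (L : ℤ)) (x0 + J2) (by
        intro n hn1 hn2
        have e1 := hx (L : ℤ) n (by rw [hradR]; omega) (by rw [hradR]; push_cast at hn2; omega)
        have e2 := hx0 n (by omega) (by push_cast at hn2; omega)
        rw [e1, hJ2 n (by omega), ← e2]
        rw [← Int.floor_add_intCast]; congr 1; ring)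
      push_cast at this; exact this
    -- the chain
    have hch := chain (r := rad φ Y K) (x := x) (C := 3 * C) (by linarith)
      (fun c d => rad_lip (by omega) (by omega))
      (fun c d hd => step_phase h0 h1 hC1 hC hx c d hd) (2 * L) (-(L : ℤ))
    have e2L : -(L : ℤ) + ((2 * L : ℕ) : ℤ) = L := by push_cast; ring
    rw [e2L, hradR] at hch
    -- the sum
    have hsum : ∑ l ∈ range (2 * L), 1 / ((rad φ Y K (-(L : ℤ) + l) : ℝ) + 1) ^ 2 ≤
        64 * E + (2 * L) * (1 / ((K : ℝ) + 1) ^ 2) := by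
      calc ∑ l ∈ range (2 * L), 1 / ((rad φ Y K (-(L : ℤ) + l) : ℝ) + 1) ^ 2
          ≤ ∑ l ∈ range (2 * L), (64 * (∑ j ∈ (Icc 1 (2 * K)).filter
              (fun j : ℕ => BadWin φ Y (-(L : ℤ) + l - j) (-(L : ℤ) + l + j)),
              1 / (2 * (j : ℝ)) ^ 3) + 1 / ((K : ℝ) + 1) ^ 2) := by
            apply sum_le_sum
            intro l _
            convert local_energy (φ := φ) (Y := Y) (K := K) (-(L : ℤ) + l)
        _ = 64 * (∑ l ∈ range (2 * L), ∑ j ∈ (Icc 1 (2 * K)).filter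
              (fun j : ℕ => BadWin φ Y (-(L : ℤ) + l - j) (-(L : ℤ) + l + j)),
              1 / (2 * (j : ℝ)) ^ 3) + (2 * L) * (1 / ((K : ℝ) + 1) ^ 2) := by
            rw [sum_add_distrib, ← mul_sum, sum_const, card_range, nsmul_eq_mul]
            push_cast; ring
        _ ≤ 64 * E + (2 * L) * (1 / ((K : ℝ) + 1) ^ 2) := by
            have hle : (∑ l ∈ range (2 * L), ∑ j ∈ (Icc 1 (2 * K)).filter
              (fun j : ℕ => BadWin φ Y (-(L : ℤ) + l - j) (-(L : ℤ) + l + j)),
              1 / (2 * (j : ℝ)) ^ 3) ≤ E := by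
              rw [sum_sigma']
              set S := (range (2 * L)).sigma (fun l => (Icc 1 (2 * K)).filter
                (fun j : ℕ => BadWin φ Y (-(L : ℤ) + l - j) (-(L : ℤ) + l + j))) with hS
              let g : (Σ _ : ℕ, ℕ) → ℤ × ℤ := fun p =>
                (-(L : ℤ) + p.1 - p.2, -(L : ℤ) + p.1 + p.2)
              have hg : Set.InjOn g (S : Set (Σ _ : ℕ, ℕ)) := by
                rintro ⟨l, j⟩ _ ⟨l', j'⟩ _ h
                simp only [g, Prod.mk.injEq] at h
                have h1 : l = l' := by omega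
                have h2 : j = j' := by omega
                subst h1; subst h2; rfl
              have hW := energy_lower hX hYX (S.image g) (by
                intro p hp
                obtain ⟨⟨l, j⟩, hq, rfl⟩ := mem_image.mp hp
                simp only [hS, mem_sigma, mem_filter, mem_Icc] at hq
                simp only [g]
                exact ⟨by omega, hq.2.2⟩)
              rw [sum_image hg] at hW
              refine le_trans (le_of_eq ?_) hW
              apply sum_congr rfl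
              rintro ⟨l, j⟩ _
              simp only [g]
              push_cast
              congr 2
              ring
            linarith
    have hLK : (2 * (L : ℝ)) * (1 / ((K : ℝ) + 1) ^ 2) ≤ 2 * (M + 1) / (K + 1) := by
      have e1 : (L : ℝ) ≤ (M + 1) * (K + 1) := by
        rw [hL]; push_cast
        have : (0 : ℝ) ≤ M := by positivity
        have : (0 : ℝ) ≤ K := by positivity
        nlinarith
      rw [mul_one_div, div_le_div_iff₀ (by positivity) (by positivity)]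
      have : (0 : ℝ) < K + 1 := by positivity
      nlinarith
    have hJ : |((J2 - J1 : ℤ) : ℝ)| ≤ |x (L : ℤ) - x (-(L : ℤ))| + 2 * (C / (2 * K + 1)) := by
      have e1 : ((J2 - J1 : ℤ) : ℝ) = (x (L : ℤ) - x (-(L : ℤ))) +
          ((x (-(L : ℤ)) - (x0 + J1)) - (x (L : ℤ) - (x0 + J2))) := by
        push_cast; ring
      rw [e1]
      refine le_trans (abs_add_le _ _) ?_
      have := abs_sub (x (-(L : ℤ)) - (x0 + J1)) (x (L : ℤ) - (x0 + J2))
      linarith
    have hK2 : C / (2 * (K : ℝ) + 1) ≤ C / (K + 1) := by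
      apply div_le_div_of_nonneg_left (by linarith) (by positivity)
      have : (0 : ℝ) ≤ K := by positivity
      linarith
    have hfin : |x (L : ℤ) - x (-(L : ℤ))| ≤
        5 * (3 * C) * (64 * E + 2 * (M + 1) / (K + 1)) + 2 * (3 * C) / (K + 1) := by
      refine le_trans hch ?_
      have : ∑ l ∈ range (2 * L), 1 / ((rad φ Y K (-(L : ℤ) + l) : ℝ) + 1) ^ 2 ≤
        64 * E + 2 * (M + 1) / (K + 1) := by linarith
      have := mul_le_mul_of_nonneg_left this (by linarith : 0 ≤ 5 * (3 * C))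
      linarith
    calc |((J2 - J1 : ℤ) : ℝ)| ≤ |x (L : ℤ) - x (-(L : ℤ))| + 2 * (C / (2 * K + 1)) := hJ
      _ ≤ (5 * (3 * C) * (64 * E + 2 * (M + 1) / (K + 1)) + 2 * (3 * C) / (K + 1)) +
          2 * (C / (K + 1)) := by linarith
      _ = 960 * C * E + (30 * C * (M + 1) + 8 * C) / (K + 1) := by
          field_simp; ring
  by_contra hcon
  push Not at hcon
  set δ : ℝ := |((J2 - J1 : ℤ) : ℝ)| - 960 * C * E with hδ
  have hδ0 : 0 < δ := by linarith
  set B : ℝ := 30 * C * (M + 1) + 8 * C with hB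
  obtain ⟨K, hKB⟩ := exists_nat_gt (B / δ)
  have h2 := hK K
  have h3 : B / ((K : ℝ) + 1) < δ := by
    rw [div_lt_iff₀ (by positivity)]
    rw [div_lt_iff₀ hδ0] at hKB
    nlinarith
  linarith

end Pool.Agent.Lib_helper89.Sturm
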