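import Mathlib
import Pool.Agent.Lib_helper89.SturmCore

open MeasureTheory Finset

namespace Pool.Agent.Lib_helper89.Sturm

/-! ### coded sequences -/

/-- The mechanical sequence of slope `φ` and intercept `x`. -/
noncomputable def code (φ x : ℝ) : Config :=
  fun n => if Int.floor (x + (n + 1) * φ) - Int.floor (x + n * φ) = 1 then false else true

lemma floor_step {φ : ℝ} (h0 : 0 < φ) (h1 : φ < 1) (x : ℝ) (n : ℤ) :
    Int.floor (x + (n + 1) * φ) - Int.floor (x + n * φ) = 0 ∨
    Int.floor (x + (n + 1) * φ) - Int.floor (x + n * φ) = 1 := by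
  have e : x + ((n : ℝ) + 1) * φ = x + n * φ + φ := by ring
  have h2 : Int.floor (x + n * φ) ≤ Int.floor (x + (n + 1) * φ) := by
    apply Int.floor_le_floor; rw [e]; linarith
  have h3 : Int.floor (x + (n + 1) * φ) < Int.floor (x + n * φ) + 2 := by
    rw [Int.floor_lt, e]
    push_cast
    have := Int.lt_floor_add_one (x + n * φ)
    linarith
  omega

lemma zz_code {φ : ℝ} (h0 : 0 < φ) (h1 : φ < 1) (x : ℝ) (n : ℤ) :
    zz (code φ x) n = Int.floor (x + (n + 1) * φ) - Int.floor (x + n * φ) := by
  unfold zz code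
  rcases floor_step h0 h1 x n with h | h <;> simp [h]

lemma SS_code {φ : ℝ} (h0 : 0 < φ) (h1 : φ < 1) (x : ℝ) (n : ℤ) :
    SS (code φ x) n = Int.floor (x + n * φ) - Int.floor x := by
  induction n using Int.induction_on with
  | zero => simp [SS_zero]
  | succ n ih =>
    rw [SS_succ, ih, zz_code h0 h1]
    push_cast; ring
  | pred n ih =>
    have h := SS_succ (code φ x) (-(n : ℤ) - 1)
    rw [show -(n : ℤ) - 1 + 1 = -(n : ℤ) by ring, ih, zz_code h0 h1] at h
    have e : (((-(n : ℤ) - 1 : ℤ) : ℝ) + 1) = ((-(n : ℤ) : ℤ) : ℝ) := by push_cast; ring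
    rw [e] at h
    linarith

/-- a configuration with the same counts on `[a,b]` agrees on `[a,b)` -/
lemma eq_of_SS {Y Z : Config} {a b : ℤ} {s : ℤ}
    (h : ∀ n : ℤ, a ≤ n → n ≤ b → SS Y n = SS Z n + s) (n : ℤ) (h1 : a ≤ n) (h2 : n < b) :
    Y n = Z n := by
  apply zz_inj
  have e1 := SS_succ Y n
  have e2 := SS_succ Z n
  rw [h n h1 h2.le, h (n + 1) (by omega) (by omega)] at e1
  omega

/-! ### step functions -/

lemma step_fun (t : ℕ → ℝ) (s : Finset ℕ) : ∀ (f : ℝ → ℝ),
    (∀ j ∈ s, 0 ≤ t j ∧ t j < 1) →
    (∀ x x' : ℝ, 0 ≤ x → x < 1 → 0 ≤ x' → x' < 1 → (∀ j ∈ s, (t j ≤ x ↔ t j ≤ x')) →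
      f x = f x') →
    ∃ (c0 : ℝ) (c : ℕ → ℝ), ∀ x : ℝ, 0 ≤ x → x < 1 →
      f x = c0 + ∑ j ∈ s, c j * (if t j ≤ x then 1 else 0) := by
  classical
  induction s using Finset.induction_on_max_value t with
  | empty =>
    intro f _ hf
    exact ⟨f 0, fun _ => 0, fun x h0 h1 => by
      simp only [sum_empty, add_zero]
      exact hf x 0 h0 h1 le_rfl one_pos (by simp)⟩
  | insert a s ha hmax ih =>
    intro f ht hf
    have hta := ht a (mem_insert_self a s)
    have hts : ∀ j ∈ s, 0 ≤ t j ∧ t j < 1 := fun j hj => ht j (mem_insert_of_mem hj)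
    -- does some smaller index have the same threshold?
    by_cases htie : ∃ j0 ∈ s, t j0 = t a
    · obtain ⟨j0, hj0, hj0a⟩ := htie
      obtain ⟨c0, c, hc⟩ := ih f hts (fun x x' h1 h2 h3 h4 h5 => by
        apply hf x x' h1 h2 h3 h4
        intro j hj
        rcases mem_insert.mp hj with rfl | hj
        · rw [← hj0a]; exact h5 j0 hj0
        · exact h5 j hj)
      refine ⟨c0, fun j => if j = a then 0 else c j, fun x h0 h1 => ?_⟩
      rw [sum_insert ha, hc x h0 h1]
      simp only [if_true, zero_mul, zero_add]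
      congr 1
      apply sum_congr rfl
      intro j hj
      have hja : j ≠ a := by rintro rfl; exact ha hj
      rw [if_neg hja]
    · push Not at htie
      by_cases hz : t a = 0
      · -- then all thresholds are 0, so s must be empty
        have hs : s = ∅ := by
          by_contra hne
          obtain ⟨j, hj⟩ := nonempty_iff_ne_empty.mpr hne
          have h1 := hmax j hj
          have h2 := (hts j hj).1
          exact htie j hj (by linarith)
        subst hs
        refine ⟨f 0, fun _ => 0, fun x h0 h1 => ?_⟩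
        simp only [zero_mul, sum_const_zero, add_zero]
        apply hf x 0 h0 h1 le_rfl one_pos
        intro j hj
        simp only [insert_empty_eq, mem_singleton] at hj
        subst hj
        rw [hz]; simp [h0]
      · have hta0 : 0 < t a := lt_of_le_of_ne hta.1 (Ne.symm hz)
        -- a point b below t a and above all other thresholds
        obtain ⟨b, hb0, hba, hbs⟩ : ∃ b : ℝ, 0 ≤ b ∧ b < t a ∧ ∀ j ∈ s, t j ≤ b := by
          have hne : (insert (0 : ℝ) (s.image t)).Nonempty := insert_nonempty _ _
          refine ⟨(insert (0 : ℝ) (s.image t)).max' hne, ?_, ?_, ?_⟩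
          · exact le_max' _ _ (mem_insert_self _ _)
          · rw [max'_lt_iff]
            intro y hy
            rcases mem_insert.mp hy with rfl | hy
            · exact hta0
            · obtain ⟨j, hj, rfl⟩ := mem_image.mp hy
              exact lt_of_le_of_ne (hmax j hj) (htie j hj)
          · intro j hj
            exact le_max' _ _ (mem_insert_of_mem (mem_image_of_mem t hj))
        have hb1 : b < 1 := by linarith [hta.2]
        set g : ℝ → ℝ := fun x => if t a ≤ x then f b else f x with hg
        obtain ⟨c0, c, hc⟩ := ih g hts (by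
          have aux : ∀ x x' : ℝ, 0 ≤ x → x < 1 → 0 ≤ x' → x' < 1 →
              (∀ j ∈ s, (t j ≤ x ↔ t j ≤ x')) → t a ≤ x → ¬ t a ≤ x' → f b = f x' := by
            intro x x' h1 h2 h3 h4 h5 h6 h7
            apply hf b x' hb0 hb1 h3 h4
            intro j hj
            rcases mem_insert.mp hj with rfl | hj
            · constructor
              · intro h8; exact absurd h8 (not_le.mpr hba)
              · intro h8; exact absurd h8 h7
            · constructor
              · intro _; rw [← h5 j hj]; exact le_trans (hmax j hj) h6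
              · intro _; exact hbs j hj
          intro x x' h1 h2 h3 h4 h5
          simp only [hg]
          by_cases h6 : t a ≤ x <;> by_cases h7 : t a ≤ x'
          · rw [if_pos h6, if_pos h7]
          · rw [if_pos h6, if_neg h7]; exact aux x x' h1 h2 h3 h4 h5 h6 h7
          · rw [if_neg h6, if_pos h7]
            exact (aux x' x h3 h4 h1 h2 (fun j hj => (h5 j hj).symm) h7 h6).symm
          · rw [if_neg h6, if_neg h7]
            apply hf x x' h1 h2 h3 h4
            intro j hj
            rcases mem_insert.mp hj with rfl | hj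
            · constructor
              · intro h8; exact absurd h8 h6
              · intro h8; exact absurd h8 h7
            · exact h5 j hj)
        refine ⟨c0, fun j => if j = a then f (t a) - f b else c j, fun x h0 h1 => ?_⟩
        rw [sum_insert ha]
        have hsum : ∑ j ∈ s, (if j = a then f (t a) - f b else c j) *
            (if t j ≤ x then (1 : ℝ) else 0) = ∑ j ∈ s, c j * (if t j ≤ x then 1 else 0) := by
          apply sum_congr rfl
          intro j hj
          have hja : j ≠ a := by rintro rfl; exact ha hj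
          rw [if_neg hja]
        rw [hsum]
        simp only [if_true]
        have hcx := hc x h0 h1
        simp only [hg] at hcx
        by_cases h6 : t a ≤ x
        · rw [if_pos h6] at hcx
          rw [if_pos h6]
          have : f x = f (t a) := by
            apply hf x (t a) h0 h1 hta.1 hta.2
            intro j hj
            rcases mem_insert.mp hj with rfl | hj
            · simp [h6]
            · constructor
              · intro _; exact hmax j hj
              · intro _; exact le_trans (hmax j hj) h6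
          rw [this]; linarith
        · rw [if_neg h6] at hcx
          rw [if_neg h6]
          linarith

lemma floor_add_ind {x y : ℝ} (h0 : 0 ≤ x) (h1 : x < 1) :
    ((Int.floor (x + y) : ℤ) : ℝ) = Int.floor y + (if 1 - Int.fract y ≤ x then 1 else 0) := by
  have hy := Int.floor_add_fract y
  have f0 := Int.fract_nonneg y
  have f1 := Int.fract_lt_one y
  split_ifs with h
  · have : Int.floor (x + y) = Int.floor y + 1 := by
      rw [Int.floor_eq_iff]; push_cast; constructor <;> linarith
    rw [this]; push_cast; ring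
  · have : Int.floor (x + y) = Int.floor y := by
      rw [Int.floor_eq_iff]; push Not at h; constructor <;> linarith
    rw [this]; ring

/-- Every observable of the sites `[0,ℓ)` is, on good windows, an affine combination of
the numbers of zeros in the initial segments. -/
lemma local_identity {φ : ℝ} (h0 : 0 < φ) (h1 : φ < 1) (hirr : Irrational φ) (ℓ : ℕ)
    (ψ : Config → ℝ)
    (hψ : ∀ X Y : Config, (∀ i : ℤ, 0 ≤ i → i < ℓ → X i = Y i) → ψ X = ψ Y) :
    ∃ (c0 : ℝ) (c : ℕ → ℝ), ∀ Y : Config, ¬ BadWin φ Y 0 ℓ →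
      ψ Y = c0 + ∑ j ∈ range (ℓ + 1), c j * (SS Y j : ℝ) := by
  classical
  set s : Finset ℕ := (range (ℓ + 1)).filter (fun j => 1 ≤ j) with hs
  set t : ℕ → ℝ := fun j => 1 - Int.fract ((j : ℝ) * φ) with ht
  have hfr : ∀ j ∈ s, 0 ≤ t j ∧ t j < 1 := by
    intro j hj
    simp only [hs, mem_filter, mem_range] at hj
    have f1 := Int.fract_lt_one ((j : ℝ) * φ)
    have f0 : 0 < Int.fract ((j : ℝ) * φ) := by
      rw [Int.fract_pos]
      intro hcon
      have hirr2 : Irrational ((j : ℝ) * φ) := by
        rw [mul_comm]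
        exact hirr.mul_natCast (by omega)
      exact hirr2 ⟨((Int.floor ((j : ℝ) * φ) : ℤ) : ℚ), by rw [Rat.cast_intCast]; exact hcon.symm⟩
    simp only [ht]
    constructor <;> linarith
  obtain ⟨c0, c, hc⟩ := step_fun t s (fun x => ψ (code φ x)) hfr (by
    intro x x' hx0 hx1 hx0' hx1' hiff
    apply hψ
    intro i hi0 hi1
    apply eq_of_SS (a := 0) (b := ℓ) (s := 0) _ i hi0 hi1
    intro n hn0 hn1
    rw [SS_code h0 h1, SS_code h0 h1]
    have e1 : Int.floor x = 0 := by rw [Int.floor_eq_iff]; simp [hx0, hx1]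
    have e2 : Int.floor x' = 0 := by rw [Int.floor_eq_iff]; simp [hx0', hx1']
    rw [e1, e2]
    obtain ⟨m, rfl⟩ := Int.eq_ofNat_of_zero_le hn0
    simp only [sub_zero, add_zero]
    have f1 := floor_add_ind (y := ((m : ℤ) : ℝ) * φ) hx0 hx1
    have f2 := floor_add_ind (y := ((m : ℤ) : ℝ) * φ) hx0' hx1'
    rcases Nat.eq_zero_or_pos m with hm | hm
    · subst hm; simp [e1, e2]
    · have h3 := hiff m (by
        simp only [hs, mem_filter, mem_range]
        have : (m : ℤ) ≤ ℓ := hn1
        omega)
      simp only [ht] at h3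
      have h4 : ((Int.floor (x + ((m : ℤ) : ℝ) * φ) : ℤ) : ℝ) =
          ((Int.floor (x' + ((m : ℤ) : ℝ) * φ) : ℤ) : ℝ) := by
        rw [f1, f2]
        simp only [Int.cast_natCast]
        simp only [h3]
      exact_mod_cast h4)
  refine ⟨c0 - ∑ j ∈ s, c j * (Int.floor ((j : ℝ) * φ) : ℝ),
    fun j => if 1 ≤ j then c j else 0, fun Y hY => ?_⟩
  obtain ⟨x, hx⟩ := exists_phase hirr (by positivity : (0 : ℤ) ≤ ℓ) hY
  have hx00 := hx 0 le_rfl (by positivity)
  rw [SS_zero] at hx00
  simp only [Int.cast_zero, zero_mul, add_zero] at hx00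
  have hx0 : 0 ≤ x ∧ x < 1 := by
    rw [Int.floor_eq_iff] at hx00; simpa using hx00
  have hYc : ψ Y = ψ (code φ x) := by
    apply hψ
    intro i hi0 hi1
    apply eq_of_SS (a := 0) (b := ℓ) (s := 0) _ i hi0 hi1
    intro n hn0 hn1
    rw [SS_code h0 h1, hx00, hx n hn0 hn1]; ring
  rw [hYc, hc x hx0.1 hx0.2]
  have hsum : ∑ j ∈ range (ℓ + 1), (if 1 ≤ j then c j else 0) * (SS Y j : ℝ) =
      ∑ j ∈ s, c j * (SS Y j : ℝ) := by
    rw [hs, sum_filter]
    apply sum_congr rfl
    intro j _
    split_ifs <;> simp
  rw [hsum]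
  have : ∀ j ∈ s, c j * (if t j ≤ x then (1 : ℝ) else 0) =
      c j * (SS Y j : ℝ) - c j * (Int.floor ((j : ℝ) * φ) : ℝ) := by
    intro j hj
    simp only [hs, mem_filter, mem_range] at hj
    have e1 := hx j (by positivity) (by exact_mod_cast (by omega : j ≤ ℓ))
    have e2 := floor_add_ind (y := ((j : ℤ) : ℝ) * φ) hx0.1 hx0.2
    rw [e1] at e2
    simp only [Int.cast_natCast] at e2
    simp only [ht]
    rw [e2]; ring
  rw [sum_congr rfl this, sum_sub_distrib]
  ring

end Pool.Agent.Lib_helper89.Sturm
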