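import Mathlib
import Pool.Agent.Lib_helper89.SturmEnergy
import Pool.Agent.Lib_helper89.SturmLocal

open MeasureTheory Finset

namespace Pool.Agent.Lib_helper89.Sturm

lemma shift_shift (a b : ℤ) (X : Config) : shift a (shift b X) = shift (a + b) X := by
  funext i; simp only [shift]; congr 1; ring

lemma shift_zero' (X : Config) : shift 0 X = X := by
  funext i; simp [shift]

lemma shift_neg_cancel (a : ℤ) (X : Config) : shift a (shift (-a) X) = X := by
  rw [shift_shift, add_neg_cancel, shift_zero']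

lemma SS_shift (Y : Config) (a : ℤ) (n : ℤ) :
    SS (shift (-a) Y) n = SS Y (a + n) - SS Y a := by
  have hz : ∀ m, zz (shift (-a) Y) m = zz Y (a + m) := by
    intro m; simp only [zz, shift]; congr 2; ring_nf
  induction n using Int.induction_on with
  | zero => simp [SS_zero]
  | succ n ih => rw [SS_succ, ih, hz, ← add_assoc, SS_succ]; ring
  | pred n ih =>
    have h1 := SS_succ (shift (-a) Y) (-(n : ℤ) - 1)
    have h2 := SS_succ Y (a + (-(n : ℤ) - 1))
    rw [show -(n : ℤ) - 1 + 1 = -(n : ℤ) by ring, ih, hz] at h1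
    rw [show a + (-(n : ℤ) - 1) + 1 = a + -(n : ℤ) by ring] at h2
    linarith

lemma badWin_shift_neg {φ : ℝ} {Y : Config} {a ℓ : ℤ} :
    BadWin φ (shift (-a) Y) 0 ℓ ↔ BadWin φ Y a (a + ℓ) := by
  have := BadWin.shift_iff (φ := φ) (X := Y) (s := a) (t := a + ℓ) (a := -a)
  rw [← this]
  simp

lemma abs_SS_le (Y : Config) (n : ℕ) : |(SS Y n : ℝ)| ≤ n := by
  have h : 0 ≤ SS Y n ∧ SS Y n ≤ n := by
    induction n with
    | zero => simp [SS_zero]
    | succ n ih =>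
      have := SS_succ Y n
      have z0 := zz_nonneg Y n
      have z1 := zz_le_one Y n
      push_cast
      omega
  rw [abs_le]
  have h1 : (0 : ℝ) ≤ SS Y n := by exact_mod_cast h.1
  have h2 : (SS Y n : ℝ) ≤ n := by exact_mod_cast h.2
  constructor <;> linarith

/-- the sum of all terms of `Ψ` whose leftmost site is the origin -/
noncomputable def psi0 (Ψ : Interaction) (r : ℕ) (Z : Config) : ℝ :=
  ∑ Λ ∈ (Icc (0 : ℤ) r).powerset.filter (fun Λ => (0 : ℤ) ∈ Λ), Ψ.val Λ Z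

lemma psi0_dep (Ψ : Interaction) (r : ℕ) (X Y : Config)
    (h : ∀ i : ℤ, 0 ≤ i → i < (r + 1 : ℕ) → X i = Y i) : psi0 Ψ r X = psi0 Ψ r Y := by
  unfold psi0
  apply sum_congr rfl
  intro Λ hΛ
  rw [mem_filter, mem_powerset] at hΛ
  apply Ψ.dep
  intro i hi
  have := hΛ.1 hi
  rw [mem_Icc] at this
  apply h _ this.1
  push_cast; omega

lemma rel_eq_sum {Ψ : Interaction} {r : ℕ}
    (hr : ∀ Λ : Finset ℤ, (∃ i ∈ Λ, ∃ j ∈ Λ, (r : ℤ) < j - i) → ∀ X, Ψ.val Λ X = 0)
    {X Y : Config} {M N : ℕ} (hN : M + r ≤ N)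
    (heq : ∀ i : ℤ, i < -(M : ℤ) ∨ (M : ℤ) ≤ i → Y i = X i) :
    Ψ.rel Y X = ∑ k ∈ range (2 * N + 1), (psi0 Ψ r (shift (-(-(N : ℤ) + k)) Y) -
      psi0 Ψ r (shift (-(-(N : ℤ) + k)) X)) := by
  classical
  set P0 := (Icc (0 : ℤ) r).powerset.filter (fun Λ => (0 : ℤ) ∈ Λ) with hP0
  let g : ℕ × Finset ℤ → Finset ℤ := fun p => p.2.image (fun i => i + (-(N : ℤ) + p.1))
  set U := (range (2 * N + 1) ×ˢ P0).image g with hU
  have hinj : Set.InjOn g ((range (2 * N + 1) ×ˢ P0 : Finset (ℕ × Finset ℤ)) :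
      Set (ℕ × Finset ℤ)) := by
    rintro ⟨k, Λ⟩ hp ⟨k', Λ'⟩ hp' h
    simp only [coe_product, Set.mem_prod, mem_coe, hP0, mem_filter, mem_powerset] at hp hp'
    simp only [g] at h
    have e1 : k' ≤ k := by
      have : (-(N : ℤ) + k) ∈ Λ.image (fun i => i + (-(N : ℤ) + k)) := by
        rw [mem_image]; exact ⟨0, hp.2.2, by ring⟩
      rw [h, mem_image] at this
      obtain ⟨i, hi, hi2⟩ := this
      have := hp'.2.1 hi
      rw [mem_Icc] at this
      omega
    have e2 : k ≤ k' := by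
      have : (-(N : ℤ) + k') ∈ Λ'.image (fun i => i + (-(N : ℤ) + k')) := by
        rw [mem_image]; exact ⟨0, hp'.2.2, by ring⟩
      rw [← h, mem_image] at this
      obtain ⟨i, hi, hi2⟩ := this
      have := hp.2.1 hi
      rw [mem_Icc] at this
      omega
    have e3 : k = k' := le_antisymm e2 e1
    subst e3
    have := (trE (-(N : ℤ) + k)).injective h
    rw [this]
  have hrel : Ψ.rel Y X = ∑ Λ ∈ U, (Ψ.val Λ Y - Ψ.val Λ X) := by
    unfold Interaction.rel
    apply tsum_eq_sum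
    intro Λ hΛ
    by_cases hdiff : ∀ i ∈ Λ, Y i = X i
    · rw [Ψ.dep Λ Y X hdiff, sub_self]
    · push Not at hdiff
      obtain ⟨i0, hi0, hne⟩ := hdiff
      have hi0M : -(M : ℤ) ≤ i0 ∧ i0 < M := by
        by_contra hcon
        exact hne (heq i0 (by omega))
      by_cases hdiam : ∃ i ∈ Λ, ∃ j ∈ Λ, (r : ℤ) < j - i
      · rw [hr Λ hdiam, hr Λ hdiam, sub_self]
      · exfalso
        push Not at hdiam
        have hneΛ : Λ.Nonempty := ⟨i0, hi0⟩
        set a := Λ.min' hneΛ with ha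
        have haΛ : a ∈ Λ := min'_mem _ _
        have hamin : ∀ i ∈ Λ, a ≤ i := fun i hi => min'_le _ _ hi
        have ha1 := hdiam a haΛ i0 hi0
        have ha2 := hamin i0 hi0
        apply hΛ
        rw [hU, mem_image]
        refine ⟨((a + N).toNat, Λ.image (fun i => i - a)), ?_, ?_⟩
        · rw [mem_product, mem_range]
          refine ⟨by simp only; omega, ?_⟩
          rw [hP0, mem_filter, mem_powerset]
          refine ⟨?_, ?_⟩
          · intro i hi
            obtain ⟨j, hj, rfl⟩ := mem_image.mp hi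
            rw [mem_Icc]
            have := hamin j hj
            have := hdiam a haΛ j hj
            omega
          · rw [mem_image]; exact ⟨a, haΛ, by ring⟩
        · simp only [g]
          have e1 : (-(N : ℤ) + ((a + N).toNat : ℤ)) = a := by
            rw [Int.toNat_of_nonneg (by omega)]; ring
          rw [e1]
          exact (trE a).right_inv Λ
  rw [hrel, hU, sum_image hinj, sum_product]
  apply sum_congr rfl
  intro k _
  unfold psi0
  rw [← hP0, ← sum_sub_distrib]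
  apply sum_congr rfl
  intro Λ _
  simp only [g]
  have e1 := Ψ.inv (-(N : ℤ) + k) Λ (shift (-(-(N : ℤ) + k)) Y)
  have e2 := Ψ.inv (-(N : ℤ) + k) Λ (shift (-(-(N : ℤ) + k)) X)
  rw [shift_neg_cancel] at e1 e2
  rw [e1, e2]

/-- The relative energy of a finite-range interaction is controlled by the energy. -/
lemma finite_range_bound {φ : ℝ} (h0 : 0 < φ) (h1 : φ < 1) (hφ : BadlyApproximable φ)
    {Ψ : Interaction} (hΨ : Ψ.IsFiniteRange) :
    ∃ C : ℝ, 0 ≤ C ∧ ∀ X Y : Config, AllGood φ X → LocalExc Y X →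
      |Ψ.rel Y X| ≤ C * (sturmInt φ).rel Y X := by
  classical
  obtain ⟨r, hr⟩ := finiteRange_bound hΨ
  obtain ⟨CJ, hCJ0, hCJ⟩ := J_bound h0 h1 hφ
  have hirr := hφ.irrational
  obtain ⟨c0, c, hc⟩ := local_identity h0 h1 hirr (r + 1) (psi0 Ψ r) (psi0_dep Ψ r)
  set ℓ : ℕ := r + 1 with hℓ
  set err : Config → ℝ := fun Z =>
    psi0 Ψ r Z - (c0 + ∑ j ∈ range (ℓ + 1), c j * (SS Z j : ℝ)) with herr
  set P0 := (Icc (0 : ℤ) r).powerset.filter (fun Λ => (0 : ℤ) ∈ Λ) with hP0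
  set C1 : ℝ := (∑ Λ ∈ P0, Ψ.nrm Λ) + |c0| + ∑ j ∈ range (ℓ + 1), |c j| * j with hC1
  have hC1n : 0 ≤ C1 := by
    have e1 : 0 ≤ ∑ Λ ∈ P0, Ψ.nrm Λ := sum_nonneg fun Λ _ => nrm_nonneg _ _
    have e2 : 0 ≤ ∑ j ∈ range (ℓ + 1), |c j| * (j : ℝ) := sum_nonneg fun j _ => by positivity
    have e3 := abs_nonneg c0
    linarith
  have herr_le : ∀ Z, |err Z| ≤ C1 := by
    intro Z
    simp only [herr]
    have e1 : |psi0 Ψ r Z| ≤ ∑ Λ ∈ P0, Ψ.nrm Λ := by
      unfold psi0
      refine le_trans (abs_sum_le_sum_abs _ _) ?_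
      apply sum_le_sum; intro Λ _; exact abs_val_le_nrm _ _ _
    have e2 : |∑ j ∈ range (ℓ + 1), c j * (SS Z j : ℝ)| ≤ ∑ j ∈ range (ℓ + 1), |c j| * j := by
      refine le_trans (abs_sum_le_sum_abs _ _) ?_
      apply sum_le_sum; intro j _
      rw [abs_mul]
      exact mul_le_mul_of_nonneg_left (abs_SS_le Z j) (abs_nonneg _)
    have e3 := abs_sub (psi0 Ψ r Z) (c0 + ∑ j ∈ range (ℓ + 1), c j * (SS Z j : ℝ))
    have e4 := abs_add_le c0 (∑ j ∈ range (ℓ + 1), c j * (SS Z j : ℝ))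
    linarith
  have herr_good : ∀ Z, ¬ BadWin φ Z 0 ℓ → err Z = 0 := by
    intro Z hZ
    simp only [herr]
    rw [hc Z hZ, sub_self]
  refine ⟨C1 * (ℓ : ℝ) ^ 3 + (∑ j ∈ range (ℓ + 1), |c j| * j) * CJ, ?_, ?_⟩
  · have e2 : 0 ≤ ∑ j ∈ range (ℓ + 1), |c j| * (j : ℝ) := sum_nonneg fun j _ => by positivity
    positivity
  intro X Y hX hYX
  obtain ⟨M, J1, J2, heq, hJ1, hJ2⟩ := delta_const hYX
  set E := (sturmInt φ).rel Y X with hE
  have hE0 : 0 ≤ E := rel_nonneg hX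
  have hJ := hCJ X Y M J1 J2 hX hYX heq hJ1 hJ2
  set N : ℕ := M + ℓ + 1 with hN
  rw [rel_eq_sum hr (by omega : M + r ≤ N) heq]
  -- rewrite each term
  set Δ : ℤ → ℝ := fun n => (SS Y n : ℝ) - SS X n with hΔ
  have hterm : ∀ k ∈ range (2 * N + 1), psi0 Ψ r (shift (-(-(N : ℤ) + k)) Y) -
      psi0 Ψ r (shift (-(-(N : ℤ) + k)) X) = err (shift (-(-(N : ℤ) + k)) Y) +
      ∑ j ∈ range (ℓ + 1), c j * (Δ (-(N : ℤ) + k + j) - Δ (-(N : ℤ) + k)) := by
    intro k _
    have e1 : err (shift (-(-(N : ℤ) + k)) X) = 0 := by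
      apply herr_good
      rw [badWin_shift_neg]
      exact hX _ _
    simp only [herr] at e1 ⊢
    have e2 : ∑ j ∈ range (ℓ + 1), c j * (Δ (-(N : ℤ) + k + j) - Δ (-(N : ℤ) + k)) =
        ∑ j ∈ range (ℓ + 1), c j * (SS (shift (-(-(N : ℤ) + k)) Y) j : ℝ) -
        ∑ j ∈ range (ℓ + 1), c j * (SS (shift (-(-(N : ℤ) + k)) X) j : ℝ) := by
      rw [← sum_sub_distrib]
      apply sum_congr rfl
      intro j _
      rw [SS_shift, SS_shift]
      simp only [hΔ]
      push_cast; ring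
    rw [e2]
    linarith
  rw [sum_congr rfl hterm, sum_add_distrib]
  -- first sum
  have hS1 : |∑ k ∈ range (2 * N + 1), err (shift (-(-(N : ℤ) + k)) Y)| ≤
      C1 * (ℓ : ℝ) ^ 3 * E := by
    set B := (range (2 * N + 1)).filter
      (fun k : ℕ => BadWin φ Y (-(N : ℤ) + k) (-(N : ℤ) + k + ℓ)) with hB
    have e1 : ∑ k ∈ range (2 * N + 1), err (shift (-(-(N : ℤ) + k)) Y) =
        ∑ k ∈ B, err (shift (-(-(N : ℤ) + k)) Y) := by
      rw [hB, sum_filter]
      apply sum_congr rfl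
      intro k _
      split_ifs with hb
      · rfl
      · apply herr_good
        rw [badWin_shift_neg]; exact hb
    rw [e1]
    have e2 : |∑ k ∈ B, err (shift (-(-(N : ℤ) + k)) Y)| ≤ B.card * C1 := by
      refine le_trans (abs_sum_le_sum_abs _ _) ?_
      refine le_trans (sum_le_card_nsmul _ _ C1 (fun k _ => herr_le _)) ?_
      rw [nsmul_eq_mul]
    have e3 : (B.card : ℝ) * (1 / (ℓ : ℝ) ^ 3) ≤ E := by
      let g : ℕ → ℤ × ℤ := fun k => (-(N : ℤ) + k, -(N : ℤ) + k + ℓ)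
      have hg : Set.InjOn g (B : Set ℕ) := by
        intro k _ k' _ h
        simp only [g, Prod.mk.injEq] at h
        omega
      have hW := energy_lower hX hYX (B.image g) (by
        intro p hp
        obtain ⟨k, hk, rfl⟩ := mem_image.mp hp
        simp only [hB, mem_filter] at hk
        simp only [g]
        exact ⟨by omega, hk.2⟩)
      rw [sum_image hg] at hW
      refine le_trans (le_of_eq ?_) hW
      rw [← nsmul_eq_mul, ← sum_const]
      apply sum_congr rfl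
      intro k _
      simp only [g]
      push_cast
      congr 2
      ring
    have hℓ0 : (0 : ℝ) < (ℓ : ℝ) := by rw [hℓ]; positivity
    have e4 : (B.card : ℝ) ≤ (ℓ : ℝ) ^ 3 * E := by
      rw [mul_one_div, div_le_iff₀ (by positivity)] at e3
      linarith
    calc |∑ k ∈ B, err (shift (-(-(N : ℤ) + k)) Y)| ≤ B.card * C1 := e2
      _ ≤ ((ℓ : ℝ) ^ 3 * E) * C1 := mul_le_mul_of_nonneg_right e4 hC1n
      _ = _ := by ring
  -- second sum
  have htel : ∀ j : ℕ, j ≤ ℓ → ∑ k ∈ range (2 * N + 1),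
      (Δ (-(N : ℤ) + k + j) - Δ (-(N : ℤ) + k)) = j * ((J2 - J1 : ℤ) : ℝ) := by
    intro j
    induction j with
    | zero => intro _; simp
    | succ j ih =>
      intro hj
      have ih' := ih (by omega)
      have e1 : ∑ k ∈ range (2 * N + 1),
          (Δ (-(N : ℤ) + k + (j + 1 : ℕ)) - Δ (-(N : ℤ) + k)) =
          ∑ k ∈ range (2 * N + 1), (Δ (-(N : ℤ) + (k + 1 : ℕ) + j) - Δ (-(N : ℤ) + k + j)) +
          ∑ k ∈ range (2 * N + 1), (Δ (-(N : ℤ) + k + j) - Δ (-(N : ℤ) + k)) := by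
        rw [← sum_add_distrib]
        apply sum_congr rfl
        intro k _
        have : -(N : ℤ) + k + (j + 1 : ℕ) = -(N : ℤ) + (k + 1 : ℕ) + j := by push_cast; ring
        rw [this]; ring
      rw [e1, ih', sum_range_sub (fun k : ℕ => Δ (-(N : ℤ) + k + j))]
      have e2 : Δ (-(N : ℤ) + ((2 * N + 1 : ℕ) : ℤ) + j) = J2 := by
        simp only [hΔ]
        rw [hJ2 _ (by push_cast; omega)]; push_cast; ring
      have e3 : Δ (-(N : ℤ) + ((0 : ℕ) : ℤ) + j) = J1 := by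
        simp only [hΔ]
        rw [hJ1 _ (by push_cast; omega)]; push_cast; ring
      rw [e2, e3]; push_cast; ring
  have hS2 : |∑ k ∈ range (2 * N + 1),
      ∑ j ∈ range (ℓ + 1), c j * (Δ (-(N : ℤ) + k + j) - Δ (-(N : ℤ) + k))| ≤
      (∑ j ∈ range (ℓ + 1), |c j| * j) * (CJ * E) := by
    rw [sum_comm]
    have e1 : ∀ j ∈ range (ℓ + 1), ∑ k ∈ range (2 * N + 1),
        c j * (Δ (-(N : ℤ) + k + j) - Δ (-(N : ℤ) + k)) =
        c j * (j * ((J2 - J1 : ℤ) : ℝ)) := by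
      intro j hj
      rw [mem_range] at hj
      rw [← mul_sum, htel j (by omega)]
    rw [sum_congr rfl e1]
    refine le_trans (abs_sum_le_sum_abs _ _) ?_
    rw [sum_mul]
    apply sum_le_sum
    intro j _
    rw [abs_mul, abs_mul, Nat.abs_cast, mul_assoc]
    apply mul_le_mul_of_nonneg_left _ (abs_nonneg _)
    exact mul_le_mul_of_nonneg_left hJ (by positivity)
  refine le_trans (abs_add_le _ _) ?_
  calc _ ≤ C1 * (ℓ : ℝ) ^ 3 * E + (∑ j ∈ range (ℓ + 1), |c j| * j) * (CJ * E) :=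
        add_le_add hS1 hS2
    _ = _ := by ring

end Pool.Agent.Lib_helper89.Sturm
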