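import Mathlib
import Pool.Agent.Lib_helper89.SturmRange

open MeasureTheory Finset

namespace Pool.Agent.Lib_helper89.Sturm

/-! ### the hull -/

lemma code_congr {φ x y : ℝ} {n m : ℤ}
    (h : Int.floor (x + (n + 1) * φ) - Int.floor (x + n * φ) =
      Int.floor (y + (m + 1) * φ) - Int.floor (y + m * φ)) : code φ x n = code φ y m := by
  unfold code; rw [h]

lemma sturmSeq_eq {φ : ℝ} (h0 : 0 < φ) (h1 : φ < 1) (n : ℤ) :
    sturmSeq φ n = code φ (-φ) n := by
  unfold sturmSeq code
  have e1 : -φ + ((n : ℝ) + 1) * φ = n * φ := by ring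
  have e2 : -φ + (n : ℝ) * φ = n * φ - φ := by ring
  rw [e1, e2]
  have hf := Int.floor_add_fract ((n : ℝ) * φ)
  have f0 := Int.fract_nonneg ((n : ℝ) * φ)
  have f1 := Int.fract_lt_one ((n : ℝ) * φ)
  by_cases h : Int.fract ((n : ℝ) * φ) < φ
  · have : Int.floor ((n : ℝ) * φ - φ) = Int.floor ((n : ℝ) * φ) - 1 := by
      rw [Int.floor_eq_iff]; push_cast; constructor <;> linarith
    rw [if_pos h, this, if_pos (by ring)]
  · have : Int.floor ((n : ℝ) * φ - φ) = Int.floor ((n : ℝ) * φ) := by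
      rw [Int.floor_eq_iff]; push Not at h; constructor <;> linarith
    rw [if_neg h, this, sub_self, if_neg (by norm_num)]

lemma allGood_code {φ : ℝ} (h0 : 0 < φ) (h1 : φ < 1) (x : ℝ) : AllGood φ (code φ x) := by
  intro a b
  apply IsPhase.not_badWin (x := x - Int.floor x)
  intro n _ _
  rw [SS_code h0 h1]
  have : x - Int.floor x + n * φ = (x + n * φ) - Int.floor x := by ring
  rw [this, Int.floor_sub_intCast]

lemma allGood_congr {φ : ℝ} {X Y : Config} (h : ∀ i, X i = Y i) (hX : AllGood φ X) :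
    AllGood φ Y := by
  have : X = Y := funext h
  rwa [← this]

lemma allGood_sturmSeq {φ : ℝ} (h0 : 0 < φ) (h1 : φ < 1) : AllGood φ (sturmSeq φ) :=
  allGood_congr (fun i => (sturmSeq_eq h0 h1 i).symm) (allGood_code h0 h1 (-φ))

lemma AllGood.shift {φ : ℝ} {X : Config} (hX : AllGood φ X) (a : ℤ) :
    AllGood φ (shift a X) := by
  intro s t hbad
  have := (BadWin.shift_iff (φ := φ) (X := X) (s := s - a) (t := t - a) (a := a)).mp
    (by simpa using hbad)
  exact hX _ _ this

/-! ### local functions -/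

lemma isOpen_cyl (s : Finset ℤ) (X : Config) : IsOpen {Y : Config | ∀ i ∈ s, Y i = X i} := by
  have : {Y : Config | ∀ i ∈ s, Y i = X i} = (s : Set ℤ).pi (fun i => {X i}) := by
    ext Y; simp [Set.mem_pi]
  rw [this]
  exact isOpen_set_pi (finite_toSet s) (fun i _ => isOpen_discrete _)

lemma locConst {α : Type*} (s : Finset ℤ) (F : Config → α)
    (h : ∀ X Y : Config, (∀ i ∈ s, X i = Y i) → F X = F Y) : IsLocallyConstant F := by
  rw [IsLocallyConstant.iff_exists_open]
  intro X
  exact ⟨{Y | ∀ i ∈ s, Y i = X i}, isOpen_cyl s X, by simp, fun Y hY => h Y X hY⟩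

lemma cont_local (s : Finset ℤ) (F : Config → ℝ)
    (h : ∀ X Y : Config, (∀ i ∈ s, X i = Y i) → F X = F Y) : Continuous F :=
  (locConst s F h).continuous

lemma integrable_local (μ : Measure Config) [IsFiniteMeasure μ] (s : Finset ℤ)
    (F : Config → ℝ) (h : ∀ X Y : Config, (∀ i ∈ s, X i = Y i) → F X = F Y) :
    Integrable F μ :=
  (cont_local s F h).integrable_of_hasCompactSupport (HasCompactSupport.of_compactSpace F)

lemma isClopen_bad (φ : ℝ) (a b : ℤ) : IsClopen {X : Config | BadWin φ X a b} := by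
  have := (locConst (Ico a b) (fun X : Config => BadWin φ X a b) (fun X Y h => by
    simp only [eq_iff_iff]
    exact BadWin.congr fun i h1 h2 => h i (mem_Ico.mpr ⟨h1, h2⟩)))
  have h2 := this.isClopen_fiber True
  simpa using h2

lemma isClosed_allGood (φ : ℝ) : IsClosed {X : Config | AllGood φ X} := by
  have : {X : Config | AllGood φ X} = ⋂ a : ℤ, ⋂ b : ℤ, {X : Config | BadWin φ X a b}ᶜ := by
    ext X; simp [AllGood]
  rw [this]
  exact isClosed_iInter fun a => isClosed_iInter fun b => (isClopen_bad φ a b).compl.isClosed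

lemma hull_eq {φ : ℝ} (h0 : 0 < φ) (h1 : φ < 1) (hirr : Irrational φ) :
    hull φ = {X : Config | AllGood φ X} := by
  apply Set.Subset.antisymm
  · apply closure_minimal _ (isClosed_allGood φ)
    rintro _ ⟨a, rfl⟩
    exact (allGood_sturmSeq h0 h1).shift a
  · intro X hX
    unfold hull
    rw [mem_closure_iff]
    intro o ho hXo
    obtain ⟨I, u, hu, hsub⟩ := isOpen_pi_iff.mp ho X hXo
    obtain ⟨N, hN⟩ : ∃ N : ℕ, ∀ i ∈ I, -(N : ℤ) ≤ i ∧ i < N := by
      obtain ⟨B, hB⟩ := (I.image (fun i : ℤ => i.natAbs)).bddAbove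
      refine ⟨B + 1, fun i hi => ?_⟩
      have : i.natAbs ≤ B := by
        apply hB
        simp only [coe_image, Set.mem_image]
        exact ⟨i, hi, rfl⟩
      omega
    obtain ⟨x, x', hxx, hph⟩ := exists_phases hirr (by omega : -(N : ℤ) ≤ N) (hX (-(N : ℤ)) N)
    have hdense : Dense ((AddSubgroup.closure {φ, (1 : ℝ)} : AddSubgroup ℝ) : Set ℝ) := by
      rw [dense_addSubgroupClosure_pair_iff]; simpa using hirr
    obtain ⟨y, hy1, hy2⟩ := hdense.exists_mem_open isOpen_Ioo (Set.nonempty_Ioo.mpr hxx)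
    rw [SetLike.mem_coe, AddSubgroup.mem_closure_pair] at hy1
    obtain ⟨m, k, hmk⟩ := hy1
    simp only [zsmul_eq_mul, mul_one] at hmk
    have hphy := hph y hy2.1.le hy2.2.le
    refine ⟨shift (-(m + 1)) (sturmSeq φ), ?_, ⟨-(m + 1), rfl⟩⟩
    apply hsub
    intro i hi
    have hiN := hN i hi
    have hXi : X i = code φ y i := by
      apply eq_of_SS (a := -(N : ℤ)) (b := N) (s := Int.floor y) _ i hiN.1 hiN.2
      intro n hn1 hn2
      rw [SS_code h0 h1, hphy n hn1 hn2]; ring
    have hsh : shift (-(m + 1)) (sturmSeq φ) i = code φ y i := by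
      simp only [shift]
      rw [sturmSeq_eq h0 h1]
      apply code_congr
      rw [← hmk]
      push_cast
      have e1 : -φ + ((i : ℝ) - -((m : ℝ) + 1) + 1) * φ = (m * φ + (i + 1) * φ) := by ring
      have e2 : -φ + ((i : ℝ) - -((m : ℝ) + 1)) * φ = (m * φ + i * φ) := by ring
      have e3 : (m : ℝ) * φ + k + (i + 1) * φ = (m * φ + (i + 1) * φ) + k := by ring
      have e4 : (m : ℝ) * φ + k + i * φ = (m * φ + i * φ) + k := by ring
      rw [e1, e2, e3, e4, Int.floor_add_intCast, Int.floor_add_intCast]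
      ring
    rw [hsh, ← hXi]
    exact (hu i hi).2

end Pool.Agent.Lib_helper89.Sturm
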