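import Mathlib
import Pool.Agent.Lib_helper89.SturmHull

open MeasureTheory Finset

namespace Pool.Agent.Lib_helper89.Sturm

lemma measurable_shift (a : ℤ) : Measurable (shift a) :=
  measurable_pi_lambda _ fun i => measurable_pi_apply (i - a)

lemma integral_shift {μ : Measure Config} (hμ : IsInvProb μ) (a : ℤ) {F : Config → ℝ}
    (s : Finset ℤ) (hF : ∀ X Y : Config, (∀ i ∈ s, X i = Y i) → F X = F Y) :
    ∫ X, F (shift a X) ∂μ = ∫ X, F X ∂μ := by
  have h := hμ.2 a
  have h2 : ∫ X, F X ∂(μ.map (shift a)) = ∫ X, F (shift a X) ∂μ :=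
    integral_map (measurable_shift a).aemeasurable
      (cont_local s F hF).measurable.aestronglyMeasurable
  rw [h] at h2
  exact h2.symm

lemma zz_dep (n : ℤ) (X Y : Config) (h : ∀ i ∈ ({n} : Finset ℤ), X i = Y i) :
    (zz X n : ℝ) = zz Y n := by
  simp only [mem_singleton, forall_eq] at h
  simp only [zz, h]

lemma SS_nat (Y : Config) (n : ℕ) : SS Y n = ∑ i ∈ range n, zz Y i := by
  induction n with
  | zero => simp [SS_zero]
  | succ n ih => push_cast; rw [SS_succ, ih, sum_range_succ]

lemma SS_dep (n : ℕ) (X Y : Config) (h : ∀ i ∈ (range n).image (fun k : ℕ => (k : ℤ)),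
    X i = Y i) : (SS X n : ℝ) = SS Y n := by
  rw [SS_nat, SS_nat]
  push_cast
  apply sum_congr rfl
  intro i hi
  have : X i = Y i := h i (mem_image.mpr ⟨i, hi, rfl⟩)
  simp only [zz, this]

lemma integral_SS {μ : Measure Config} (hμ : IsInvProb μ) (n : ℕ) :
    ∫ X, (SS X n : ℝ) ∂μ = n * ∫ X, (zz X 0 : ℝ) ∂μ := by
  have := hμ.1
  have e1 : ∀ X : Config, (SS X n : ℝ) = ∑ i ∈ range n, (zz X (i : ℤ) : ℝ) := by
    intro X; rw [SS_nat]; push_cast; rfl
  simp_rw [e1]
  rw [integral_finsetSum (range n) (f := fun (i : ℕ) (X : Config) => (zz X (i : ℤ) : ℝ))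
    (fun i _ => integrable_local μ {(i : ℤ)} _ (zz_dep (i : ℤ)))]
  have e2 : ∀ i ∈ range n, ∫ X, (zz X (i : ℤ) : ℝ) ∂μ = ∫ X, (zz X 0 : ℝ) ∂μ := by
    intro i _
    rw [← integral_shift hμ (-(i : ℤ)) {0} (zz_dep 0)]
    congr 1
    funext X
    simp only [zz, shift, zero_sub, neg_neg]
  rw [sum_congr rfl e2, sum_const, card_range, nsmul_eq_mul]

/-- the density of zeros -/
lemma density_eq {φ : ℝ} {μ : Measure Config} (hμ : IsInvProb μ)
    (hgood : ∀ᵐ X ∂μ, AllGood φ X) : ∫ X, (zz X 0 : ℝ) ∂μ = φ := by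
  have := hμ.1
  set p := ∫ X, (zz X 0 : ℝ) ∂μ with hp
  have hn : ∀ n : ℕ, |n * (p - φ)| ≤ 1 := by
    intro n
    have hint := integrable_local μ _ (fun X => (SS X n : ℝ)) (SS_dep n)
    have h1 : n * (p - φ) = ∫ X, ((SS X n : ℝ) - n * φ) ∂μ := by
      rw [integral_sub hint (integrable_const _), integral_SS hμ, integral_const]
      simp only [probReal_univ, one_smul]
      ring
    rw [h1]
    refine le_trans (abs_integral_le_integral_abs) ?_
    have h2 : ∫ X, |(SS X n : ℝ) - n * φ| ∂μ ≤ ∫ _X, (1 : ℝ) ∂μ := by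
      apply integral_mono_ae
      · exact (hint.sub (integrable_const _)).abs
      · exact integrable_const _
      · filter_upwards [hgood] with X hX
        have := hX 0 n
        by_contra hcon
        push Not at hcon
        apply this
        refine ⟨0, n, le_rfl, by omega, le_rfl, ?_⟩
        rw [← SS_sub X (by omega : (0 : ℤ) ≤ n), SS_zero]
        push_cast
        simpa using hcon
    refine le_trans h2 ?_
    simp
  by_contra hne
  have hpos : 0 < |p - φ| := abs_pos.mpr (sub_ne_zero.mpr hne)
  obtain ⟨n, hn2⟩ := exists_nat_gt (1 / |p - φ|)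
  have := hn n
  rw [abs_mul, Nat.abs_cast] at this
  rw [div_lt_iff₀ hpos] at hn2
  linarith

/-- Invariant measures carried by good configurations have the same integrals of local
functions of non-negative sites. -/
lemma integral_local_eq {φ : ℝ} (h0 : 0 < φ) (h1 : φ < 1) (hirr : Irrational φ)
    {μ ν : Measure Config} (hμ : IsInvProb μ) (hν : IsInvProb ν)
    (hgμ : ∀ᵐ X ∂μ, AllGood φ X) (hgν : ∀ᵐ X ∂ν, AllGood φ X) (ℓ : ℕ) (ψ : Config → ℝ)
    (hψ : ∀ X Y : Config, (∀ i : ℤ, 0 ≤ i → i < ℓ → X i = Y i) → ψ X = ψ Y) :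
    ∫ X, ψ X ∂μ = ∫ X, ψ X ∂ν := by
  obtain ⟨c0, c, hc⟩ := local_identity h0 h1 hirr ℓ ψ hψ
  have key : ∀ {μ : Measure Config}, IsInvProb μ → (∀ᵐ X ∂μ, AllGood φ X) →
      ∫ X, ψ X ∂μ = c0 + ∑ j ∈ range (ℓ + 1), c j * (j * φ) := by
    intro μ hμ hgμ
    have := hμ.1
    have e1 : ∫ X, ψ X ∂μ = ∫ X, (c0 + ∑ j ∈ range (ℓ + 1), c j * (SS X j : ℝ)) ∂μ := by
      apply integral_congr_ae
      filter_upwards [hgμ] with X hX
      exact hc X (hX 0 ℓ)
    rw [e1, integral_add (integrable_const _), integral_const]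
    · simp only [probReal_univ, one_smul]
      rw [integral_finsetSum]
      · congr 1
        apply sum_congr rfl
        intro j _
        rw [integral_const_mul, integral_SS hμ, density_eq hμ hgμ]
      · intro j _
        exact (integrable_local μ _ (fun X => (SS X j : ℝ)) (SS_dep j)).const_mul _
    · apply integrable_finsetSum
      intro j _
      exact (integrable_local μ _ (fun X => (SS X j : ℝ)) (SS_dep j)).const_mul _
  rw [key hμ hgμ, key hν hgν]

/-- Unique ergodicity of the Sturmian system. -/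
lemma unique_measure {φ : ℝ} (h0 : 0 < φ) (h1 : φ < 1) (hirr : Irrational φ)
    {μ ν : Measure Config} (hμ : IsInvProb μ) (hν : IsInvProb ν)
    (hgμ : ∀ᵐ X ∂μ, AllGood φ X) (hgν : ∀ᵐ X ∂ν, AllGood φ X) : μ = ν := by
  classical
  have := hμ.1
  have := hν.1
  have hproj : ∀ I : Finset ℤ, μ.map I.restrict = ν.map I.restrict := by
    intro I
    have : IsProbabilityMeasure (μ.map (I.restrict (π := fun _ : ℤ => Bool))) :=
      Measure.isProbabilityMeasure_map (Finset.measurable_restrict I).aemeasurable
    apply Measure.ext_of_singleton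
    intro w
    rw [Measure.map_apply (Finset.measurable_restrict I) (MeasurableSet.singleton w),
      Measure.map_apply (Finset.measurable_restrict I) (MeasurableSet.singleton w)]
    set A : Set Config := I.restrict ⁻¹' {w} with hA
    have hAm : MeasurableSet A := (Finset.measurable_restrict I) (MeasurableSet.singleton w)
    have hAdep : ∀ X Y : Config, (∀ i ∈ I, X i = Y i) → (X ∈ A ↔ Y ∈ A) := by
      intro X Y h
      simp only [hA, Set.mem_preimage, Set.mem_singleton_iff]
      have : I.restrict X = I.restrict Y := by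
        funext i; exact h i i.2
      rw [this]
    obtain ⟨N, hN⟩ : ∃ N : ℕ, ∀ i ∈ I, -(N : ℤ) ≤ i ∧ i < N := by
      obtain ⟨B, hB⟩ := (I.image (fun i : ℤ => i.natAbs)).bddAbove
      refine ⟨B + 1, fun i hi => ?_⟩
      have : i.natAbs ≤ B := by
        apply hB
        simp only [coe_image, Set.mem_image]
        exact ⟨i, hi, rfl⟩
      omega
    set F : Config → ℝ := A.indicator (fun _ => (1 : ℝ)) with hF
    have hFdep : ∀ X Y : Config, (∀ i ∈ I, X i = Y i) → F X = F Y := by
      intro X Y h
      simp only [hF, Set.indicator]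
      by_cases hX : X ∈ A
      · rw [if_pos hX, if_pos ((hAdep X Y h).mp hX)]
      · rw [if_neg hX, if_neg (fun hY => hX ((hAdep X Y h).mpr hY))]
    have hint : ∫ X, F X ∂μ = ∫ X, F X ∂ν := by
      rw [← integral_shift hμ (-(N : ℤ)) I hFdep, ← integral_shift hν (-(N : ℤ)) I hFdep]
      apply integral_local_eq h0 h1 hirr hμ hν hgμ hgν (2 * N)
      intro X Y h
      apply hFdep
      intro i hi
      have := hN i hi
      simp only [shift]
      apply h
      · omega
      · push_cast; omega
    simp only [hF] at hint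
    rw [integral_indicator_const _ hAm, integral_indicator_const _ hAm] at hint
    simp only [smul_eq_mul, mul_one] at hint
    rw [← ENNReal.toReal_eq_toReal_iff' (measure_ne_top _ _) (measure_ne_top _ _)]
    exact hint
  have hP : ∀ I : Finset ℤ, IsFiniteMeasure (ν.map (I.restrict (π := fun _ : ℤ => Bool))) := by
    intro I; infer_instance
  exact IsProjectiveLimit.unique (P := fun I : Finset ℤ =>
    ν.map (I.restrict (π := fun _ : ℤ => Bool))) (fun I => hproj I) (fun I => rfl)

/-! ### existence of the Sturmian measure -/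

lemma measurable_code (φ : ℝ) : Measurable (code φ) := by
  apply measurable_pi_lambda
  intro n
  unfold code
  apply Measurable.ite _ measurable_const measurable_const
  have hm : Measurable (fun x : ℝ => Int.floor (x + (n + 1) * φ) - Int.floor (x + n * φ)) :=
    (Int.measurable_floor.comp (measurable_id.add_const _)).sub
      (Int.measurable_floor.comp (measurable_id.add_const _))
  exact hm (MeasurableSet.singleton (1 : ℤ))

lemma code_add_one (φ x : ℝ) : code φ (x + 1) = code φ x := by
  funext n
  apply code_congr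
  have e1 : x + 1 + ((n : ℝ) + 1) * φ = (x + (n + 1) * φ) + 1 := by ring
  have e2 : x + 1 + (n : ℝ) * φ = (x + n * φ) + 1 := by ring
  rw [e1, e2, Int.floor_add_one, Int.floor_add_one]
  ring

lemma shift_code (φ x : ℝ) (a : ℤ) : shift a (code φ x) = code φ (x - a * φ) := by
  funext n
  simp only [shift]
  apply code_congr
  push_cast
  have e1 : x + ((n : ℝ) - a + 1) * φ = x - a * φ + (n + 1) * φ := by ring
  have e2 : x + ((n : ℝ) - a) * φ = x - a * φ + n * φ := by ring
  rw [e1, e2]

/-- the coding map on the circle -/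
noncomputable def codeC (φ : ℝ) : AddCircle (1 : ℝ) → Config :=
  Function.Periodic.lift (f := code φ) (c := (1 : ℝ)) (fun x => code_add_one φ x)

lemma codeC_coe (φ x : ℝ) : codeC φ (x : AddCircle (1 : ℝ)) = code φ x := rfl

lemma measurable_codeC (φ : ℝ) : Measurable (codeC φ) := by
  have h : codeC φ = fun θ : AddCircle (1 : ℝ) =>
      code φ ((AddCircle.measurableEquivIco (1 : ℝ) 0 θ : Set.Ico (0 : ℝ) (0 + 1)) : ℝ) := by
    funext θ
    rw [← codeC_coe]
    congr 1
    exact ((AddCircle.equivIco (1 : ℝ) 0).symm_apply_apply θ).symm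
  rw [h]
  exact (measurable_code φ).comp (measurable_subtype_coe.comp
    (AddCircle.measurableEquivIco (1 : ℝ) 0).measurable)

/-- The Sturmian measure. -/
noncomputable def rho (φ : ℝ) : Measure Config :=
  (volume : Measure (AddCircle (1 : ℝ))).map (codeC φ)

lemma rho_inv (φ : ℝ) : IsInvProb (rho φ) := by
  have hprob : IsProbabilityMeasure (volume : Measure (AddCircle (1 : ℝ))) :=
    ⟨by rw [AddCircle.measure_univ]; simp⟩
  refine ⟨Measure.isProbabilityMeasure_map (measurable_codeC φ).aemeasurable, ?_⟩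
  intro a
  unfold rho
  rw [Measure.map_map (measurable_shift a) (measurable_codeC φ)]
  have e1 : shift a ∘ codeC φ = codeC φ ∘ (fun θ => θ + ((-(a * φ) : ℝ) : AddCircle (1 : ℝ))) := by
    funext θ
    induction θ using QuotientAddGroup.induction_on with
    | H x =>
      show shift a (code φ x) = codeC φ (((x + -(a * φ) : ℝ)) : AddCircle (1 : ℝ))
      rw [codeC_coe, shift_code, sub_eq_add_neg]
  rw [e1, ← Measure.map_map (measurable_codeC φ) (measurable_add_const _),
    (measurePreserving_add_right volume _).map_eq]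

lemma rho_good {φ : ℝ} (h0 : 0 < φ) (h1 : φ < 1) : ∀ᵐ X ∂(rho φ), AllGood φ X := by
  unfold rho
  rw [ae_map_iff (measurable_codeC φ).aemeasurable (isClosed_allGood φ).measurableSet]
  refine Filter.Eventually.of_forall fun θ => ?_
  induction θ using QuotientAddGroup.induction_on with
  | H x => exact allGood_code h0 h1 x

end Pool.Agent.Lib_helper89.Sturm
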