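import Mathlib
import Pool.Agent.Lib_helper89.SturmMeasure

open MeasureTheory Finset

namespace Pool.Agent.Lib_helper89.Sturm

/-- A ground-state configuration has few bad windows of each length. -/
lemma ground_count {φ : ℝ} (h0 : 0 < φ) (h1 : φ < 1) {X : Config}
    (hX : (sturmInt φ).IsGroundConfig X) (k : ℕ) (hk : 1 ≤ k) (B : Finset ℤ)
    (hB : ∀ a ∈ B, BadWin φ X a (a + k)) :
    (B.card : ℝ) * (1 / (k : ℝ) ^ 3) ≤ 2 * siteSum (sturmInt φ) := by
  classical
  obtain ⟨N, hN⟩ : ∃ N : ℕ, ∀ a ∈ B, -(N : ℤ) ≤ a ∧ a + k ≤ N := by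
    obtain ⟨b, hb⟩ := (B.image (fun i : ℤ => i.natAbs)).bddAbove
    refine ⟨b + k, fun i hi => ?_⟩
    have : i.natAbs ≤ b := by
      apply hb
      simp only [coe_image, Set.mem_image]
      exact ⟨i, hi, rfl⟩
    push_cast
    omega
  set Φ := sturmInt φ with hΦ
  have hsum : Φ.IsSummable := sturmInt_summable φ
  set Y : Config := fun i => if -(N : ℤ) ≤ i ∧ i < N then sturmSeq φ i else X i with hY
  have hYX : LocalExc Y X := by
    apply (Set.finite_Icc (-(N : ℤ)) N).subset
    intro i hi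
    simp only [Set.mem_ofPred_eq, hY] at hi
    rw [Set.mem_Icc]
    by_contra hcon
    apply hi
    rw [if_neg (by omega)]
  have hYin : ∀ s t : ℤ, -(N : ℤ) ≤ s → t ≤ N → ¬ BadWin φ Y s t := by
    intro s t hs ht hbad
    rw [BadWin.congr (Y := sturmSeq φ)] at hbad
    · exact allGood_sturmSeq h0 h1 s t hbad
    · intro i hi1 hi2
      simp only [hY]
      rw [if_pos (by omega)]
  have hYout : ∀ i : ℤ, i < -(N : ℤ) ∨ (N : ℤ) ≤ i → Y i = X i := by
    intro i hi
    simp only [hY]
    rw [if_neg (by omega)]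
  have hrel := hX Y hYX
  -- comparison function
  set c : ℝ := 1 / (k : ℝ) ^ 3 with hc
  have hc0 : 0 ≤ c := by positivity
  set g : Finset ℤ → ℝ := fun Λ =>
    ((if (-(N : ℤ) - 1) ∈ Λ then Φ.nrm Λ else 0) + (if (N : ℤ) ∈ Λ then Φ.nrm Λ else 0)) -
      ∑ a ∈ B, (if Λ = Ico a (a + k) then c else 0) with hg
  have hgsum : HasSum g ((siteSum Φ + siteSum Φ) - ∑ a ∈ B, c) := by
    apply HasSum.sub
    · apply HasSum.add
      · rw [← tsum_at Φ (-(N : ℤ) - 1)]
        exact (summable_at Φ hsum _).hasSum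
      · rw [← tsum_at Φ (N : ℤ)]
        exact (summable_at Φ hsum _).hasSum
    · apply hasSum_sum
      intro a _
      exact hasSum_ite_eq _ _
  have hfg : ∀ Λ, Φ.val Λ Y - Φ.val Λ X ≤ g Λ := by
    intro Λ
    have hXn : 0 ≤ Φ.val Λ X := sturmVal_nonneg _ _ _
    have hYn : 0 ≤ Φ.val Λ Y := sturmVal_nonneg _ _ _
    have hYle : Φ.val Λ Y ≤ Φ.nrm Λ := le_trans (le_abs_self _) (abs_val_le_nrm _ _ _)
    have hn := nrm_nonneg Φ Λ
    simp only [hg]
    by_cases hΛB : ∃ a ∈ B, Λ = Ico a (a + k)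
    · obtain ⟨a, ha, rfl⟩ := hΛB
      have haN := hN a ha
      have e1 : Φ.val (Ico a (a + k)) Y = 0 :=
        sturmVal_Ico_good (by omega) (hYin _ _ haN.1 haN.2)
      have e2 : Φ.val (Ico a (a + k)) X = c := by
        show sturmVal φ _ X = c
        rw [sturmVal_Ico (by omega) (hB a ha), hc]
        push_cast
        congr 2
        ring
      have e3 : ∑ a' ∈ B, (if Ico a (a + k) = Ico a' (a' + (k : ℤ)) then c else 0) = c := by
        rw [sum_eq_single_of_mem a ha]
        · rw [if_pos rfl]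
        · intro a' _ hne
          rw [if_neg]
          intro heq
          exact hne (Ico_inj' (by omega) heq).1.symm
      rw [e1, e2, e3]
      have : 0 ≤ (if (-(N : ℤ) - 1) ∈ Ico a (a + (k : ℤ)) then Φ.nrm (Ico a (a + k)) else 0) := by
        split_ifs <;> linarith
      have : 0 ≤ (if (N : ℤ) ∈ Ico a (a + (k : ℤ)) then Φ.nrm (Ico a (a + k)) else 0) := by
        split_ifs <;> linarith
      linarith
    · push Not at hΛB
      have e3 : ∑ a' ∈ B, (if Λ = Ico a' (a' + (k : ℤ)) then c else 0) = 0 := by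
        apply sum_eq_zero
        intro a' ha'
        rw [if_neg (hΛB a' ha')]
      rw [e3, sub_zero]
      have p1 : 0 ≤ (if (-(N : ℤ) - 1) ∈ Λ then Φ.nrm Λ else 0) := by
        split_ifs <;> linarith
      have p2 : 0 ≤ (if (N : ℤ) ∈ Λ then Φ.nrm Λ else 0) := by
        split_ifs <;> linarith
      by_cases hm1 : (-(N : ℤ) - 1) ∈ Λ
      · rw [if_pos hm1]; linarith
      by_cases hm2 : (N : ℤ) ∈ Λ
      · rw [if_pos hm2]; linarith
      have : Φ.val Λ Y - Φ.val Λ X ≤ 0 := by
        by_cases hint : ∃ s t : ℤ, s < t ∧ Λ = Ico s t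
        · obtain ⟨s, t, hst, rfl⟩ := hint
          rw [mem_Ico] at hm1 hm2
          rcases le_or_gt t (-(N : ℤ)) with h3 | h3
          · have : Φ.val (Ico s t) Y = Φ.val (Ico s t) X := by
              apply Φ.dep
              intro i hi
              rw [mem_Ico] at hi
              exact hYout i (by omega)
            linarith
          · rcases le_or_gt (N : ℤ) s with h4 | h4
            · have : Φ.val (Ico s t) Y = Φ.val (Ico s t) X := by
                apply Φ.dep
                intro i hi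
                rw [mem_Ico] at hi
                exact hYout i (by omega)
              linarith
            · have : Φ.val (Ico s t) Y = 0 :=
                sturmVal_Ico_good hst (hYin _ _ (by omega) (by omega))
              linarith
        · have e1 : Φ.val Λ Y = 0 := sturmVal_not_Ico hint
          linarith
      linarith
  have hle : Φ.rel Y X ≤ (siteSum Φ + siteSum Φ) - ∑ a ∈ B, c := by
    rw [← hgsum.tsum_eq]
    exact (summable_diff Φ hsum hYX).tsum_le_tsum hfg hgsum.summable
  rw [sum_const, nsmul_eq_mul] at hle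
  linarith

/-- Ground states are carried by good configurations. -/
lemma ground_allGood {φ : ℝ} (h0 : 0 < φ) (h1 : φ < 1) {μ : Measure Config}
    (hμ : (sturmInt φ).IsGroundState μ) : ∀ᵐ X ∂μ, AllGood φ X := by
  classical
  have hinv := hμ.1
  have := hinv.1
  have hgr := hμ.2
  have hk : ∀ k : ℕ, 1 ≤ k → ∀ᵐ X ∂μ, ¬ BadWin φ X 0 k := by
    intro k hk
    set F : ℤ → Config → ℝ := fun a X => if BadWin φ X a (a + k) then 1 else 0 with hF
    have hFdep : ∀ a : ℤ, ∀ X Y : Config, (∀ i ∈ Ico a (a + (k : ℤ)), X i = Y i) →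
        F a X = F a Y := by
      intro a X Y h
      simp only [hF]
      have h2 := BadWin.congr (φ := φ) (X := X) (Y := Y) (a := a) (b := a + k)
        (fun i h1 h2 => h i (mem_Ico.mpr ⟨h1, h2⟩))
      by_cases hb : BadWin φ X a (a + k)
      · rw [if_pos hb, if_pos (h2.mp hb)]
      · rw [if_neg hb, if_neg (fun h' => hb (h2.mpr h'))]
    have hFint : ∀ a, Integrable (F a) μ := fun a => integrable_local μ _ (F a) (hFdep a)
    have hF0 : ∀ a X, 0 ≤ F a X := by
      intro a X; simp only [hF]; split_ifs <;> norm_num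
    have hFeq : ∀ a, ∫ X, F a X ∂μ = ∫ X, F 0 X ∂μ := by
      intro a
      rw [← integral_shift hinv (-a) _ (hFdep 0)]
      congr 1
      funext X
      simp only [hF]
      have := badWin_shift_neg (φ := φ) (Y := X) (a := a) (ℓ := k)
      by_cases hb : BadWin φ X a (a + k)
      · rw [if_pos hb, if_pos]; rw [zero_add]; exact this.mpr hb
      · rw [if_neg hb, if_neg]; rw [zero_add]; exact fun h' => hb (this.mp h')
    set D : ℝ := 2 * siteSum (sturmInt φ) * (k : ℝ) ^ 3 with hD
    have hkpos : (0 : ℝ) < (k : ℝ) ^ 3 := by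
      have : (0 : ℝ) < k := by exact_mod_cast hk
      positivity
    have hbound : ∀ n : ℕ, n * ∫ X, F 0 X ∂μ ≤ D := by
      intro n
      have e1 : n * ∫ X, F 0 X ∂μ = ∫ X, ∑ a ∈ range n, F (a : ℤ) X ∂μ := by
        rw [integral_finsetSum (range n) (f := fun (a : ℕ) (X : Config) => F (a : ℤ) X)
          (fun a _ => hFint a)]
        rw [sum_congr rfl (fun (a : ℕ) _ => hFeq (a : ℤ)), sum_const, card_range, nsmul_eq_mul]
      rw [e1]
      have e2 : ∫ X, ∑ a ∈ range n, F (a : ℤ) X ∂μ ≤ ∫ _X, D ∂μ := by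
        apply integral_mono_ae
        · exact integrable_finsetSum _ (fun (a : ℕ) _ => hFint a)
        · exact integrable_const _
        · filter_upwards [hgr] with X hX
          set Bn := (range n).filter (fun a : ℕ => BadWin φ X (a : ℤ) ((a : ℤ) + k)) with hBn
          have e3 : ∑ a ∈ range n, F (a : ℤ) X = Bn.card := by
            simp only [hF]
            rw [hBn, ← sum_filter, sum_const, nsmul_eq_mul, mul_one]
          have e4 := ground_count h0 h1 hX k hk (Bn.image (fun a : ℕ => (a : ℤ))) (by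
            intro a ha
            obtain ⟨b, hb, rfl⟩ := mem_image.mp ha
            simp only [hBn, mem_filter] at hb
            exact hb.2)
          rw [card_image_of_injective _ Nat.cast_injective] at e4
          rw [mul_one_div, div_le_iff₀ hkpos] at e4
          show ∑ a ∈ range n, F (a : ℤ) X ≤ D
          rw [e3]
          exact e4
      refine le_trans e2 ?_
      simp
    have hzero : ∫ X, F 0 X ∂μ = 0 := by
      apply le_antisymm _ (integral_nonneg (hF0 0))
      by_contra hcon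
      push Not at hcon
      obtain ⟨n, hn⟩ := exists_nat_gt (D / ∫ X, F 0 X ∂μ)
      rw [div_lt_iff₀ hcon] at hn
      have := hbound n
      linarith
    rw [integral_eq_zero_iff_of_nonneg (hF0 0) (hFint 0)] at hzero
    filter_upwards [hzero] with X hX
    intro hbad
    simp only [hF, Pi.zero_apply] at hX
    rw [if_pos (by simpa using hbad)] at hX
    exact one_ne_zero hX
  have hak : ∀ a : ℤ, ∀ k : ℕ, 1 ≤ k → ∀ᵐ X ∂μ, ¬ BadWin φ X a (a + k) := by
    intro a k hk1
    have h2 := hk k hk1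
    rw [← hinv.2 (-a)] at h2
    have hms : MeasurableSet {X : Config | ¬ BadWin φ X 0 k} :=
      (isClopen_bad φ 0 k).compl.isOpen.measurableSet
    rw [ae_map_iff (measurable_shift (-a)).aemeasurable hms] at h2
    filter_upwards [h2] with X hX
    rwa [badWin_shift_neg] at hX
  have hall : ∀ᵐ X ∂μ, ∀ a : ℤ, ∀ k : ℕ, 1 ≤ k → ¬ BadWin φ X a (a + k) := by
    rw [ae_all_iff]; intro a
    rw [ae_all_iff]; intro k
    rw [ae_all_iff]; intro hk1
    exact hak a k hk1
  filter_upwards [hall] with X hX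
  intro a b hbad
  obtain ⟨m, n, h1', h2', h3', h4'⟩ := id hbad
  rcases lt_or_ge a b with hab | hab
  · apply hX a (b - a).toNat (by omega)
    have : a + ((b - a).toNat : ℤ) = b := by omega
    rw [this]; exact hbad
  · have : a = b := by omega
    subst this
    exact not_badWin_self φ X a hbad

/-! ### a badly approximable number -/

lemma exists_badlyApproximable :
    ∃ φ : ℝ, 0 < φ ∧ φ < 1 ∧ BadlyApproximable φ := by
  have hs := Real.sq_sqrt (by norm_num : (0 : ℝ) ≤ 2)
  have hs0 := Real.sqrt_nonneg 2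
  set s := Real.sqrt 2 with hsdef
  have hs1 : 1 < s := by nlinarith
  have hs2 : s < 3 / 2 := by nlinarith
  refine ⟨s - 1, by linarith, by linarith, 1 / 5, by norm_num, ?_⟩
  intro p q hq
  have hqR : (0 : ℝ) < q := by exact_mod_cast hq
  set x : ℝ := (p : ℝ) / q with hx
  -- the integer p² + 2pq - q² is non-zero
  have hne : p ^ 2 + 2 * p * q - q ^ 2 ≠ 0 := by
    intro h
    have h1 : (((p + q : ℤ) : ℝ)) ^ 2 = 2 * (q : ℝ) ^ 2 := by
      have : (p + q) ^ 2 = 2 * q ^ 2 := by linarith
      exact_mod_cast this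
    have h2 : ((((p + q : ℤ) : ℝ)) / q) ^ 2 = s ^ 2 := by
      rw [div_pow, h1, hs]; field_simp
    have h3 : |(((p + q : ℤ) : ℝ)) / q| = s := by
      have := abs_eq_abs.mpr (sq_eq_sq_iff_eq_or_eq_neg.mp h2)
      rw [this, abs_of_nonneg hs0]
    have hirr : Irrational s := irrational_sqrt_two
    apply hirr
    refine ⟨|((p + q : ℤ) : ℚ) / (q : ℚ)|, ?_⟩
    push_cast
    push_cast at h3
    exact h3
  have habs : (1 : ℝ) ≤ |((p ^ 2 + 2 * p * q - q ^ 2 : ℤ) : ℝ)| := by
    have : 1 ≤ |p ^ 2 + 2 * p * q - q ^ 2| := Int.one_le_abs hne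
    exact_mod_cast this
  have hfac : ((p ^ 2 + 2 * p * q - q ^ 2 : ℤ) : ℝ) = (q : ℝ) ^ 2 * ((x - (s - 1)) * (x + s + 1)) := by
    have : (p : ℝ) = x * q := by rw [hx]; field_simp
    push_cast
    rw [this]
    nlinarith
  rw [hfac, abs_mul, abs_mul, abs_of_pos (by positivity : (0 : ℝ) < (q : ℝ) ^ 2)] at habs
  have hsym : |s - 1 - x| = |x - (s - 1)| := abs_sub_comm _ _
  rw [hsym]
  have hq2 : (0 : ℝ) < (q : ℝ) ^ 2 := by positivity
  have hq1 : (1 : ℝ) ≤ (q : ℝ) ^ 2 := by
    have : (1 : ℝ) ≤ q := by exact_mod_cast hq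
    nlinarith
  rw [div_lt_iff₀ hq2]
  rcases le_or_gt |x - (s - 1)| 1 with hle | hgt
  · have h4 : |x + s + 1| ≤ 5 - 1 / 2 := by
      have : x + s + 1 = (x - (s - 1)) + 2 * s := by ring
      rw [this]
      refine le_trans (abs_add_le _ _) ?_
      rw [abs_of_nonneg (by linarith : 0 ≤ 2 * s)]
      linarith
    have h5 := abs_nonneg (x - (s - 1))
    have h6 : (q : ℝ) ^ 2 * (|x - (s - 1)| * |x + s + 1|) ≤
        (q : ℝ) ^ 2 * (|x - (s - 1)| * (5 - 1 / 2)) := by
      apply mul_le_mul_of_nonneg_left _ hq2.le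
      exact mul_le_mul_of_nonneg_left h4 h5
    nlinarith
  · nlinarith

end Pool.Agent.Lib_helper89.Sturm
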